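import Pool.Agent.Lib.MP_4d0379_lc.Four

/-! The three query test: odd tables and even tables. -/

set_option linter.unusedSectionVars false

namespace Pool.Agent.Lib.MP_a1e814_lc

open Finset Pool.Agent.Lib.MP_4d0379_lc
open scoped BigOperators

section Core

variable {A B : Type} [Fintype A] [DecidableEq A] [Fintype B] [DecidableEq B]

/-- the third query -/
def q3 {n : ℕ} [NeZero n] (π : B → A) (f : A → Bool) (g : B → Bool) (μ : B → Fin n) (b : B) :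
    Bool := (f (π b) ^^ g b) ^^ decide (μ b = 0)

theorem expand {n : ℕ} [NeZero n] (π : B → A) (T Gm : (B → Bool) → ℝ) (F : (A → Bool) → ℝ) :
    𝔼 f : A → Bool, 𝔼 g : B → Bool, 𝔼 μ : B → Fin n, F f * Gm g * T (q3 π f g μ)
      = ∑ S, fc Gm S * (fc T S * fc F (par π S) * (1 - 2 / n) ^ #S) := by
  have e1 : ∀ (f : A → Bool) (g : B → Bool) (μ : B → Fin n),
      F f * Gm g * T (q3 π f g μ)
      = ∑ S, fc T S * (F f * chi (par π S) f) * (Gm g * chi S g)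
        * chi S (fun b => decide (μ b = 0)) := by
    intro f g μ
    rw [fourier_inv T, mul_sum]
    refine sum_congr rfl fun S _ => ?_
    rw [← chi_comp]
    simp only [chi, q3, sg_xor, prod_mul_distrib]
    ring
  simp only [e1, expect_sum_comm, ← mul_expect, ← expect_mul, expect_noise]
  refine sum_congr rfl fun S _ => ?_
  unfold fc
  ring

theorem tail_le {n : ℕ} (hn : 2 ≤ n) (π : B → A) (T : (B → Bool) → ℝ) {Gm : (B → Bool) → ℝ}
    (F : (A → Bool) → ℝ) (hG : ∀ g, Gm g ^ 2 ≤ 1) :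
    (∑ S, fc Gm S * (if par π S = ∅ then 0 else fc T S * fc F (par π S) * (1 - 2 / n) ^ #S)) ^ 2
      ≤ n * ∑ b, dec T b * dec F (π b) := by
  refine (sum_mul_sq_le_sq_mul_sq _ _ _).trans ((mul_le_of_le_one_left
    (sum_nonneg fun _ _ => sq_nonneg _) (parseval_le hG)).trans ?_)
  simp only [dec.eq_1 T, sum_mul]
  rw [sum_comm, mul_sum]
  refine sum_le_sum fun S _ => ?_
  have h0 : 0 ≤ ∑ b, (if b ∈ S then fc T S ^ 2 / #S else 0) * dec F (π b) :=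
    sum_nonneg fun b _ => mul_nonneg (by positivity) (dec_nonneg _ _)
  rcases (par π S).eq_empty_or_nonempty with h | h
  · rw [if_pos h]
    simpa using mul_nonneg (Nat.cast_nonneg n) h0
  rw [if_neg h.ne_empty]
  have hpre : ∀ a ∈ par π S, ∃ b ∈ S, π b = a := fun a ha => by
    obtain ⟨b, hb⟩ := card_pos.1 (mem_filter.1 ha).2.pos
    exact ⟨b, mem_filter.1 hb⟩
  have hS : 0 < #S := by
    obtain ⟨a, ha⟩ := h
    obtain ⟨b, hb, -⟩ := hpre a ha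
    exact card_pos.2 ⟨b, hb⟩
  have h1 : fc F (par π S) ^ 2 ≤ ∑ b ∈ S, dec F (π b) := by
    have hP : (0 : ℝ) < #(par π S) := by exact_mod_cast h.card_pos
    calc fc F (par π S) ^ 2 = ∑ a ∈ par π S, fc F (par π S) ^ 2 / #(par π S) := by
          rw [sum_const, nsmul_eq_mul]; field_simp
      _ ≤ ∑ a ∈ par π S, dec F a := sum_le_sum fun a ha => by
          refine le_trans (le_of_eq ?_) (single_le_sum
            (f := fun S' : Finset A => if a ∈ S' then fc F S' ^ 2 / #S' else 0)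
            (fun _ _ => by positivity) (mem_univ (par π S)))
          simp [ha]
      _ ≤ ∑ a ∈ S.image π, dec F a := sum_le_sum_of_subset_of_nonneg
          (fun a ha => mem_image.2 (hpre a ha)) fun _ _ _ => dec_nonneg _ _
      _ ≤ _ := sum_image_le_of_nonneg fun _ _ => dec_nonneg _ _
  simp only [ite_mul, zero_mul, sum_ite_mem, univ_inter, ← mul_sum]
  calc (fc T S * fc F (par π S) * (1 - 2 / n) ^ #S) ^ 2
      = fc T S ^ 2 * (fc F (par π S) ^ 2 * ((1 - 2 / n) ^ #S) ^ 2) := by ring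
    _ ≤ fc T S ^ 2 * ((∑ b ∈ S, dec F (π b)) * (n / #S)) :=
      mul_le_mul_of_nonneg_left (mul_le_mul h1 (noise_le hn hS) (sq_nonneg _)
        ((sq_nonneg _).trans h1)) (sq_nonneg _)
    _ = _ := by ring

theorem odd_core {n : ℕ} [NeZero n] (hn : 2 ≤ n) (π : B → A) {T : (B → Bool) → ℝ}
    (F : (A → Bool) → ℝ) (hT : ∀ f, T (fun x => !f x) = -T f) (hG : ∀ g, T g ^ 2 ≤ 1) :
    ∃ R : ℝ, 𝔼 f : A → Bool, 𝔼 g : B → Bool, 𝔼 μ : B → Fin n, F f * T g * T (q3 π f g μ) ≤ R ∧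
      R ^ 2 ≤ n * ∑ b, dec T b * dec F (π b) :=
  ⟨_, le_rfl, core hn π F hT hG⟩

theorem even_core {n : ℕ} [NeZero n] (hn : 2 ≤ n) (π : B → A) {T : (B → Bool) → ℝ}
    {F : (A → Bool) → ℝ} (hF : ∀ f, 0 ≤ F f) (hG : ∀ g, T g ^ 2 ≤ 1) :
    ∃ R : ℝ, -(𝔼 f : A → Bool, 𝔼 g : B → Bool, 𝔼 μ : B → Fin n, F f * T g * T (q3 π f g μ)) ≤ R ∧
      R ^ 2 ≤ n * ∑ b, dec T b * dec F (π b) := by
  refine ⟨-∑ S, fc T S * (if par π S = ∅ then 0 else fc T S * fc F (par π S) * (1 - 2 / n) ^ #S),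
    ?_, by rw [neg_sq]; exact tail_le hn π T F hG⟩
  rw [expand, neg_le_neg_iff]
  refine sum_le_sum fun S _ => ?_
  split_ifs with h
  · have h1 : 0 ≤ fc F (par π S) := by
      rw [h]
      exact expect_nonneg fun f _ => by simpa [chi] using hF f
    have hn' : (2 : ℝ) ≤ n := by exact_mod_cast hn
    have h2 : (0 : ℝ) ≤ 1 - 2 / n := by
      rw [sub_nonneg, div_le_one (by linarith)]
      exact hn'
    have h3 := mul_nonneg (mul_nonneg (sq_nonneg (fc T S)) h1) (pow_nonneg h2 #S)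
    rw [mul_zero]
    exact h3.trans_eq (by ring)
  · exact le_rfl

end Core

section Test

variable {Ω I V A B : Type} [Fintype Ω] [Fintype I] [Fintype A] [Fintype B] [DecidableEq A]
  [DecidableEq B] [Nonempty Ω] [Nonempty I] {v : Ω → I → V} {π : Ω → I → B → A}

theorem avg_le {n : ℕ} {δ η : ℝ} (h : Sound v π δ) (hη : 0 ≤ η) (hδ : n * δ ≤ η ^ 2)
    (T : V → (B → Bool) → ℝ) (F : Ω → (A → Bool) → ℝ) (hT : ∀ x g, T x g ^ 2 ≤ 1)
    (hF : ∀ ω f, F ω f ^ 2 ≤ 1) (H : Ω → I → ℝ)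
    (hH : ∀ ω i, ∃ R : ℝ, H ω i ≤ R ∧ R ^ 2 ≤ n * ∑ b, dec (T (v ω i)) b * dec (F ω) (π ω i b)) :
    𝔼 ω, 𝔼 i, H ω i ≤ η := by
  choose R h1 h2 using hH
  refine le_trans (expect_le_expect fun ω _ => expect_le_expect fun i _ => h1 ω i) ?_
  refine (abs_le_of_sq_le_sq' ?_ hη).2
  refine (sq_expect_le _).trans ((expect_le_expect fun ω _ => (sq_expect_le _).trans
    (expect_le_expect fun i _ => h2 ω i)).trans ?_)
  simp only [← mul_expect]
  exact le_trans (mul_le_mul_of_nonneg_left (h (fun x => dec (T x)) (fun ω => dec (F ω))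
    ⟨fun _ _ => dec_nonneg _ _, fun x => sum_dec_le (hT x)⟩
    ⟨fun _ _ => dec_nonneg _ _, fun ω => sum_dec_le (hF ω)⟩) (by positivity)) hδ

variable {n : ℕ} [NeZero n] {δ η : ℝ}

theorem odd_avg (h : Sound v π δ) (hn : 2 ≤ n) (hη : 0 ≤ η) (hδ : n * δ ≤ η ^ 2)
    (T : V → (B → Bool) → ℝ) (F : Ω → (A → Bool) → ℝ) (hT : ∀ x g, T x g ^ 2 ≤ 1)
    (hF : ∀ ω f, F ω f ^ 2 ≤ 1) (ho : ∀ x g, T x (fun b => !g b) = -T x g) :
    𝔼 ω, 𝔼 i, 𝔼 f : A → Bool, 𝔼 g : B → Bool, 𝔼 μ : B → Fin n,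
      F ω f * T (v ω i) g * T (v ω i) (q3 (π ω i) f g μ) ≤ η :=
  avg_le h hη hδ T F hT hF _ fun ω i => odd_core hn (π ω i) (F ω) (ho _) (hT _)

theorem even_avg (h : Sound v π δ) (hn : 2 ≤ n) (hη : 0 ≤ η) (hδ : n * δ ≤ η ^ 2)
    (T : V → (B → Bool) → ℝ) (F : Ω → (A → Bool) → ℝ) (hT : ∀ x g, T x g ^ 2 ≤ 1)
    (hF : ∀ ω f, F ω f ^ 2 ≤ 1) (h0 : ∀ ω f, 0 ≤ F ω f) :
    -η ≤ 𝔼 ω, 𝔼 i, 𝔼 f : A → Bool, 𝔼 g : B → Bool, 𝔼 μ : B → Fin n,
      F ω f * T (v ω i) g * T (v ω i) (q3 (π ω i) f g μ) := by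
  have := avg_le h hη hδ T F hT hF _ fun ω i => even_core hn (π ω i) (h0 ω) (hT _)
  simp only [expect_neg_distrib] at this
  linarith

end Test

end Pool.Agent.Lib.MP_a1e814_lc
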