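import Pool.Agent.Lib.MP_a1e814_lc.Cut
import Pool.Agent.Lib.Complexity.CookLevin

/-! Recursive substitution of a two terminal instance into its own edges. -/

namespace Pool.Agent.Lib.MP_a1e814_lc

open Pool.Agent.Lib.Complexity

/-- gap for cuts in a two terminal instance, relative to the minimum terminal cut -/
def TGap {α : Type} [Enc α] (Yes No : α → Prop) (γ σ K : ℝ) : Prop :=
  ∃ (W : Type) (_ : Enc W) (_ : DecidableEq W) (s t : W) (E D : α → WL W) (lam : α → ℕ),
    PT E ∧ PT D ∧ PT lam ∧ s ≠ t ∧ ∀ a, 0 < lam a ∧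
      (∀ f : W → Bool, f s ≠ f t → lam a ≤ cutN (E a) f) ∧
      (Yes a → ∃ f : W → Bool, f s ≠ f t ∧ cutN (E a) f = lam a ∧ γ * lam a ≤ cutN (D a) f) ∧
      (No a → ∀ f : W → Bool,
        (f s ≠ f t → (cutN (D a) f : ℝ) ≤ σ * lam a + K * (cutN (E a) f - lam a)) ∧
        (f s = f t → (cutN (D a) f : ℝ) ≤ K * cutN (E a) f))

/-- gap for the ratio of demand to capacity -/
def CGap {α : Type} [Enc α] (Yes No : α → Prop) (c d : ℝ) : Prop :=
  ∃ (W : Type) (_ : Enc W) (_ : DecidableEq W) (E D : α → WL W), PT E ∧ PT D ∧ ∀ a,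
    (Yes a → ∃ f : W → Bool, 0 < cutN (E a) f ∧ c * cutN (E a) f ≤ cutN (D a) f) ∧
    (No a → ∀ f : W → Bool, (cutN (D a) f : ℝ) ≤ d * cutN (E a) f)

section

variable {W : Type} [DecidableEq W] (s t : W)

abbrev PW (W : Type) := List (W × W) × W

def lift (p q : W) (z : PW W) : PW W :=
  if z = ([], s) then ([], p) else if z = ([], t) then ([], q) else ((p, q) :: z.1, z.2)

def comp (E : WL W) (L : WL (PW W)) : WL (PW W) :=
  E.flatMap fun e => push (lift s t e.1 e.2.1) e.2.2 L

def powE (E : WL W) : ℕ → WL (PW W)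
  | 0 => [(([], s), ([], t), 1)]
  | k + 1 => comp s t E (powE E k)

def powD (E D : WL W) (lam : ℕ) : ℕ → WL (PW W)
  | 0 => []
  | k + 1 => push (fun w => ([], w)) (lam ^ k) D ++ comp s t E (powD E D lam k)

theorem cutN_comp (E : WL W) (L : WL (PW W)) (F : PW W → Bool) :
    cutN (comp s t E L) F = (E.map fun e => e.2.2 * cutN L fun z => F (lift s t e.1 e.2.1 z)).sum := by
  simp only [comp, cutN_flatMap, cutN_push]

theorem lift_s (p q : W) : lift s t p q ([], s) = ([], p) := by simp [lift]

theorem lift_t (h : s ≠ t) (p q : W) : lift s t p q ([], t) = ([], q) := by simp [lift, h.symm]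

def ind (a b : Bool) : ℕ := if a = b then 0 else 1

theorem cutN_eq_sum {U : Type} (E : WL U) (F : U → Bool) :
    cutN E F = (E.map fun e => e.2.2 * ind (F e.1) (F e.2.1)).sum := by
  unfold cutN ind
  congr 1
  exact List.map_congr_left fun e _ => by split_ifs <;> simp

variable {s t}

theorem powE_ge (h : s ≠ t) {E : WL W} {lam : ℕ} (h1 : ∀ f : W → Bool, f s ≠ f t → lam ≤ cutN E f)
    (k : ℕ) (F : PW W → Bool) : lam ^ k * ind (F ([], s)) (F ([], t)) ≤ cutN (powE s t E k) F := by
  induction k generalizing F with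
  | zero => simp [powE, cutN, ind]
  | succ k ih =>
    rw [powE, cutN_comp]
    calc lam ^ (k + 1) * ind (F ([], s)) (F ([], t)) ≤ lam ^ k * cutN E fun w => F ([], w) := by
          rw [pow_succ, mul_assoc]
          refine Nat.mul_le_mul_left _ ?_
          unfold ind
          split_ifs with h2
          · simp
          · simpa using h1 (fun w => F ([], w)) h2
      _ = (E.map fun e => e.2.2 * (lam ^ k * ind (F ([], e.1)) (F ([], e.2.1)))).sum := by
          rw [cutN_eq_sum, ← List.sum_map_mul_left]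
          congr 1
          exact List.map_congr_left fun e _ => by ring
      _ ≤ _ := List.sum_le_sum fun e _ => Nat.mul_le_mul_left _ (by
          have := ih fun z => F (lift s t e.1 e.2.1 z)
          rwa [lift_s, lift_t s t h] at this)

theorem powD_le (h : s ≠ t) {E D : WL W} {lam : ℕ} {σ K : ℝ} (hσ : 0 ≤ σ)
    (h1 : ∀ f : W → Bool, f s ≠ f t → lam ≤ cutN E f)
    (h2 : ∀ f : W → Bool, (f s ≠ f t → (cutN D f : ℝ) ≤ σ * lam + K * (cutN E f - lam)) ∧
      (f s = f t → (cutN D f : ℝ) ≤ K * cutN E f)) (k : ℕ) (F : PW W → Bool) :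
    (cutN (powD s t E D lam k) F : ℝ) ≤ σ * k * cutN (powE s t E k) F
      + K * (cutN (powE s t E k) F - lam ^ k * ind (F ([], s)) (F ([], t))) := by
  induction k generalizing F with
  | zero => simp [powE, powD, cutN, ind]
  | succ k ih =>
    have a1 : ((lam ^ (k + 1) * ind (F ([], s)) (F ([], t)) : ℕ) : ℝ)
        ≤ cutN (powE s t E (k + 1)) F := by exact_mod_cast powE_ge h h1 (k + 1) F
    have a2 : (cutN D fun w => F ([], w) : ℝ) ≤ σ * (lam * ind (F ([], s)) (F ([], t)))
        + K * ((cutN E fun w => F ([], w)) - lam * ind (F ([], s)) (F ([], t))) := by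
      unfold ind
      split_ifs with h3
      · simpa using (h2 fun w => F ([], w)).2 h3
      · simpa using (h2 fun w => F ([], w)).1 h3
    have a3 : (cutN (comp s t E (powD s t E D lam k)) F : ℝ)
        ≤ (σ * k + K) * cutN (powE s t E (k + 1)) F - K * lam ^ k * cutN E fun w => F ([], w) := by
      rw [powE, cutN_comp, cutN_comp, cutN_eq_sum E]
      generalize E = E' at *
      generalize powD s t E' D lam k = L1 at *
      generalize powE s t E' k = L2 at *
      clear a1 a2 h1 h2
      induction E' with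
      | nil => simp
      | cons e E' ih' =>
        have := ih fun z => F (lift s t e.1 e.2.1 z)
        rw [lift_s, lift_t s t h] at this
        have := mul_le_mul_of_nonneg_left this (Nat.cast_nonneg e.2.2)
        simp only [List.map_cons, List.sum_cons]
        push_cast at ih' ⊢
        linarith
    rw [powD, cutN_append, cutN_push]
    push_cast at a1 ⊢
    have a4 := mul_le_mul_of_nonneg_left a2 (by positivity : (0 : ℝ) ≤ lam ^ k)
    have a5 := mul_le_mul_of_nonneg_left a1 hσ
    rw [pow_succ] at a5 ⊢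
    linarith

/-- the recursive honest cut -/
def rec (f : W → Bool) (s : W) : List (W × W) → W → Bool
  | [], w => f w
  | e :: p, w => if f e.1 = f e.2 then f e.1 else if f e.1 = f s then rec f s p w else !rec f s p w

theorem rec_lift {f : W → Bool} (hf : f s ≠ f t) (p q : W) (z : PW W) :
    rec f s (lift s t p q z).1 (lift s t p q z).2
      = if f p = f q then f p else if f p = f s then rec f s z.1 z.2 else !rec f s z.1 z.2 := by
  unfold lift
  by_cases h1 : z = ([], s)
  · rw [if_pos h1, h1]
    simp only [rec]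
    cases f p <;> cases f q <;> cases f s <;> simp
  by_cases h2 : z = ([], t)
  · rw [if_neg h1, if_pos h2, h2]
    simp only [rec]
    revert hf
    cases f p <;> cases f q <;> cases f s <;> cases f t <;> simp
  · rw [if_neg h1, if_neg h2]
    simp only [rec]

theorem cut_rec {f : W → Bool} (hf : f s ≠ f t) (E : WL W) (L : WL (PW W)) :
    (cutN (comp s t E L) fun z => rec f s z.1 z.2) = cutN E f * cutN L fun z => rec f s z.1 z.2 := by
  rw [cutN_comp, cutN_eq_sum E, ← List.sum_map_mul_right]
  congr 1
  refine List.map_congr_left fun e _ => ?_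
  simp only [rec_lift hf, ind]
  split_ifs
  · simp [cutN_const]
  · simp
  · rw [cutN_not L fun z => rec f s z.1 z.2]
    simp

theorem rec_powE {f : W → Bool} (hf : f s ≠ f t) (E : WL W) (k : ℕ) :
    (cutN (powE s t E k) fun z => rec f s z.1 z.2) = cutN E f ^ k := by
  induction k with
  | zero => simp [powE, cutN, rec, hf]
  | succ k ih => rw [powE, cut_rec hf, ih, pow_succ']

theorem rec_powD {f : W → Bool} (hf : f s ≠ f t) (E D : WL W) (k : ℕ) :
    (cutN (powD s t E D (cutN E f) k) fun z => rec f s z.1 z.2) * cutN E f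
      = k * cutN E f ^ k * cutN D f := by
  induction k with
  | zero => simp [powD]
  | succ k ih =>
    rw [powD, cutN_append, cutN_push, cut_rec hf, add_mul, mul_assoc (cutN E f), ih]
    simp only [rec]
    ring

end

section

variable {α W : Type} [Enc α] [Enc W] [DecidableEq W]

theorem pt_comp (s t : W) {E : α → WL W} {L : α → WL (PW W)} (hE : PT E) (hL : PT L) :
    PT fun a => comp s t (E a) (L a) := by
  unfold comp push lift
  fun_prop

theorem pt_powE (s t : W) {E : α → WL W} (hE : PT E) (k : ℕ) : PT fun a => powE s t (E a) k := by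
  induction k with
  | zero => exact PT.const _
  | succ k ih => exact pt_comp s t hE ih

theorem pt_powD (s t : W) {E D : α → WL W} {lam : α → ℕ} (hE : PT E) (hD : PT D) (hl : PT lam)
    (k : ℕ) : PT fun a => powD s t (E a) (D a) (lam a) k := by
  induction k with
  | zero => exact PT.const _
  | succ k ih =>
    refine PT.append ?_ (pt_comp s t hE ih)
    unfold push
    fun_prop

end

theorem TGap.pow {α : Type} [Enc α] {Yes No : α → Prop} {γ σ K : ℝ} (h : TGap Yes No γ σ K)
    (hσ : 0 ≤ σ) (hK : 0 ≤ K) (k : ℕ) : CGap Yes No (k * γ) (σ * k + K) := by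
  obtain ⟨W, _, _, s, t, E, D, lam, p1, p2, p3, hst, h⟩ := h
  refine ⟨PW W, inferInstance, inferInstance, fun a => powE s t (E a) k,
    fun a => powD s t (E a) (D a) (lam a) k, pt_powE s t p1 k, pt_powD s t p1 p2 p3 k,
    fun a => ⟨fun ha => ?_, fun ha F => ?_⟩⟩
  · obtain ⟨h0, -, h1, -⟩ := h a
    obtain ⟨f, hf, e, h2⟩ := h1 ha
    refine ⟨fun z => rec f s z.1 z.2, by rw [rec_powE hf, e]; positivity, ?_⟩
    have h3 := rec_powD hf (E a) (D a) k
    rw [e] at h3
    rw [rec_powE hf, e]
    have h4 : (0 : ℝ) < lam a := by exact_mod_cast h0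
    refine le_of_mul_le_mul_right ?_ h4
    have h5 := congrArg (Nat.cast : ℕ → ℝ) h3
    push_cast at h5 ⊢
    rw [h5]
    have := mul_le_mul_of_nonneg_left h2 (by positivity : (0 : ℝ) ≤ k * lam a ^ k)
    linarith
  · obtain ⟨-, h1, -, h2⟩ := h a
    have h3 := powD_le hst hσ h1 (h2 ha) k F
    have h4 : 0 ≤ K * ((lam a : ℝ) ^ k * ind (F ([], s)) (F ([], t))) := by positivity
    linarith

end Pool.Agent.Lib.MP_a1e814_lc
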