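import Pool.Agent.Lib.MP_a1e814_lc.Local
import Pool.Agent.Lib.MP_a1e814_lc.Four
import Pool.Agent.Lib.MP_a1e814_lc.Pow
import Pool.Agent.Lib.MP_4d0379_lc.LC

/-! The two terminal instance of a label cover instance. -/

set_option linter.unusedSectionVars false

namespace Pool.Agent.Lib.MP_a1e814_lc

open Finset Pool.Agent.Lib.Complexity Pool.Agent.Lib.MP_4d0379_lc
open scoped BigOperators

variable {α : Type} [Enc α] (G : LC α) (n : ℕ) [NeZero n]

abbrev Lc := (G.A → Bool) × (G.B → Bool) × (G.B → Fin n)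

abbrev Wb := Bool ⊕ (ℕ × (G.A → Bool)) ⊕ (G.V × (G.B → Bool)) ⊕ ((ℕ × ℕ × Lc G n) × ℕ)

noncomputable instance : Enc (G.A → Bool) := encFin _
noncomputable instance : Enc (G.B → Bool) := encFin _
noncomputable instance : Enc (G.B → Fin n) := encFin _

def vA (ω : ℕ) (f : G.A → Bool) : Wb G n := .inr (.inl (ω, f))
def vB (x : G.V) (g : G.B → Bool) : Wb G n := .inr (.inr (.inl (x, g)))
def vC (r : ℕ × ℕ × Lc G n) (j : ℕ) : Wb G n := .inr (.inr (.inr (r, j)))

def neg {X : Type} (f : X → Bool) : X → Bool := fun x => !f x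

def thd (θ : G.B → G.A) (l : Lc G n) : G.B → Bool := q3 θ l.1 l.2.1 l.2.2

/-- the vertices of one gadget -/
def vx (a : α) (ω i : ℕ) (l : Lc G n) (j : ℕ) : Wb G n :=
  [.inl true, .inl false, vA G n ω l.1, vA G n ω (neg l.1), vB G n (G.v a ω i) l.2.1,
    vB G n (G.v a ω i) (neg l.2.1), vB G n (G.v a ω i) (thd G n (G.π a ω i) l),
    vB G n (G.v a ω i) (neg (thd G n (G.π a ω i) l))].getD j (vC G n (ω, i, l) j)

noncomputable def glue (L : WL ℕ) (a : α) : WL (Wb G n) :=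
  (List.range (G.M a)).flatMap fun ω => (List.range (G.D a)).flatMap fun i =>
    (univ : Finset (Lc G n)).toList.flatMap fun l => push (vx G n a ω i l) 1 L

theorem pt_vx : PT fun x : (α × ℕ × ℕ × Lc G n) × ℕ =>
    vx G n x.1.1 x.1.2.1 x.1.2.2.1 x.1.2.2.2 x.2 := by
  have pv : PT fun x : (α × ℕ × ℕ × Lc G n) × ℕ => G.v x.1.1 x.1.2.1 x.1.2.2.1 :=
    G.pv.comp (f := fun x : (α × ℕ × ℕ × Lc G n) × ℕ => (x.1.1, x.1.2.1, x.1.2.2.1)) (by fun_prop)
  have pπ : PT fun x : (α × ℕ × ℕ × Lc G n) × ℕ => G.π x.1.1 x.1.2.1 x.1.2.2.1 :=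
    G.pπ.comp (f := fun x : (α × ℕ × ℕ × Lc G n) × ℕ => (x.1.1, x.1.2.1, x.1.2.2.1)) (by fun_prop)
  have pl : PT fun x : (α × ℕ × ℕ × Lc G n) × ℕ => x.1.2.2.2 := by fun_prop
  have p1 := (PT.of_fintype fun l : Lc G n => neg l.1).comp pl
  have p2 := (PT.of_fintype fun l : Lc G n => neg l.2.1).comp pl
  have p3 := (PT.of_fintype fun y : (G.B → G.A) × Lc G n => thd G n y.1 y.2).comp (pπ.prodMk pl)
  have p4 := (PT.of_fintype fun y : (G.B → G.A) × Lc G n => neg (thd G n y.1 y.2)).comp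
    (pπ.prodMk pl)
  unfold vx vA vB vC
  refine PT.getD (PT.cons (PT.const _) (PT.cons (PT.const _) (PT.cons (by fun_prop)
    (PT.cons (PT.prodMk (by fun_prop) p1).inl.inr (PT.cons (PT.prodMk pv (by fun_prop)).inl.inr.inr
    (PT.cons (PT.prodMk pv p2).inl.inr.inr (PT.cons (PT.prodMk pv p3).inl.inr.inr
    (PT.cons (PT.prodMk pv p4).inl.inr.inr (PT.const _))))))))) (by fun_prop) (by fun_prop)

theorem pt_glue (L : WL ℕ) : PT (glue G n L) := by
  have pM := G.pM
  have pD := G.pD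
  have h := pt_vx G n
  unfold glue push
  refine PT.flatMap (by fun_prop) (PT.flatMap (by fun_prop) (PT.flatMap (PT.const _)
    (PT.map (PT.const _) (PT.prodMk ?_ (PT.prodMk ?_ (by fun_prop))))))
  · exact h.comp (f := fun x : (((α × ℕ) × ℕ) × Lc G n) × ℕ × ℕ × ℕ =>
      ((x.1.1.1.1, x.1.1.1.2, x.1.1.2, x.1.2), x.2.1)) (by fun_prop)
  · exact h.comp (f := fun x : (((α × ℕ) × ℕ) × Lc G n) × ℕ × ℕ × ℕ =>
      ((x.1.1.1.1, x.1.1.1.2, x.1.1.2, x.1.2), x.2.2.1)) (by fun_prop)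

/-- the number of gadgets -/
noncomputable def num (a : α) : ℕ := G.M a * (G.D a * Fintype.card (Lc G n))

theorem num_pos (a : α) : 0 < num G n a :=
  Nat.mul_pos (G.hM a) (Nat.mul_pos (G.hD a) Fintype.card_pos)

/-- average over the gadgets -/
noncomputable def av (a : α) (h : ℕ → ℕ → Lc G n → ℝ) : ℝ :=
  𝔼 ω : Fin (G.M a), 𝔼 i : Fin (G.D a), 𝔼 l : Lc G n, h ω i l

theorem cut_glue (L : WL ℕ) (a : α) (F : Wb G n → Bool) : (cutN (glue G n L a) F : ℝ)
    = num G n a * av G n a fun ω i l => cutN L fun j => F (vx G n a ω i l j) := by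
  have h1 : (0 : ℝ) < G.M a := by exact_mod_cast G.hM a
  have h2 : (0 : ℝ) < G.D a := by exact_mod_cast G.hD a
  have h3 : (0 : ℝ) < Fintype.card (Lc G n) := by exact_mod_cast Fintype.card_pos
  simp only [glue, cutN_flatMap, cutN_push, one_mul, av, num, Fintype.expect_eq_sum_div_card,
    Fintype.card_fin, ← sum_div, sum_map_toList]
  rw [← List.sum_toFinset _ List.nodup_range, List.toFinset_range, sum_range]
  simp only [← List.sum_toFinset _ List.nodup_range, List.toFinset_range, sum_range]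
  push_cast
  field_simp

variable {G n}

theorem av_le {a : α} {h h' : ℕ → ℕ → Lc G n → ℝ} (e : ∀ ω i l, h ω i l ≤ h' ω i l) :
    av G n a h ≤ av G n a h' :=
  expect_le_expect fun _ _ => expect_le_expect fun _ _ => expect_le_expect fun _ _ => e _ _ _

theorem av_add (a : α) (h h' : ℕ → ℕ → Lc G n → ℝ) :
    (av G n a fun ω i l => h ω i l + h' ω i l) = av G n a h + av G n a h' := by
  simp only [av, expect_add_distrib]

theorem av_mul (a : α) (c : ℝ) (h : ℕ → ℕ → Lc G n → ℝ) :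
    (av G n a fun ω i l => c * h ω i l) = c * av G n a h := by
  simp only [av, mul_expect]

theorem av_const (a : α) (c : ℝ) : (av G n a fun _ _ _ => c) = c := by
  simp only [av, Fintype.expect_const]

theorem glue_ge (a : α) {F : Wb G n → Bool} (h0 : F (.inl true) = true)
    (h1 : F (.inl false) = false) : 12 * num G n a ≤ cutN (glue G n lE a) F := by
  have h2 : (12 : ℝ) ≤ av G n a fun ω i l => cutN lE fun j => F (vx G n a ω i l j) := by
    rw [← av_const (G := G) (n := n) a 12]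
    exact av_le fun ω i l => by
      exact_mod_cast (sep_of (g := fun j => F (vx G n a ω i l j)) h0 h1).1
  have h3 := cut_glue G n lE a F
  have h4 := mul_le_mul_of_nonneg_left h2 (Nat.cast_nonneg (num G n a))
  rw [← h3, mul_comm] at h4
  exact_mod_cast h4

abbrev lD' (r1 r2 : ℕ) : WL ℕ := lD (2 * (r1 + r2) * r1) (2 * (r1 + r2) * r2) ((2 * r1 + r2) ^ 2)

theorem glue_non (r1 r2 : ℕ) (a : α) {F : Wb G n → Bool} (h0 : F (.inl true) = true)
    (h1 : F (.inl false) = true) : (cutN (glue G n (lD' r1 r2) a) F : ℝ)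
      ≤ 60 * (r1 + r2) ^ 2 * cutN (glue G n lE a) F := by
  rw [cut_glue, cut_glue, mul_left_comm, ← av_mul a (60 * (r1 + r2) ^ 2)]
  refine mul_le_mul_of_nonneg_left (av_le (G := G) (n := n) fun ω i l => ?_)
    (Nat.cast_nonneg _)
  exact_mod_cast loc_non r1 r2 (g := fun j => F (vx G n a ω i l j)) h0 h1

theorem od_sq (a b : Bool) : ((od a b : ℤ) : ℝ) ^ 2 ≤ 1 := by
  cases a <;> cases b <;> simp [od]

theorem od_swap (a b : Bool) : od b a = -od a b := by
  simp [od]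

theorem bo_sq (c a b : Bool) : ((bo c a b : ℤ) : ℝ) ^ 2 ≤ 1 := by
  unfold bo
  split_ifs <;> simp

theorem bo_nonneg (c a b : Bool) : 0 ≤ ((bo c a b : ℤ) : ℝ) := by
  unfold bo
  split_ifs <;> simp

theorem gt_sq {r1 r2 : ℕ} (h : 0 < r2) (c a b : Bool) :
    (((gt r1 r2 c a b : ℤ) : ℝ) / (2 * r1 + r2)) ^ 2 ≤ 1 := by
  have h1 : (0 : ℝ) < r2 := by exact_mod_cast h
  have h2 : (0 : ℝ) ≤ r1 := by positivity
  rw [div_pow, div_le_one (by positivity)]
  cases c <;> cases a <;> cases b <;> simp [gt, ho, bo] <;> first | positivity | nlinarith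

theorem glue_sep {r1 r2 : ℕ} (hr : 0 < r2) {a : α} {δ η : ℝ} (h : Sound (G.vv a) (G.ππ a) δ)
    (hn : 2 ≤ n) (hη : 0 ≤ η) (hδ : n * δ ≤ η ^ 2) {F : Wb G n → Bool}
    (h0 : F (.inl true) = true) (h1 : F (.inl false) = false) :
    (cutN (glue G n (lD' r1 r2) a) F : ℝ) ≤ num G n a * (8 * (r1 + r2) ^ 2 + (2 * r1 + 3 * r2) ^ 2
      + (4 * (r1 + r2) * (2 * r1 + 3 * r2) + 2 * (2 * r1 + r2) ^ 2) * η)
      + 60 * (r1 + r2) ^ 2 * (cutN (glue G n lE a) F - 12 * num G n a) := by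
  have hr' : (0 : ℝ) < r2 := by exact_mod_cast hr
  have hg : (0 : ℝ) < 2 * r1 + r2 := by positivity
  let T : G.V → (G.B → Bool) → ℝ := fun x g => od (F (vB G n x g)) (F (vB G n x (neg g)))
  let X : ℕ → (G.A → Bool) → ℝ := fun ω f => od (F (vA G n ω f)) (F (vA G n ω (neg f)))
  let U : Bool → G.V → (G.B → Bool) → ℝ := fun c x g =>
    (gt r1 r2 c (F (vB G n x g)) (F (vB G n x (neg g))) : ℤ) / (2 * r1 + r2)
  let Y : Bool → ℕ → (G.A → Bool) → ℝ := fun c ω f =>
    bo c (F (vA G n ω f)) (F (vA G n ω (neg f)))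
  have a1 : (av G n a fun ω i l => X ω l.1 * T (G.v a ω i) l.2.1
      * T (G.v a ω i) (thd G n (G.π a ω i) l)) ≤ η := by
    have := odd_avg h hn hη hδ T (fun ω => X ω) (fun x g => od_sq _ _) (fun ω f => od_sq _ _)
      fun x g => by
        have e : neg (fun b => !g b) = g := by funext b; simp [neg]
        simp only [T, e]
        rw [od_swap]
        push_cast
        rfl
    simp only [av, expect_prod]
    exact this
  have a2 : ∀ c, (av G n a fun ω i l => -(Y c ω l.1 * U c (G.v a ω i) l.2.1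
      * U c (G.v a ω i) (thd G n (G.π a ω i) l))) ≤ η := by
    intro c
    have := even_avg h hn hη hδ (U c) (fun ω => Y c ω) (fun x g => gt_sq hr _ _ _)
      (fun ω f => bo_sq _ _ _) fun ω f => bo_nonneg _ _ _
    rw [neg_le] at this
    simp only [av, expect_prod, expect_neg_distrib]
    exact this
  have a3 : (av G n a fun ω i l => cutN (lD' r1 r2) fun j => F (vx G n a ω i l j))
      ≤ av G n a fun ω i l => ((8 * (r1 + r2) ^ 2 + (2 * r1 + 3 * r2) ^ 2 - 720 * (r1 + r2) ^ 2)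
        + 4 * (r1 + r2) * (2 * r1 + 3 * r2) * (X ω l.1 * T (G.v a ω i) l.2.1
          * T (G.v a ω i) (thd G n (G.π a ω i) l))
        + (2 * r1 + r2) ^ 2 * -(Y true ω l.1 * U true (G.v a ω i) l.2.1
          * U true (G.v a ω i) (thd G n (G.π a ω i) l))
        + (2 * r1 + r2) ^ 2 * -(Y false ω l.1 * U false (G.v a ω i) l.2.1
          * U false (G.v a ω i) (thd G n (G.π a ω i) l)))
        + 60 * (r1 + r2) ^ 2 * (cutN lE fun j => F (vx G n a ω i l j) : ℝ) := by
    refine av_le fun ω i l => ?_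
    have b1 := (Int.cast_le (R := ℝ)).2
      (loc_sep r1 r2 (g := fun j => F (vx G n a ω i l j)) h0 h1)
    push_cast at b1
    refine b1.trans (le_of_eq ?_)
    simp only [T, X, U, Y, vx, List.getD_cons_succ, List.getD_cons_zero]
    field_simp
    ring
  simp only [av_add, av_mul, av_const] at a3
  rw [cut_glue, cut_glue]
  have b1 := mul_le_mul_of_nonneg_left a1
    (by positivity : (0 : ℝ) ≤ 4 * (r1 + r2) * (2 * r1 + 3 * r2))
  have b2 := mul_le_mul_of_nonneg_left (a2 true) (by positivity : (0 : ℝ) ≤ (2 * r1 + r2) ^ 2)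
  have b3 := mul_le_mul_of_nonneg_left (a2 false) (by positivity : (0 : ℝ) ≤ (2 * r1 + r2) ^ 2)
  have b4 := mul_le_mul_of_nonneg_left (a3.trans (add_le_add (add_le_add (add_le_add
    (add_le_add le_rfl b1) b2) b3) le_rfl)) (Nat.cast_nonneg (num G n a) : (0 : ℝ) ≤ _)
  refine b4.trans (le_of_eq ?_)
  ring

/-- the cut given by a labelling -/
def good (a : α) (σ : G.V → G.B) (τ : ℕ → G.A) : Wb G n → Bool
  | .inl b => b
  | .inr (.inl x) => x.2 (τ x.1)
  | .inr (.inr (.inl x)) => x.2 (σ x.1)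
  | .inr (.inr (.inr (r, j))) => hon (r.2.2.1 (τ r.1)) (r.2.2.2.1 (σ (G.v a r.1 r.2.1)))
      (thd G n (G.π a r.1 r.2.1) r.2.2 (σ (G.v a r.1 r.2.1))) j

theorem cut_good (a : α) (σ : G.V → G.B) (τ : ℕ → G.A) (ω i : ℕ) (l : Lc G n) {L : WL ℕ}
    (h : G.π a ω i (σ (G.v a ω i)) = τ ω) :
    (cutN L fun j => good a σ τ (vx G n a ω i l j)) = cutN L (hon (l.1 (τ ω))
      (l.2.1 (σ (G.v a ω i))) ((l.1 (τ ω) ^^ l.2.1 (σ (G.v a ω i)))
        ^^ decide (l.2.2 (σ (G.v a ω i)) = 0))) := by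
  have e : thd G n (G.π a ω i) l (σ (G.v a ω i)) = ((l.1 (τ ω) ^^ l.2.1 (σ (G.v a ω i)))
      ^^ decide (l.2.2 (σ (G.v a ω i)) = 0)) := by
    simp only [thd, q3, h]
  rw [← e]
  congr 1
  funext j
  rcases j with _ | _ | _ | _ | _ | _ | _ | _ | j <;> rfl

theorem glue_good (r1 r2 : ℕ) {a : α} (h : G.Compl a) : ∃ F : Wb G n → Bool,
    F (.inl true) = true ∧ F (.inl false) = false ∧ cutN (glue G n lE a) F = 12 * num G n a ∧
    (cutN (glue G n (lD' r1 r2) a) F : ℝ) = num G n a * (8 * (r1 + r2) ^ 2 + (2 * r1 + 3 * r2) ^ 2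
      + 4 * (r1 + r2) * (2 * r1 + 3 * r2) * (1 - 2 / n)) := by
  obtain ⟨σ, τ, h⟩ := h
  let τ' : ℕ → G.A := fun ω => if h : ω < G.M a then τ ⟨ω, h⟩ else Classical.arbitrary _
  have h' : ∀ (ω : Fin (G.M a)) (i : Fin (G.D a)), G.π a ω i (σ (G.v a ω i)) = τ' ω := by
    intro ω i
    simp only [τ', ω.2, dif_pos]
    exact h ω i
  refine ⟨good a σ τ', rfl, rfl, ?_, ?_⟩
  · have := cut_glue G n lE a (good a σ τ')
    simp only [av, cut_good a σ τ' _ _ _ (h' _ _), (hon_cut _ _ _).1, Fintype.expect_const] at this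
    rw [mul_comm]
    exact_mod_cast this
  · rw [cut_glue]
    congr 1
    unfold av
    rw [← Fintype.expect_const (ι := Fin (G.M a)) (_ + _)]
    refine expect_congr rfl fun ω _ => ?_
    rw [← Fintype.expect_const (ι := Fin (G.D a)) (_ + _)]
    refine expect_congr rfl fun i _ => ?_
    have e : ∀ l : Lc G n, (cutN (lD' r1 r2) fun j => good a σ τ' (vx G n a ω i l j) : ℝ)
        = (8 * (r1 + r2) ^ 2 + (2 * r1 + 3 * r2) ^ 2) + 4 * (r1 + r2) * (2 * r1 + 3 * r2)
          * chi {σ (G.v a ω i)} fun b => decide (l.2.2 b = 0) := by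
      intro l
      rw [cut_good a σ τ' _ _ _ (h' _ _), cut_lD, (hon_cut _ _ _).2.1, (hon_cut _ _ _).2.2.1,
        (hon_cut _ _ _).2.2.2]
      simp only [chi, prod_singleton, sg]
      split_ifs <;> push_cast <;> ring
    simp only [e, expect_prod, expect_add_distrib, ← mul_expect, Fintype.expect_const,
      expect_noise, card_singleton, pow_one]

theorem tgap {Yes No : α → Prop} {r1 r2 : ℕ} (hr : 0 < r2) (hn : 2 ≤ n) {δ η : ℝ} (hη : 0 ≤ η)
    (hδ : n * δ ≤ η ^ 2) (h : LCGap Yes No δ) :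
    TGap Yes No ((8 * (r1 + r2) ^ 2 + (2 * r1 + 3 * r2) ^ 2
        + 4 * (r1 + r2) * (2 * r1 + 3 * r2) * (1 - 2 / n)) / 12)
      ((8 * (r1 + r2) ^ 2 + (2 * r1 + 3 * r2) ^ 2
        + (4 * (r1 + r2) * (2 * r1 + 3 * r2) + 2 * (2 * r1 + r2) ^ 2) * η) / 12)
      (60 * (r1 + r2) ^ 2) := by
  classical
  obtain ⟨G, hG⟩ := h
  have flip : ∀ {F : Wb G n → Bool} {b c : Bool}, F (.inl true) = false → F (.inl false) = c →
      b = !c → (fun w => !F w) (.inl true) = true ∧ (fun w => !F w) (.inl false) = b := by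
    intro F b c h1 h2 h3
    simp [h1, h2, h3]
  refine ⟨Wb G n, inferInstance, inferInstance, .inl true, .inl false, glue G n lE,
    glue G n (lD' r1 r2), fun a => 12 * num G n a, pt_glue G n _, pt_glue G n _, ?_, by simp,
    fun a => ⟨Nat.mul_pos (by norm_num) (num_pos G n a), fun F hF => ?_, fun ha => ?_,
      fun ha F => ⟨fun hF => ?_, fun hF => ?_⟩⟩⟩
  · have := G.pM
    have := G.pD
    unfold num
    fun_prop
  · cases h1 : F (.inl true)
    · have h2 := flip (b := false) (c := true) h1 (by simpa [h1] using hF) rfl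
      rw [← cutN_not]
      exact glue_ge a h2.1 h2.2
    · exact glue_ge a h1 (by simpa [h1] using hF)
  · obtain ⟨F, h1, h2, h3, h4⟩ := glue_good (n := n) r1 r2 ((hG a).1 ha)
    refine ⟨F, by simp [h1, h2], h3, ?_⟩
    rw [h4]
    push_cast
    exact le_of_eq (by ring)
  · push_cast
    cases h1 : F (.inl true)
    · have h2 := flip (b := false) (c := true) h1 (by simpa [h1] using hF) rfl
      rw [← cutN_not, ← cutN_not (glue G n lE a)]
      exact (glue_sep hr ((hG a).2 ha) hn hη hδ h2.1 h2.2).trans (le_of_eq (by ring))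
    · exact (glue_sep hr ((hG a).2 ha) hn hη hδ h1 (by simpa [h1] using hF)).trans
        (le_of_eq (by ring))
  · cases h1 : F (.inl true)
    · have h2 := flip (b := true) (c := false) h1 (by rw [← hF, h1]) rfl
      rw [← cutN_not, ← cutN_not (glue G n lE a)]
      exact glue_non r1 r2 a h2.1 h2.2
    · exact glue_non r1 r2 a h1 (by rw [← hF, h1])

end Pool.Agent.Lib.MP_a1e814_lc
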