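import Pool.Agent.Lib.MP_a1e814_lc.SeLD

/-! The inner test and its Fourier analysis. -/

set_option linter.unusedSectionVars false

namespace Pool.Agent.Lib.MP_a1e814_lc.Se

open Finset Function
open scoped BigOperators

def sg (x : ZMod 2) : ℝ := if x = 0 then 1 else -1

theorem z2 (x : ZMod 2) : x = 0 ∨ x = 1 := by revert x; decide

theorem sg_add (x y : ZMod 2) : sg (x + y) = sg x * sg y := by
  have : (1 + 1 : ZMod 2) = 0 := rfl
  rcases z2 x with rfl | rfl <;> rcases z2 y with rfl | rfl <;> simp [sg, this]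

theorem sg_sub (x y : ZMod 2) : sg (x - y) = sg x * sg y := by
  rw [sub_eq_add_neg, ZMod.neg_eq_self_mod_two, sg_add]

theorem sg_sum {ι : Type} (s : Finset ι) (x : ι → ZMod 2) : sg (∑ i ∈ s, x i) = ∏ i ∈ s, sg (x i) := by
  classical
  induction s using Finset.induction_on with
  | empty => simp [sg]
  | insert i s hi ih => rw [sum_insert hi, prod_insert hi, sg_add, ih]

theorem abs_sg (x : ZMod 2) : |sg x| = 1 := by unfold sg; split_ifs <;> simp

section
variable {G : Type} [AddCommGroup G] [Fintype G]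

theorem orth (χ : G →+ ZMod 2) : 𝔼 g, sg (χ g) = ind (∀ g, χ g = 0) := by
  by_cases c : ∀ g, χ g = 0
  · simp [c, sg, ind]
  · obtain ⟨g, hg⟩ := not_forall.1 c
    have := ex_inj (add_right_injective g) fun g => sg (χ g)
    simp only [map_add, sg_add, ← mul_expect] at this
    rw [sg, if_neg hg] at this
    rw [ind_neg c]
    linarith

theorem Pr_half (χ : G →+ ZMod 2) {g : G} (h : χ g ≠ 0) : (Pr fun g => χ g = 0) = 1 / 2 := by
  have := orth χ
  have e : ∀ x, sg x = 2 * ind (x = 0) - 1 := fun x => by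
    unfold sg ind
    split_ifs <;> norm_num
  rw [ind_neg fun c => h (c g)] at this
  simp only [e, expect_sub_distrib, ← mul_expect, Fintype.expect_const] at this
  simp only [Pr]
  linarith

theorem Pr_ker {Z : Type} [AddCommGroup Z] [Fintype Z] (Θ : G →+ Z) :
    1 ≤ Fintype.card Z * Pr fun g => Θ g = 0 := by
  refine (Pr_true fun _ : G => trivial).ge.trans ((Pr_le_sum (s := univ) (q := fun z g => Θ g = z)
    fun g _ => ⟨_, mem_univ _, rfl⟩).trans ((sum_le_card_nsmul _ _ (Pr fun g => Θ g = 0)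
    fun z _ => ?_).trans (by simp)))
  by_cases c : ∃ g, Θ g = z
  · obtain ⟨g, rfl⟩ := c
    rw [← Pr_inj (add_right_injective g)]
    simp
  · rw [Pr_false (not_exists.1 c)]
    exact Pr_nn _

/-- a map onto a subgroup with fibres of equal size -/
noncomputable def prj (H : AddSubgroup G) (g : G) : H :=
  (AddSubgroup.addGroupEquivQuotientProdAddSubgroup g).2

theorem ex_prj (H : AddSubgroup G) [Fintype H] (φ : H → ℝ) : 𝔼 g, φ (prj H g) = 𝔼 h, φ h := by
  letI := Fintype.ofFinite (G ⧸ H)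
  rw [show 𝔼 g, φ (prj H g) = _ from
    ex_equiv AddSubgroup.addGroupEquivQuotientProdAddSubgroup fun z => φ z.2, ex_prod]
  exact Fintype.expect_const (𝔼 h, φ h)

theorem ex_sub (H : AddSubgroup G) (φ : G → ℝ) :
    𝔼 g, ind (g ∈ H) * φ g = (𝔼 g, ind (g ∈ H)) * 𝔼 g, φ (prj H g) := by
  classical
  have e : ∀ φ : G → ℝ, ∑ g, ind (g ∈ H) * φ g = ∑ h : H, φ h := fun φ => by
    rw [← sum_subtype (univ.filter (· ∈ H)) (by simp), sum_filter]
    exact sum_congr rfl fun g _ => by unfold ind; split_ifs <;> simp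
  have e1 := e fun _ => 1
  simp only [mul_one, sum_const, card_univ, nsmul_eq_mul] at e1
  rw [ex_prj H fun h => φ h]
  simp only [Fintype.expect_eq_sum_div_card, e, e1]
  have : (0 : ℝ) < Fintype.card H := by exact_mod_cast Fintype.card_pos
  field_simp

end

variable {F σ : Type} [Field F] [Fintype F] [DecidableEq F] [Fintype σ] [DecidableEq σ]
  (tr : F →+ ZMod 2)

noncomputable def hat (W : (σ → F) → Prop) (b : σ → F) : ℝ :=
  𝔼 a, ind (W a) * sg (tr (∑ l, a l * b l))

theorem abs_hat (W : (σ → F) → Prop) (b : σ → F) : |hat tr W b| ≤ 1 :=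
  (abs_expect_le _ _).trans (ex_le fun a => by
    rw [abs_mul, abs_sg, mul_one, abs_of_nonneg (ind_nn _)]
    exact ind_le _)

theorem hat_zero (W : (σ → F) → Prop) : hat tr W 0 = Pr W := by simp [hat, sg, Pr]

variable {tr}

theorem tr_ne (htr : tr ≠ 0) {c : F} (hc : c ≠ 0) : ∃ u, tr (u * c) ≠ 0 := by
  obtain ⟨u, hu⟩ := DFunLike.ne_iff.1 htr
  exact ⟨u / c, by simpa [hc] using hu⟩

theorem orth' (htr : tr ≠ 0) (b : σ → F) : 𝔼 a : σ → F, sg (tr (∑ l, a l * b l)) = ind (b = 0) := by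
  refine (orth (tr.comp (AddMonoidHom.mk' (fun a : σ → F => ∑ l, a l * b l) fun a a' => by
    simp [add_mul, sum_add_distrib]))).trans (ind_congr ⟨fun h => funext fun l => ?_, fun h => ?_⟩)
  · by_contra c
    obtain ⟨u, hu⟩ := tr_ne htr c
    exact hu (by simpa [Pi.single_apply] using h (Pi.single l u))
  · simp [h]

theorem parseval (htr : tr ≠ 0) (W : (σ → F) → Prop) : ∑ b, hat tr W b ^ 2 ≤ 1 := by
  have e : ∀ b, hat tr W b ^ 2 = 𝔼 a, 𝔼 a', ind (W a) * ind (W a')
      * sg (tr (∑ l, b l * (a - a') l)) := fun b => by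
    rw [pow_two, hat, Fintype.expect_mul_expect]
    refine ex_congr fun a => ex_congr fun a' => ?_
    simp only [Pi.sub_apply, mul_comm (b _), sub_mul]
    rw [sum_sub_distrib, map_sub, sg_sub]
    ring
  simp only [e, ← expect_sum_comm, ← mul_sum, ← Fintype.card_mul_expect, orth' htr]
  refine ex_le fun a => (ex_mono (g := fun a' => Fintype.card (σ → F) * ind (a' = a))
    fun a' => ?_).trans ?_
  · rw [sub_eq_zero, eq_comm]
    exact mul_le_of_le_one_left (mul_nonneg (by positivity) (ind_nn _))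
      (mul_le_one₀ (ind_le _) (ind_nn _) (ind_le _))
  · rw [← mul_expect, show 𝔼 a', ind (a' = a) = _ from Pr_eq a, mul_one_div, div_self]
    exact_mod_cast Fintype.card_ne_zero

theorem Pr_tr (htr : tr ≠ 0) {X : Type} [Fintype X] [Nonempty X] (G : X → F) :
    (Pr fun u : X × (σ → F) => ∀ l, tr (u.2 l * G u.1) = 0)
      ≤ (1 / 2) ^ Fintype.card σ + Pr fun x => G x = 0 := by
  rw [Pr_prod]
  refine ex_le_add_Pr (by positivity) (fun _ => Pr_le _) fun x c => ?_
  obtain ⟨u, hu⟩ := tr_ne htr c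
  simp only [Pr, ind_forall]
  rw [ex_pi fun _ (u : F) => ind (tr (u * G x) = 0), show 𝔼 u, ind (tr (u * G x) = 0) = _ from
    Pr_half (tr.comp (AddMonoidHom.mulRight (G x))) hu]
  simp

variable {P ι : Type} [Fintype P] [Nonempty P] [Fintype ι] [DecidableEq ι]
  (Q : AddSubgroup (P → F)) [Fintype Q]

variable (tr σ) in
/-- the annihilator of the evaluations -/
def Ann (e : ι → P) : AddSubgroup (ι → σ → F) where
  carrier := {α | ∀ p : σ → Q, ∑ i, tr (∑ l, α i l * (p l).1 (e i)) = 0}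
  zero_mem' := by simp
  add_mem' h h' p := by simp only [Pi.add_apply, add_mul, sum_add_distrib, map_add, h p, h' p, add_zero]
  neg_mem' h p := by simp only [Pi.neg_apply, neg_mul, sum_neg_distrib, map_neg, h p, neg_zero]

theorem expand (htr : tr ≠ 0) (e : ι → P) (he : ∀ p ∈ Q, (∀ i, p (e i) = 0) → p = 0)
    (W : ι → (σ → F) → Prop) : (Pr fun α => ∀ i, W i ((prj (Ann σ tr Q e) α).1 i))
      = ∑ p : σ → Q, ∏ i, hat tr (W i) fun l => (p l).1 (e i) := by
  have h : ∀ W : ι → (σ → F) → Prop, 𝔼 α, ind (α ∈ Ann σ tr Q e) * ind (∀ i, W i (α i))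
      = 𝔼 p : σ → Q, ∏ i, hat tr (W i) fun l => (p l).1 (e i) := fun W => by
    have a1 : ∀ α, ind (α ∈ Ann σ tr Q e) = 𝔼 p : σ → Q, ∏ i, sg (tr (∑ l, α i l * (p l).1 (e i))) :=
      fun α => (orth (AddMonoidHom.mk' (fun p : σ → Q => ∑ i, tr (∑ l, α i l * (p l).1 (e i)))
        fun p p' => by simp [mul_add, sum_add_distrib])).symm.trans (ex_congr fun p => sg_sum _ _)
    simp only [a1, expect_mul, ind_forall, ← prod_mul_distrib, mul_comm (sg _)]
    rw [expect_comm]
    exact ex_congr fun p => ex_pi fun i a => ind (W i a) * sg (tr (∑ l, a l * (p l).1 (e i)))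
  have h1 := h fun _ _ => True
  have h2 := h W
  have a2 : ∀ p : σ → Q, (∏ i, hat tr (fun _ => True) fun l => (p l).1 (e i)) = ind (p = 0) :=
    fun p => by
    simp only [hat, ind_pos trivial, one_mul, orth' htr, ← ind_forall]
    exact ind_congr ⟨fun c => funext fun l => Subtype.ext (he _ (p l).2 fun i => congrFun (c i) l),
      fun c i => by rw [c]; rfl⟩
  classical
  simp only [implies_true, ind_pos trivial, mul_one, a2] at h1
  rw [ex_sub, h1, show 𝔼 p : σ → Q, ind (p = 0) = _ from Pr_eq 0,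
    Fintype.expect_eq_sum_div_card fun p : σ → Q => _, one_div_mul_eq_div] at h2
  exact (div_left_inj' (by exact_mod_cast Fintype.card_ne_zero)).1 h2

theorem sum_sq (htr : tr ≠ 0) (e : ι → P) (he : ∀ p ∈ Q, (∀ i, p (e i) = 0) → p = 0)
    (W : ι → (σ → F) → Prop) :
    ∑ p : σ → Q, (∏ i, |hat tr (W i) fun l => (p l).1 (e i)|) ^ 2 ≤ 1 := by
  simp only [← prod_pow, sq_abs]
  refine le_trans ?_ (prod_le_one (s := univ) (fun i _ => sum_nonneg fun b _ => sq_nonneg _)
    fun i _ => parseval htr (W i))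
  rw [Fintype.prod_sum, ← sum_image (s := univ) (g := fun (p : σ → Q) i l => (p l).1 (e i))
    (f := fun b => ∏ i, hat tr (W i) (b i) ^ 2) fun p _ p' _ c => funext fun l => Subtype.ext
      (sub_eq_zero.1 (he _ (sub_mem (p l).2 (p' l).2) fun i =>
        sub_eq_zero.2 (congrFun (congrFun c i) l)))]
  exact sum_le_sum_of_subset_of_nonneg (subset_univ _) fun b _ _ =>
    prod_nonneg fun i _ => sq_nonneg _

variable {κ : Type} [Fintype κ] [DecidableEq κ]

theorem inner_yes (e : Option ι → P) {p : P → F} (hp : p ∈ Q) : 1 ≤ 2 ^ (Fintype.card σ * Fintype.card ι)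
    * Pr fun α => ∀ i l, tr ((prj (Ann σ tr Q e) α).1 i l * p (e i)) = 0 := by
  classical
  have := Pr_ker (AddMonoidHom.mk' (fun (α : Ann σ tr Q e) (i : ι) l =>
    tr (α.1 (some i) l * p (e (some i)))) fun α α' => by ext; simp [add_mul])
  rw [show (Pr fun α => ∀ i l, tr ((prj (Ann σ tr Q e) α).1 i l * p (e i)) = 0) = _ from
    ex_prj _ fun α : Ann σ tr Q e => ind (∀ i l, tr (α.1 i l * p (e i)) = 0)]
  refine this.trans (mul_le_mul (by simp [pow_mul]) (Pr_mono fun α c i l => ?_) (Pr_nn _)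
    (by positivity))
  have c' : ∀ i l, tr (α.1 (some i) l * p (e (some i))) = 0 := fun i l => congrFun (congrFun c i) l
  rcases i with _ | i
  · have := α.2 (Pi.single l ⟨p, hp⟩)
    simpa [Pi.single_apply, apply_ite Subtype.val, ite_apply, c'] using this
  · exact c' i l

/-- the lists of large Fourier coefficients -/
noncomputable def lst (tr : F →+ ZMod 2) (ε : ℝ) (W : (σ → F) → Prop) (j : ℕ) : σ → F :=
  (univ.filter fun b => ε ≤ |hat tr W b|).toList.getD j 0

theorem exists_lst (htr : tr ≠ 0) {ε : ℝ} {n : ℕ} (h0 : 0 < ε) (hn : 1 ≤ n * ε ^ 2)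
    (W : (σ → F) → Prop) {b : σ → F} (hb : ε ≤ |hat tr W b|) : ∃ j ∈ range n, b = lst tr ε W j := by
  have h1 : (univ.filter fun b => ε ≤ |hat tr W b|).card • ε ^ 2 ≤ n * ε ^ 2 :=
    (card_nsmul_le_sum _ (fun b => hat tr W b ^ 2) _ fun b hb => by
      rw [← sq_abs (hat tr W b)]
      exact pow_le_pow_left₀ h0.le (mem_filter.1 hb).2 2).trans
      ((sum_le_univ_sum_of_nonneg fun b => sq_nonneg _).trans ((parseval htr W).trans hn))
  rw [nsmul_eq_mul, mul_le_mul_iff_left₀ (by positivity), Nat.cast_le, ← length_toList] at h1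
  obtain ⟨j, hj, e⟩ := List.getElem_of_mem (mem_toList.2
    ((mem_filter (p := fun b => ε ≤ |hat tr W b|)).2 ⟨mem_univ b, hb⟩))
  exact ⟨j, mem_range.2 (hj.trans_le h1), by rw [lst, List.getD_eq_getElem _ _ hj, e]⟩

theorem inner_no (htr : tr ≠ 0) (W : P → (σ → F) → Prop) {ε ε' ξ z : ℝ} {n : ℕ} (ε0 : 0 < ε)
    (ε1 : 0 < ε') (ξ0 : 0 ≤ ξ) (hn : 1 ≤ n * ε' ^ 2) (z0 : 0 ≤ z)
    (hz : ∀ p ∈ Q, p ≠ 0 → (Pr fun e => p e = 0) ≤ z)
    (hξ : ∀ j ∈ range n, ∀ l, ∀ p ∈ Q, p ≠ 0 → (Pr fun e => p e = lst tr ε' (W e) j l) ≤ ξ) :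
    (Pr fun x : (Option (Fin 3 × κ) → P) × (Option (Fin 3 × κ) → σ → F) =>
      ∀ i, W (x.1 i) ((prj (Ann σ tr Q x.1) x.2).1 i))
      ≤ (𝔼 e, Pr (W e)) ^ (3 * Fintype.card κ + 1) + ε + 3 * (Fintype.card Q * z ^ Fintype.card κ)
        + (ε' + n * ξ) / ε ^ (2 * Fintype.card κ) := by
  classical
  let a : P → (σ → Q) → ℝ := fun e p => |hat tr (W e) fun l => (p l).1 e|
  let J : (Fin 3 × κ → P) → Prop := fun e => ∀ g, ∀ p ∈ Q, (∀ k, p (e (g, k)) = 0) → p = 0
  let L : (Fin 3 × κ → P) → Finset (σ → Q) := fun e =>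
    univ.filter fun p => J e ∧ p ≠ 0 ∧ ∀ k, ε ≤ a (e (2, k)) p
  have a0 : ∀ e p, 0 ≤ a e p := fun _ _ => abs_nonneg _
  have a1 : ∀ e p, a e p ≤ 1 := fun _ _ => abs_hat _ _ _
  have h1 : ∀ e : Option (Fin 3 × κ) → P, (Pr fun α => ∀ i, W (e i) ((prj (Ann σ tr Q e) α).1 i))
      ≤ ∏ i, Pr (W (e i)) + ε + ind (¬ J fun i => e (some i))
        + ∑ p ∈ L fun i => e (some i), a (e none) p := fun e => by
    have b0 : 0 ≤ ∏ i, Pr (W (e i)) := prod_nonneg fun _ _ => Pr_nn _
    by_cases c : J fun i => e (some i)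
    swap
    · rw [ind_pos c]
      linarith [Pr_le fun α => ∀ i, W (e i) ((prj (Ann σ tr Q e) α).1 i),
        sum_nonneg fun p (_ : p ∈ L fun i => e (some i)) => a0 (e none) p]
    let A : Fin 3 → (σ → Q) → ℝ := fun g p => ∏ k, a (e (some (g, k))) p
    have A0 : ∀ g p, 0 ≤ A g p := fun g p => prod_nonneg fun _ _ => a0 _ _
    have A1 : ∀ g p, A g p ≤ 1 := fun g p => prod_le_one (fun _ _ => a0 _ _) fun _ _ => a1 _ _
    have A2 : ∀ g, ∑ p, A g p ^ 2 ≤ 1 := fun g =>
      sum_sq Q htr (fun k => e (some (g, k))) (c g) fun k => W (e (some (g, k)))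
    rw [expand Q htr e (fun p hp h => c 0 p hp fun k => h _) fun i => W (e i)]
    refine (sum_le_sum (g := fun p => (if p = 0 then ∏ i, Pr (W (e i)) else 0)
      + (ε / 2 * (A 0 p ^ 2 + A 1 p ^ 2) + if p ∈ L fun i => e (some i) then a (e none) p else 0))
      fun p _ => ?_).trans ?_
    · have b1 : 0 ≤ ε / 2 * (A 0 p ^ 2 + A 1 p ^ 2) := by positivity
      by_cases c0 : p = 0
      · rw [if_pos c0]
        refine le_add_of_le_of_nonneg (le_of_eq (prod_congr rfl fun i _ => ?_))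
          (add_nonneg b1 (by split_ifs; exacts [a0 _ _, le_rfl]))
        rw [c0, ← hat_zero tr]
        rfl
      refine (le_abs_self _).trans ?_
      rw [abs_prod, Fintype.prod_option, Fintype.prod_prod_type, Fin.prod_univ_three, if_neg c0,
        zero_add]
      change a (e none) p * (A 0 p * A 1 p * A 2 p) ≤ _
      have b2 := mul_nonneg (A0 0 p) (A0 1 p)
      split_ifs with c1
      · exact le_add_of_nonneg_of_le b1 (mul_le_of_le_one_right (a0 _ _)
          (mul_le_one₀ (mul_le_one₀ (A1 _ _) (A0 _ _) (A1 _ _)) (A0 _ _) (A1 _ _)))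
      · obtain ⟨k, hk⟩ : ∃ k, a (e (some (2, k))) p < ε := by
          by_contra c2
          push Not at c2
          exact c1 (mem_filter.2 ⟨mem_univ _, c, c0, c2⟩)
        have b3 : A 2 p ≤ ε := by
          refine le_trans ?_ hk.le
          simp only [A]
          rw [← mul_prod_erase _ _ (mem_univ k)]
          exact mul_le_of_le_one_right (a0 _ _) (prod_le_one (fun _ _ => a0 _ _) fun _ _ => a1 _ _)
        refine (mul_le_of_le_one_left (mul_nonneg b2 (A0 _ _)) (a1 _ _)).trans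
          ((mul_le_mul_of_nonneg_left b3 b2).trans ?_)
        nlinarith [mul_nonneg ε0.le (sq_nonneg (A 0 p - A 1 p))]
    · simp only [sum_add_distrib, sum_ite_eq', mem_univ, if_true, ← mul_sum, sum_ite_mem, univ_inter,
        ind_neg (not_not.2 c)]
      nlinarith [A2 0, A2 1]
  have h2 : (Pr fun e => ¬ J e) ≤ 3 * (Fintype.card Q * z ^ Fintype.card κ) := by
    refine (Pr_le_sum (s := univ) (q := fun (x : Fin 3 × Q) e => x.2.1 ≠ 0 ∧ ∀ k, x.2.1 (e (x.1, k)) = 0)
      fun e c => ?_).trans ((sum_le_card_nsmul _ _ (z ^ Fintype.card κ) fun x _ => ?_).trans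
      (by simp [mul_assoc]))
    · simp only [J, not_forall] at c
      obtain ⟨g, p, hp, c1, c2⟩ := c
      exact ⟨(g, ⟨p, hp⟩), mem_univ _, c2, c1⟩
    · by_cases c : x.2.1 = 0
      · rw [Pr_false fun e c' => c'.1 c]
        positivity
      refine (Pr_mono fun e c => c.2).trans ?_
      rw [← Pr_equiv (Equiv.curry _ _ _).symm]
      refine (ex_eval x.1 fun e : κ → P => ind (∀ k, x.2.1 (e k) = 0)).trans_le ?_
      simp only [ind_forall]
      rw [ex_pi fun _ e => ind (x.2.1 e = 0), prod_const]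
      exact pow_le_pow_left₀ (Pr_nn _) (hz _ x.2.2 c) _
  have h3 : ∀ e, 𝔼 e0, ∑ p ∈ L e, a e0 p ≤ (ε' + n * ξ) / ε ^ (2 * Fintype.card κ) := fun e => by
    rw [expect_sum_comm, le_div_iff₀ (by positivity)]
    have b1 : ∑ p ∈ L e, 𝔼 e0, a e0 p ≤ (L e).card • (ε' + n * ξ) := sum_le_card_nsmul _ _ _
      fun p hp => by
      obtain ⟨l, hl⟩ := ne_iff.1 (mem_filter.1 hp).2.2.1
      refine (ex_le_add_Pr (p := fun e0 => ε' ≤ a e0 p) ε1.le (fun _ => a1 _ _)
        fun _ c => (not_le.1 c).le).trans (add_le_add_right ((Pr_le_sum fun e0 c =>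
          (exists_lst htr ε1 hn (W e0) c).imp fun j c => ⟨c.1, congrFun c.2 l⟩).trans
          ((sum_le_card_nsmul _ _ ξ fun j hj => hξ j hj l _ (p l).2 fun c =>
            hl (Subtype.ext c)).trans (by simp))) _)
    have b2 : (L e).card • ε ^ (2 * Fintype.card κ) ≤ 1 := by
      by_cases c : J e
      · refine (card_nsmul_le_sum _ (fun p => (∏ k, a (e (2, k)) p) ^ 2) _ fun p hp => ?_).trans
          ((sum_le_univ_sum_of_nonneg fun b => sq_nonneg _).trans
            (sum_sq Q htr (fun k => e (2, k)) (c 2) fun k => W (e (2, k))))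
        rw [pow_mul', ← card_univ, ← prod_const]
        exact pow_le_pow_left₀ (prod_nonneg fun _ _ => ε0.le)
          (prod_le_prod (fun _ _ => ε0.le) fun k _ => (mem_filter.1 hp).2.2.2 k) 2
      · simp [L, c]
    rw [nsmul_eq_mul] at b1 b2
    have b3 : 0 ≤ ε' + n * ξ := by positivity
    nlinarith [mul_le_mul_of_nonneg_right b1 (by positivity : 0 ≤ ε ^ (2 * Fintype.card κ)),
      mul_le_mul_of_nonneg_right b2 b3]
  rw [Pr_prod]
  refine (ex_mono h1).trans ?_
  rw [expect_add_distrib, expect_add_distrib, expect_add_distrib, Fintype.expect_const,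
    ex_pi fun _ e => Pr (W e)]
  refine add_le_add (add_le_add (by simp) ?_) ?_
  · rw [← ex_equiv Equiv.piOptionEquivProd.symm]
    exact (Pr_snd fun e => ¬ J e).trans_le h2
  · rw [← ex_equiv Equiv.piOptionEquivProd.symm, ex_prod, expect_comm]
    exact ex_le h3

end Pool.Agent.Lib.MP_a1e814_lc.Se
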