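import Pool.Agent.Lib.MP_a1e814_lc.DsFinal
import Pool.Agent.Lib.MP_a1e814_lc.SeFour

/-! Hardness within every constant factor: the notions of the proof. -/

set_option linter.unusedSectionVars false

namespace Pool.Agent.Lib.MP_a1e814_lc.Cf

open Finset Function Pool.Agent.Lib.Complexity Pool.Agent.Lib.MP_4d0379_lc
open scoped BigOperators

abbrev F2 := ZMod 2

/-! Tables on nested windows. -/

section Cube

variable {ι : Type} [Fintype ι] [DecidableEq ι]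

/-- the table written in binary digits -/
def val {t : ℕ} (ω : ι × Fin t → Bool) (i : ι) : ℕ :=
  ∑ r : Fin t, if ω (i, r) then 2 ^ (r : ℕ) else 0

/-- discrete derivative on the cube -/
def dB (f : (ι → Bool) → ℝ) (i : ι) (ω : ι → Bool) : ℝ :=
  f (update ω i true) - f (update ω i false)

/-- degree one coefficient of a table functional -/
noncomputable def coef (t : ℕ) (Φ : (ι → ℕ) → ℝ) (i : ι × Fin t) : ℝ :=
  fc (fun ω : ι × Fin t → Bool => Φ (val ω)) {i}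

noncomputable def spread (t : ℕ) (Φ : (ι → ℕ) → ℝ) : ℝ :=
  𝔼 ω : ι × Fin t → Bool, 𝔼 ω' : ι × Fin t → Bool, |Φ (val ω) - Φ (val ω')|

/-- mean unit step -/
noncomputable def pd (t : ℕ) (Φ : (ι → ℕ) → ℝ) (i : ι) : ℝ :=
  𝔼 ω : ι × Fin t → Bool, (Φ (val ω + Pi.single i 1) - Φ (val ω))

/-- unit steps lie in the unit interval -/
def Mono1 (t : ℕ) (Φ : (ι → ℕ) → ℝ) : Prop :=
  ∀ (c : ι → ℕ) (i : ι), (∀ i', c i' ≤ 2 ^ t) → c i < 2 ^ t →
    Φ c ≤ Φ (c + Pi.single i 1) ∧ Φ (c + Pi.single i 1) ≤ Φ c + 1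

end Cube

section Win

variable {K : Type} [Fintype K] [DecidableEq K]

/-- the part of a label seen by window `j` -/
def tr (dep : K → ℕ) (j : ℕ) (y : K → F2) : K → F2 := fun κ => if dep κ ≤ j then y κ else 0

abbrev Idx (K : Type) (n : ℕ) := Fin n × (K → F2)

def Gs (dep : K → ℕ) {n : ℕ} (c : Idx K n → ℕ) (y : K → F2) : ℕ :=
  ∑ j : Fin n, c (j, tr dep j y)

/-- pointwise order of the sums is respected by the functionals -/
def Rel (dep : K → ℕ) {n : ℕ} (t : ℕ) {Pt : Type} (y y' : Pt → K → F2)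
    (Φ Φ' : (Idx K n → ℕ) → ℝ) : Prop :=
  ∀ (c c' : Idx K n → ℕ) (μ : ℕ), (∀ i, c i ≤ 2 ^ t) → (∀ i, c' i ≤ 2 ^ t) →
    (∀ x, Gs dep c (y x) ≤ Gs dep c' (y' x) + μ) → Φ c ≤ Φ' c' + μ

/-- energy at a label -/
noncomputable def En {n : ℕ} (t : ℕ) (Φ : (Idx K n → ℕ) → ℝ) (a : K → F2) : ℝ :=
  (∑ j : Fin n, ∑ r : Fin t, coef t Φ ((j, a), r) ^ 2) / (n * 4 ^ t)

def lab (S : Finset K) (a : K → F2) : K → F2 := fun κ => if κ ∈ S then a κ else 0

noncomputable def Fz (S : Finset K) (e : (K → F2) → ℝ) (z : K → F2) : ℝ :=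
  ∑ a, if lab S a = z then e a else 0

end Win

/-! Blocks and their moves. -/

section Blocks

variable {m b : ℕ} {J : Type}

abbrev Blk (b : ℕ) (J : Type) := Fin b → J → F2

abbrev Mat (b : ℕ) := Fin b → Fin b → F2

def act (M : Mat b) (R : Blk b J) : Blk b J := fun p j => ∑ q, M p q * R q j

abbrev Cf2 (m b : ℕ) (J : Type) := (Fin (m + 1) → Blk b J) × (Fin m → Blk b J)

def mv1 (M : Fin m → Mat b) (R : Cf2 m b J) : Cf2 m b J :=
  (fun i => R.1 i + if h : i.1 < m then act (M ⟨i.1, h⟩) (R.2 ⟨i.1, h⟩) else 0, R.2)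

def mv2 (M : Fin m → Mat b) (R : Cf2 m b J) : Cf2 m b J :=
  (R.1, fun i => R.2 i + act (M i) (R.1 i.succ))

/-- change of the last block -/
def dum (D : Blk b J) (R : Cf2 m b J) : Cf2 m b J := (update R.1 (Fin.last m) D, R.2)

abbrev KK (r m b : ℕ) := Fin (2 * r) ⊕ (Fin (m + 1) × Fin b) ⊕ (Fin m × Fin b)

def dp {r : ℕ} : KK r m b → ℕ
  | .inl _ => 0
  | .inr (.inl p) => 2 * p.1
  | .inr (.inr p) => 2 * p.1 + 1

def ZZ (r m b : ℕ) : Finset (KK r m b) := univ.filter fun κ => κ.isLeft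

def join {r : ℕ} (z : Fin (2 * r) → J → F2) (R : Cf2 m b J) : KK r m b → J → F2 :=
  Sum.elim z (Sum.elim (fun p => R.1 p.1 p.2) fun p => R.2 p.1 p.2)

end Blocks

/-! Noise and Fourier coefficients. -/

/-- the noise operator: each coordinate is kept with probability `ρ` -/
noncomputable def nz {Ω : Type} [Fintype Ω] (ρ : ℝ) :
    (m : ℕ) → ((Fin m → Ω) → ℝ) → (Fin m → Ω) → ℝ
  | 0, f, x => f x
  | m + 1, f, x => ρ * nz ρ m (fun x' => f (Fin.cons (x 0) x')) (Fin.tail x)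
      + (1 - ρ) * 𝔼 y : Ω, nz ρ m (fun x' => f (Fin.cons y x')) (Fin.tail x)

noncomputable def hat {G : Type} [AddCommGroup G] [Fintype G] (B : G →+ G →+ F2) (f : G → ℝ)
    (a : G) : ℝ := 𝔼 y, f y * Se.sg (B a y)

/-! Conditional energies. -/

section Dec

variable {K J : Type} [Fintype K] [DecidableEq K] [Fintype J] [DecidableEq J]

noncomputable def cnd (S : Finset K) (f : (K → J → F2) → ℝ) (Y : K → J → F2) : ℝ :=
  𝔼 Y' : K → J → F2, f (S.piecewise Y Y')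

noncomputable def ee (e : (K → J → F2) → (K → F2) → ℝ) (S S' : Finset K) : ℝ :=
  𝔼 Y : K → J → F2, ∑ z, cnd S' (fun Y => Fz S (e Y) z) Y ^ 2

def SubP (e : (K → J → F2) → (K → F2) → ℝ) : Prop :=
  (∀ Y a, 0 ≤ e Y a) ∧ ∀ Y, ∑ a, e Y a ≤ 1

def SwapInv (C : Finset K) (e : (K → J → F2) → (K → F2) → ℝ) : Prop :=
  ∀ κ ∈ C, ∀ κ' ∈ C, ∀ Y a, e (Y ∘ Equiv.swap κ κ') (a ∘ Equiv.swap κ κ') = e Y a

def TvInv (C : Finset K) (e : (K → J → F2) → (K → F2) → ℝ) : Prop :=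
  ∀ κ ∈ C, ∀ κ' ∈ C, κ ≠ κ' → ∀ Y a,
    e (update Y κ' (Y κ + Y κ')) (update a κ' (a κ + a κ')) = e Y a

def FoldInv (C : Finset K) (A : (J → F2) → Prop) (e : (K → J → F2) → (K → F2) → ℝ) : Prop :=
  ∀ κ ∈ C, ∀ x, ¬ A x → ∃ (h : J → F2) (β : F2), h ⬝ᵥ x ≠ β ∧
    ∀ Y a, e (update Y κ (Y κ + h)) (update a κ (a κ + β)) = e Y a

/-- the energy that disagrees with the linear form `x` at the coordinate `κ` -/
noncomputable def bad (e : (K → J → F2) → (K → F2) → ℝ) (S : Finset K) (κ : K) (z : K → F2)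
    (x : J → F2) (Y : K → J → F2) : ℝ :=
  ∑ a, if lab S a = z ∧ a κ ≠ Y κ ⬝ᵥ x then e Y a else 0

def ev (Y : K → J → F2) (x : J → F2) : K → F2 := fun κ => Y κ ⬝ᵥ x

end Dec

/-! The outer game. -/

section Outer

variable {W K : Type} {k : ℕ}

/-- type of a position: full, empty, or one slot -/
abbrev Ty := Option (Option (Fin 3))

abbrev View (k : ℕ) (W : Type) := Fin k → ℕ ⊕ Option W

abbrev Cfg (K : Type) (k : ℕ) := K → Fin k × Fin 3 → F2

def full : Fin k → Ty := fun _ => none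

def view (vr : ℕ → Fin 3 → W) (u : Fin k → ℕ) (τ : Fin k → Ty) : View k W := fun i =>
  match τ i with
  | none => .inl (u i)
  | some none => .inr none
  | some (some s) => .inr (some (vr (u i) s))

def emb (τ : Fin k → Ty) (Y : Cfg K k) : Cfg K k := fun κ j =>
  match τ j.1 with
  | none => Y κ j
  | some none => 0
  | some (some s) => if j.2 = s then Y κ (j.1, 0) else 0

def embT (τ : Fin k → Ty) (x : Fin k × Fin 3 → F2) : Fin k × Fin 3 → F2 := fun j =>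
  match τ j.1 with
  | none => x j
  | some none => 0
  | some (some s) => if j.2 = 0 then x (j.1, s) else 0

theorem emb_dot (τ : Fin k → Ty) (Y : Cfg K k) (x : Fin k × Fin 3 → F2) (κ : K) :
    emb τ Y κ ⬝ᵥ x = Y κ ⬝ᵥ embT τ x := by
  simp only [dotProduct, Fintype.sum_prod_type]
  refine sum_congr rfl fun i _ => ?_
  simp only [emb, embT]
  generalize τ i = o
  rcases o with _ | _ | s <;> simp

theorem ev_emb (τ : Fin k → Ty) (Y : Cfg K k) (x : Fin k × Fin 3 → F2) :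
    ev (emb τ Y) x = ev Y (embT τ x) := funext fun κ => emb_dot τ Y x κ

theorem embT_full (x : Fin k × Fin 3 → F2) : embT full x = x := rfl

theorem emb_full (Y : Cfg K k) : emb full Y = Y := rfl

def typ {q : ℕ} [NeZero q] (c : Fin k → Fin q) (θ : Fin k → Fin 2 × Fin 3) : Fin k → Ty := fun i =>
  if c i = 0 then (if (θ i).1 = 0 then some (some (θ i).2) else some none) else none

def zro [DecidableEq K] {q : ℕ} [NeZero q] (S : Finset K) (c : Fin k → Fin q) (Y : Cfg K k) :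
    Cfg K k := fun κ j => if κ ∈ S ∧ c j.1 = 0 then 0 else Y κ j

def Aff (rh : ℕ → F2) (u : Fin k → ℕ) (x : Fin k × Fin 3 → F2) : Prop :=
  ∀ i, ∑ s, x (i, s) = rh (u i)

def up {N : ℕ} (u : Fin k → Fin N) : Fin k → ℕ := fun i => u i

def NoLin (N : ℕ) (vr : ℕ → Fin 3 → W) (rh : ℕ → F2) : Prop :=
  ∀ σ : W → F2, 𝔼 e : Fin N, Se.ind (∑ s, σ (vr e s) = rh e) ≤ 3 / 4

/-- the repeated equation versus variable game has small value -/
def Game (μ : ℝ) : Prop :=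
  ∀ (W : Type) (N : ℕ) (vr : ℕ → Fin 3 → W) (rh : ℕ → F2) (k q : ℕ) [NeZero q], 0 < N →
    NoLin N vr rh → ∀ (c : Fin k → Fin q) (X1 : (Fin k → Fin N) → Fin k × Fin 3 → F2)
      (X2 : View k W → Fin k × Fin 3 → F2), (∀ u, Aff rh (up u) (X1 u)) →
      𝔼 u : Fin k → Fin N, 𝔼 θ : Fin k → Fin 2 × Fin 3,
        Se.ind (X2 (view vr (up u) (typ c θ)) = embT (typ c θ) (X1 u)) ≤ μ ^ #{i | c i = 0}

variable [Fintype K] [DecidableEq K]

def Clean (dep : K → ℕ) {n : ℕ} (t : ℕ) (vr : ℕ → Fin 3 → W) (rh : ℕ → F2)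
    (Φ : View k W → Cfg K k → (Idx K n → ℕ) → ℝ) (u : Fin k → ℕ) : Prop :=
  ∀ τ Y τ' Y', Rel dep t (Pt := {x // Aff rh u x}) (fun x => ev Y (embT τ x.1))
    (fun x => ev Y' (embT τ' x.1)) (Φ (view vr u τ) Y) (Φ (view vr u τ') Y')

def Good (C : Finset K) (vr : ℕ → Fin 3 → W) (rh : ℕ → F2)
    (e : View k W → Cfg K k → (K → F2) → ℝ) (u : Fin k → ℕ) : Prop :=
  (∀ τ Y, e (view vr u τ) Y = e (view vr u full) (emb τ Y)) ∧ SubP (e (view vr u full)) ∧
    SwapInv C (e (view vr u full)) ∧ TvInv C (e (view vr u full)) ∧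
    FoldInv C (Aff rh u) (e (view vr u full))

/-- soundness of the parameters -/
def Snd (δ : ℝ) (dep : K → ℕ) (n t k : ℕ) : Prop :=
  ∀ (W : Type) (N : ℕ) (vr : ℕ → Fin 3 → W) (rh : ℕ → F2), 0 < N → NoLin N vr rh →
    ∀ Φ : View k W → Cfg K k → (Idx K n → ℕ) → ℝ,
      𝔼 u : Fin k → Fin N, Se.ind (Clean dep t vr rh Φ (up u)) *
        𝔼 Y : Cfg K k, spread t (Φ (view vr (up u) full) Y) ≤ δ * 2 ^ t * √n

end Outer

/-! Gap problems. -/

section Gap

variable {α : Type} [Enc α]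

def b2 (x : Bool) : F2 := if x then 1 else 0

/-- three variable linear equations with a gap -/
def LinGap (Yes No : α → Prop) (ε : ℝ) : Prop :=
  ∃ (W : Type) (_ : Enc W) (_ : DecidableEq W) (N : α → ℕ) (vr : α → ℕ → Fin 3 → W)
    (rh : α → ℕ → Bool), PT N ∧ (∀ s, PT fun x : α × ℕ => vr x.1 x.2 s) ∧
    (PT fun x : α × ℕ => rh x.1 x.2) ∧ ∀ a, 0 < N a ∧
      (Yes a → ∃ σ : W → F2,
        𝔼 e : Fin (N a), Se.ind (∑ s, σ (vr a e s) ≠ b2 (rh a e)) ≤ ε) ∧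
      (No a → NoLin (N a) (vr a) fun e => b2 (rh a e))

/-- number of violated implications: the pair `(p, q)` asks that `q` inside forces `p` inside -/
def viol {W : Type} (L : List (W × W)) (f : W → Bool) : ℕ := L.countP fun e => f e.2 && !f e.1

/-- gap for cuts of demands under implications -/
def IGap (Yes No : α → Prop) (ε γ σ K : ℝ) : Prop :=
  ∃ (W : Type) (_ : Enc W) (_ : DecidableEq W) (L : α → List (W × W)) (D : α → WL W),
    PT L ∧ PT D ∧ ∀ a, L a ≠ [] ∧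
      (Yes a → ∃ f : W → Bool, (viol (L a) f : ℝ) ≤ ε * (L a).length ∧
        γ * (L a).length ≤ cutN (D a) f) ∧
      (No a → ∀ f : W → Bool, (cutN (D a) f : ℝ) ≤ σ * (L a).length + K * viol (L a) f ∧
        (cutN (D a) f : ℝ) ≤ K * (L a).countP fun e => f e.1)

end Gap

end Pool.Agent.Lib.MP_a1e814_lc.Cf
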