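import Mathlib

/-! Weighted edge lists and cuts. -/

namespace Pool.Agent.Lib.MP_a1e814_lc

abbrev WL (W : Type) := List (W × W × ℕ)

/-- total weight of the pairs separated by `F` -/
def cutN {W : Type} (l : WL W) (F : W → Bool) : ℕ :=
  (l.map fun e => if F e.1 = F e.2.1 then 0 else e.2.2).sum

def push {W W' : Type} (φ : W → W') (c : ℕ) (l : WL W) : WL W' :=
  l.map fun e => (φ e.1, φ e.2.1, c * e.2.2)

section
variable {W W' : Type}

@[simp] theorem cutN_nil (F : W → Bool) : cutN [] F = 0 := rfl

theorem cutN_cons (e : W × W × ℕ) (l : WL W) (F : W → Bool) :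
    cutN (e :: l) F = (if F e.1 = F e.2.1 then 0 else e.2.2) + cutN l F := by
  simp [cutN]

theorem cutN_append (l l' : WL W) (F : W → Bool) : cutN (l ++ l') F = cutN l F + cutN l' F := by
  simp [cutN]

theorem cutN_push (φ : W → W') (c : ℕ) (l : WL W) (F : W' → Bool) :
    cutN (push φ c l) F = c * cutN l fun w => F (φ w) := by
  induction l with
  | nil => simp [push]
  | cons e l ih =>
    rw [push, List.map_cons, cutN_cons, cutN_cons, ← push, ih, mul_add]
    split_ifs <;> simp

theorem cutN_flatMap {ι : Type} (L : List ι) (g : ι → WL W) (F : W → Bool) :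
    cutN (L.flatMap g) F = (L.map fun i => cutN (g i) F).sum := by
  induction L with
  | nil => rfl
  | cons i L ih => rw [List.flatMap_cons, cutN_append, ih]; simp

theorem cutN_congr {l : WL W} {F F' : W → Bool}
    (h : ∀ e ∈ l, F e.1 = F' e.1 ∧ F e.2.1 = F' e.2.1) : cutN l F = cutN l F' := by
  unfold cutN
  congr 1
  exact List.map_congr_left fun e he => by rw [(h e he).1, (h e he).2]

theorem cutN_not (l : WL W) (F : W → Bool) : (cutN l fun w => !F w) = cutN l F := by
  unfold cutN
  simp

theorem cutN_const (l : WL W) (b : Bool) : (cutN l fun _ => b) = 0 := by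
  unfold cutN
  simp

end

end Pool.Agent.Lib.MP_a1e814_lc
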