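import Pool.Agent.Lib.MP_4d0379_lc.Rep

/-! Decoding of energies to fractional strategies of a projection game. -/

set_option linter.unusedSectionVars false

namespace Pool.Agent.Lib.MP_a1e814_lc.Dc

open Finset Function Pool.Agent.Lib.MP_4d0379_lc
open scoped BigOperators

variable {Ω I V A B L Z : Type} [Fintype Ω] [Fintype I] [Fintype A] [Fintype B] [DecidableEq A]
  [Nonempty Ω] [Nonempty I] [Fintype L] [Fintype Z] {v : Ω → I → V} {π : Ω → I → B → A} {γ : ℝ}

theorem sum_cl [DecidableEq Z] (cl : L → Z) (e : L → ℝ) (f : Z → ℝ) :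
    ∑ z, (∑ l with cl l = z, e l) * f z = ∑ l, e l * f (cl l) := by
  rw [← sum_fiberwise univ cl fun l => e l * f (cl l)]
  refine sum_congr rfl fun z _ => ?_
  rw [sum_mul]
  exact sum_congr rfl fun l hl => by rw [(mem_filter.1 hl).2]

theorem dec_one (h : Sound v π γ) (En : Ω × I → L → ℝ) (e0 : ∀ g l, 0 ≤ En g l)
    (e1 : ∀ g, ∑ l, En g l ≤ 1) (ev : ∀ g g', v g.1 g.2 = v g'.1 g'.2 → En g = En g')
    (Fb : Ω → Z → ℝ) (f0 : ∀ r z, 0 ≤ Fb r z) (f1 : ∀ r, ∑ z, Fb r z ≤ 1)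
    (lb : L → B) (lz : Z → A) (dn : Ω × I → L → Z)
    (hd : ∀ g l, lz (dn g l) = π g.1 g.2 (lb l)) :
    𝔼 g : Ω × I, ∑ l, En g l * Fb g.1 (dn g l) ≤ γ := by
  classical
  let rp : V → Ω × I := invFun fun g : Ω × I => v g.1 g.2
  have hr : ∀ g : Ω × I, En (rp (v g.1 g.2)) = En g := fun g =>
    ev _ _ (invFun_eq (f := fun g : Ω × I => v g.1 g.2) ⟨g, rfl⟩)
  have key := h (fun x b => ∑ l with lb l = b, En (rp x) l) (fun r a => ∑ z with lz z = a, Fb r z)
    ⟨fun x b => sum_nonneg fun l _ => e0 _ _, fun x => by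
      rw [sum_fiberwise univ lb]
      exact e1 _⟩
    ⟨fun r a => sum_nonneg fun z _ => f0 _ _, fun r => by
      rw [sum_fiberwise univ lz]
      exact f1 _⟩
  rw [expect_prod]
  refine le_trans (expect_le_expect fun ω _ => expect_le_expect fun i _ => ?_) key
  rw [sum_cl lb _ fun b => ∑ z with lz z = π ω i b, Fb ω z, hr (ω, i)]
  refine sum_le_sum fun l _ => mul_le_mul_of_nonneg_left ?_ (e0 _ _)
  exact single_le_sum (f := Fb ω) (fun z _ => f0 _ _) (mem_filter.2 ⟨mem_univ _, hd (ω, i) l⟩)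

variable {ι : Type} [Fintype ι] [DecidableEq ι]

theorem ex_upd {X : Type} [Fintype X] [Nonempty X] (i : ι) (f : (ι → X) → ℝ) :
    𝔼 u, f u = 𝔼 u, 𝔼 x, f (update u i x) := by
  let e : (ι → X) × X ≃ (ι → X) × X :=
    { toFun := fun p => (update p.1 i p.2, p.1 i)
      invFun := fun p => (update p.1 i p.2, p.1 i)
      left_inv := fun p => by simp
      right_inv := fun p => by simp }
  rw [← expect_prod fun p : (ι → X) × X => f (update p.1 i p.2),
    Fintype.expect_equiv e (fun p => f (update p.1 i p.2)) (fun p => f p.1) fun _ => rfl,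
    expect_prod fun p : (ι → X) × X => f p.1]
  simp only [Fintype.expect_const]

theorem dec_pos (h : Sound v π γ) (i : ι) (En : (ι → Ω × I) → L → ℝ) (e0 : ∀ u l, 0 ≤ En u l)
    (e1 : ∀ u, ∑ l, En u l ≤ 1)
    (ev : ∀ u g g', v g.1 g.2 = v g'.1 g'.2 → En (update u i g) = En (update u i g'))
    (Fb : (ι → Ω) → Z → ℝ) (f0 : ∀ r z, 0 ≤ Fb r z) (f1 : ∀ r, ∑ z, Fb r z ≤ 1)
    (lb : L → B) (lz : Z → A) (dn : (ι → Ω × I) → L → Z)
    (hd : ∀ u l, lz (dn u l) = π (u i).1 (u i).2 (lb l)) :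
    𝔼 u, ∑ l, En u l * Fb (fun j => (u j).1) (dn u l) ≤ γ := by
  rw [ex_upd i]
  refine expect_le univ_nonempty fun u _ => ?_
  have key := dec_one h (fun g => En (update u i g)) (fun _ => e0 _) (fun _ => e1 _) (ev u)
    (fun r => Fb (update (fun j => (u j).1) i r)) (fun _ => f0 _) (fun _ => f1 _) lb lz
    (fun g => dn (update u i g)) fun g l => by rw [hd, update_self]
  refine le_trans (le_of_eq (expect_congr rfl fun g _ => ?_)) key
  have : (fun j => (update u i g j).1) = update (fun j => (u j).1) i g.1 := by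
    funext j
    by_cases hj : j = i
    · subst hj
      simp
    · simp [update_of_ne hj]
  rw [this]

open Classical in
/-- `tp s i` says that position `i` has the top level -/
theorem dec_all {S : Type} [Fintype S] (h : Sound v π γ) (hγ : 0 ≤ γ) (tp : S → ι → Prop)
    (En : S → (ι → Ω × I) → L → ℝ) (e0 : ∀ s u l, 0 ≤ En s u l) (e1 : ∀ s u, ∑ l, En s u l ≤ 1)
    (ev : ∀ s i, tp s i → ∀ u g g', v g.1 g.2 = v g'.1 g'.2 →
      En s (update u i g) = En s (update u i g'))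
    (Fb : (ι → Ω) → Z → ℝ) (f0 : ∀ r z, 0 ≤ Fb r z) (f1 : ∀ r, ∑ z, Fb r z ≤ 1)
    (lb : ι → L → B) (lz : ι → Z → A) (dn : S → (ι → Ω × I) → L → Z)
    (hd : ∀ s i, tp s i → ∀ u l, lz i (dn s u l) = π (u i).1 (u i).2 (lb i l)) [Nonempty S] :
    𝔼 s, 𝔼 u, ∑ l, En s u l * Fb (fun j => (u j).1) (dn s u l)
      ≤ γ + 𝔼 s, if ∃ i, tp s i then (0 : ℝ) else 1 := by
  rw [← Fintype.expect_const (ι := S) γ, ← expect_add_distrib]
  refine expect_le_expect fun s _ => ?_
  split_ifs with hs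
  · obtain ⟨i, hi⟩ := hs
    rw [add_zero]
    exact dec_pos h i (En s) (e0 s) (e1 s) (ev s i hi) Fb f0 f1 (lb i) (lz i) (dn s) (hd s i hi)
  · refine expect_le univ_nonempty fun u _ => le_add_of_nonneg_of_le hγ ((sum_le_sum fun l _ =>
      mul_le_of_le_one_right (e0 _ _ _) ?_).trans (e1 s u))
    exact (single_le_sum (f := Fb _) (fun z _ => f0 _ _) (mem_univ _)).trans (f1 _)

open Classical in
/-- no position is at the top level -/
theorem no_top {X : Type} [Fintype X] [Nonempty X] (p : X → Prop) :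
    (𝔼 s : ι → X, if ∃ i, p (s i) then (0 : ℝ) else 1)
      = (𝔼 x, if p x then (0 : ℝ) else 1) ^ Fintype.card ι := by
  have e : ∀ s : ι → X, (if ∃ i, p (s i) then (0 : ℝ) else 1) = ∏ i, if p (s i) then 0 else 1 := by
    intro s
    split_ifs with hs
    · obtain ⟨i, hi⟩ := hs
      symm
      exact prod_eq_zero (mem_univ i) (if_pos hi)
    · exact (prod_eq_one fun i _ => if_neg fun hi => hs ⟨i, hi⟩).symm
  simp only [e, Fintype.expect_eq_sum_div_card]
  rw [div_pow, ← card_univ (α := ι), ← prod_const, prod_univ_sum, Fintype.piFinset_univ,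
    Fintype.card_fun, card_univ]
  push_cast
  rfl

end Pool.Agent.Lib.MP_a1e814_lc.Dc
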