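import Pool.Prelude.Def_H_3587d628

/-! Weighted Sparsest Cut: the notions in the statement. -/

namespace Pool.Agent.Lib.MP_a1e814_lc

/-- An instance: the number `n` of vertices (the vertices are `0, …, n - 1`), the list of edges
`(u, v, capacity)` and the list of demand triples `(s, t, demand)`. -/
abbrev Inst := ℕ × List (ℕ × ℕ × ℚ) × List (ℕ × ℕ × ℚ)

/-- The edges form a simple graph on the `n` vertices, the demands join vertices, and all numbers
are nonnegative. -/
def Valid (I : Inst) : Prop :=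
  (∀ e ∈ I.2.1, e.1 < I.1 ∧ e.2.1 < I.1 ∧ e.1 ≠ e.2.1 ∧ 0 ≤ e.2.2) ∧
    (I.2.1.map fun e => s(e.1, e.2.1)).Nodup ∧
    ∀ d ∈ I.2.2, d.1 < I.1 ∧ d.2.1 < I.1 ∧ 0 ≤ d.2.2

/-- The total weight of the triples with exactly one of the two vertices in `S`. -/
def cut (l : List (ℕ × ℕ × ℚ)) (S : Finset ℕ) : ℚ :=
  (l.map fun e => if (e.1 ∈ S ↔ e.2.1 ∈ S) then 0 else e.2.2).sum

/-- The ratio-cost of `S`. -/
def ratio (I : Inst) (S : Finset ℕ) : ℚ := cut I.2.1 S / cut I.2.2 S

/-- On every instance, and against every cut `T` separating a positive demand, the algorithm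
returns a cut that separates a positive demand and has ratio-cost at most `ρ` times that of `T`. -/
def Approximates (ρ : ℝ) (alg : Inst → List ℕ) : Prop :=
  ∀ I, Valid I → ∀ T ⊆ Finset.range I.1, 0 < cut I.2.2 T →
    0 < cut I.2.2 (alg I).toFinset ∧ (ratio I (alg I).toFinset : ℝ) ≤ ρ * ratio I T

end Pool.Agent.Lib.MP_a1e814_lc
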