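import Pool.Agent.Lib.MP_a1e814_lc.SeDefs
import Pool.Agent.Lib.Complexity.CookLevin

/-! From every constant factor to an unbounded factor: padding and a diagonal argument. -/

namespace Pool.Agent.Lib.MP_a1e814_lc.Dg

open Filter Function Pool.Agent.Lib.Complexity N68a2faeb N487b59b3

/-- an interpreter with fuel -/
def run : ℕ → Prog → St → Option St
  | 0, _, _ => none
  | _ + 1, .skip, s => some s
  | _ + 1, .push r b, s => some (update s r (b :: s r))
  | _ + 1, .pop r, s => some (update s r (s r).tail)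
  | n + 1, .seq P Q, s => (run n P s).bind (run n Q)
  | n + 1, .ite r P Q, s => if (s r).head? = some true then run n P s else run n Q s
  | n + 1, .loop r P, s => if s r = [] then some s else (run n P s).bind (run n (.loop r P))

theorem run_eq {P : Prog} {s s' : St} {t : ℕ} (h : Eval P s s' t) :
    1 ≤ t ∧ ∀ n, t ≤ n → run n P s = some s' := by
  induction h with
  | skip s => exact ⟨le_rfl, fun n hn => by obtain ⟨n, rfl⟩ := Nat.exists_eq_add_of_le' hn; rfl⟩
  | push r b s =>
    exact ⟨le_rfl, fun n hn => by obtain ⟨n, rfl⟩ := Nat.exists_eq_add_of_le' hn; rfl⟩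
  | pop r s => exact ⟨le_rfl, fun n hn => by obtain ⟨n, rfl⟩ := Nat.exists_eq_add_of_le' hn; rfl⟩
  | seq _ _ ih1 ih2 =>
    refine ⟨by omega, fun n hn => ?_⟩
    obtain ⟨n, rfl⟩ : ∃ m, n = m + 1 := ⟨n - 1, by omega⟩
    rw [run, ih1.2 n (by omega)]
    exact ih2.2 n (by omega)
  | iteT h _ ih =>
    refine ⟨by omega, fun n hn => ?_⟩
    obtain ⟨n, rfl⟩ : ∃ m, n = m + 1 := ⟨n - 1, by omega⟩
    rw [run, if_pos h]
    exact ih.2 n (by omega)
  | iteF h _ ih =>
    refine ⟨by omega, fun n hn => ?_⟩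
    obtain ⟨n, rfl⟩ : ∃ m, n = m + 1 := ⟨n - 1, by omega⟩
    rw [run, if_neg h]
    exact ih.2 n (by omega)
  | loop0 h =>
    refine ⟨le_rfl, fun n hn => ?_⟩
    obtain ⟨n, rfl⟩ := Nat.exists_eq_add_of_le' hn
    rw [run, if_pos h]
  | loopS h _ _ ih1 ih2 =>
    refine ⟨by omega, fun n hn => ?_⟩
    obtain ⟨n, rfl⟩ : ∃ m, n = m + 1 := ⟨n - 1, by omega⟩
    rw [run, if_neg h, ih1.2 n (by omega)]
    exact ih2.2 n (by omega)
  | mono _ h ih => exact ⟨ih.1.trans h, fun n hn => ih.2 n (h.trans hn)⟩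

theorem eval_det {P : Prog} {s s' s'' : St} {t u : ℕ} (h : Eval P s s' t) (h' : Eval P s s'' u) :
    s' = s'' :=
  Option.some.inj (((run_eq h).2 (t + u) (by omega)).symm.trans ((run_eq h').2 _ (by omega)))

/-- the number of a program -/
def code : Prog → ℕ
  | .skip => Nat.pair 0 0
  | .push r b => Nat.pair 1 (Nat.pair r b.toNat)
  | .pop r => Nat.pair 2 r
  | .seq P Q => Nat.pair 3 (Nat.pair (code P) (code Q))
  | .ite r P Q => Nat.pair 4 (Nat.pair r (Nat.pair (code P) (code Q)))
  | .loop r P => Nat.pair 5 (Nat.pair r (code P))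

theorem code_inj : Injective code := by
  intro P
  induction P with
  | skip => intro Q h; cases Q <;> simp_all [code]
  | push r b =>
    intro Q h
    cases Q with
    | push r' b' => cases b <;> cases b' <;> simp_all [code]
    | _ => simp [code] at h
  | pop r => intro Q h; cases Q <;> simp_all [code]
  | seq P P' ih ih' =>
    intro Q h
    cases Q with
    | seq Q Q' =>
      simp only [code, Nat.pair_eq_pair, true_and] at h
      rw [ih h.1, ih' h.2]
    | _ => simp [code] at h
  | ite r P P' ih ih' =>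
    intro Q h
    cases Q with
    | ite r' Q Q' =>
      simp only [code, Nat.pair_eq_pair, true_and] at h
      rw [h.1, ih h.2.1, ih' h.2.2]
    | _ => simp [code] at h
  | loop r P ih =>
    intro Q h
    cases Q with
    | loop r' Q =>
      simp only [code, Nat.pair_eq_pair, true_and] at h
      rw [h.1, ih h.2]
    | _ => simp [code] at h

/-- there are countably many polynomial time functions -/
theorem enum {α β : Type} [N487b59b3 α] [N487b59b3 β] [Nonempty β] :
    ∃ f : ℕ → α → β, ∀ g, IsPolyTime g → ∃ i, f i = g := by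
  have h1 : ∀ g : {g : α → β // IsPolyTime g}, ∃ P : Prog, ∀ a, ∃ t,
      Eval P (fun i => if i = 0 then bitEncode a else [])
        (update (fun i => if i = 0 then bitEncode a else []) 0 (bitEncode (g.1 a))) t := by
    rintro ⟨g, ⟨t⟩⟩
    obtain ⟨F, hF, e⟩ := pt_of_tm2 t
    obtain ⟨P, N, p, hp⟩ := hF.raw
    refine ⟨P, fun a => ?_⟩
    have := hp (bitEncode a) (fun i => if i = 0 then bitEncode a else []) rfl
      fun i hi _ => if_neg hi.ne'
    have e' : F (bitEncode a) = bitEncode (g a) := e a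
    simp only [e'] at this
    exact ⟨_, this⟩
  choose P hP using h1
  have h2 : Injective fun g => code (P g) := fun g g' e => Subtype.ext (funext fun a => by
    obtain ⟨t, ht⟩ := hP g a
    obtain ⟨u, hu⟩ := hP g' a
    rw [← code_inj e] at hu
    have := congrFun (eval_det ht hu) 0
    rw [update_self, update_self] at this
    exact bitEncode_injective this)
  have h3 : {g : α → β | IsPolyTime g}.Countable := h2.countable
  obtain ⟨f, hf⟩ := Set.countable_iff_exists_subset_range.1 h3
  exact ⟨f, fun g hg => hf hg⟩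

/-- more isolated vertices -/
def pad (I : Inst) : Inst := (2 * I.1 + 1, I.2)

theorem pad_poly : IsPolyTime pad := by
  refine tm2_of_str (F := fun s => true :: true :: s) (by fun_prop) fun I => ?_
  change true :: true :: (delimit (Computability.encodeNat I.1) ++ bitEncode I.2) =
    delimit (Computability.encodeNat (2 * I.1 + 1)) ++ bitEncode I.2
  rw [encodeNat_eq, encodeNat_eq, Nat.bit1_bits]
  rfl

theorem from_succ {n₀ : ℕ} {C : ℝ} {alg : Inst → List ℕ}
    (h : ApproximatesFrom (n₀ + 1) (fun _ => C) alg) :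
    ApproximatesFrom n₀ (fun _ => C) fun I => alg (pad I) := by
  intro I hI hn T hT h0
  have l : I.1 ≤ 2 * I.1 + 1 := by omega
  refine h (pad I) ⟨fun e he => ?_, hI.2.1, fun e he => ?_⟩ (by show _ ≤ 2 * I.1 + 1; omega) T
    (hT.trans (Finset.range_mono l)) h0
  · have := hI.1 e he
    exact ⟨this.1.trans_le l, this.2.1.trans_le l, this.2.2⟩
  · have := hI.2.2 e he
    exact ⟨this.1.trans_le l, this.2.1.trans_le l, this.2.2⟩

/-- small instances do not matter -/
theorem from_all {C : ℝ} {Q : Prop} (H : ∀ alg, IsPolyTime alg → Approximates C alg → Q) (n₀ : ℕ) :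
    ∀ alg, IsPolyTime alg → ApproximatesFrom n₀ (fun _ => C) alg → Q := by
  induction n₀ with
  | zero => exact fun alg h1 h2 => H alg h1 fun I hI => h2 I hI (Nat.zero_le _)
  | succ n ih => exact fun alg h1 h2 => ih _ (isPolyTime_comp h1 pad_poly) (from_succ h2)

theorem cut_nn {l : List (ℕ × ℕ × ℚ)} (h : ∀ e ∈ l, 0 ≤ e.2.2) (S : Finset ℕ) : 0 ≤ cut l S := by
  refine List.sum_nonneg fun x hx => ?_
  obtain ⟨e, he, rfl⟩ := List.mem_map.1 hx
  split_ifs
  exacts [le_rfl, h e he]

/-- the algorithm has ratio `C` on the instances with `n` vertices -/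
def Good (alg : Inst → List ℕ) (n : ℕ) (C : ℝ) : Prop :=
  ∀ I, Valid I → I.1 = n → ∀ T ⊆ Finset.range I.1, 0 < cut I.2.2 T →
    0 < cut I.2.2 (alg I).toFinset ∧ (ratio I (alg I).toFinset : ℝ) ≤ C * ratio I T

theorem Good.mono {alg : Inst → List ℕ} {n : ℕ} {C C' : ℝ} (h : Good alg n C) (k : C ≤ C') :
    Good alg n C' := fun I hI hn T hT h0 => by
  refine ⟨(h I hI hn T hT h0).1, (h I hI hn T hT h0).2.trans ?_⟩
  refine mul_le_mul_of_nonneg_right k ?_
  exact_mod_cast div_nonneg (cut_nn (fun e he => (hI.1 e he).2.2.2) T) h0.le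

/-- hardness for every constant factor gives hardness for some unbounded factor -/
theorem diag {Q : Prop} (H : ∀ C : ℝ, 0 < C → ∀ alg, IsPolyTime alg → Approximates C alg → Q) :
    ∃ ρ : ℕ → ℝ, Monotone ρ ∧ Tendsto ρ atTop atTop ∧
      ∀ n₀ alg, IsPolyTime alg → ApproximatesFrom n₀ ρ alg → Q := by
  classical
  by_cases hQ : Q
  · exact ⟨fun n => n, Nat.mono_cast, tendsto_natCast_atTop_atTop, fun _ _ _ _ => hQ⟩
  obtain ⟨f, hf⟩ := enum (α := Inst) (β := List ℕ)
  have h1 : ∀ j : ℕ, ∃ n, j ≤ n ∧ (IsPolyTime (f j.unpair.1) → ¬ Good (f j.unpair.1) n (j + 1)) := by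
    intro j
    by_contra c
    push Not at c
    exact hQ (from_all (H (j + 1) (by positivity)) j _ (c j le_rfl).1
      fun I hI hn => (c I.1 hn).2 I hI rfl)
  choose a ha hb using h1
  have ne : ∀ n, ∃ j, n ≤ a j := fun n => ⟨n, ha n⟩
  have mo : Monotone fun n => Nat.find (ne n) := fun n n' h =>
    Nat.find_min' _ (h.trans (Nat.find_spec (ne n')))
  refine ⟨fun n => Nat.find (ne n), Nat.mono_cast.comp mo, ?_, fun n₀ alg h1 h2 => ?_⟩
  · refine tendsto_natCast_atTop_atTop.comp (tendsto_atTop_atTop_of_monotone mo fun J => ?_)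
    refine ⟨(Finset.range J).sup a + 1, (Nat.le_find_iff _ _).2 fun j hj c => ?_⟩
    have := Finset.le_sup (f := a) (Finset.mem_range.2 hj)
    omega
  · obtain ⟨i, rfl⟩ := hf alg h1
    have h3 := hb (Nat.pair i n₀)
    rw [Nat.unpair_pair] at h3
    refine (h3 h1 (Good.mono (C := Nat.find (ne (a (Nat.pair i n₀)))) (fun I hI hn => ?_) ?_)).elim
    · rw [← hn]
      exact h2 I hI (hn ▸ (Nat.right_le_pair i n₀).trans (ha _))
    · have : Nat.find (ne (a (Nat.pair i n₀))) ≤ Nat.pair i n₀ := Nat.find_min' _ le_rfl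
      exact_mod_cast this.trans (Nat.le_succ _)

end Pool.Agent.Lib.MP_a1e814_lc.Dg
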