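import Pool.Agent.Lib.MP_a1e814_lc.DsSound
import Pool.Agent.Lib.MP_a1e814_lc.Pow
import Pool.Agent.Lib.MP_4d0379_lc.Red

/-! The two terminal instance made of blocks of a label cover instance. -/

set_option linter.unusedSectionVars false

namespace Pool.Agent.Lib.MP_a1e814_lc.Ds

open Finset Function Pool.Agent.Lib.Complexity Pool.Agent.Lib.MP_4d0379_lc
open scoped BigOperators

abbrev Cs (B : Type) (l : ℕ) := Fin l × (Fin l → B) × B × B × Tb l × Tb l
  × Lv × (Lb l → Th) × (Lb l → Th)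

def mkIx (Ω I B : Type) (l : ℕ) : Cs B l × (Fin l → Ω × I) × Ω × I × I ≃ Ix Ω I B l where
  toFun z := (z.1.1, fun k => (z.2.1 k, z.1.2.1 k), z.2.2.1, z.2.2.2.1, z.2.2.2.2, z.1.2.2)
  invFun κ := ((κ.1, fun k => (κ.2.1 k).2, κ.2.2.2.2.2), fun k => (κ.2.1 k).1, κ.2.2.1, κ.2.2.2.1,
    κ.2.2.2.2.1)
  left_inv _ := rfl
  right_inv _ := rfl

variable {α : Type} [Enc α] (G : LC α) (l : ℕ)

abbrev Cd := (Fin l → G.B) × Tb l

noncomputable instance : Enc (Cd G l) := encFin _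
noncomputable instance : Enc (Cs G.B l) := encFin _

abbrev Wd := Bool ⊕ (List G.V × Cd G l)

variable {G l}

def emb (w : Vx G.V G.B l) : Wd G l := .inr (List.ofFn fun k => (w.1 k).1, fun k => (w.1 k).2, w.2)

/-- terminals and the eight end points -/
def loc (w : ℕ → Vx G.V G.B l) (k : ℕ) : Wd G l := [.inl false, .inl true].getD k (emb (w (k - 2)))

variable (G l)

def dig (a : α) (n : ℕ) (k : Fin l) : ℕ × ℕ :=
  (n / (G.M a * G.D a) ^ (k : ℕ) % (G.M a * G.D a) / G.D a,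
    n / (G.M a * G.D a) ^ (k : ℕ) % (G.M a * G.D a) % G.D a)

abbrev Arg := α × Cs G.B l × ℕ × ℕ × ℕ × ℕ

noncomputable def vx (z : Arg G l) : ℕ → Wd G l :=
  loc (vt (G.v z.1) (G.π z.1) (mkIx ℕ ℕ G.B l (z.2.1, dig G l z.1 z.2.2.1, z.2.2.2)))

noncomputable def glue (L : WL ℕ) (a : α) : WL (Wd G l) :=
  (univ : Finset (Cs G.B l)).toList.flatMap fun c =>
    (List.range ((G.M a * G.D a) ^ l)).flatMap fun n => (List.range (G.M a)).flatMap fun ω =>
    (List.range (G.D a)).flatMap fun i => (List.range (G.D a)).flatMap fun i' =>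
      push (vx G l (a, c, n, ω, i, i')) 1 L

theorem pt_ofFn {β γ : Type} [Enc β] [Enc γ] {n : ℕ} {f : β → Fin n → γ}
    (h : ∀ k, PT fun a => f a k) : PT fun a => List.ofFn (f a) := by
  induction n with
  | zero => exact (PT.const []).of_eq fun a => by simp
  | succ n ih => exact ((h 0).cons (ih fun k => h k.succ)).of_eq fun a => by simp

theorem pt_pick {β γ : Type} [Enc β] [Enc γ] [Fintype γ] (P : γ → Prop) {g : β → γ} (hg : PT g)
    {u w : β → Vx G.V G.B l} (h1 : PT fun z => emb (u z)) (h2 : PT fun z => emb (w z)) :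
    PT fun z => emb (pick (P (g z)) (u z) (w z)) := by
  classical
  exact (PT.ite (pt_dec_fin P hg) h1 h2).of_eq fun z => by unfold pick; split_ifs <;> rfl

theorem pt_vx (k : ℕ) : PT fun z : Arg G l => vx G l z k := by
  classical
  have pM := G.pM
  have pD := G.pD
  have pc : PT fun z : Arg G l => z.2.1 := by fun_prop
  have p0 : ∀ k, PT fun z : Arg G l => G.v z.1 (dig G l z.1 z.2.2.1 k).1 (dig G l z.1 z.2.2.1 k).2 :=
    fun k => G.pv.comp (f := fun z : Arg G l =>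
      (z.1, (dig G l z.1 z.2.2.1 k).1, (dig G l z.1 z.2.2.1 k).2)) (by unfold dig; fun_prop)
  have p1 : PT fun z : Arg G l => G.v z.1 z.2.2.2.1 z.2.2.2.2.1 :=
    G.pv.comp (f := fun z : Arg G l => (z.1, z.2.2.2.1, z.2.2.2.2.1)) (by fun_prop)
  have p2 : PT fun z : Arg G l => G.v z.1 z.2.2.2.1 z.2.2.2.2.2 :=
    G.pv.comp (f := fun z : Arg G l => (z.1, z.2.2.2.1, z.2.2.2.2.2)) (by fun_prop)
  have p3 : PT fun z : Arg G l => G.π z.1 z.2.2.2.1 z.2.2.2.2.1 :=
    G.pπ.comp (f := fun z : Arg G l => (z.1, z.2.2.2.1, z.2.2.2.2.1)) (by fun_prop)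
  have p4 : PT fun z : Arg G l => G.π z.1 z.2.2.2.1 z.2.2.2.2.2 :=
    G.pπ.comp (f := fun z : Arg G l => (z.1, z.2.2.2.1, z.2.2.2.2.2)) (by fun_prop)
  have q0 : ∀ x : Cs G.B l → Tb l, PT fun z : Arg G l => emb (nm (G.v z.1) ∘ fun k =>
      (dig G l z.1 z.2.2.1 k, z.2.1.2.1 k), x z.2.1) := fun x =>
    ((pt_ofFn p0).prodMk ((PT.of_fintype fun c : Cs G.B l => ((c.2.1, x c) : Cd G l)).comp pc)).inr
  have q1 : ∀ (w : Arg G l → G.V) (b : Cs G.B l → G.B) (x : Cs G.B l → Tb l), PT w →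
      PT fun z : Arg G l => emb (update (nm (G.v z.1) ∘ fun k =>
      (dig G l z.1 z.2.2.1 k, z.2.1.2.1 k)) z.2.1.1 (w z, b z.2.1), x z.2.1) := fun w b x hw =>
    ((pt_ofFn fun k => PT.ite (pt_dec_fin (fun c : Cs G.B l => k = c.1) pc) hw (p0 k)).prodMk
      ((PT.of_fintype fun c : Cs G.B l => ((fun k => if k = c.1 then b c else c.2.1 k, x c) :
        Cd G l)).comp pc)).inr.of_eq fun z => by
      simp only [emb, update_apply, apply_ite Prod.fst, apply_ite Prod.snd]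
      rfl
  rcases k with _ | _ | _ | _ | _ | _ | _ | _ | _ | k
  · exact PT.const _
  · exact PT.const _
  · exact q0 fun c => c.2.2.2.2.1 ⊓ c.2.2.2.2.2.1
  · exact q0 fun c => c.2.2.2.2.2.1
  · exact pt_pick G l (fun c : Cs G.B l => c.2.2.1 ≠ c.2.2.2.1 ∧
      Rel c.1 c.2.2.2.2.1 c.2.2.2.2.2.1) pc (q1 _ (fun c => c.2.2.1) (fun c => c.2.2.2.2.1) p1)
      (q1 _ (fun c => c.2.2.2.1) (fun c => c.2.2.2.2.2.1) p1)
  · exact q1 _ (fun c => c.2.2.2.1) (fun c => c.2.2.2.2.2.1) p1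
  · exact pt_pick G l (fun c : (G.B → G.A) × (G.B → G.A) × Cs G.B l =>
      c.1 c.2.2.2.2.1 ≠ c.2.1 c.2.2.2.2.2.1 ∧ Rel c.2.2.1 c.2.2.2.2.2.2.1 c.2.2.2.2.2.2.2.1)
      (p3.prodMk (p4.prodMk pc)) (q1 _ (fun c => c.2.2.1) (fun c => c.2.2.2.2.1) p1)
      (q1 _ (fun c => c.2.2.2.1) (fun c => c.2.2.2.2.2.1) p2)
  · exact q1 _ (fun c => c.2.2.2.1) (fun c => c.2.2.2.2.2.1) p2
  · exact q0 fun c => thr c.2.2.2.2.2.2.1.1 c.2.2.2.2.2.2.2.1
  · exact q0 fun c => (rich (Fintype.card G.B) l).piecewise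
      (thr c.2.2.2.2.2.2.1.1 c.2.2.2.2.2.2.2.2) (thr c.2.2.2.2.2.2.1.1 c.2.2.2.2.2.2.2.1)

theorem pt_glue (L : WL ℕ) : PT (glue G l L) := by
  have pM := G.pM
  have pD := G.pD
  have h : PT fun z : Arg G l => push (vx G l z) 1 L := by
    induction L with
    | nil => exact PT.const _
    | cons e L ih => exact ((pt_vx G l _).prodMk ((pt_vx G l _).prodMk (PT.const _))).cons ih
  unfold glue
  refine PT.flatMap (PT.const _) (PT.flatMap (by fun_prop) (PT.flatMap (by fun_prop)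
    (PT.flatMap (by fun_prop) (PT.flatMap (by fun_prop) ?_))))
  exact h.comp (f := fun x : ((((α × Cs G.B l) × ℕ) × ℕ) × ℕ) × ℕ =>
    (x.1.1.1.1.1, x.1.1.1.1.2, x.1.1.1.2, x.1.1.2, x.1.2, x.2)) (by fun_prop)

noncomputable def num (a : α) : ℕ :=
  Fintype.card (Cs G.B l) * ((G.M a * G.D a) ^ l * (G.M a * (G.D a * G.D a)))

theorem sum_map_range (n : ℕ) (f : ℕ → ℕ) : ((List.range n).map f).sum = ∑ i : Fin n, f i := by
  rw [← List.sum_toFinset _ List.nodup_range, List.toFinset_range, sum_range]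

theorem cut_glue (L : WL ℕ) (a : α) (F : Wd G l → Bool) : (cutN (glue G l L a) F : ℝ)
    = num G l a * 𝔼 κ, (cutN L fun k => F (loc (vt (G.vv a) (G.ππ a) κ) k) : ℝ) := by
  have h : num G l a = Fintype.card (Ix (Fin (G.M a)) (Fin (G.D a)) G.B l) := by
    rw [← Fintype.card_congr (mkIx _ _ _ _), Fintype.card_prod (Cs G.B l)]
    simp [num]
  rw [h, Fintype.card_mul_expect, ← (mkIx _ _ _ _).sum_comp, Fintype.sum_prod_type]
  simp only [glue, cutN_flatMap, cutN_push, one_mul, sum_map_toList, sum_map_range]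
  push_cast
  refine sum_congr rfl fun c _ => ?_
  rw [Fintype.sum_prod_type, ← (finFunctionFinEquiv.symm.trans
    (Equiv.piCongrRight fun _ => finProdFinEquiv.symm)).sum_comp]
  simp only [Fintype.sum_prod_type]
  rfl

def lE : WL ℕ := [(0, 2, 1), (2, 3, 1), (3, 1, 1), (0, 4, 1), (4, 5, 1), (5, 1, 1), (0, 6, 1),
  (6, 7, 1), (7, 1, 1)]

def lD : WL ℕ := [(8, 9, 1)]

theorem cut_lD (g : ℕ → Bool) : (cutN lD g : ℝ) = ind (g 8 ≠ g 9) := by
  simp only [lD, cutN_cons, cutN_nil]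
  cases g 8 <;> cases g 9 <;> simp [ind]

theorem cut_lE {g : ℕ → Bool} (h0 : g 0 = false) (h1 : g 1 = true) :
    (cutN lE g : ℝ) = 3 + 2 * (vio (g 2) (g 3) + (vio (g 4) (g 5) + vio (g 6) (g 7))) := by
  simp only [lE, cutN_cons, cutN_nil, h0, h1]
  cases g 2 <;> cases g 3 <;> cases g 4 <;> cases g 5 <;> cases g 6 <;> cases g 7 <;>
    norm_num [vio, ind]

theorem le_cut_lE {g : ℕ → Bool} (h1 : g 1 = false) : bl (g 3) ≤ (cutN lE g : ℝ) := by
  cases h : g 3
  · simp [bl]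
  · have : 1 ≤ cutN lE g := by
      simp only [lE, cutN_cons, h, h1]
      simp
      omega
    simpa [bl] using this

variable {G l}

theorem cut_sep (l0 : 0 < l) (a : α) {F : Wd G l → Bool} (h0 : F (.inl false) = false)
    (h1 : F (.inl true) = true) : (cutN (glue G l lE a) F : ℝ) = 3 * num G l a + 2 * (num G l a *
      𝔼 κ, (vio (F (emb (vt (G.vv a) (G.ππ a) κ 0))) (F (emb (vt (G.vv a) (G.ππ a) κ 1)))
      + (vio (F (emb (vt (G.vv a) (G.ππ a) κ 2))) (F (emb (vt (G.vv a) (G.ππ a) κ 3)))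
      + vio (F (emb (vt (G.vv a) (G.ππ a) κ 4))) (F (emb (vt (G.vv a) (G.ππ a) κ 5)))))) := by
  have : Nonempty (Fin l) := ⟨⟨0, l0⟩⟩
  rw [cut_glue, expect_congr rfl fun κ _ => cut_lE (g := fun k => F (loc _ k)) h0 h1,
    expect_add_distrib, Fintype.expect_const, ← mul_expect, mul_add, mul_comm, mul_left_comm]
  rfl

theorem cut_dem (a : α) (F : Wd G l → Bool) : (cutN (glue G l lD a) F : ℝ) = num G l a *
    𝔼 κ, ind (F (emb (vt (G.vv a) (G.ππ a) κ 6)) ≠ F (emb (vt (G.vv a) (G.ππ a) κ 7))) := by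
  simp only [cut_glue, cut_lD]
  rfl

theorem tgap {Yes No : α → Prop} (h : ∀ δ > 0, LCGap Yes No δ) :
    ∃ K, 0 ≤ K ∧ TGap Yes No (33445 / 435600) (14510 / 435600) K := by
  classical
  obtain ⟨θ, θ0, n, c, c0, hs⟩ := sound (by norm_num : (0 : ℝ) < 1 / 10)
  obtain ⟨G, hG⟩ := h (θ ^ 2) (by positivity)
  obtain ⟨l, h1, h2⟩ : ∃ l, 4 * Fintype.card G.B * n ^ 2 ≤ l ∧ 4000 * Fintype.card G.B ≤ l :=
    ⟨_, le_max_left _ _, le_max_right _ _⟩
  have l0 : 0 < l := lt_of_lt_of_le (by have := Fintype.card_pos (α := G.B); omega) h2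
  have : Nonempty (Fin l) := ⟨⟨0, l0⟩⟩
  obtain ⟨K, hK, K0⟩ : ∃ K : ℝ, K = c * (Fintype.card G.B ^ 2 * Fintype.card (Tb l × Tb l))
      ∧ 0 ≤ K := ⟨_, rfl, by positivity⟩
  have v0 : ∀ a (F : Wd G l → Bool), 0 ≤ num G l a *
      𝔼 κ, (vio (F (emb (vt (G.vv a) (G.ππ a) κ 0))) (F (emb (vt (G.vv a) (G.ππ a) κ 1)))
      + (vio (F (emb (vt (G.vv a) (G.ππ a) κ 2))) (F (emb (vt (G.vv a) (G.ππ a) κ 3)))
      + vio (F (emb (vt (G.vv a) (G.ππ a) κ 4))) (F (emb (vt (G.vv a) (G.ππ a) κ 5))))) :=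
    fun a F => mul_nonneg (by positivity) (expect_nonneg fun _ _ =>
      add_nonneg (ind_nn _) (add_nonneg (ind_nn _) (ind_nn _)))
  have flip : ∀ {P : (Wd G l → Bool) → Prop} (F : Wd G l → Bool), (∀ F, P (fun w => !F w) → P F) →
      (∀ F, F (.inl false) = false → P F) → P F := fun F h1 h2 => by
    cases h : F (.inl false)
    · exact h2 F h
    · exact h1 F (h2 _ (by simp [h]))
  refine ⟨K + Fintype.card (Tb l), by positivity, Wd G l, inferInstance, inferInstance, .inl false,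
    .inl true, glue G l lE, glue G l lD, fun a => 3 * num G l a, pt_glue G l _, pt_glue G l _, ?_,
    by simp, fun a => ⟨?_, fun F => ?_, fun ha => ?_, fun ha F => ?_⟩⟩
  · have := G.pM
    have := G.pD
    unfold num
    fun_prop
  · have := G.hM a
    have := G.hD a
    have := Fintype.card_pos (α := Cs G.B l)
    unfold num
    positivity
  · refine flip (P := fun F => F (.inl false) ≠ F (.inl true) →
      3 * num G l a ≤ cutN (glue G l lE a) F) F (fun F h => by simpa [cutN_not] using h)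
      fun F h0 h1 => ?_
    have := cut_sep l0 a h0 (by simpa [h0] using h1)
    have h3 : (3 * num G l a : ℝ) ≤ cutN (glue G l lE a) F := by linarith [v0 a F]
    exact_mod_cast h3
  · obtain ⟨σ, τ, hc⟩ := (hG a).1 ha
    let F : Wd G l → Bool := Sum.elim id fun w => w.2.2 fun k =>
      decide (w.1[(k : ℕ)]?.map σ = some (w.2.1 k))
    have hF : ∀ w, F (emb w) = hon σ w := fun w => by simp [F, emb, hon, eq_comm]
    have h3 : ∀ {a b : Bool}, a ≤ b → vio a b = 0 := fun {a b} h => by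
      revert h
      cases a <;> cases b <;> simp [vio, ind]
    have h4 := cut_sep l0 a (F := F) rfl rfl
    simp only [hF, h3 (hon_le _ _ hc _).1, h3 (hon_le _ _ hc _).2.1, h3 (hon_le _ _ hc _).2.2,
      add_zero, Fintype.expect_const, mul_zero] at h4
    refine ⟨F, by simp [F], by exact_mod_cast h4, ?_⟩
    have h5 := hon_dem (G.vv a) (G.ππ a) l0 σ
    have h6 : 4 * (Fintype.card G.B : ℝ) / l ≤ 1 / 1000 := by
      have : (4000 * Fintype.card G.B : ℝ) ≤ l := by exact_mod_cast h2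
      rw [div_le_iff₀ (by exact_mod_cast l0)]
      linarith
    rw [cut_dem]
    simp only [hF]
    push_cast
    have := mul_le_mul_of_nonneg_left (le_trans (by linarith : (33445 / 145200 : ℝ) ≤ _) h5)
      (Nat.cast_nonneg (num G l a))
    linarith
  · refine flip (P := fun F => (F (.inl false) ≠ F (.inl true) → (cutN (glue G l lD a) F : ℝ) ≤
      14510 / 435600 * (3 * num G l a : ℕ) + (K + Fintype.card (Tb l)) * (cutN (glue G l lE a) F
        - (3 * num G l a : ℕ))) ∧ (F (.inl false) = F (.inl true) → (cutN (glue G l lD a) F : ℝ) ≤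
      (K + Fintype.card (Tb l)) * cutN (glue G l lE a) F)) F
      (fun F h => by simpa only [cutN_not, ne_eq, Bool.not_inj_iff] using h)
      fun F h0 => ⟨fun h3 => ?_, fun h3 => ?_⟩
    · have h4 := mul_le_mul_of_nonneg_left (hs (G.vv a) (G.ππ a) l0 h1 ((hG a).2 ha).coll
        fun w => F (emb w)) (Nat.cast_nonneg (num G l a))
      rw [cut_sep l0 a h0 (by simpa [h0] using h3), cut_dem]
      rw [← hK] at h4
      push_cast
      nlinarith [mul_nonneg K0 (v0 a F), mul_nonneg (Nat.cast_nonneg (Fintype.card (Tb l))) (v0 a F)]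
    · have h4 := mul_le_mul_of_nonneg_left (dem_le (G.vv a) (G.ππ a) l0 fun w => F (emb w))
        (Nat.cast_nonneg (num G l a))
      have h5 : num G l a * 𝔼 κ, bl (F (emb (vt (G.vv a) (G.ππ a) κ 1)))
          ≤ cutN (glue G l lE a) F := by
        rw [cut_glue]
        exact mul_le_mul_of_nonneg_left (expect_le_expect fun κ _ =>
          le_cut_lE (g := fun k => F (loc _ k)) (h3.symm.trans h0)) (Nat.cast_nonneg _)
      rw [cut_dem]
      nlinarith [mul_le_mul_of_nonneg_left h5 (Nat.cast_nonneg (Fintype.card (Tb l))),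
        mul_nonneg K0 (Nat.cast_nonneg (cutN (glue G l lE a) F))]

end Pool.Agent.Lib.MP_a1e814_lc.Ds
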