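import Pool.Agent.Lib.MP_a1e814_lc.DsOdds

/-! The numerical optimisation over the levels. -/

namespace Pool.Agent.Lib.MP_a1e814_lc.Ds

open Finset

/-- weights of the levels -/
def wt (i : ℕ) : ℕ := [140, 123, 100, 100, 123, 140].getD i 0

/-- odds constants, in millionths -/
def kn (i : ℕ) : ℕ := [9267, 37690, 68828, 37690, 9267].getD i 1

noncomputable def kk (i : ℕ) : ℝ := kn i / 10 ^ 6

def hh (α : ℝ) : ℝ := 4 * (α * (1 - α))

theorem hh_nn {α : ℝ} (h0 : 0 ≤ α) (h1 : α ≤ 1) : 0 ≤ hh α :=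
  mul_nonneg (by norm_num) (mul_nonneg h0 (by linarith))

theorem hh_le (α : ℝ) : hh α ≤ 1 := by unfold hh; nlinarith [sq_nonneg (2 * α - 1)]

def Reg (i : ℕ) (α α' : ℝ) : Prop := 0 ≤ α' ∧ α' ≤ 1 ∧ ph (kk i) α (1 - α') ≤ 1 / 10 ^ 16

/-- the best total of the higher levels -/
noncomputable def pot : ℕ → ℝ → ℝ
  | 0, _ => 0
  | i + 1, α => sSup ((fun α' => wt i * hh α' + pot i α') '' {α' | Reg i α α'})

theorem pot_bd (i : ℕ) : ∀ α, 0 ≤ pot i α ∧ pot i α ≤ 140 * i := by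
  induction i with
  | zero => simp [pot]
  | succ i ih =>
    intro α
    have hw : (wt i : ℝ) ≤ 140 := by
      have : wt i ≤ 140 := by
        unfold wt
        rcases i with _ | _ | _ | _ | _ | _ | i <;> simp
      exact_mod_cast this
    refine ⟨Real.sSup_nonneg ?_, Real.sSup_le ?_ (by positivity)⟩
    · rintro _ ⟨β, hβ, rfl⟩
      exact add_nonneg (mul_nonneg (by positivity) (hh_nn hβ.1 hβ.2.1)) (ih β).1
    · rintro _ ⟨β, hβ, rfl⟩
      have := mul_le_mul hw (hh_le β) (hh_nn hβ.1 hβ.2.1) (by norm_num)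
      have := (ih β).2
      push_cast
      linarith

theorem le_pot {i : ℕ} {α α' : ℝ} (h : Reg i α α') : wt i * hh α' + pot i α' ≤ pot (i + 1) α := by
  refine le_csSup ⟨wt i + 140 * i, ?_⟩ ⟨α', h, rfl⟩
  rintro _ ⟨β, -, rfl⟩
  exact add_le_add (mul_le_of_le_one_right (by positivity) (hh_le β)) (pot_bd i β).2

def Val (U : ℝ → ℝ) (g T : ℕ) : Prop := ∀ α : ℝ, g ≤ α * 10 ^ 20 → α ≤ 1 → U α * 10 ^ 40 ≤ T

def hb (g g' : ℕ) : ℕ := if 2 * g' ≤ 10 ^ 20 then 4 * (g' * (10 ^ 20 - g'))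
  else if 10 ^ 20 ≤ 2 * g then 4 * (g * (10 ^ 20 - g)) else 10 ^ 40

def up (k g : ℕ) : ℕ := (10 ^ 30 + k * g * 10 ^ 20) / (10 ^ 6 * (10 ^ 20 - g) + k * g) + 1

def hi (k g : ℕ) : ℕ := if g = 0 then 0 else if up k g ≤ 10 ^ 20 ∧ g ≤ 10 ^ 20 ∧
  k * ((10 ^ 20 - up k g) * g) + 10 ^ 30 < 10 ^ 6 * (up k g * (10 ^ 20 - g)) then up k g
  else 10 ^ 20 + 1

theorem hh_hb {g g' : ℕ} {α : ℝ} (h1 : g ≤ α * 10 ^ 20) (h2 : α * 10 ^ 20 ≤ g') (h3 : α ≤ 1) :
    hh α * 10 ^ 40 ≤ hb g g' := by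
  have g0 : (0 : ℝ) ≤ g := by positivity
  unfold hb hh
  split_ifs with c1 c2
  · have c1' : (2 * g' : ℝ) ≤ 10 ^ 20 := by exact_mod_cast c1
    rw [Nat.cast_mul, Nat.cast_mul, Nat.cast_sub (by omega : g' ≤ 10 ^ 20)]
    push_cast
    nlinarith [mul_nonneg (sub_nonneg.2 h2) (by linarith : (0 : ℝ) ≤ 10 ^ 20 - g' - α * 10 ^ 20)]
  · have c2' : (10 ^ 20 : ℝ) ≤ 2 * g := by exact_mod_cast c2
    have c3 : g ≤ 10 ^ 20 := by
      have : (g : ℝ) ≤ 10 ^ 20 := by linarith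
      exact_mod_cast this
    rw [Nat.cast_mul, Nat.cast_mul, Nat.cast_sub c3]
    push_cast
    nlinarith [mul_nonneg (sub_nonneg.2 h1) (by linarith : (0 : ℝ) ≤ g + α * 10 ^ 20 - 10 ^ 20)]
  · push_cast
    nlinarith [sq_nonneg (2 * α - 1)]

theorem Val.add {i g T g' T' : ℕ} (h : Val (pot i) g T)
    (h' : Val (fun α => wt i * hh α + pot i α) g' T') :
    Val (fun α => wt i * hh α + pot i α) g (max T' (T + wt i * hb g g')) := by
  intro α h1 h2
  rcases le_total (α * 10 ^ 20) (g' : ℝ) with h3 | h3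
  · refine le_trans ?_ (Nat.cast_le.2 (le_max_right _ _))
    have := mul_le_mul_of_nonneg_left (hh_hb h1 h3 h2) (by positivity : (0 : ℝ) ≤ wt i)
    have := h α h1 h2
    push_cast
    linarith
  · exact (h' α h3 h2).trans (Nat.cast_le.2 (le_max_left _ _))

theorem Val.hi {i g T : ℕ} (h : Val (fun α => wt i * hh α + pot i α) g T) :
    Val (pot (i + 1)) (hi (kn i) g) T := by
  intro α h1 h2
  rw [← le_div_iff₀ (by positivity)]
  refine Real.sSup_le ?_ (by positivity)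
  rintro _ ⟨β, ⟨b0, b1, b2⟩, rfl⟩
  rw [le_div_iff₀ (by positivity)]
  refine h β ?_ b1
  unfold Ds.hi at h1
  split_ifs at h1 with c1 c2
  · rw [c1]; push_cast; positivity
  · obtain ⟨c2, c3, c4⟩ := c2
    generalize up (kn i) g = u at *
    have c5 : (kn i : ℝ) * ((10 ^ 20 - u) * g) + 10 ^ 30 < 10 ^ 6 * (u * (10 ^ 20 - g)) := by
      have := (Nat.cast_lt (α := ℝ)).2 c4
      simp only [Nat.cast_add, Nat.cast_mul, Nat.cast_sub c2, Nat.cast_sub c3, Nat.cast_pow,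
        Nat.cast_ofNat] at this
      exact this
    have k1 : kk i ≤ 1 := by
      have : kn i ≤ 10 ^ 6 := by
        unfold kn
        rcases i with _ | _ | _ | _ | _ | i <;> simp
      unfold kk
      rw [div_le_one (by positivity)]
      exact_mod_cast this
    by_contra c6
    have c7 := (ph_mono (α := u / 10 ^ 20) (β := 1 - g / 10 ^ 20) (by unfold kk; positivity) k1
      (by positivity) (by linarith : 0 ≤ 1 - β) (by rw [div_le_iff₀ (by positivity)]; exact h1)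
      (by have := (lt_div_iff₀ (by positivity)).2 (not_le.1 c6); linarith)).trans b2
    unfold ph kk at c7
    field_simp at c7
    linarith
  · push_cast at h1
    linarith

def force {β : Type} (n : ℕ) (k : ℕ → β) : β :=
  match n with
  | 0 => k 0
  | m + 1 => k (m + 1)

theorem force_eq {β : Type} (n : ℕ) (k : ℕ → β) : force n k = k n := by cases n <;> rfl

def row : List (ℕ × ℕ) → ℕ → ℕ → ℕ → (List (ℕ × ℕ) → Bool) → Bool
  | [], _, _, _, k => k []
  | e :: L, i, g, T, k => force (max e.2 (T + wt i * hb g e.1)) fun T' =>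
      force (hi (kn i) g) fun g' => row L (i + 1) g' T' fun R => k ((g, T') :: R)

def Inv : List (ℕ × ℕ) → ℕ → Prop
  | [], _ => True
  | e :: L, i => Val (fun α => wt i * hh α + pot i α) e.1 e.2 ∧ Inv L (i + 1)

theorem row_spec (L : List (ℕ × ℕ)) : ∀ i g T k, row L i g T k = true → Val (pot i) g T →
    Inv L i → ∃ R, Inv R i ∧ k R = true := by
  induction L with
  | nil => exact fun i g T k h _ _ => ⟨[], trivial, h⟩
  | cons e L ih =>
    intro i g T k h h1 h2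
    simp only [row, force_eq] at h
    have h3 := h1.add h2.1
    obtain ⟨R, h4, h5⟩ := ih _ _ _ _ h h3.hi h2.2
    exact ⟨_ :: R, ⟨h3, h4⟩, h5⟩

def loop (k : List (ℕ × ℕ) → Bool) : ℕ → ℕ → List (ℕ × ℕ) → Bool
  | 0, _, L => row L 0 0 0 k
  | n + 1, g, L => force (10 ^ 20 * 30 * g / (30 * g + 31 * (10 ^ 20 - g))) fun g' =>
      row L 0 g 0 (loop k n g')

theorem loop_spec (k : List (ℕ × ℕ) → Bool) (n : ℕ) : ∀ g L, loop k n g L = true → Inv L 0 →
    ∃ R, Inv R 0 ∧ k R = true := by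
  have h0 : ∀ g, Val (pot 0) g 0 := fun g α _ _ => by simp [pot]
  induction n with
  | zero => exact fun g L h h1 => row_spec _ _ _ _ _ h (h0 _) h1
  | succ n ih =>
    intro g L h h1
    simp only [loop, force_eq] at h
    obtain ⟨R, h2, h3⟩ := row_spec _ _ _ _ _ h (h0 _) h1
    exact ih _ _ h3 h2

def fin : List (ℕ × ℕ) → Bool
  | [_, _, _, _, _, e] => decide (e.1 = 0 ∧ e.2 ≤ 145 * 10 ^ 40)
  | _ => false

theorem loop_true : loop fin 1050 (10 ^ 20 - 10 ^ 9) (List.replicate 6 (10 ^ 20 + 1, 0)) = true := by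
  decide +kernel

theorem pot_top {α : ℝ} (h0 : 0 ≤ α) (h1 : α ≤ 1) : wt 5 * hh α + pot 5 α ≤ 145 := by
  have h : ∀ U, Val U (10 ^ 20 + 1) 0 := fun U α h1 h2 => by
    push_cast at h1
    linarith
  obtain ⟨R, h2, h3⟩ := loop_spec _ _ _ _ loop_true ⟨h _, h _, h _, h _, h _, h _, trivial⟩
  unfold fin at h3
  split at h3
  · obtain ⟨h4, h5⟩ := of_decide_eq_true h3
    have h6 := h2.2.2.2.2.2.1 α (by rw [h4]; push_cast; positivity) h1
    have h7 := h6.trans (Nat.cast_le.2 h5)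
    push_cast at h7
    exact le_of_mul_le_mul_right (by linarith) (by positivity : (0 : ℝ) < 10 ^ 40)
  · simp at h3

end Pool.Agent.Lib.MP_a1e814_lc.Ds
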