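import Pool.Agent.Lib.MP_a1e814_lc.DsJunta
import Pool.Agent.Lib.MP_a1e814_lc.DsNum

/-! The analysis of one long code. -/

set_option linter.unusedSectionVars false

namespace Pool.Agent.Lib.MP_a1e814_lc.Ds

open Finset Function
open scoped BigOperators

variable {ι : Type} [Fintype ι] [DecidableEq ι]

theorem Ex_overwrite {C : Type} [Fintype C] {ν : C → ℝ} (hν : Prob ν) {κ : ℝ} (k0 : 0 ≤ κ)
    (hκ : ∀ c, κ ≤ ν c) (w : ι → C) (S : Finset ι) : ∀ g : (ι → C) → ℝ, (∀ x, 0 ≤ g x) →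
    κ ^ #S * Ex ν (fun y => g (S.piecewise w y)) ≤ Ex ν g := by
  induction S using Finset.induction_on with
  | empty => intro g _; simp
  | insert a S ha ih =>
    intro g hg
    simp only [piecewise_insert]
    rw [card_insert_of_notMem ha, pow_succ', mul_assoc, ← Ex_update hν a g]
    refine (mul_le_mul_of_nonneg_left (ih (fun y => g (update y a (w a))) fun _ => hg _) k0).trans ?_
    rw [← Ex_mul]
    exact Ex_mono hν fun x => (mul_le_mul_of_nonneg_right (hκ (w a)) (hg _)).trans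
      (single_le_sum (f := fun c => ν c * g (update x a c))
        (fun c _ => mul_nonneg (hν.nn c) (hg _)) (mem_univ _))

variable {p q : ℝ} {f : Fn ι}

theorem MB.abs_update (h : MB f) (a : ι) (b : Bool) (x : ι → Bool) :
    |f (update x a b) - f x| ≤ dd a f x := by
  have h2 := h.dd_nn a x
  have h3 : f x = f (update x a (x a)) := by simp
  rw [h3, abs_le]
  rw [dd_apply] at h2 ⊢
  cases x a <;> cases b <;> constructor <;> linarith

theorem robust (hf : MB f) (h0 : 1 / 50 ≤ p) (h1 : p ≤ 49 / 50) (J : Finset ι) (u w : ι → Bool)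
    {τ : ℝ} (n : ℕ) (W : Finset ι) (hW : ∀ a ∈ W, a ∉ J ∧ Inf p f a ≤ τ) (hn : #J + #W ≤ n) :
    |Ex (bern p) (fun y => f (J.piecewise u (W.piecewise w y)))
      - Ex (bern p) (fun y => f (J.piecewise u y))| ≤ #W * (50 ^ n * τ) := by
  have hp := prob_bern (by linarith : 0 ≤ p) (by linarith : p ≤ 1)
  induction W using Finset.induction_on with
  | empty => simp
  | insert a W ha ih =>
    rw [card_insert_of_notMem ha] at hn ⊢
    have h2 := ih (fun b hb => hW b (mem_insert_of_mem hb)) (by omega)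
    obtain ⟨h3, h4⟩ := hW a (mem_insert_self _ _)
    have h5 : ∀ y, J.piecewise u ((insert a W).piecewise w y)
        = update (J.piecewise u (W.piecewise w y)) a (w a) := fun y => by
      rw [piecewise_insert, piecewise_update h3]
    have h6 : ∀ y, J.piecewise u (W.piecewise w y) = (J ∪ W).piecewise (J.piecewise u w) y :=
      fun y => by
        funext c
        by_cases c1 : c ∈ J <;> by_cases c2 : c ∈ W <;> simp [c1, c2]
    have h7 := Ex_overwrite hp (κ := 1 / 50) (by norm_num)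
      (fun c => by cases c <;> simp only [bern] <;> norm_num <;> linarith) (J.piecewise u w) (J ∪ W)
      (dd a f) (hf.dd_nn a)
    simp only [← h6] at h7
    have h8 : Ex (bern p) (fun y => dd a f (J.piecewise u (W.piecewise w y))) ≤ 50 ^ n * τ := by
      rw [one_div_pow, one_div_mul_eq_div, div_le_iff₀ (by positivity), mul_comm] at h7
      refine h7.trans (mul_le_mul (pow_le_pow_right₀ (by norm_num) ?_) h4 (hf.Inf_nn hp a)
        (by positivity))
      have := card_union_le J W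
      omega
    have h9 : |Ex (bern p) (fun y => f (J.piecewise u ((insert a W).piecewise w y)))
        - Ex (bern p) (fun y => f (J.piecewise u (W.piecewise w y)))| ≤ 50 ^ n * τ := by
      simp only [h5]
      rw [abs_le, ← Ex_sub]
      refine ⟨?_, (Ex_mono hp fun y => (abs_le.1 (hf.abs_update _ _ _)).2).trans h8⟩
      refine le_trans ?_ (Ex_mono hp fun y => (abs_le.1 (hf.abs_update _ _ _)).1)
      simp only [neg_eq_neg_one_mul (dd _ _ _), Ex_mul]
      linarith
    push_cast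
    rw [abs_le] at h2 h9 ⊢
    constructor <;> linarith [h2.1, h2.2, h9.1, h9.2]

/-- data of a distinguished label -/
structure Dat (ι : Type) where
  J : Finset ι
  E : Finset ι
  u : ι → Bool
  u' : ι → Bool
  d : ι

structure Good (p q : ℝ) (m n : ℕ) (Rich : Finset ι) (f : Fn ι) (D : Dat ι) : Prop where
  JE : D.J ⊆ D.E
  cJ : #D.J ≤ m
  cE : #D.E ≤ n
  rich : D.d ∈ Rich
  le : ∀ a ∈ D.J, a ≠ D.d → D.u a ≤ D.u' a
  hi : ∀ W, Disjoint W D.E → #W ≤ 4 * m →
    1 / 2 < Ex (bern p) fun y => f (D.J.piecewise D.u (W.piecewise (fun _ => false) y))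
  lo : ∀ W, Disjoint W D.E → #W ≤ 4 * m →
    Ex (bern q) (fun y => f (D.J.piecewise D.u' (W.piecewise (fun _ => true) y))) < 1 / 2

theorem card_big {I : ι → ℝ} (h0 : ∀ a, 0 ≤ I a) {c t : ℝ} (ht : 0 < t) (h : ∑ a, I a ≤ c) :
    #{a | t < I a} ≤ ⌈c / t⌉₊ := by
  have h1 : (#{a | t < I a} : ℝ) * t ≤ c := by
    rw [← nsmul_eq_mul]
    exact (card_nsmul_le_sum _ _ _ fun a ha => (mem_filter.1 ha).2.le).trans
      ((sum_le_univ_sum_of_nonneg h0).trans h)
  exact_mod_cast ((le_div_iff₀ ht).2 h1).trans (Nat.le_ceil _)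

theorem ph_lip {k α β a b e e' : ℝ} (k0 : 0 ≤ k) (k1 : k ≤ 1) (h0 : 0 ≤ α) (h1 : 0 ≤ β)
    (h2 : β ≤ 1) (a0 : 0 ≤ a) (a1 : a ≤ 1) (b0 : 0 ≤ b) (e0 : 0 ≤ e) (e1 : 0 ≤ e') (ha : α ≤ a + e)
    (hb : β ≤ b + e') : ph k α β ≤ ph k a b + (e + e') := by
  have c1 := ph_mono k0 k1 h0 h1 ha le_rfl
  have c2 := ph_mono k0 k1 a0 (add_nonneg b0 e1) le_rfl hb
  unfold ph at *
  nlinarith [mul_nonneg e0 (mul_nonneg (sub_nonneg.2 k1) (sub_nonneg.2 h2)),
    mul_nonneg e1 (mul_nonneg (sub_nonneg.2 k1) (sub_nonneg.2 a1))]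

theorem pair {δ ε : ℝ} (hδ : 0 < δ) (hε : 0 < ε) : ∃ m n : ℕ, ∀ (ι : Type) [Fintype ι]
    [DecidableEq ι] (p q k r : ℝ), 1 / 50 ≤ p → q ≤ 49 / 50 → Lev (p + δ) (q - δ) k r →
    ∀ (Rich : Finset ι) (f : Fn ι), MB f → (∀ D, ¬ Good (p + δ) (q - δ) m n Rich f D) →
    ∀ (U A : ℝ → ℝ) (C η : ℝ), 0 < η → 0 ≤ C → (∀ α, U α ≤ C) → (∀ α, 0 ≤ A α) →
    (∀ α α', 0 ≤ α' → α' ≤ 1 → ph k α (1 - α') ≤ η → U α' ≤ A α) →
    Ex (bern q) (fun x => U (cond q Rich f x))
      ≤ Ex (bern p) (fun x => A (cond p Rich f x)) + C / η * (32 * ε) := by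
  obtain ⟨τ, τ0, hτ⟩ := friedgut hε (inv_pos.2 hδ)
  obtain ⟨m, hm⟩ : ∃ m, m = ⌈2 * δ⁻¹ / τ⌉₊ := ⟨_, rfl⟩
  obtain ⟨τ', τ1, τ2, τ3⟩ : ∃ τ' : ℝ, 0 < τ' ∧ τ' ≤ τ ∧ (16 * m + 1) * (50 ^ (5 * m) * τ') ≤ 1 :=
    ⟨min τ (1 / ((16 * m + 1) * 50 ^ (5 * m))), by positivity, min_le_left _ _, by
      rw [← mul_assoc, mul_comm, ← le_div_iff₀ (by positivity)]
      exact min_le_right _ _⟩
  refine ⟨m, ⌈2 * δ⁻¹ / τ'⌉₊, fun ι _ _ p q k r p0 q1 hL Rich f hf hD U A C η η0 C0 hU hA hR => ?_⟩
  have pq := hL.le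
  obtain ⟨p', p1, p2, hp'⟩ := russo (by linarith : 0 < p) hδ (by linarith) hf.nn hf.le
  obtain ⟨q', q2, q3, hq'⟩ := russo (by linarith : 0 < q - δ) hδ (by linarith) hf.nn hf.le
  rw [sub_add_cancel] at q3
  have P0 : 0 ≤ p := by linarith
  have Q1 : q ≤ 1 := by linarith
  have hp := prob_bern (by linarith : 0 ≤ p') (by linarith : p' ≤ 1)
  have hq := prob_bern (by linarith : 0 ≤ q') (by linarith : q' ≤ 1)
  have I0 : ∀ a, 0 ≤ Inf p' f a + Inf q' f a := fun a => add_nonneg (hf.Inf_nn hp a) (hf.Inf_nn hq a)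
  have I1 : ∑ a, (Inf p' f a + Inf q' f a) ≤ 2 * δ⁻¹ := by rw [sum_add_distrib]; linarith
  have I2 : ∀ (t : ℝ) a, a ∉ ({a | t < Inf p' f a + Inf q' f a} : Finset ι) →
      Inf p' f a ≤ t ∧ Inf q' f a ≤ t := fun t a ha => by
    have := hf.Inf_nn hp a
    have := hf.Inf_nn hq a
    simp only [mem_filter, mem_univ, true_and, not_lt] at ha
    constructor <;> linarith
  obtain ⟨J, hJ⟩ : ∃ J, J = ({a | τ < Inf p' f a + Inf q' f a} : Finset ι) := ⟨_, rfl⟩
  obtain ⟨E, hE⟩ : ∃ E, E = ({a | τ' < Inf p' f a + Inf q' f a} : Finset ι) := ⟨_, rfl⟩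
  have cJ : #J ≤ m := hm ▸ hJ ▸ card_big I0 τ0 I1
  have JE : J ⊆ E := fun a ha => by
    rw [hJ] at ha
    rw [hE]
    exact mem_filter.2 ⟨mem_univ _, τ2.trans_lt (mem_filter.1 ha).2⟩
  have e1 := hτ ι p' (by linarith) (by linarith) f hf hp' Jᶜ
    fun a ha => (I2 τ a (hJ ▸ mem_compl.1 ha)).1
  have e2 := hτ ι q' (by linarith) (by linarith) f hf hq' Jᶜ
    fun a ha => (I2 τ a (hJ ▸ mem_compl.1 ha)).2
  let F : Fn ι := fun x => if 3 / 4 ≤ cond p' Jᶜ f x then 1 else 0
  let G : Fn ι := fun x => if cond q' Jᶜ f x ≤ 1 / 4 then 1 else 0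
  have Fv : ∀ x, F x = 0 ∨ F x = 1 := fun x => by simp only [F]; split_ifs <;> simp
  have Gv : ∀ x, G x = 0 ∨ G x = 1 := fun x => by simp only [G]; split_ifs <;> simp
  have Fm : Monotone F := fun x y h => by
    have := cond_level (by linarith) le_rfl (by linarith : p' ≤ 1) Jᶜ hf.mono fun a _ => h a
    simp only [F]
    split_ifs <;> linarith
  have Gm : Antitone G := fun x y h => by
    have := cond_level (by linarith) le_rfl (by linarith : q' ≤ 1) Jᶜ hf.mono fun a _ => h a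
    simp only [G]
    split_ifs <;> linarith
  have rob : ∀ t, 1 / 50 ≤ t → t ≤ 49 / 50 → (∀ a ∉ E, Inf t f a ≤ τ') → ∀ u w W, Disjoint W E →
      #W ≤ 4 * m → |Ex (bern t) (fun y => f (J.piecewise u (W.piecewise w y))) - cond t Jᶜ f u|
      < 1 / 4 := fun t t0 t1 ht u w W h1 h2 => by
    have h3 := robust hf t0 t1 J u w (5 * m) W (fun a ha => ⟨fun h => disjoint_left.1 h1 ha (JE h),
      ht a (disjoint_left.1 h1 ha)⟩) (by omega)
    simp only [cond_apply, piecewise_compl]
    have h4 : (#W : ℝ) ≤ 4 * m := by exact_mod_cast h2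
    have h5 : (0 : ℝ) < 50 ^ (5 * m) * τ' := by positivity
    nlinarith
  have mono : ∀ (u w : ι → Bool) (W : Finset ι),
      Monotone fun y => f (J.piecewise u (W.piecewise w y)) := fun u w W y y' h =>
    hf.mono (piecewise_mono J (fun _ _ => le_rfl) fun a _ =>
      piecewise_mono W (fun _ _ => le_rfl) (fun b _ => h b) a)
  have cr : ∀ x x', x ≤ x' → Cross F G 2 Rich x x' := by
    intro x x' hx u u' h1 h2
    have h3 : 3 / 4 ≤ cond p' Jᶜ f (Rich.piecewise u x) := by
      by_contra h; simp only [F, if_neg h] at h1; norm_num at h1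
    have h4 : cond q' Jᶜ f (Rich.piecewise u' x') ≤ 1 / 4 := by
      by_contra h; simp only [G, if_neg h] at h2; norm_num at h2
    have h5 : ∀ a, ¬ Rich.piecewise u x a ≤ Rich.piecewise u' x' a →
        a ∈ ({a ∈ Rich | u a = true ∧ u' a = false} : Finset ι) := fun a ha => by
      by_cases h : a ∈ Rich
      · simp only [piecewise_eq_of_mem _ _ _ h] at ha
        refine mem_filter.2 ⟨h, ?_⟩
        revert ha
        cases u a <;> cases u' a <;> simp
      · simp only [piecewise_eq_of_notMem _ _ _ h] at ha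
        exact absurd (hx a) ha
    by_contra h6
    have h7 := card_le_one.1 (Nat.lt_succ_iff.1 (not_le.1 h6))
    obtain ⟨d, hd⟩ : ∃ d, ¬ Rich.piecewise u x d ≤ Rich.piecewise u' x' d := by
      by_contra h
      push Not at h
      have := cond_level (by linarith) (by linarith : p' ≤ q') (by linarith) Jᶜ hf.mono
        fun a _ => h a
      linarith
    refine hD ⟨J, E, Rich.piecewise u x, Rich.piecewise u' x', d⟩ ⟨JE, cJ, hE ▸ card_big I0 τ1 I1,
      (mem_filter.1 (h5 d hd)).1, fun a _ ha => ?_, fun W c1 c2 => ?_, fun W c1 c2 => ?_⟩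
    · by_contra h
      exact ha (h7 _ (h5 a h) _ (h5 d hd))
    · have c3 := rob p' (by linarith) (by linarith) (fun a ha => (I2 τ' a (hE ▸ ha)).1)
        (Rich.piecewise u x) (fun _ => false) W c1 c2
      have c4 := Ex_level (by linarith) p2 (by linarith) (mono (Rich.piecewise u x) (fun _ => false) W)
      linarith [(abs_lt.1 c3).1]
    · have c3 := rob q' (by linarith) (by linarith) (fun a ha => (I2 τ' a (hE ▸ ha)).2)
        (Rich.piecewise u' x') (fun _ => true) W c1 c2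
      have c4 := Ex_level (by linarith) q2 (by linarith) (mono (Rich.piecewise u' x') (fun _ => true) W)
      linarith [(abs_lt.1 c3).2]
  let a1 : Fn ι := cond p' Rich fun x => 16 * (f x - cond p' Jᶜ f x) ^ 2
  let a2 : Fn ι := cond q' Rich fun x => 16 * (f x - cond q' Jᶜ f x) ^ 2
  have key : ∀ x0 x1 x2 x3 : ι → Bool, x0 ≤ x1 → x1 ≤ x2 → x2 ≤ x3 →
      U (cond q Rich f x3) ≤ A (cond p Rich f x0) + C / η * (a1 x1 + a2 x2) := by
    intro x0 x1 x2 x3 h0 h1 h2
    have b1 : 0 ≤ a1 x1 := cond_nonneg hp _ (fun _ => by positivity) _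
    have b2 : 0 ≤ a2 x2 := cond_nonneg hq _ (fun _ => by positivity) _
    rcases le_total η (a1 x1 + a2 x2) with h | h
    · have := mul_le_mul_of_nonneg_left h (div_nonneg C0 η0.le)
      rw [div_mul_cancel₀ _ η0.ne'] at this
      linarith [hU (cond q Rich f x3), hA (cond p Rich f x0)]
    have hP := prob_bern (by linarith : 0 ≤ p + δ) (by linarith)
    have hQ := prob_bern (by linarith : 0 ≤ q - δ) (by linarith)
    have b3 := cond_le (prob_bern (by linarith) Q1) Rich hf.le x3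
    have b4 := cond_nonneg (prob_bern (by linarith) Q1) Rich hf.nn x3
    have b5 : cond p Rich f x0 ≤ cond (p + δ) Rich F x1 + a1 x1 := by
      refine (cond_level P0 p1 (by linarith) Rich hf.mono fun a _ => h0 a).trans (le_trans ?_
        (add_le_add_left (cond_level (by linarith) p2 (by linarith) Rich Fm fun _ _ => le_rfl) _))
      simp only [a1]
      rw [← Pi.add_apply, ← map_add]
      refine cond_mono hp _ (fun x => ?_) _
      simp only [F, Pi.add_apply]
      rcases hf.val x with c | c <;> rw [c] <;> split_ifs <;> nlinarith [sq_nonneg (cond p' Jᶜ f x)]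
    have b6 : 1 - cond q Rich f x3 ≤ cond (q - δ) Rich G x2 + a2 x2 := by
      have c1 : cond q' Rich f x2 ≤ cond q Rich f x3 :=
        cond_level (by linarith) q3 Q1 Rich hf.mono fun a _ => h2 a
      have c2 : cond (q - δ) Rich (-G) x2 ≤ cond q' Rich (-G) x2 :=
        cond_level (by linarith) q2 (by linarith) Rich Gm.neg fun _ _ => le_rfl
      have c3 : (1 : ℝ) ≤ cond q' Rich (f + (G + fun x => 16 * (f x - cond q' Jᶜ f x) ^ 2)) x2 := by
        refine (Ex_const hq 1).symm.le.trans (Ex_mono hq fun y => ?_)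
        generalize Rich.piecewise y x2 = x
        simp only [G, Pi.add_apply]
        rcases hf.val x with c | c <;> rw [c] <;> split_ifs <;>
          nlinarith [sq_nonneg (1 - cond q' Jᶜ f x)]
      simp only [map_add, map_neg, Pi.add_apply, Pi.neg_apply] at c2 c3
      simp only [a2]
      linarith
    have b7 := ph_lip hL.k0.le (hL.kr.trans hL.r1) (cond_nonneg (prob_bern P0 (by linarith)) Rich hf.nn x0)
      (by linarith) (by linarith)
      (cond_nonneg hP _ (fun y => by rcases Fv y with h | h <;> simp [h]) _)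
      (cond_le hP _ (fun y => by rcases Fv y with h | h <;> simp [h]) _)
      (cond_nonneg hQ _ (fun y => by rcases Gv y with h | h <;> simp [h]) _) b1 b2 b5 b6
    have b8 := odds_two hL Fm Gm Fv Gv Rich x1 x2 (cr _ _ h1)
    have b9 := hR _ _ b4 b3 (by linarith : ph k (cond p Rich f x0) (1 - cond q Rich f x3) ≤ η)
    have := mul_nonneg (div_nonneg C0 η0.le) (add_nonneg b1 b2)
    linarith
  let ν : Fin 5 → ℝ := ![p, p' - p, q' - p', q - q', 1 - q]
  have hν : Prob ν := ⟨fun c => by fin_cases c <;> simp [ν] <;> linarith, by simp [ν, Fin.sum_univ_five]⟩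
  have push : ∀ (j : Fin 5) (t : ℝ), ∑ c with c ≤ j, ν c = t → ∀ g : Fn ι,
      Ex ν (fun c => g fun a => decide (c a ≤ j)) = Ex (bern t) g := fun j t h g =>
    Ex_push (fun c => decide (c ≤ j)) (fun d => by
      cases d
      · have := sum_filter_add_sum_filter_not univ (fun c => c ≤ j) ν
        rw [hν.one, h] at this
        simp only [decide_eq_false_iff_not, bern, Bool.false_eq_true, if_false]
        linarith
      · simpa [bern] using h) g
  have le : ∀ (i j : Fin 5), i ≤ j → ∀ c : ι → Fin 5,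
      (fun a => decide (c a ≤ i)) ≤ fun a => decide (c a ≤ j) := fun i j h c a => by
    simp only [Bool.le_iff_imp, decide_eq_true_eq]
    exact fun h' => h'.trans h
  have := Ex_mono hν fun c : ι → Fin 5 => key _ _ _ _ (le 0 1 (by decide) c) (le 1 2 (by decide) c)
    (le 2 3 (by decide) c)
  rw [Ex_add, Ex_mul, Ex_add,
    push 3 q (by simp [ν, sum_filter, Fin.sum_univ_five]) fun x => U (cond q Rich f x),
    push 0 p (by simp [ν, sum_filter, Fin.sum_univ_five]) fun x => A (cond p Rich f x),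
    push 1 p' (by simp [ν, sum_filter, Fin.sum_univ_five]) a1,
    push 2 q' (by simp [ν, sum_filter, Fin.sum_univ_five]) a2, Ex_cond hp, Ex_cond hq, Ex_mul,
    Ex_mul] at this
  exact this.trans (add_le_add_right (mul_le_mul_of_nonneg_left (by linarith) (div_nonneg C0 η0.le)) _)

/-- the levels, in millionths -/
def pn (i : ℕ) : ℕ := [978720, 854110, 618040, 381960, 145890, 21280].getD i 0

noncomputable def pl (i : ℕ) : ℝ := pn i / 10 ^ 6

theorem lev {i : ℕ} (hi : i < 5) : 1 / 50 ≤ pl (i + 1) ∧ pl i ≤ 49 / 50 ∧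
    ∃ r, Lev (pl (i + 1) + 1 / 10 ^ 6) (pl i - 1 / 10 ^ 6) (kk i) r := by
  refine ⟨?_, ?_, ([356791, 525725, 618021, 525725, 356791].getD i 0 : ℕ) / 10 ^ 6, ?_⟩
  · interval_cases i <;> norm_num [pl, pn]
  · interval_cases i <;> norm_num [pl, pn]
  · interval_cases i <;> constructor <;> norm_num [pl, pn, kk, kn]

theorem block {ε : ℝ} (hε : 0 < ε) : ∃ m n : ℕ, ∀ (ι : Type) [Fintype ι] [DecidableEq ι]
    (Rich : Finset ι) (f : Fn ι), MB f →
    (∀ i < 5, ∀ D, ¬ Good (pl (i + 1) + 1 / 10 ^ 6) (pl i - 1 / 10 ^ 6) m n Rich f D) →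
    ∑ i ∈ range 6, wt i * Ex (bern (pl i)) (fun x => hh (cond (pl i) Rich f x)) ≤ 145 + ε := by
  obtain ⟨m, n, h⟩ := pair (by positivity : (0 : ℝ) < 1 / 10 ^ 6)
    (by positivity : 0 < ε / (5 * 840 * 32 * 10 ^ 16))
  refine ⟨m, n, fun ι _ _ Rich f hf hD => ?_⟩
  have h1 : ∀ j ≤ 5, ∑ i ∈ range j, wt i * Ex (bern (pl i)) (fun x => hh (cond (pl i) Rich f x))
      ≤ Ex (bern (pl j)) (fun x => pot j (cond (pl j) Rich f x)) + j * (ε / 5) := by
    intro j
    induction j with
    | zero => intro _; simp [pot, Ex]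
    | succ j ih =>
      intro hj
      obtain ⟨h2, h3, r, h4⟩ := lev (i := j) hj
      have h5 := h ι _ _ _ _ h2 h3 h4 Rich f hf (hD j hj) (fun α => wt j * hh α + pot j α)
        (pot (j + 1)) 840 _ (by positivity : (0 : ℝ) < 1 / 10 ^ 16) (by norm_num) (fun α => by
          have c1 := (pot_bd j α).2
          have c2 : (j : ℝ) ≤ 4 := by exact_mod_cast (by omega : j ≤ 4)
          have c3 : (wt j : ℝ) ≤ 140 := by
            have : wt j ≤ 140 := by
              have : j < 5 := hj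
              interval_cases j <;> simp [wt]
            exact_mod_cast this
          have c4 := mul_le_of_le_one_right (by positivity : (0 : ℝ) ≤ wt j) (hh_le α)
          linarith) (fun α => (pot_bd _ α).1) fun α α' c1 c2 c3 => le_pot ⟨c1, c2, c3⟩
      rw [Ex_add, Ex_mul] at h5
      rw [sum_range_succ]
      push_cast
      linarith [ih (by omega)]
  have hp := prob_bern (p := pl 5) (by norm_num [pl, pn]) (by norm_num [pl, pn])
  have h2 := Ex_le hp fun x => pot_top (cond_nonneg hp Rich hf.nn x) (cond_le hp Rich hf.le x)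
  rw [Ex_add, Ex_mul] at h2
  rw [sum_range_succ]
  have := h1 5 le_rfl
  push_cast at this
  linarith

end Pool.Agent.Lib.MP_a1e814_lc.Ds
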