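import Pool.Agent.Lib.MP_a1e814_lc.DsBlock
import Pool.Agent.Lib.MP_4d0379_lc.Rep

/-! Two long codes with compatible distinguished labels violate a constraint. -/

set_option linter.unusedSectionVars false

namespace Pool.Agent.Lib.MP_a1e814_lc.Ds

open Finset Function Pool.Agent.Lib.MP_4d0379_lc
open scoped BigOperators

theorem Ex_pair {ι κ C : Type} [Fintype ι] [DecidableEq ι] [Fintype κ] [DecidableEq κ] [Fintype C]
    (e : ι ≃ Bool × κ) (ν : C → ℝ) (g : (ι → C) → ℝ) : Ex ν g = Ex (fun c : C × C => ν c.1 * ν c.2)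
      fun c : κ → C × C => g fun a => if (e a).1 then (c (e a).2).2 else (c (e a).2).1 := by
  let E : (κ → C × C) ≃ (ι → C) :=
    { toFun := fun c a => if (e a).1 then (c (e a).2).2 else (c (e a).2).1
      invFun := fun x k => (x (e.symm (false, k)), x (e.symm (true, k)))
      left_inv := fun c => by funext k; simp
      right_inv := fun x => by
        funext a
        obtain ⟨⟨b, k⟩, rfl⟩ := e.symm.surjective a
        cases b <;> simp }
  refine (Fintype.sum_equiv E _ _ fun c => ?_).symm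
  congr 1
  rw [← e.symm.prod_comp, Fintype.prod_prod_type_right]
  simp [E, mul_comm]

abbrev Lb (l : ℕ) := Fin l → Bool

variable {l : ℕ}

def Rel (j : Fin l) (x y : Lb l → Bool) : Prop :=
  ∀ a a', update a j false = update a' j false → ¬ (a j = true ∧ a' j = true) → x a ≤ y a'

def cpl (p q t : ℝ) : (Bool × Bool) × (Bool × Bool) → ℝ
  | ((true, true), (true, true)) => p * p
  | ((true, false), (true, true)) => p * (1 - p)
  | ((false, true), (true, true)) => t
  | ((false, true), (true, false)) => p * (1 - p) - t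
  | ((false, false), (true, true)) => q ^ 2 - p - t
  | ((false, false), (true, false)) => q * (1 - q) - p * (1 - p) + t
  | ((false, false), (false, true)) => q * (1 - q)
  | ((false, false), (false, false)) => (1 - q) ^ 2
  | _ => 0

theorem coup {p q k r : ℝ} (h : Lev p q k r) (j : Fin l) {g g' : Fn (Lb l)}
    (h1 : Ex (bern q) g' < Ex (bern p) g) : ∃ x y, Rel j x y ∧ g' y < g x := by
  have p0 := h.p0
  have q1 := h.q1
  have pq := h.le
  have a1 : 0 ≤ p * (1 - p) := mul_nonneg (by linarith) (by linarith)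
  have a2 : 0 ≤ q * (1 - q) := mul_nonneg (by linarith) (by linarith)
  obtain ⟨t, t0, t1, t2, t3⟩ : ∃ t, 0 ≤ t ∧ t ≤ p * (1 - p) ∧ t ≤ q ^ 2 - p ∧
      p * (1 - p) - q * (1 - q) ≤ t :=
    ⟨min (p * (1 - p)) (q ^ 2 - p), le_min a1 (by linarith [h.c1]), min_le_left _ _,
      min_le_right _ _, le_min (by linarith) (by linarith [h.c2])⟩
  have hν : Prob (cpl p q t) := ⟨fun c => by
    rcases c with ⟨⟨_ | _, _ | _⟩, _ | _, _ | _⟩ <;> simp only [cpl] <;>
      first | positivity | linarith, by simp [Fintype.sum_prod_type, cpl]; ring⟩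
  let e := Equiv.funSplitAt j Bool
  rw [Ex_pair e, Ex_pair e] at h1
  obtain ⟨c, h2, h3⟩ := exists_of_coupling hν Prod.fst Prod.snd
    (fun d => by
      rcases d with ⟨_ | _, _ | _⟩ <;> simp [sum_filter, Fintype.sum_prod_type, cpl, bern] <;> ring)
    (fun d => by
      rcases d with ⟨_ | _, _ | _⟩ <;> simp [sum_filter, Fintype.sum_prod_type, cpl, bern] <;> ring)
    h1
  refine ⟨_, _, fun a a' h4 h5 => ?_, h3⟩
  have h6 : (e a').2 = (e a).2 := by
    funext b
    change a' b = a b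
    simpa [b.2] using (congrFun h4 b).symm
  have h7 := h2 (e a).2
  change (if a j then _ else _) ≤ (if a' j then _ else _)
  simp only [h6]
  revert h5 h7
  rcases c (e a).2 with ⟨⟨_ | _, _ | _⟩, _ | _, _ | _⟩ <;> cases a j <;> cases a' j <;> simp [cpl]

/-- the colouring agrees with the roles of the labels -/
def Role (j : Fin l) (ξ : Lb l → Option (Bool × Bool)) (D : Dat (Lb l)) : Prop :=
  D.d j = true ∧ ∀ a ∈ D.E, ξ (update a j false) = if a ∈ D.J then some (D.u a, D.u' a) else none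

theorem cross {p q k r : ℝ} (h : Lev p q k r) {m n : ℕ} {Rich : Finset (Lb l)} {f f' : Fn (Lb l)}
    {D D' : Dat (Lb l)} (hD : Good p q m n Rich f D) (hD' : Good p q m n Rich f' D') {j : Fin l}
    {ξ : Lb l → Option (Bool × Bool)} (h1 : Role j ξ D) (h2 : Role j ξ D') :
    ∃ x y, Rel j x y ∧ f' y < f x := by
  obtain ⟨P, hP⟩ : ∃ P, P = (D.J ∪ D'.J).image fun a => update a j false := ⟨_, rfl⟩
  obtain ⟨T, hT⟩ : ∃ T, T = ({a | update a j false ∈ P} : Finset (Lb l)) := ⟨_, rfl⟩
  have c1 : #T ≤ 4 * m := by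
    have c2 : T ⊆ P ∪ P.image fun a => update a j true := fun a ha => by
      have c3 : update a j false ∈ P := by simpa [hT] using ha
      cases c4 : a j
      · exact mem_union_left _ (by rwa [← c4, update_eq_self] at c3)
      · exact mem_union_right _ (mem_image.2 ⟨_, c3, by rw [update_idem, ← c4, update_eq_self]⟩)
    have c3 := card_le_card c2
    have c4 := card_union_le P (P.image fun a => update a j true)
    have c5 := card_image_le (s := P) (f := fun a => update a j true)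
    have c6 : #P ≤ #(D.J ∪ D'.J) := hP ▸ card_image_le
    have c7 := card_union_le D.J D'.J
    have := hD.cJ
    have := hD'.cJ
    omega
  have c2 : ∀ a ∈ T, ξ (update a j false) ≠ none := fun a ha => by
    obtain ⟨b, hb, e⟩ := mem_image.1 (hP ▸ (mem_filter.1 (hT ▸ ha)).2)
    rw [← e]
    rcases mem_union.1 hb with hb | hb
    · rw [h1.2 b (hD.JE hb), if_pos hb]; simp
    · rw [h2.2 b (hD'.JE hb), if_pos hb]; simp
  have c3 : ∀ {D : Dat (Lb l)}, Role j ξ D → Disjoint (T \ D.J) D.E := fun h =>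
    disjoint_left.2 fun a ha hE => c2 a (mem_sdiff.1 ha).1 (by
      rw [h.2 a hE, if_neg (mem_sdiff.1 ha).2])
  obtain ⟨x, y, h3, h4⟩ := coup h j ((hD'.lo _ (c3 h2) ((card_le_card sdiff_subset).trans c1)).trans
    (hD.hi _ (c3 h1) ((card_le_card sdiff_subset).trans c1)))
  refine ⟨_, _, fun a a' h5 h6 => ?_, h4⟩
  by_cases c4 : a ∈ T
  · have c5 : a' ∈ T := by
      rw [hT] at c4 ⊢
      simpa [h5] using c4
    by_cases c6 : a ∈ D.J
    · by_cases c7 : a' ∈ D'.J
      · have c8 := h1.2 a (hD.JE c6)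
        rw [h5, h2.2 a' (hD'.JE c7), if_pos c6, if_pos c7, Option.some_inj, Prod.mk_inj] at c8
        simp only [piecewise_eq_of_mem _ _ _ c6, piecewise_eq_of_mem _ _ _ c7]
        by_cases c9 : a = D.d
        · rw [← c8.1]
          exact hD'.le a' c7 fun c => h6 ⟨c9 ▸ h1.1, c ▸ h2.1⟩
        · rw [c8.2]
          exact hD.le a c6 c9
      · simp [c7, c5]
    · simp [c6, c4]
  · have c5 : a' ∉ T := by
      rw [hT] at c4 ⊢
      simpa [h5] using c4
    have c6 : ∀ b ∈ D.J ∪ D'.J, b ∈ T := fun b hb => by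
      rw [hT, hP]
      exact mem_filter.2 ⟨mem_univ _, mem_image_of_mem _ hb⟩
    have c7 : a ∉ D.J := fun c => c4 (c6 _ (mem_union_left _ c))
    have c8 : a' ∉ D'.J := fun c => c5 (c6 _ (mem_union_right _ c))
    simpa [c4, c5, c7, c8] using h3 a a' h5 h6

open Classical in
/-- indicator of a proposition -/
noncomputable def ind (P : Prop) : ℝ := if P then 1 else 0

theorem ind_nn (P : Prop) : 0 ≤ ind P := by unfold ind; split_ifs <;> simp

theorem ind_le (P : Prop) : ind P ≤ 1 := by unfold ind; split_ifs <;> simp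

theorem ind_pos {P : Prop} (h : P) : ind P = 1 := if_pos h

theorem ind_neg {P : Prop} (h : ¬ P) : ind P = 0 := if_neg h

theorem ind_le_of {P : Prop} {t : ℝ} (h0 : 0 ≤ t) (h : P → 1 ≤ t) : ind P ≤ t := by
  unfold ind; split_ifs with c; exacts [h c, h0]

theorem one_le_card_mul {X : Type} [Fintype X] {g : X → ℝ} (h0 : ∀ x, 0 ≤ g x) {x : X}
    (h : 1 ≤ g x) : 1 ≤ Fintype.card X * 𝔼 y, g y := by
  have : Nonempty X := ⟨x⟩
  rw [Fintype.card_mul_expect]
  exact h.trans (single_le_sum (fun y _ => h0 y) (mem_univ x))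

theorem role_count {n r : ℕ} (r0 : 0 < r) (l0 : 0 < l) (hl : 4 * r * n ^ 2 ≤ l) {D : Dat (Lb l)}
    (h1 : #D.E ≤ n) (h2 : l ≤ 2 * r * #{j | D.d j = true}) :
    1 ≤ 4 * r * 5 ^ n * 𝔼 j, 𝔼 ξ, ind (Role j ξ D) := by
  have : Nonempty (Fin l) := ⟨⟨0, l0⟩⟩
  let bad : Finset (Fin l) := (D.E ×ˢ D.E).biUnion fun a =>
    {j | a.1 ≠ a.2 ∧ update a.1 j false = update a.2 j false}
  have c1 : bad.card ≤ n ^ 2 := by
    refine (card_biUnion_le_card_mul _ _ 1 fun a _ => card_le_one.2 fun j hj j' hj' => ?_).trans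
      (by rw [card_product, mul_one, sq]; exact Nat.mul_le_mul h1 h1)
    by_contra c
    obtain ⟨c2, c3⟩ := (mem_filter.1 hj).2
    refine c2 (funext fun b => ?_)
    by_cases c4 : b = j
    · simpa [c4, c] using congrFun (mem_filter.1 hj').2.2 b
    · simpa [c4] using congrFun c3 b
  have c2 : ∀ j ∈ ({j | D.d j = true} : Finset _) \ bad, 1 ≤ 5 ^ n * 𝔼 ξ, ind (Role j ξ D) := by
    intro j hj
    obtain ⟨c2, c3⟩ := mem_sdiff.1 hj
    have c4 : Injective fun a : D.E => update a.1 j false := fun a a' c => by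
      by_contra c5
      exact c3 (mem_biUnion.2 ⟨(a.1, a'.1), mem_product.2 ⟨a.2, a'.2⟩,
        mem_filter.2 ⟨mem_univ _, fun c6 => c5 (Subtype.ext c6), c⟩⟩)
    have c5 := Ex_overwrite (prob_unif (C := Option (Bool × Bool))) (by positivity)
      (fun _ => le_rfl) (extend (fun a : D.E => update a.1 j false)
        (fun a => if a.1 ∈ D.J then some (D.u a, D.u' a) else none) fun _ => none)
      (D.E.image fun a => update a j false) (fun ξ => ind (Role j ξ D)) fun _ => ind_nn _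
    rw [Ex_unif, Ex_unif, expect_congr rfl (g := fun _ => 1) fun ξ _ => ind_pos
      ⟨(mem_filter.1 c2).2, fun a ha => by
        rw [piecewise_eq_of_mem _ _ _ (mem_image_of_mem _ ha)]
        exact c4.extend_apply _ _ ⟨a, ha⟩⟩, Fintype.expect_const, mul_one, inv_pow,
      inv_le_iff_one_le_mul₀' (by positivity)] at c5
    refine c5.trans (mul_le_mul_of_nonneg_right ?_ (expect_nonneg fun _ _ => ind_nn _))
    simpa using pow_le_pow_right₀ (by norm_num : (1 : ℝ) ≤ 5) (card_image_le.trans h1)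
  have c3 := card_nsmul_le_sum _ _ _ c2
  have c4 := le_card_sdiff bad ({j | D.d j = true} : Finset _)
  have c5 : l ≤ 4 * r * #(({j | D.d j = true} : Finset _) \ bad) := by
    have := Nat.mul_le_mul_left (4 * r) (by omega : #{j | D.d j = true}
      ≤ #(({j | D.d j = true} : Finset _) \ bad) + n ^ 2)
    nlinarith
  have c6 : (l : ℝ) ≤ 4 * r * #(({j | D.d j = true} : Finset _) \ bad) := by exact_mod_cast c5
  have c7 := c3.trans (sum_le_univ_sum_of_nonneg fun j =>
    mul_nonneg (by positivity) (expect_nonneg fun _ _ => ind_nn _))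
  rw [nsmul_eq_mul, mul_one, ← mul_sum, ← Fintype.card_mul_expect, Fintype.card_fin] at c7
  have c8 := c6.trans (mul_le_mul_of_nonneg_left c7 (by positivity))
  exact le_of_mul_le_mul_left (by linarith) (by exact_mod_cast l0 : (0 : ℝ) < l)

theorem decode {Ω I V A B : Type} [Fintype Ω] [Fintype I] [Fintype A] [Fintype B] [DecidableEq A]
    [Nonempty Ω] [Nonempty I] {v : Ω → I → V} {π : Ω → I → B → A} {θ : ℝ} (h0 : 0 < θ)
    (h : Coll v π (θ ^ 2)) (S : V → B → Prop) :
    𝔼 ω, 𝔼 i, ∑ b, ind (S (v ω i) b) ≤ θ + 𝔼 ω, 𝔼 i, 𝔼 i', ∑ b, ∑ b',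
      (ind (b ≠ b' ∧ S (v ω i) b ∧ S (v ω i) b')
        + (2 * θ)⁻¹ * ind (π ω i b ≠ π ω i' b' ∧ S (v ω i) b ∧ S (v ω i') b')) := by
  let p : V → B → ℝ := fun x b => ind (S x b ∧ ∀ b', S x b' → b' = b)
  have hp : Frac p := ⟨fun _ _ => ind_nn _, fun x => by
    by_cases c : ∃ b, S x b ∧ ∀ b', S x b' → b' = b
    · obtain ⟨b, hb⟩ := c
      rw [sum_eq_single b (fun b' _ c => ind_neg fun c' => c (hb.2 b' c'.1)) (by simp)]
      exact ind_le _
    · rw [sum_eq_zero fun b _ => ind_neg fun c' => c ⟨b, c'⟩]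
      exact zero_le_one⟩
  have c1 : ∀ x b, ind (S x b) ≤ p x b + ∑ b', ind (b ≠ b' ∧ S x b ∧ S x b') := fun x b => by
    have c0 := sum_nonneg fun b' (_ : b' ∈ univ) => ind_nn (b ≠ b' ∧ S x b ∧ S x b')
    refine ind_le_of (add_nonneg (ind_nn _) c0) fun c => ?_
    by_cases c' : ∀ b', S x b' → b' = b
    · simp only [p, ind_pos (And.intro c c')]
      linarith
    · push Not at c'
      obtain ⟨b', c2, c3⟩ := c'
      have := single_le_sum (fun b' (_ : b' ∈ univ) => ind_nn (b ≠ b' ∧ S x b ∧ S x b')) (mem_univ b')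
      rw [ind_pos ⟨c3.symm, c, c2⟩] at this
      linarith [ind_nn (S x b ∧ ∀ b', S x b' → b' = b)]
  have c2 : ∀ ω, (𝔼 i, ∑ b, p (v ω i) b) ^ 2 ≤ ∑ a, gop v π p ω a ^ 2
      + 𝔼 i, 𝔼 i', ∑ b, ∑ b', ind (π ω i b ≠ π ω i' b' ∧ S (v ω i) b ∧ S (v ω i') b') := by
    intro ω
    simp only [sq, sum_gop_mul]
    simp only [gop, expect_mul, mul_expect, sum_mul, mul_sum, ← expect_sum_comm,
      ← expect_add_distrib, ← sum_add_distrib]
    rw [expect_comm]
    refine expect_le_expect fun i _ => expect_le_expect fun i' _ => ?_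
    rw [sum_comm]
    refine sum_le_sum fun b _ => sum_le_sum fun b' _ => ?_
    have c3 := ind_nn (π ω i b ≠ π ω i' b' ∧ S (v ω i) b ∧ S (v ω i') b')
    split_ifs with c
    · linarith
    · simp only [p]
      by_cases c4 : S (v ω i) b
      · by_cases c5 : S (v ω i') b'
        · rw [ind_pos (And.intro (Ne.symm c) (And.intro c4 c5)), mul_zero, zero_add]
          exact mul_le_one₀ (ind_le _) (ind_nn _) (ind_le _)
        · rw [ind_neg fun c : _ ∧ _ => c5 c.1]
          linarith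
      · rw [ind_neg fun c : _ ∧ _ => c4 c.1]
        linarith
  have c3 := h p hp
  have c4 : ∀ ω, 2 * θ * 𝔼 i, ∑ b, p (v ω i) b ≤ θ ^ 2 + (∑ a, gop v π p ω a ^ 2
      + 𝔼 i, 𝔼 i', ∑ b, ∑ b', ind (π ω i b ≠ π ω i' b' ∧ S (v ω i) b ∧ S (v ω i') b')) :=
    fun ω => by nlinarith [c2 ω, sq_nonneg (θ - 𝔼 i, ∑ b, p (v ω i) b)]
  have c5 := expect_le_expect fun ω (_ : ω ∈ univ) => c4 ω
  have c6 := expect_le_expect fun ω (_ : ω ∈ univ) => expect_le_expect fun i (_ : i ∈ univ) =>
    sum_le_sum fun b (_ : b ∈ univ) => c1 (v ω i) b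
  simp only [expect_add_distrib, sum_add_distrib, ← mul_expect, ← mul_sum, Fintype.expect_const]
    at c5 c6 ⊢
  unfold gnorm at c3
  have c7 := (le_inv_mul_iff₀ (by positivity : 0 < 2 * θ)).2 (c5.trans
    (add_le_add le_rfl (add_le_add c3 le_rfl)))
  have c8 : (2 * θ)⁻¹ * θ ^ 2 = θ / 2 := by field_simp
  rw [mul_add, mul_add, c8] at c7
  linarith

end Pool.Agent.Lib.MP_a1e814_lc.Ds
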