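import Pool.Agent.Lib.MP_a1e814_lc.Pow

/-! Numbering the vertices and merging parallel edges. -/

namespace Pool.Agent.Lib.MP_a1e814_lc

open Finset Pool.Agent.Lib.Complexity

/-- the gap for simple graphs on numbered vertices -/
def NGap {α : Type} [Enc α] (Yes No : α → Prop) (c d : ℝ) : Prop :=
  ∃ (n : α → ℕ) (E D : α → WL ℕ), PT n ∧ PT E ∧ PT D ∧ ∀ a,
    (∀ e ∈ E a, e.1 < e.2.1 ∧ e.2.1 < n a) ∧ ((E a).map fun e => (e.1, e.2.1)).Nodup ∧
    (∀ e ∈ D a, e.1 < n a ∧ e.2.1 < n a) ∧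
    (Yes a → ∃ f : ℕ → Bool, 0 < cutN (E a) f ∧ c * cutN (E a) f ≤ cutN (D a) f) ∧
    (No a → ∀ f : ℕ → Bool, (cutN (D a) f : ℝ) ≤ d * cutN (E a) f)

def ix {W : Type} [DecidableEq W] (L : List W) (w : W) : ℕ :=
  ((List.range L.length).find? fun i => decide (L[i]? = some w)).getD 0

theorem ix_spec {W : Type} [DecidableEq W] {L : List W} {w : W} (h : w ∈ L) :
    ix L w < L.length ∧ L[ix L w]? = some w := by
  obtain ⟨i, hi, e⟩ := List.getElem_of_mem h
  unfold ix
  cases h1 : (List.range L.length).find? fun i => decide (L[i]? = some w) with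
  | none =>
    have := List.find?_eq_none.1 h1 i (List.mem_range.2 hi)
    simp [hi, e] at this
  | some j =>
    exact ⟨List.mem_range.1 (List.mem_of_find?_eq_some h1), by simpa using List.find?_some h1⟩

def ends {W : Type} (l : WL W) : List W := l.flatMap fun e => [e.1, e.2.1]

theorem mem_ends {W : Type} {l : WL W} {e : W × W × ℕ} (h : e ∈ l) :
    e.1 ∈ ends l ∧ e.2.1 ∈ ends l :=
  ⟨List.mem_flatMap.2 ⟨e, h, by simp⟩, List.mem_flatMap.2 ⟨e, h, by simp⟩⟩

def wsum (E : WL ℕ) (u v : ℕ) : ℕ :=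
  (E.map fun e => if (e.1 = u ∧ e.2.1 = v) ∨ (e.1 = v ∧ e.2.1 = u) then e.2.2 else 0).sum

def agg (n : ℕ) (E : WL ℕ) : WL ℕ :=
  (List.range n).flatMap fun v => (List.range v).map fun u => (u, v, wsum E u v)

theorem ind_comm (a b : Bool) : ind a b = ind b a := by cases a <;> cases b <;> rfl

theorem one_edge {n p q : ℕ} (w : ℕ) (hp : p < n) (hq : q < n) (f : ℕ → Bool) :
    ∑ v ∈ range n, ∑ u ∈ range v, (if (p = u ∧ q = v) ∨ (p = v ∧ q = u) then w else 0)
      * ind (f u) (f v) = w * ind (f p) (f q) := by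
  wlog h : p ≤ q generalizing p q
  · rw [ind_comm, ← this hq hp (by omega)]
    refine sum_congr rfl fun v _ => sum_congr rfl fun u _ => ?_
    congr 1
    exact if_congr (by omega) rfl rfl
  rcases h.eq_or_lt with rfl | h
  · rw [sum_eq_zero fun v _ => sum_eq_zero fun u hu => ?_]
    · simp [ind]
    · have := mem_range.1 hu
      rw [if_neg (by omega), zero_mul]
  · rw [sum_eq_single_of_mem q (mem_range.2 hq), sum_eq_single_of_mem p (mem_range.2 h)]
    · simp
    · intro u hu h1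
      rw [if_neg (by omega), zero_mul]
    · intro v _ h1
      refine sum_eq_zero fun u hu => ?_
      have := mem_range.1 hu
      rw [if_neg (by omega), zero_mul]

theorem cut_agg {n : ℕ} {E : WL ℕ} (h : ∀ e ∈ E, e.1 < n ∧ e.2.1 < n) (f : ℕ → Bool) :
    cutN (agg n E) f = cutN E f := by
  have e1 : cutN (agg n E) f = ∑ v ∈ range n, ∑ u ∈ range v, wsum E u v * ind (f u) (f v) := by
    rw [agg, cutN_flatMap, ← List.sum_toFinset _ List.nodup_range, List.toFinset_range]
    refine sum_congr rfl fun v _ => ?_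
    rw [cutN_eq_sum, List.map_map, ← List.sum_toFinset _ List.nodup_range, List.toFinset_range]
    rfl
  rw [e1, cutN_eq_sum]
  clear e1
  induction E with
  | nil => simp [wsum]
  | cons e E ih =>
    have h1 := h e (by simp)
    rw [List.map_cons, List.sum_cons, ← ih fun e he => h e (by simp [he]),
      ← one_edge e.2.2 h1.1 h1.2 f, ← sum_add_distrib]
    refine sum_congr rfl fun v _ => ?_
    rw [← sum_add_distrib]
    refine sum_congr rfl fun u _ => ?_
    simp only [wsum, List.map_cons, List.sum_cons, add_mul]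

theorem mem_agg {n : ℕ} {E : WL ℕ} {e : ℕ × ℕ × ℕ} (h : e ∈ agg n E) : e.1 < e.2.1 ∧ e.2.1 < n := by
  simp only [agg, List.mem_flatMap, List.mem_map, List.mem_range] at h
  obtain ⟨v, hv, u, hu, rfl⟩ := h
  exact ⟨hu, hv⟩

theorem nodup_agg (n : ℕ) (E : WL ℕ) : ((agg n E).map fun e => (e.1, e.2.1)).Nodup := by
  simp only [agg, List.map_flatMap, List.map_map]
  rw [List.nodup_flatMap]
  refine ⟨fun v _ => List.nodup_range.map fun u u' e => (Prod.ext_iff.1 e).1, ?_⟩
  refine List.nodup_range.pairwise_of_forall_ne fun v _ v' _ hne => ?_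
  intro x h1 h2
  simp only [List.mem_map, Function.comp] at h1 h2
  obtain ⟨u, -, rfl⟩ := h1
  obtain ⟨u', -, e⟩ := h2
  exact hne (Prod.ext_iff.1 e).2.symm

theorem pt_agg {α : Type} [Enc α] {n : α → ℕ} {X : α → WL ℕ} (hn : PT n) (hX : PT X) :
    PT fun a => agg (n a) (X a) := by
  unfold agg wsum
  fun_prop

theorem CGap.num {α : Type} [Enc α] {Yes No : α → Prop} {c d : ℝ} (h : CGap Yes No c d) :
    NGap Yes No c d := by
  obtain ⟨W, _, _, E, D, p1, p2, h⟩ := h
  let L : α → List W := fun a => ends (E a ++ D a)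
  have pL : PT L := by
    unfold L ends
    fun_prop
  have pp : ∀ {X : α → WL W}, PT X → PT fun a => push (ix (L a)) 1 (X a) := by
    intro X hX
    unfold push ix
    fun_prop
  have hE : ∀ a, ∀ e ∈ E a, e.1 ∈ L a ∧ e.2.1 ∈ L a := fun a e he =>
    mem_ends (List.mem_append_left _ he)
  have hD : ∀ a, ∀ e ∈ D a, e.1 ∈ L a ∧ e.2.1 ∈ L a := fun a e he =>
    mem_ends (List.mem_append_right _ he)
  have hlt : ∀ a (X : WL W), (∀ e ∈ X, e.1 ∈ L a ∧ e.2.1 ∈ L a) →
      ∀ e ∈ push (ix (L a)) 1 X, e.1 < (L a).length ∧ e.2.1 < (L a).length := by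
    intro a X hX e he
    obtain ⟨e', he', rfl⟩ := List.mem_map.1 he
    exact ⟨(ix_spec (hX e' he').1).1, (ix_spec (hX e' he').2).1⟩
  have hcut : ∀ a (X : WL W) (f : W → Bool), (∀ e ∈ X, e.1 ∈ L a ∧ e.2.1 ∈ L a) →
      (cutN (push (ix (L a)) 1 X) fun i => ((L a)[i]?.map f).getD false) = cutN X f := by
    intro a X f hX
    rw [cutN_push, one_mul]
    exact cutN_congr fun e he => by
      simp [(ix_spec (hX e he).1).2, (ix_spec (hX e he).2).2]
  refine ⟨fun a => (L a).length, fun a => agg (L a).length (push (ix (L a)) 1 (E a)),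
    fun a => push (ix (L a)) 1 (D a), pL.length, ?_, pp p2, fun a => ⟨fun e he => mem_agg he,
      nodup_agg _ _, hlt a _ (hD a), fun ha => ?_, fun ha f => ?_⟩⟩
  · exact pt_agg pL.length (pp p1)
  · obtain ⟨f, h1⟩ := (h a).1 ha
    refine ⟨fun i => ((L a)[i]?.map f).getD false, ?_⟩
    rwa [cut_agg (hlt a _ (hE a)), hcut a _ f (hE a), hcut a _ f (hD a)]
  · rw [cut_agg (hlt a _ (hE a)), cutN_push, cutN_push, one_mul, one_mul]
    exact (h a).2 ha _

end Pool.Agent.Lib.MP_a1e814_lc
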