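import Pool.Agent.Lib.MP_a1e814_lc.Base
import Pool.Agent.Lib.MP_a1e814_lc.Num
import Pool.Agent.Lib.MP_a1e814_lc.Defs
import Pool.Agent.Lib.MP_4d0379_lc.Zuck

/-! Choice of the constants and the final reduction. -/

namespace Pool.Agent.Lib.MP_a1e814_lc

open Finset Pool.Agent.Lib.Complexity Pool.Agent.Lib.MP_4d0379_lc N68a2faeb N487b59b3

theorem exists_r {κ : ℝ} (h0 : 0 ≤ κ) (h : κ < 1 / √2) : ∃ r1 r2 : ℕ, 0 < r2 ∧
    κ * (8 * (r1 + r2) ^ 2 + (2 * r1 + 3 * r2) ^ 2) < 4 * (r1 + r2) * (2 * r1 + 3 * r2) := by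
  have h2 : 2 * κ ^ 2 < 1 := by
    have s0 : (0 : ℝ) < √2 := by positivity
    rw [lt_div_iff₀ s0] at h
    have := Real.sq_sqrt (show (0 : ℝ) ≤ 2 by norm_num)
    nlinarith [mul_nonneg h0 s0.le]
  have h1 : κ ≤ 1 := by nlinarith
  obtain ⟨a, ha, ha2⟩ : ∃ a : ℕ, 9 ≤ (8 - 16 * κ ^ 2) * a ∧ 2 ≤ a := by
    obtain ⟨a, ha⟩ := exists_nat_ge (9 / (8 - 16 * κ ^ 2))
    rw [div_le_iff₀ (by linarith)] at ha
    refine ⟨a + 2, ?_, by omega⟩
    push_cast
    nlinarith
  set c := Nat.sqrt (8 * a ^ 2) with hc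
  have c1 : c ^ 2 ≤ 8 * a ^ 2 := Nat.sqrt_le' _
  have c2 : 8 * a ^ 2 < (c + 1) ^ 2 := Nat.lt_succ_sqrt' _
  have c3 : c ≤ 3 * a := by nlinarith
  have c4 : 2 * a < c := by nlinarith
  have e1 : ((3 * a - c : ℕ) : ℝ) + (c - 2 * a : ℕ) = a := by
    rw [Nat.cast_sub c3, Nat.cast_sub c4.le]
    push_cast
    ring
  have e2 : 2 * ((3 * a - c : ℕ) : ℝ) + 3 * (c - 2 * a : ℕ) = c := by
    rw [Nat.cast_sub c3, Nat.cast_sub c4.le]
    push_cast
    ring
  refine ⟨3 * a - c, c - 2 * a, by omega, ?_⟩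
  rw [e1, e2]
  have a1 : (2 : ℝ) ≤ a := by exact_mod_cast ha2
  have c1' : (c : ℝ) ^ 2 ≤ 8 * a ^ 2 := by exact_mod_cast c1
  have c2' : 8 * (a : ℝ) ^ 2 < (c + 1) ^ 2 := by exact_mod_cast c2
  have b1 : (4 * κ * a + 1) ^ 2 ≤ 8 * (a : ℝ) ^ 2 := by
    have := mul_le_mul_of_nonneg_right ha (by linarith : (0 : ℝ) ≤ a)
    nlinarith
  have b2 : 4 * κ * a + 1 < c + 1 := lt_of_pow_lt_pow_left₀ 2 (by positivity) (b1.trans_lt c2')
  have b3 := mul_le_mul_of_nonneg_left c1' h0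
  nlinarith

theorem ngap {ρ : ℝ} (h1 : 1 ≤ ρ) (hρ : ρ < 1 + 1 / √2) (L : DecisionProblem) (hL : L ∈ NP) :
    ∃ c d : ℝ, 0 < d ∧ ρ * d < c ∧ NGap (fun x => L x = true) (fun x => ¬ L x = true) c d := by
  obtain ⟨r1, r2, hr, hlt⟩ := exists_r (κ := ρ - 1) (by linarith) (by linarith)
  have hr' : (0 : ℝ) < r2 := by exact_mod_cast hr
  obtain ⟨ε, e0, e1, hs⟩ := satGap
  have hlc : ∀ δ > 0, LCGap (fun x => L x = true) (fun x => ¬ L x = true) δ := fun δ hδ =>
    ((hs L hL).lc (by norm_num)).rep (by positivity)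
      (by rw [div_le_one (by positivity)]; push_cast; linarith) hδ
  have key := fun (n : ℕ) (_ : NeZero n) (hn : 2 ≤ n) (η : ℝ) (hη : 0 < η) (k : ℕ) =>
    ((tgap (n := n) (r1 := r1) hr hn hη.le (δ := η ^ 2 / n) (le_of_eq (by
      have : (0 : ℝ) < n := by exact_mod_cast (by omega : 0 < n)
      field_simp)) (hlc _ (by
      have : (0 : ℝ) < n := by exact_mod_cast (by omega : 0 < n)
      positivity))).pow (by positivity) (by positivity) k).num
  set S : ℝ := 8 * (r1 + r2) ^ 2 + (2 * r1 + 3 * r2) ^ 2 with hS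
  set u : ℝ := 4 * (r1 + r2) * (2 * r1 + 3 * r2) with hu
  set C : ℝ := u + 2 * (2 * r1 + r2) ^ 2 with hC
  set K : ℝ := 60 * (r1 + r2) ^ 2 with hK
  have S0 : 0 < S := by positivity
  have u0 : 0 < u := by positivity
  have C0 : 0 < C := by positivity
  have K0 : 0 < K := by positivity
  obtain ⟨g, hg, g0⟩ : ∃ g, g = u - (ρ - 1) * S ∧ 0 < g := ⟨_, rfl, by linarith⟩
  clear_value S u C K
  obtain ⟨n, hn⟩ := exists_nat_ge (6 * u / g + 2)
  have n0 : 0 ≤ 6 * u / g := by positivity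
  have n2 : (2 : ℝ) ≤ n := by linarith
  have n2' : 2 ≤ n := by exact_mod_cast n2
  obtain ⟨k, hk⟩ := exists_nat_gt (36 * ρ * K / g)
  rw [div_lt_iff₀ g0] at hk
  refine ⟨_, _, by positivity, ?_, key n ⟨by omega⟩ n2' (g / (3 * ρ * C)) (by positivity) k⟩
  have a1 : u * (2 / n) ≤ g / 3 := by
    have : 6 * u / g ≤ n := by linarith
    rw [div_le_iff₀ g0] at this
    rw [← mul_div_assoc, div_le_div_iff₀ (by linarith) (by norm_num)]
    linarith
  have a2 : ρ * (C * (g / (3 * ρ * C))) = g / 3 := by field_simp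
  have a3 := mul_le_mul_of_nonneg_left a1 (Nat.cast_nonneg k : (0 : ℝ) ≤ k)
  have a4 : ρ * ((S + C * (g / (3 * ρ * C))) / 12 * k + K) = (ρ * S + g / 3) / 12 * k + ρ * K := by
    rw [← a2]
    ring
  rw [a4]
  have a5 : ρ * S * k = (S + u - g) * k := by
    rw [hg]
    ring
  nlinarith

def toQ (l : WL ℕ) : List (ℕ × ℕ × ℚ) := l.map fun e => (e.1, e.2.1, (e.2.2 : ℚ))

def toP (l : WL ℕ) : List (ℕ × ℕ × ℤ × ℕ) := l.map fun e => (e.1, e.2.1, (e.2.2 : ℤ), 1)

theorem enc_toQ (l : WL ℕ) : bitEncode (toQ l) = bitEncode (toP l) := by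
  change (((toQ l).map bitEncode).map delimit).flatten = (((toP l).map bitEncode).map delimit).flatten
  simp only [toQ, toP, List.map_map]
  rfl

theorem cut_toQ (l : WL ℕ) (S : Finset ℕ) : cut (toQ l) S = cutN l fun i => decide (i ∈ S) := by
  induction l with
  | nil => simp [cut, toQ]
  | cons e l ih =>
    rw [cutN_cons]
    push_cast
    rw [← ih]
    simp [cut, toQ]

theorem poly_inst {n : Str → ℕ} {E D : Str → WL ℕ} (p1 : PT n) (p2 : PT E) (p3 : PT D) :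
    IsPolyTime fun x => ((n x, toQ (E x), toQ (D x)) : Inst) := by
  have h : IsPolyTime fun x => (n x, toP (E x), toP (D x)) := by
    refine isPolyTime_of_rep (f' := fun x => ((n x : ℤ),
      (E x).map fun e => ((e.1 : ℤ), (e.2.1 : ℤ), (e.2.2 : ℤ), (1 : ℤ)),
      (D x).map fun e => ((e.1 : ℤ), (e.2.1 : ℤ), (e.2.2 : ℤ), (1 : ℤ)))) (by fun_prop) fun a => ?_
    rw [up_str]
    simp [toP, Function.comp_def]
  obtain ⟨t⟩ := h
  obtain ⟨F, hF, e⟩ := pt_of_tm2 t
  refine tm2_of_str hF fun x => (e x).trans ?_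
  change delimit _ ++ (delimit (bitEncode (toP (E x))) ++ bitEncode (toP (D x)))
    = delimit _ ++ (delimit (bitEncode (toQ (E x))) ++ bitEncode (toQ (D x)))
  rw [enc_toQ, enc_toQ]

theorem reduction {ρ : ℝ} (hρ : ρ < 1 + 1 / √2) (L : DecisionProblem) (hL : L ∈ NP) :
    ∃ (θ : ℚ) (n : Str → ℕ) (E D : Str → WL ℕ), PT n ∧ PT E ∧ PT D ∧ ∀ x,
      Valid (n x, toQ (E x), toQ (D x)) ∧
      (L x = true → ∃ T ⊆ range (n x), 0 < cut (toQ (D x)) T ∧
        ρ * ratio (n x, toQ (E x), toQ (D x)) T ≤ θ) ∧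
      (L x = false → ∀ S, 0 < cut (toQ (D x)) S → θ < ratio (n x, toQ (E x), toQ (D x)) S) := by
  have hρ' : max ρ 1 < 1 + 1 / √2 := max_lt hρ (lt_add_of_pos_right _ (by positivity))
  obtain ⟨c, d, d0, hcd, n, E, D, p1, p2, p3, h⟩ := ngap (le_max_right ρ 1) hρ' L hL
  have m0 : 0 < max ρ 1 := lt_of_lt_of_le one_pos (le_max_right _ _)
  have c0 : 0 < c := lt_trans (by positivity) hcd
  obtain ⟨θ, t1, t2⟩ := exists_rat_btwn (show max ρ 1 / c < 1 / d by
    rw [div_lt_div_iff₀ c0 d0]; linarith)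
  refine ⟨θ, n, E, D, p1, p2, p3, fun x => ?_⟩
  obtain ⟨h1, h2, h3, h4, h5⟩ := h x
  refine ⟨⟨fun e he => ?_, ?_, fun e he => ?_⟩, fun hx => ?_, fun hx S hS => ?_⟩
  · obtain ⟨e', he', rfl⟩ := List.mem_map.1 he
    have := h1 e' he'
    exact ⟨this.1.trans this.2, this.2, this.1.ne, Nat.cast_nonneg _⟩
  · simp only [toQ, List.map_map]
    rw [List.Nodup, List.pairwise_map] at h2 ⊢
    refine h2.imp_of_mem fun {e e'} he he' hne h6 => hne ?_
    have b1 := (h1 e he).1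
    have b2 := (h1 e' he').1
    rcases Sym2.eq_iff.1 h6 with h7 | h7
    · exact Prod.ext h7.1 h7.2
    · simp only at h7
      omega
  · obtain ⟨e', he', rfl⟩ := List.mem_map.1 he
    exact ⟨(h3 e' he').1, (h3 e' he').2, Nat.cast_nonneg _⟩
  · obtain ⟨f, f1, f2⟩ := h4 hx
    have e : ∀ X : WL ℕ, (∀ e ∈ X, e.1 < n x ∧ e.2.1 < n x) →
        cut (toQ X) ((range (n x)).filter fun i => f i = true) = cutN X f := by
      intro X hX
      rw [cut_toQ]
      congr 1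
      exact cutN_congr fun e he => by simp [(hX e he).1, (hX e he).2]
    have e1 := e (E x) fun e he => ⟨(h1 e he).1.trans (h1 e he).2, (h1 e he).2⟩
    have e2 := e (D x) h3
    have f1' : (0 : ℝ) < cutN (E x) f := by exact_mod_cast f1
    have f3 : (0 : ℝ) < cutN (D x) f := lt_of_lt_of_le (by positivity) f2
    refine ⟨_, filter_subset _ _, by rw [e2]; exact_mod_cast f3, ?_⟩
    simp only [ratio, e1, e2]
    push_cast
    refine le_trans ?_ t1.le
    refine (mul_le_mul_of_nonneg_right (le_max_left ρ 1) (by positivity)).trans ?_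
    rw [div_eq_mul_one_div (max ρ 1)]
    refine mul_le_mul_of_nonneg_left ?_ m0.le
    rw [div_le_div_iff₀ f3 c0]
    linarith
  · have f1 := h5 (by simp [hx]) fun i => decide (i ∈ S)
    simp only [ratio, cut_toQ] at hS ⊢
    have f2 : (0 : ℝ) < cutN (D x) fun i => decide (i ∈ S) := by exact_mod_cast hS
    rw [← Rat.cast_lt (K := ℝ)]
    push_cast
    refine t2.trans_le ?_
    rw [div_le_div_iff₀ d0 f2]
    linarith

theorem pt_cut {X : Str → WL ℕ} {Z : Str → List ℤ} (hX : PT X) (hZ : PT Z) :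
    PT fun x => cutN (X x) fun i => decide ((i : ℤ) ∈ Z x) := by
  unfold cutN
  refine PT.list_sum (PT.map hX (PT.ite (PT.dec_eq ?_ ?_) (PT.const _) (by fun_prop)))
  · exact PT.dec_mem (PT.natCast (by fun_prop)) (by fun_prop)
  · exact PT.dec_mem (PT.natCast (by fun_prop)) (by fun_prop)

theorem final (ρ : ℝ) (hρ : ρ < 1 + 1 / √2) :
    (∀ L ∈ NP, ∃ (θ : ℚ) (f : List Bool → Inst), IsPolyTime f ∧ ∀ x, Valid (f x) ∧
      (L x = true → ∃ T ⊆ Finset.range (f x).1, 0 < cut (f x).2.2 T ∧ ρ * ratio (f x) T ≤ θ) ∧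
      (L x = false → ∀ S, 0 < cut (f x).2.2 S → θ < ratio (f x) S)) ∧
    ∀ alg : Inst → List ℕ, IsPolyTime alg → Approximates ρ alg → P = NP := by
  constructor
  · intro L hL
    obtain ⟨θ, n, E, D, p1, p2, p3, h⟩ := reduction hρ L hL
    exact ⟨θ, _, poly_inst p1 p2 p3, h⟩
  · intro alg halg hA
    refine Set.Subset.antisymm (fun L hL => ?_) fun L hL => ?_
    · have p1 := pt_of_isPolyTime_pred hL
      exact mem_NP_of_PT (R := fun q => L q.1) (p1.comp (by fun_prop)) 0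
        fun x => ⟨fun hx => ⟨[], by simp, hx⟩, fun ⟨_, _, hx⟩ => hx⟩
    obtain ⟨θ, n, E, D, p1, p2, p3, h⟩ := reduction hρ L hL
    have p4 := pt_of_isPolyTime (isPolyTime_comp halg (poly_inst p1 p2 p3))
    simp only [down_str, up_list] at p4
    set S : Str → List ℕ := fun x => alg (n x, toQ (E x), toQ (D x)) with hS
    have p5 : ∀ {X : Str → WL ℕ}, PT X →
        PT fun x => cutN (X x) fun i => decide (i ∈ (S x).toFinset) := by
      intro X hX
      have : PT fun x => cutN (X x) fun i => decide ((i : ℤ) ∈ (S x).map Rep.up) := pt_cut hX p4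
      refine this.of_eq fun x => ?_
      congr 1
      funext i
      simp
    have p6 : PT fun x => decide (0 < cutN (D x) fun i => decide (i ∈ (S x).toFinset)) &&
        decide (((cutN (E x) fun i => decide (i ∈ (S x).toFinset) : ℕ) : ℤ) * θ.den
          ≤ θ.num * (cutN (D x) fun i => decide (i ∈ (S x).toFinset) : ℕ)) :=
      (PT.dec_lt (PT.const _) (p5 p3)).and (PT.int_le ((p5 p2).natCast.int_mul (PT.const _))
        ((PT.const _).int_mul (p5 p3).natCast))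
    refine PT.mem_P (p6.of_eq fun x => ?_)
    have e : ∀ (p q : ℕ), 0 < q → ((p : ℤ) * θ.den ≤ θ.num * q ↔ (p : ℚ) / q ≤ θ) := by
      intro p q hq
      conv_rhs => rw [← Rat.num_div_den θ]
      rw [div_le_div_iff₀ (by exact_mod_cast hq) (by exact_mod_cast θ.den_pos)]
      norm_cast
    obtain ⟨h1, h2, h3⟩ := h x
    cases hx : L x
    · rw [Bool.and_eq_false_imp]
      intro h4
      have h5 := of_decide_eq_true h4
      rw [decide_eq_false_iff_not, e _ _ h5, not_le]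
      have := h3 hx (S x).toFinset (by rw [cut_toQ]; exact_mod_cast h5)
      simpa only [ratio, cut_toQ] using this
    · obtain ⟨T, t1, t2, t3⟩ := h2 hx
      obtain ⟨h4, h5⟩ := hA _ h1 T t1 t2
      have h6 : 0 < cutN (D x) fun i => decide (i ∈ (S x).toFinset) := by
        rw [cut_toQ] at h4
        exact_mod_cast h4
      rw [Bool.and_eq_true, decide_eq_true_eq, decide_eq_true_eq, e _ _ h6]
      have h7 := (Rat.cast_le (K := ℝ)).1 (h5.trans t3)
      exact ⟨h6, by simpa only [ratio, cut_toQ] using h7⟩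

end Pool.Agent.Lib.MP_a1e814_lc
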