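import Pool.Agent.Lib.MP_a1e814_lc.DsBase
import Pool.Agent.Lib.MP_a1e814_lc.Final

/-! The final reduction for the factor twenty three tenths. -/

namespace Pool.Agent.Lib.MP_a1e814_lc.Ds

open Finset Pool.Agent.Lib.Complexity Pool.Agent.Lib.MP_4d0379_lc N68a2faeb N487b59b3

theorem ngap (L : DecisionProblem) (hL : L ∈ NP) : ∃ c d : ℝ, 0 < d ∧ 23 / 10 * d < c ∧
    NGap (fun x => L x = true) (fun x => ¬ L x = true) c d := by
  obtain ⟨ε, e0, e1, hs⟩ := satGap
  obtain ⟨K, K0, h⟩ := tgap fun δ hδ => ((hs L hL).lc (by norm_num)).rep (by positivity)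
    (by rw [div_le_one (by positivity)]; push_cast; linarith) hδ
  obtain ⟨k, hk⟩ := exists_nat_gt (20000 * K)
  have k0 : (0 : ℝ) < k := by linarith
  exact ⟨_, _, by positivity, by linarith, (h.pow (by norm_num) K0 k).num⟩

theorem reduction {ρ : ℝ} (m0 : 0 < ρ) {L : DecisionProblem} (H : ∃ c d : ℝ, 0 < d ∧ ρ * d < c ∧
    NGap (fun x => L x = true) (fun x => ¬ L x = true) c d) :
    ∃ (θ : ℚ) (n : Str → ℕ) (E D : Str → WL ℕ), PT n ∧ PT E ∧ PT D ∧ ∀ x,
      Valid (n x, toQ (E x), toQ (D x)) ∧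
      (L x = true → ∃ T ⊆ range (n x), 0 < cut (toQ (D x)) T ∧
        ρ * ratio (n x, toQ (E x), toQ (D x)) T ≤ θ) ∧
      (L x = false → ∀ S, 0 < cut (toQ (D x)) S → θ < ratio (n x, toQ (E x), toQ (D x)) S) := by
  obtain ⟨c, d, d0, hcd, n, E, D, p1, p2, p3, h⟩ := H
  have c0 : 0 < c := lt_trans (by positivity) hcd
  obtain ⟨θ, t1, t2⟩ := exists_rat_btwn (show ρ / c < 1 / d by
    rw [div_lt_div_iff₀ c0 d0]; linarith)
  refine ⟨θ, n, E, D, p1, p2, p3, fun x => ?_⟩
  obtain ⟨h1, h2, h3, h4, h5⟩ := h x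
  refine ⟨⟨fun e he => ?_, ?_, fun e he => ?_⟩, fun hx => ?_, fun hx S hS => ?_⟩
  · obtain ⟨e', he', rfl⟩ := List.mem_map.1 he
    have := h1 e' he'
    exact ⟨this.1.trans this.2, this.2, this.1.ne, Nat.cast_nonneg _⟩
  · simp only [toQ, List.map_map]
    rw [List.Nodup, List.pairwise_map] at h2 ⊢
    refine h2.imp_of_mem fun {e e'} he he' hne h6 => hne ?_
    have b1 := (h1 e he).1
    have b2 := (h1 e' he').1
    rcases Sym2.eq_iff.1 h6 with h7 | h7
    · exact Prod.ext h7.1 h7.2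
    · simp only at h7
      omega
  · obtain ⟨e', he', rfl⟩ := List.mem_map.1 he
    exact ⟨(h3 e' he').1, (h3 e' he').2, Nat.cast_nonneg _⟩
  · obtain ⟨f, f1, f2⟩ := h4 hx
    have e : ∀ X : WL ℕ, (∀ e ∈ X, e.1 < n x ∧ e.2.1 < n x) →
        cut (toQ X) ((range (n x)).filter fun i => f i = true) = cutN X f := by
      intro X hX
      rw [cut_toQ]
      congr 1
      exact cutN_congr fun e he => by simp [(hX e he).1, (hX e he).2]
    have e1 := e (E x) fun e he => ⟨(h1 e he).1.trans (h1 e he).2, (h1 e he).2⟩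
    have e2 := e (D x) h3
    have f1' : (0 : ℝ) < cutN (E x) f := by exact_mod_cast f1
    have f3 : (0 : ℝ) < cutN (D x) f := lt_of_lt_of_le (by positivity) f2
    refine ⟨_, filter_subset _ _, by rw [e2]; exact_mod_cast f3, ?_⟩
    simp only [ratio, e1, e2]
    push_cast
    refine le_trans ?_ t1.le
    rw [div_eq_mul_one_div ρ]
    refine mul_le_mul_of_nonneg_left ?_ m0.le
    rw [div_le_div_iff₀ f3 c0]
    linarith
  · have f1 := h5 (by simp [hx]) fun i => decide (i ∈ S)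
    simp only [ratio, cut_toQ] at hS ⊢
    have f2 : (0 : ℝ) < cutN (D x) fun i => decide (i ∈ S) := by exact_mod_cast hS
    rw [← Rat.cast_lt (K := ℝ)]
    push_cast
    refine t2.trans_le ?_
    rw [div_le_div_iff₀ d0 f2]
    linarith

theorem final {ρ : ℝ} (m0 : 0 < ρ) (H : ∀ L ∈ NP, ∃ c d : ℝ, 0 < d ∧ ρ * d < c ∧
    NGap (fun x => L x = true) (fun x => ¬ L x = true) c d) (alg : Inst → List ℕ)
    (halg : IsPolyTime alg) (hA : Approximates ρ alg) : P = NP := by
  refine Set.Subset.antisymm (fun L hL => ?_) fun L hL => ?_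
  · have p1 := pt_of_isPolyTime_pred hL
    exact mem_NP_of_PT (R := fun q => L q.1) (p1.comp (by fun_prop)) 0
      fun x => ⟨fun hx => ⟨[], by simp, hx⟩, fun ⟨_, _, hx⟩ => hx⟩
  obtain ⟨θ, n, E, D, p1, p2, p3, h⟩ := reduction m0 (H L hL)
  have p4 := pt_of_isPolyTime (isPolyTime_comp halg (poly_inst p1 p2 p3))
  simp only [down_str, up_list] at p4
  set S : Str → List ℕ := fun x => alg (n x, toQ (E x), toQ (D x)) with hS
  have p5 : ∀ {X : Str → WL ℕ}, PT X →
      PT fun x => cutN (X x) fun i => decide (i ∈ (S x).toFinset) := by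
    intro X hX
    have : PT fun x => cutN (X x) fun i => decide ((i : ℤ) ∈ (S x).map Rep.up) := pt_cut hX p4
    refine this.of_eq fun x => ?_
    congr 1
    funext i
    simp
  have p6 : PT fun x => decide (0 < cutN (D x) fun i => decide (i ∈ (S x).toFinset)) &&
      decide (((cutN (E x) fun i => decide (i ∈ (S x).toFinset) : ℕ) : ℤ) * θ.den
        ≤ θ.num * (cutN (D x) fun i => decide (i ∈ (S x).toFinset) : ℕ)) :=
    (PT.dec_lt (PT.const _) (p5 p3)).and (PT.int_le ((p5 p2).natCast.int_mul (PT.const _))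
      ((PT.const _).int_mul (p5 p3).natCast))
  refine PT.mem_P (p6.of_eq fun x => ?_)
  have e : ∀ (p q : ℕ), 0 < q → ((p : ℤ) * θ.den ≤ θ.num * q ↔ (p : ℚ) / q ≤ θ) := by
    intro p q hq
    conv_rhs => rw [← Rat.num_div_den θ]
    rw [div_le_div_iff₀ (by exact_mod_cast hq) (by exact_mod_cast θ.den_pos)]
    norm_cast
  obtain ⟨h1, h2, h3⟩ := h x
  cases hx : L x
  · rw [Bool.and_eq_false_imp]
    intro h4
    have h5 := of_decide_eq_true h4
    rw [decide_eq_false_iff_not, e _ _ h5, not_le]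
    have := h3 hx (S x).toFinset (by rw [cut_toQ]; exact_mod_cast h5)
    simpa only [ratio, cut_toQ] using this
  · obtain ⟨T, t1, t2, t3⟩ := h2 hx
    obtain ⟨h4, h5⟩ := hA _ h1 T t1 t2
    have h6 : 0 < cutN (D x) fun i => decide (i ∈ (S x).toFinset) := by
      rw [cut_toQ] at h4
      exact_mod_cast h4
    rw [Bool.and_eq_true, decide_eq_true_eq, decide_eq_true_eq, e _ _ h6]
    have h7 := (Rat.cast_le (K := ℝ)).1 (h5.trans t3)
    exact ⟨h6, by simpa only [ratio, cut_toQ] using h7⟩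

end Pool.Agent.Lib.MP_a1e814_lc.Ds
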