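import Pool.Agent.Lib.MP_a1e814_lc.DsProb

/-! The Russo formula, hypercontractivity and the junta theorem of Friedgut. -/

set_option linter.unusedSectionVars false

namespace Pool.Agent.Lib.MP_a1e814_lc.Ds

open Finset Function
open scoped BigOperators

variable {ι : Type} [Fintype ι] [DecidableEq ι] {p : ℝ}

/-- discrete derivative -/
def dd (a : ι) : Module.End ℝ (Fn ι) := rs a true - rs a false

theorem dd_apply (a : ι) (g : Fn ι) (x : ι → Bool) :
    dd a g x = g (update x a true) - g (update x a false) := rfl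

theorem av_dd (a : ι) (g : Fn ι) : av p a (dd a g) = dd a g := by
  funext x
  simp only [av_apply, dd_apply, update_idem]
  ring

theorem hasDerivAt_cond (h0 : 0 < p) (h1 : p < 1) (f : Fn ι) (S : Finset ι) : ∀ x : ι → Bool,
    HasDerivAt (fun r => cond r S f x) (∑ a ∈ S, cond p S (dd a f) x) p := by
  have hp := prob_bern h0.le h1.le
  induction S using Finset.induction_on with
  | empty =>
    intro x
    refine (hasDerivAt_const p (f x)).congr_of_eventuallyEq ?_ |>.congr_deriv (by simp)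
    filter_upwards [Ioo_mem_nhds h0 h1] with r hr
    rw [cond_empty (prob_bern hr.1.le hr.2.le)]
  | insert a S ha ih =>
    intro x
    have h2 := (((hasDerivAt_id p).const_sub 1).mul (ih (update x a false))).add
      ((hasDerivAt_id p).mul (ih (update x a true)))
    refine (h2.congr_of_eventuallyEq ?_).congr_deriv ?_
    · filter_upwards [Ioo_mem_nhds h0 h1] with r hr
      rw [cond_insert' (prob_bern hr.1.le hr.2.le) ha]
      rfl
    · rw [sum_insert ha, cond_insert hp ha, av_dd]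
      simp only [cond_insert' hp ha, sum_add_distrib, ← mul_sum, id]
      rw [cond_update ha f, cond_update ha f, dd, LinearMap.sub_apply, map_sub, Pi.sub_apply]
      ring

/-- influence -/
noncomputable def Inf (p : ℝ) (f : Fn ι) (a : ι) : ℝ := Ex (bern p) (dd a f)

theorem russo {δ : ℝ} (h0 : 0 < p) (hδ : 0 < δ) (h1 : p + δ < 1) {f : Fn ι} (f0 : ∀ x, 0 ≤ f x)
    (f1 : ∀ x, f x ≤ 1) : ∃ r, p ≤ r ∧ r ≤ p + δ ∧ ∑ a, Inf r f a ≤ δ⁻¹ := by
  have h2 : ∀ r ∈ Set.Icc p (p + δ),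
      HasDerivAt (fun r => Ex (bern r) f) (∑ a, Inf r f a) r := fun r hr => by
    simpa only [cond_univ, Inf] using
      hasDerivAt_cond (h0.trans_le hr.1) (hr.2.trans_lt h1) f univ fun _ => true
  obtain ⟨r, hr, h3⟩ := exists_hasDerivAt_eq_slope (fun r => Ex (bern r) f) (fun r => ∑ a, Inf r f a)
    (by linarith : p < p + δ) (fun r hr => (h2 r hr).continuousAt.continuousWithinAt)
    fun r hr => h2 r ⟨hr.1.le, hr.2.le⟩
  refine ⟨r, hr.1.le, hr.2.le, ?_⟩
  have h4 := Ex_le (prob_bern (by linarith) h1.le) f1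
  have h5 := Ex_nonneg (prob_bern h0.le (by linarith)) f0
  rw [h3, add_sub_cancel_left, inv_eq_one_div]
  gcongr
  linarith

/-- inner product -/
noncomputable def ip (p : ℝ) (g h : Fn ι) : ℝ := Ex (bern p) fun x => g x * h x

theorem ip_comm (g h : Fn ι) : ip p g h = ip p h g := by simp only [ip, mul_comm]

theorem ip_add (f g h : Fn ι) : ip p f (g + h) = ip p f g + ip p f h := by
  simp only [ip, Pi.add_apply, mul_add, Ex_add]

theorem ip_sub (f g h : Fn ι) : ip p f (g - h) = ip p f g - ip p f h := by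
  simp only [ip, Pi.sub_apply, mul_sub, Ex_sub]

theorem ip_smul (r : ℝ) (f g : Fn ι) : ip p f (r • g) = r * ip p f g := by
  simp only [ip, Pi.smul_apply, smul_eq_mul, mul_left_comm _ r, Ex_mul]

theorem ip_sub' (f g h : Fn ι) : ip p (g - h) f = ip p g f - ip p h f := by
  rw [ip_comm, ip_sub, ip_comm f, ip_comm f]

theorem ip_self_nonneg (hp : Prob (bern p)) (g : Fn ι) : 0 ≤ ip p g g :=
  Ex_nonneg hp fun _ => mul_self_nonneg _

theorem ip_cs (hp : Prob (bern p)) (g h : Fn ι) : ip p g h ^ 2 ≤ ip p g g * ip p h h := by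
  simpa only [ip, sq] using Ex_cs hp g h

theorem ip_two (hp : Prob (bern p)) (g h : Fn ι) : 2 * ip p g h ≤ ip p g g + ip p h h := by
  have := ip_self_nonneg hp (g - h)
  rw [ip_sub, ip_sub', ip_sub', ip_comm h g] at this
  linarith

/-- self adjoint contraction -/
structure SC (p : ℝ) (T : Module.End ℝ (Fn ι)) : Prop where
  adj : ∀ g h, ip p g (T h) = ip p (T g) h
  con : ∀ g, ip p (T g) (T g) ≤ ip p g g

theorem av_av (a : ι) (g : Fn ι) : av p a (av p a g) = av p a g := by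
  funext x
  simp only [av_apply, update_idem]
  ring

theorem ip_av (hp : Prob (bern p)) (a : ι) (g h : Fn ι) :
    ip p g (av p a h) = ip p (av p a g) (av p a h) := by
  unfold ip
  rw [← Ex_av hp a]
  congr 1
  funext x
  simp only [av_apply, update_idem]
  ring

theorem sc_av (hp : Prob (bern p)) (a : ι) : SC p (av p a) := by
  refine ⟨fun g h => by rw [ip_av hp, ip_comm _ h, ip_av hp a h, ip_comm], fun g => ?_⟩
  have := ip_two hp g (av p a g)
  rw [ip_av hp] at this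
  linarith

theorem av_comm (a b : ι) : Commute (av p a) (av p b) := by
  by_cases h : a = b
  · rw [h]
  · refine LinearMap.ext fun g => funext fun x => ?_
    simp only [Module.End.mul_apply, av_apply, update_comm h]
    ring

theorem rs_av_comm {a b : ι} (h : a ≠ b) (c : Bool) : Commute (rs a c) (av p b) := by
  refine LinearMap.ext fun g => funext fun x => ?_
  simp only [Module.End.mul_apply, av_apply, rs_apply, update_comm h]

/-- noise on one coordinate -/
noncomputable def ns (p ρ : ℝ) (a : ι) : Module.End ℝ (Fn ι) := ρ • 1 + (1 - ρ) • av p a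

theorem ns_app (ρ : ℝ) (a : ι) (g : Fn ι) : ns p ρ a g = ρ • g + (1 - ρ) • av p a g := rfl

theorem comm_ns {T : Module.End ℝ (Fn ι)} {a : ι} (h : Commute T (av p a)) (ρ : ℝ) :
    Commute T (ns p ρ a) :=
  ((Commute.one_right T).smul_right ρ).add_right (h.smul_right _)

theorem ns_mul (ρ ρ' : ℝ) (a : ι) : ns p ρ a * ns p ρ' a = ns p (ρ * ρ') a := by
  refine LinearMap.ext fun g => funext fun x => ?_
  simp only [Module.End.mul_apply, ns_app, map_add, map_smul, av_av, Pi.add_apply, Pi.smul_apply,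
    smul_eq_mul]
  ring

theorem sc_ns (hp : Prob (bern p)) {ρ : ℝ} (r0 : 0 ≤ ρ) (r1 : ρ ≤ 1) (a : ι) : SC p (ns p ρ a) := by
  have h1 : ∀ g h, ip p g (ns p ρ a h) = ρ * ip p g h + (1 - ρ) * ip p g (av p a h) := fun g h => by
    rw [ns_app, ip_add, ip_smul, ip_smul]
  have h2 : ∀ g h, ip p g (ns p ρ a h) = ip p (ns p ρ a g) h := fun g h => by
    rw [h1, ip_comm (ns p ρ a g), h1, (sc_av hp a).adj, ip_comm h, ip_comm h]
  refine ⟨h2, fun g => ?_⟩
  rw [← h2, ← Module.End.mul_apply, ns_mul, ns_app, ip_add, ip_smul, ip_smul, ip_av hp]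
  have := (sc_av hp a).con g
  have : ρ * ρ ≤ 1 := by nlinarith
  nlinarith

/-- the noise operator -/
noncomputable def nz (p ρ : ℝ) (l : List ι) : Module.End ℝ (Fn ι) := (l.map (ns p ρ)).prod

theorem nz_cons (ρ : ℝ) (a : ι) (l : List ι) : nz p ρ (a :: l) = ns p ρ a * nz p ρ l := by
  simp [nz]

theorem comm_nz {T : Module.End ℝ (Fn ι)} {l : List ι} (h : ∀ a ∈ l, Commute T (av p a)) (ρ : ℝ) :
    Commute T (nz p ρ l) :=
  Commute.list_prod_right _ _ fun _ hx => by
    obtain ⟨a, ha, rfl⟩ := List.mem_map.1 hx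
    exact comm_ns (h a ha) ρ

theorem ns_nz (ρ ρ' : ℝ) (a : ι) (l : List ι) : Commute (ns p ρ a) (nz p ρ' l) :=
  comm_nz (fun b _ => (comm_ns (av_comm b a) ρ).symm) ρ'

theorem nz_mul (ρ ρ' : ℝ) (l : List ι) : nz p ρ l * nz p ρ' l = nz p (ρ * ρ') l := by
  induction l with
  | nil => simp [nz]
  | cons a l ih =>
    rw [nz_cons, nz_cons, nz_cons, ← ih, ← ns_mul, mul_assoc, mul_assoc, ← mul_assoc (nz p ρ l),
      ← (ns_nz ρ' ρ a l).eq, mul_assoc]

theorem sc_nz (hp : Prob (bern p)) {ρ : ℝ} (r0 : 0 ≤ ρ) (r1 : ρ ≤ 1) (l : List ι) :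
    SC p (nz p ρ l) := by
  induction l with
  | nil => exact ⟨fun _ _ => rfl, fun _ => le_rfl⟩
  | cons a l ih =>
    have h := sc_ns hp r0 r1 a
    refine ⟨fun g f => ?_, fun g => ?_⟩
    · rw [nz_cons, Module.End.mul_apply, h.adj, ih.adj, (ns_nz ρ ρ a l).eq, Module.End.mul_apply]
    · rw [nz_cons, Module.End.mul_apply]
      exact (h.con _).trans (ih.con _)

theorem two_point {ρ : ℝ} (r0 : 0 ≤ ρ) (r1 : ρ ≤ 1 / 4) (h0 : 1 / 50 ≤ p) (h1 : p ≤ 49 / 50)
    (E D : ℝ) : (1 - p) * (E - ρ * p * D) ^ 4 + p * (E + ρ * (1 - p) * D) ^ 4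
      ≤ E ^ 4 + 2 * (p * (1 - p)) * (E * D) ^ 2 + (p * (1 - p)) ^ 2 * D ^ 4 := by
  obtain ⟨s, hs⟩ : ∃ s, s = p * (1 - p) := ⟨_, rfl⟩
  have e : (1 - p) * (E - ρ * p * D) ^ 4 + p * (E + ρ * (1 - p) * D) ^ 4 = E ^ 4
      + s * (6 * ρ ^ 2 * (E * D) ^ 2 + 4 * ρ ^ 2 * ((E * D) * ((1 - 2 * p) * ρ * D ^ 2))
      + ρ ^ 4 * (1 - 3 * s) * D ^ 4) := by rw [hs]; ring
  rw [e, ← hs]
  have s0 : 1 / 64 ≤ s := by nlinarith
  have r2 : ρ ^ 2 ≤ 1 / 16 := by nlinarith
  have r4 : ρ ^ 4 ≤ 1 / 256 := by nlinarith [sq_nonneg ρ]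
  have d4 : 0 ≤ D ^ 4 := by positivity
  have a1 : 2 * ((E * D) * ((1 - 2 * p) * ρ * D ^ 2))
      ≤ (E * D) ^ 2 + (1 - 2 * p) ^ 2 * (ρ ^ 2 * D ^ 4) := by
    nlinarith [sq_nonneg (E * D - (1 - 2 * p) * ρ * D ^ 2)]
  have a2 : (1 - 2 * p) ^ 2 * (ρ ^ 2 * D ^ 4) ≤ ρ ^ 2 * D ^ 4 :=
    mul_le_of_le_one_left (by positivity) (by nlinarith)
  have a3 : 4 * ρ ^ 2 * ((E * D) * ((1 - 2 * p) * ρ * D ^ 2))
      ≤ 2 * ρ ^ 2 * (E * D) ^ 2 + 2 * ρ ^ 4 * D ^ 4 := by
    nlinarith [mul_le_mul_of_nonneg_left (a1.trans (add_le_add_right a2 _)) (sq_nonneg ρ)]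
  have a4 : ρ ^ 4 * (1 - 3 * s) * D ^ 4 ≤ ρ ^ 4 * D ^ 4 := by
    nlinarith [mul_nonneg (mul_nonneg (by positivity : 0 ≤ ρ ^ 4) d4) (by linarith : 0 ≤ s)]
  have a5 : 8 * ρ ^ 2 * (E * D) ^ 2 ≤ 2 * (E * D) ^ 2 := by nlinarith [sq_nonneg (E * D)]
  have a6 : 3 * ρ ^ 4 * D ^ 4 ≤ s * D ^ 4 := by nlinarith
  nlinarith [mul_le_mul_of_nonneg_left (by linarith : 6 * ρ ^ 2 * (E * D) ^ 2
    + 4 * ρ ^ 2 * ((E * D) * ((1 - 2 * p) * ρ * D ^ 2)) + ρ ^ 4 * (1 - 3 * s) * D ^ 4
    ≤ 2 * (E * D) ^ 2 + s * D ^ 4) (by linarith : 0 ≤ s)]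

theorem hyper {ρ : ℝ} (r0 : 0 ≤ ρ) (r1 : ρ ≤ 1 / 4) (h0 : 1 / 50 ≤ p) (h1 : p ≤ 49 / 50)
    (l : List ι) (hl : l.Nodup) : ∀ (h : Fn ι) (x : ι → Bool),
    cond p l.toFinset (fun y => nz p ρ l h y ^ 4) x ≤ cond p l.toFinset (fun y => h y ^ 2) x ^ 2 := by
  have hp := prob_bern (by linarith : 0 ≤ p) (by linarith : p ≤ 1)
  induction l with
  | nil =>
    intro h x
    simp only [List.toFinset_nil, cond_empty hp, nz, List.map_nil, List.prod_nil,
      Module.End.one_apply]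
    exact le_of_eq (by ring)
  | cons a l ih =>
    intro h x
    obtain ⟨ha, hl⟩ := List.nodup_cons.1 hl
    have ha' : a ∉ l.toFinset := by simpa using ha
    have c1 : ∀ b y, nz p ρ l h (update y a b) = nz p ρ l (rs a b h) y := fun b y => by
      have := (comm_nz (T := rs a b) (p := p) (l := l)
        (fun c hc => rs_av_comm (fun e : a = c => ha (e ▸ hc)) b) ρ).eq
      exact congrFun (LinearMap.congr_fun this h) y
    have c2 : av p a h = (1 - p) • rs a false h + p • rs a true h := rfl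
    have c3 : dd a h = rs a true h - rs a false h := rfl
    have c4 : ∀ y, av p a (fun y => nz p ρ (a :: l) h y ^ 4) y ≤ nz p ρ l (av p a h) y ^ 4
        + (2 * (p * (1 - p)) * (nz p ρ l (av p a h) y ^ 2 * nz p ρ l (dd a h) y ^ 2)
        + (p * (1 - p)) ^ 2 * nz p ρ l (dd a h) y ^ 4) := fun y => by
      have := two_point r0 r1 h0 h1 (nz p ρ l (av p a h) y) (nz p ρ l (dd a h) y)
      rw [mul_pow, add_assoc] at this
      refine le_of_eq_of_le ?_ this
      rw [c2, c3, map_add, map_smul, map_smul, map_sub, nz_cons]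
      simp only [Module.End.mul_apply, ns_app, Pi.add_apply, Pi.smul_apply, Pi.sub_apply,
        smul_eq_mul, av_apply, update_idem]
      rw [c1, c1]
      ring
    have c5 : av p a (fun y => h y ^ 2)
        = fun y => av p a h y ^ 2 + p * (1 - p) * dd a h y ^ 2 := by
      funext y
      simp only [av_apply, dd_apply]
      ring
    rw [List.toFinset_cons, cond_insert hp ha', cond_insert hp ha', c5]
    refine (cond_mono hp _ c4 x).trans ?_
    have i1 := ih hl (av p a h) x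
    have i2 := ih hl (dd a h) x
    have i3 := Ex_cs hp (fun y => nz p ρ l (av p a h) (l.toFinset.piecewise y x) ^ 2)
      (fun y => nz p ρ l (dd a h) (l.toFinset.piecewise y x) ^ 2)
    have i4 := cond_nonneg hp l.toFinset (g := fun y => av p a h y ^ 2) (fun _ => sq_nonneg _) x
    have i5 := cond_nonneg hp l.toFinset (g := fun y => dd a h y ^ 2) (fun _ => sq_nonneg _) x
    have i6 := cond_nonneg hp l.toFinset (g := fun y => nz p ρ l (dd a h) y ^ 4)
      (fun _ => by positivity) x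
    simp only [cond_apply, Ex_add, Ex_mul, ← pow_mul] at i1 i2 i3 i4 i5 i6 ⊢
    have i7 := i3.trans (mul_le_mul i1 i2 i6 (sq_nonneg _))
    rw [← mul_pow] at i7
    have i8 := (abs_le_of_sq_le_sq' i7 (mul_nonneg i4 i5)).2
    have s0 : 0 ≤ p * (1 - p) := by nlinarith
    nlinarith [mul_le_mul_of_nonneg_left i8 s0, mul_le_mul_of_nonneg_left i2 (sq_nonneg (p * (1 - p)))]

theorem poincare (hp : Prob (bern p)) (S : Finset ι) : ∀ g : Fn ι,
    ip p (g - cond p S g) (g - cond p S g) ≤ ∑ a ∈ S, ip p (g - av p a g) (g - av p a g) := by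
  induction S using Finset.induction_on with
  | empty => intro g; simp [cond_empty hp, ip, Ex_const hp]
  | insert a S ha ih =>
    intro g
    have c1 : cond p S (av p a g) = av p a (cond p S (av p a g)) := by
      funext x
      have h : ∀ b, rs a b (av p a g) = av p a g := fun b => by
        funext y; simp only [rs_apply, av_apply, update_idem]
      rw [av_apply, cond_update ha, cond_update ha, h, h]
      ring
    have c2 : ip p (g - av p a g) (av p a g - cond p S (av p a g)) = 0 := by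
      rw [c1, ← map_sub, ip_av hp, map_sub _ g, av_av, sub_self]
      simp [ip, Ex_const hp]
    have c3 : g - cond p S (av p a g) = (g - av p a g) + (av p a g - cond p S (av p a g)) := by abel
    have c4 : ∀ u v : Fn ι, ip p u v = 0 → ip p (u + v) (u + v) = ip p u u + ip p v v :=
      fun u v h => by
        rw [ip_add, ip_comm (u + v), ip_comm (u + v), ip_add, ip_add, ip_comm v u, h, add_zero,
          zero_add]
    rw [sum_insert ha, cond_insert hp ha, c3, c4 _ _ c2]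
    refine add_le_add le_rfl ((ih _).trans (sum_le_sum fun b _ => ?_))
    rw [← Module.End.mul_apply (av p b), (av_comm b a).eq, Module.End.mul_apply, ← map_sub]
    exact (sc_av hp a).con _

theorem cond_con (hp : Prob (bern p)) (S : Finset ι) (g : Fn ι) :
    ip p (cond p S g) (cond p S g) ≤ ip p g g := by
  unfold ip
  rw [← Ex_cond hp S fun x => g x * g x]
  refine Ex_mono hp fun x => ?_
  have := Ex_cs hp (fun y => g (S.piecewise y x)) fun _ => 1
  simpa only [mul_one, one_pow, Ex_const hp, sq, cond_apply] using this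

theorem nz_near (hp : Prob (bern p)) {ρ : ℝ} (r0 : 0 ≤ ρ) (r1 : ρ ≤ 1) (f : Fn ι) (l : List ι) :
    ip p f (f - nz p ρ l f) ≤ (1 - ρ) * (l.map fun a => ip p (f - av p a f) (f - av p a f)).sum := by
  induction l with
  | nil => simp [nz, ip, Ex_const hp]
  | cons a l ih =>
    have h := sc_nz hp r0 r1 l
    have c1 : f - nz p ρ (a :: l) f = (f - nz p ρ l f) + (1 - ρ) • nz p ρ l (f - av p a f) := by
      rw [nz_cons, (ns_nz ρ ρ a l).eq, Module.End.mul_apply, ns_app, map_add, map_smul, map_smul,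
        map_sub]
      module
    have c2 : ip p (av p a f) (nz p ρ l (f - av p a f)) = 0 := by
      rw [← (sc_av hp a).adj, ← Module.End.mul_apply,
        (comm_nz (fun b _ => av_comm a b) ρ).eq, Module.End.mul_apply, map_sub, av_av, sub_self,
        map_zero]
      simp [ip, Ex_const hp]
    have c3 := ip_two hp (f - av p a f) (nz p ρ l (f - av p a f))
    have c4 := h.con (f - av p a f)
    rw [ip_sub' (nz p ρ l _), c2] at c3
    rw [c1, ip_add, ip_smul, List.map_cons, List.sum_cons, mul_add, add_comm]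
    exact add_le_add (mul_le_mul_of_nonneg_left (by linarith) (by linarith)) ih

theorem nz_pow (hp : Prob (bern p)) (l : List ι) (g : Fn ι) (j : ℕ) : ∀ {ρ : ℝ}, 0 ≤ ρ → ρ ≤ 1 →
    ip p (nz p ρ l g) (nz p ρ l g) ^ 2 ^ j * ip p g g ≤ ip p g g ^ 2 ^ j
      * ip p (nz p (ρ ^ 2 ^ j) l g) (nz p (ρ ^ 2 ^ j) l g) := by
  induction j with
  | zero => intro ρ _ _; simp [mul_comm]
  | succ j ih =>
    intro ρ r0 r1
    have h1 : ip p (nz p ρ l g) (nz p ρ l g) ^ 2
        ≤ ip p g g * ip p (nz p (ρ ^ 2) l g) (nz p (ρ ^ 2) l g) := by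
      rw [← (sc_nz hp r0 r1 l).adj, ← Module.End.mul_apply, nz_mul, ← sq]
      exact ip_cs hp _ _
    have h2 := ih (sq_nonneg ρ) (pow_le_one₀ r0 r1 : ρ ^ 2 ≤ 1)
    have h3 := ip_self_nonneg hp g
    rw [← pow_mul, ← pow_succ'] at h2
    calc _ = (ip p (nz p ρ l g) (nz p ρ l g) ^ 2) ^ 2 ^ j * ip p g g := by
          rw [← pow_mul, ← pow_succ']
      _ ≤ (ip p g g * ip p (nz p (ρ ^ 2) l g) (nz p (ρ ^ 2) l g)) ^ 2 ^ j * ip p g g := by gcongr
      _ = ip p g g ^ 2 ^ j * (ip p (nz p (ρ ^ 2) l g) (nz p (ρ ^ 2) l g) ^ 2 ^ j * ip p g g) := by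
          rw [mul_pow, mul_assoc]
      _ ≤ ip p g g ^ 2 ^ j * (ip p g g ^ 2 ^ j
          * ip p (nz p (ρ ^ 2 ^ (j + 1)) l g) (nz p (ρ ^ 2 ^ (j + 1)) l g)) := by gcongr
      _ = _ := by rw [← mul_assoc, ← pow_add, ← two_mul, ← pow_succ']

theorem nz_sparse {ρ : ℝ} (r0 : 0 ≤ ρ) (r1 : ρ ≤ 1 / 4) (h0 : 1 / 50 ≤ p) (h1 : p ≤ 49 / 50)
    {g s : Fn ι} (hs : ∀ x, s x * s x = s x) (hg : ∀ x, |g x| ≤ s x) :
    ip p (nz p ρ univ.toList g) (nz p ρ univ.toList g) ^ 2 ≤ Ex (bern p) s ^ 3 := by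
  have hp := prob_bern (by linarith : 0 ≤ p) (by linarith : p ≤ 1)
  set T := nz p ρ (univ : Finset ι).toList
  have a0 := ip_self_nonneg hp (T g)
  have s0 : ∀ x, 0 ≤ s x := fun x => hs x ▸ mul_self_nonneg _
  have m0 := Ex_nonneg hp s0
  have a1 := hyper r0 r1 h0 h1 _ (nodup_toList univ) (T g) fun _ => true
  rw [toList_toFinset, cond_univ, cond_univ] at a1
  have a2 : ip p (T g) (T g) ≤ Ex (bern p) fun x => s x * (s x * |T (T g) x|) := by
    rw [← (sc_nz hp r0 (by linarith) _).adj]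
    refine Ex_mono hp fun x => (le_abs_self _).trans ?_
    rw [← mul_assoc, hs, abs_mul]
    exact mul_le_mul_of_nonneg_right (hg x) (abs_nonneg _)
  have a3 := Ex_cs hp s fun x => s x * |T (T g) x|
  have a4 := Ex_cs hp s fun x => T (T g) x ^ 2
  simp only [mul_pow, sq_abs, sq (s _), hs, ← pow_mul] at a3 a4
  have e : (Ex (bern p) fun y => T g y ^ 2) = ip p (T g) (T g) := by simp only [ip, sq]
  rw [e] at a1
  generalize ip p (T g) (T g) = N at *
  generalize Ex (bern p) s = m at *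
  have a5 := (pow_le_pow_left₀ a0 a2 2).trans a3
  have a6 := pow_le_pow_left₀ (sq_nonneg _) a5 2
  rw [mul_pow] at a6
  have a7 := a6.trans (mul_le_mul_of_nonneg_left (a4.trans (mul_le_mul_of_nonneg_left a1 m0))
    (sq_nonneg m))
  rcases a0.eq_or_lt with h | h
  · rw [← h]; simpa using pow_nonneg m0 3
  · exact le_of_mul_le_mul_right (by nlinarith : N ^ 2 * N ^ 2 ≤ m ^ 3 * N ^ 2) (by positivity)

/-- a monotone function with values zero and one -/
structure MB (f : Fn ι) : Prop where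
  mono : Monotone f
  val : ∀ x, f x = 0 ∨ f x = 1

theorem MB.nn {f : Fn ι} (h : MB f) (x : ι → Bool) : 0 ≤ f x := by rcases h.val x with h | h <;> simp [h]

theorem MB.le {f : Fn ι} (h : MB f) (x : ι → Bool) : f x ≤ 1 := by rcases h.val x with h | h <;> simp [h]

theorem MB.dd_nn {f : Fn ι} (h : MB f) (a : ι) (x : ι → Bool) : 0 ≤ dd a f x :=
  sub_nonneg.2 (h.mono (update_mono (by simp)))

theorem MB.dd_sq {f : Fn ι} (h : MB f) (a : ι) (x : ι → Bool) : dd a f x * dd a f x = dd a f x := by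
  have := h.dd_nn a x
  rw [dd_apply] at this ⊢
  rcases h.val (update x a true) with h1 | h1 <;> rcases h.val (update x a false) with h2 | h2 <;>
    rw [h1, h2] at this ⊢ <;> linarith

theorem MB.sub_av {f : Fn ι} (h : MB f) (h0 : 0 ≤ p) (h1 : p ≤ 1) (a : ι) (x : ι → Bool) :
    |(f - av p a f) x| ≤ dd a f x := by
  have h2 := h.dd_nn a x
  have h3 : f x = f (update x a (x a)) := by simp
  rw [Pi.sub_apply, av_apply, h3, abs_le]
  rw [dd_apply] at h2 ⊢
  cases x a <;> constructor <;> nlinarith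

theorem MB.Inf_nn {f : Fn ι} (h : MB f) (hp : Prob (bern p)) (a : ι) : 0 ≤ Inf p f a :=
  Ex_nonneg hp (h.dd_nn a)

theorem friedgut {ε I : ℝ} (hε : 0 < ε) (hI : 0 < I) : ∃ τ > 0, ∀ (ι : Type) [Fintype ι]
    [DecidableEq ι] (p : ℝ), 1 / 50 ≤ p → p ≤ 49 / 50 → ∀ f : Fn ι, MB f → ∑ a, Inf p f a ≤ I →
    ∀ S : Finset ι, (∀ a ∈ S, Inf p f a ≤ τ) →
    Ex (bern p) (fun x => (f x - cond p S f x) ^ 2) ≤ ε := by
  obtain ⟨θ, θ0, θ1, hθ⟩ : ∃ θ : ℝ, 0 < θ ∧ θ ≤ 1 ∧ 16 * θ * I ≤ ε :=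
    ⟨min 1 (ε / (16 * I)), by positivity, min_le_left _ _, by
      have := (le_div_iff₀ (by positivity)).1 (min_le_right 1 (ε / (16 * I)))
      linarith⟩
  obtain ⟨j, hj⟩ := exists_pow_lt_of_lt_one (by norm_num : (0 : ℝ) < 1 / 4) (by linarith : 1 - θ < 1)
  have r0 : 0 ≤ 1 - θ := by linarith
  have r1 : 1 - θ ≤ 1 := by linarith
  have r2 : (1 - θ) ^ 2 ^ j ≤ 1 / 4 :=
    (pow_le_pow_of_le_one r0 r1 (Nat.lt_two_pow_self.le)).trans hj.le
  refine ⟨θ ^ (2 * 2 ^ j), by positivity, fun ι _ _ p h0 h1 f hf h2 S hS => ?_⟩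
  have p0 : 0 ≤ p := by linarith
  have p1 : p ≤ 1 := by linarith
  have hp := prob_bern p0 p1
  set T := nz p (1 - θ) (univ : Finset ι).toList with hT
  have sc := sc_nz hp r0 r1 (univ : Finset ι).toList
  have b1 : ∀ a, ip p (f - av p a f) (f - av p a f) ≤ Inf p f a := fun a =>
    Ex_mono hp fun x => by
      rw [← hf.dd_sq, ← abs_mul_abs_self]
      exact mul_self_le_mul_self (abs_nonneg _) (hf.sub_av p0 p1 a x)
  have b2 : ip p (f - T f) (f - T f) ≤ 2 * θ * I := by
    have c1 := nz_near hp r0 r1 f (univ : Finset ι).toList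
    have c2 := sc.con f
    rw [sum_map_toList, sub_sub_cancel, ← hT, ip_sub] at c1
    have c3 := mul_le_mul_of_nonneg_left ((sum_le_sum fun a _ => b1 a).trans h2) θ0.le
    rw [ip_sub, ip_sub', ip_sub', ip_comm (T f) f]
    linarith
  have b3 : ∀ a ∈ S, ip p (T f - av p a (T f)) (T f - av p a (T f)) ≤ θ * Inf p f a := by
    intro a ha
    rw [← Module.End.mul_apply (av p a), (comm_nz (fun b _ => av_comm a b) _).eq,
      Module.End.mul_apply, ← map_sub]
    have c1 := nz_pow hp univ.toList (f - av p a f) j r0 r1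
    have c2 := nz_sparse (pow_nonneg r0 _) r2 h0 h1 (hf.dd_sq a) (hf.sub_av p0 p1 a)
    have c3 := b1 a
    have c4 := ip_self_nonneg hp (f - av p a f)
    have c5 := sc.con (f - av p a f)
    have c6 := ip_self_nonneg hp (T (f - av p a f))
    have c7 := hS a ha
    have c8 := ip_self_nonneg hp (nz p ((1 - θ) ^ 2 ^ j) univ.toList (f - av p a f))
    change _ ≤ Inf p f a ^ 3 at c2
    rw [← hT] at c1 c5
    generalize ip p (T (f - av p a f)) (T (f - av p a f)) = N at *
    generalize ip p (f - av p a f) (f - av p a f) = M at *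
    generalize ip p (nz p ((1 - θ) ^ 2 ^ j) univ.toList (f - av p a f)) _ = K at *
    generalize Inf p f a = m at *
    have m0 : 0 ≤ m := c4.trans c3
    rcases c4.eq_or_lt with h | h
    · nlinarith [mul_nonneg θ0.le m0]
    obtain ⟨n, hn⟩ : ∃ n, 2 ^ j = n + 1 := ⟨2 ^ j - 1, by have := Nat.one_le_two_pow (n := j); omega⟩
    rw [hn] at c1 c7
    have d1 : N ^ (n + 1) ≤ m ^ n * K :=
      (le_of_mul_le_mul_right (by rw [pow_succ M] at c1; linarith : N ^ (n + 1) * M ≤ M ^ n * K * M)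
        h).trans (by gcongr)
    refine le_of_pow_le_pow_left₀ (n := 2 * (n + 1)) (by omega) (by positivity) ?_
    calc N ^ (2 * (n + 1)) = (N ^ (n + 1)) ^ 2 := by ring
      _ ≤ (m ^ n * K) ^ 2 := by gcongr
      _ = (m ^ n) ^ 2 * K ^ 2 := by ring
      _ ≤ (m ^ n) ^ 2 * m ^ 3 := by gcongr
      _ = m ^ (2 * (n + 1)) * m := by ring
      _ ≤ m ^ (2 * (n + 1)) * θ ^ (2 * (n + 1)) := by gcongr
      _ = _ := by ring
  have b4 : ip p (T f - cond p S (T f)) (T f - cond p S (T f)) ≤ θ * I := by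
    refine (poincare hp S _).trans ((sum_le_sum b3).trans ?_)
    rw [← mul_sum]
    exact mul_le_mul_of_nonneg_left ((sum_le_univ_sum_of_nonneg (hf.Inf_nn hp)).trans h2) θ0.le
  have b5 := (cond_con hp S (f - T f)).trans b2
  have b6 : ∀ x, (f x - cond p S f x) ^ 2 ≤ 2 * ((f - T f) x * (f - T f) x)
      + (4 * ((T f - cond p S (T f)) x * (T f - cond p S (T f)) x)
      + 4 * (cond p S (f - T f) x * cond p S (f - T f) x)) := fun x => by
    simp only [map_sub, Pi.sub_apply]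
    nlinarith [sq_nonneg (f x - T f x - (T f x - cond p S f x)),
      sq_nonneg (T f x - cond p S (T f) x + (cond p S f x - cond p S (T f) x))]
  refine (Ex_mono hp b6).trans ?_
  rw [Ex_add, Ex_add, Ex_mul, Ex_mul, Ex_mul]
  unfold ip at b2 b4 b5
  linarith

end Pool.Agent.Lib.MP_a1e814_lc.Ds
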