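import Pool.Agent.Lib.MP_a1e814_lc.DsProb

/-! Measures of cross intersecting families. -/

set_option linter.unusedSectionVars false

namespace Pool.Agent.Lib.MP_a1e814_lc.Ds

open Finset Function
open scoped BigOperators

variable {ι : Type} [Fintype ι] [DecidableEq ι]

/-- the odds defect -/
def ph (k α β : ℝ) : ℝ := α * β - k * ((1 - α) * (1 - β))

theorem ph_mono {k α β α' β' : ℝ} (k0 : 0 ≤ k) (k1 : k ≤ 1) (a0 : 0 ≤ α) (b0 : 0 ≤ β')
    (ha : α ≤ α') (hb : β ≤ β') : ph k α β ≤ ph k α' β' := by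
  unfold ph
  nlinarith [mul_nonneg (sub_nonneg.2 k1) (add_nonneg (mul_nonneg (sub_nonneg.2 ha) b0)
    (mul_nonneg a0 (sub_nonneg.2 hb))), mul_nonneg k0 (add_nonneg (sub_nonneg.2 ha) (sub_nonneg.2 hb))]

theorem ph_step {k p q D0 α0 α1 β0 β1 : ℝ} (k0 : 0 < k) (k1 : k ≤ 1) (p0 : 0 ≤ p) (pq : p ≤ q)
    (q1 : q ≤ 1) (hD : (1 - k) * (p * (1 - q)) * D0 ≤ (q - p) * k) (a0 : 0 ≤ α0) (a1 : α0 ≤ α1)
    (b0 : 0 ≤ β1) (b1 : β1 ≤ β0) (h0 : ph k α0 β0 ≤ 0) (h1 : ph k α1 β1 ≤ 0)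
    (h2 : ph k α1 β0 ≤ D0) : ph k ((1 - p) * α0 + p * α1) ((1 - q) * β0 + q * β1) ≤ 0 := by
  have p1 : 0 ≤ 1 - p := by linarith
  have q0 : 0 ≤ q := by linarith
  have e0 : 0 ≤ (1 - p) * α0 + p * α1 := by have := a0.trans a1; positivity
  rcases le_or_gt (ph k α1 β0) 0 with h | h
  · exact (ph_mono k0.le k1 e0 (b0.trans b1) (by nlinarith) (by nlinarith)).trans h
  obtain ⟨D, hD'⟩ : ∃ D, D = ph k α1 β0 := ⟨_, rfl⟩
  obtain ⟨P, hP⟩ : ∃ P, P = k + (1 - k) * β0 := ⟨_, rfl⟩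
  obtain ⟨Q, hQ⟩ : ∃ Q, Q = k + (1 - k) * α1 := ⟨_, rfl⟩
  have P0 : 0 < P := by nlinarith [mul_nonneg (sub_nonneg.2 k1) (b0.trans b1)]
  have Q0 : 0 < Q := by nlinarith [mul_nonneg (sub_nonneg.2 k1) (a0.trans a1)]
  rw [← hD'] at h h2
  obtain ⟨s, hs⟩ : ∃ s, s * P = D := ⟨D / P, by field_simp⟩
  obtain ⟨t, ht⟩ : ∃ t, t * Q = D := ⟨D / Q, by field_simp⟩
  have s1 : s ≤ α1 - α0 := le_of_mul_le_mul_right (by
    rw [hs, hD', hP]; unfold ph at h0 ⊢; linarith) P0
  have t1 : t ≤ β0 - β1 := le_of_mul_le_mul_right (by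
    rw [ht, hD', hQ]; unfold ph at h1 ⊢; linarith) Q0
  have t0 : 0 ≤ t := by
    by_contra h3
    nlinarith [mul_pos (neg_pos.2 (not_le.1 h3)) Q0]
  refine (ph_mono (α' := α1 - (1 - p) * s) (β' := β0 - q * t) k0.le k1 e0 (by nlinarith)
    (by nlinarith) (by nlinarith)).trans ?_
  have e1 : ph k (α1 - (1 - p) * s) (β0 - q * t)
      = D - (1 - p) * (s * P) - q * (t * Q) + (1 - k) * ((1 - p) * q) * (s * t) := by
    rw [hD', hP, hQ]; unfold ph; ring
  have e2 : P * Q = (1 - k) * D + k := by rw [hD', hP, hQ]; unfold ph; ring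
  rw [e1, hs, ht]
  refine le_of_mul_le_mul_right ?_ (mul_pos P0 Q0)
  have e3 : (D - (1 - p) * D - q * D + (1 - k) * ((1 - p) * q) * (s * t)) * (P * Q)
      = D * ((1 - k) * (p * (1 - q)) * D - (q - p) * k) := by
    calc _ = (p - q) * D * (P * Q) + (1 - k) * ((1 - p) * q) * ((s * P) * (t * Q)) := by ring
      _ = _ := by rw [hs, ht, e2]; ring
  rw [e3, zero_mul]
  refine mul_nonpos_of_nonneg_of_nonpos h.le (sub_nonpos.2 (le_trans ?_ hD))
  exact mul_le_mul_of_nonneg_left h2 (mul_nonneg (by linarith) (mul_nonneg p0 (by linarith)))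

theorem ph_max {k r α β : ℝ} (r0 : 0 < r) (k0 : 0 ≤ k) (kr : k ≤ r ^ 2) (a0 : 0 ≤ α) (a1 : α ≤ 1)
    (b0 : 0 ≤ β) (b1 : β ≤ 1) (h : ph (r ^ 2) α β ≤ 0) :
    ph k α β ≤ (r ^ 2 - k) / (1 + r) ^ 2 := by
  unfold ph at h ⊢
  have n0 : 0 ≤ α * β := by positivity
  have e0 : 0 ≤ α * (1 - β) + β * (1 - α) :=
    add_nonneg (mul_nonneg a0 (by linarith)) (mul_nonneg b0 (by linarith))
  have h1 : 2 * (α * β) ≤ r * (α * (1 - β) + β * (1 - α)) := by
    refine (abs_le_of_sq_le_sq' ?_ (by positivity)).2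
    nlinarith [mul_le_mul_of_nonneg_left (by linarith : α * β ≤ r ^ 2 * ((1 - α) * (1 - β))) n0,
      mul_nonneg (sq_nonneg r) (sq_nonneg (α * (1 - β) - β * (1 - α)))]
  have h2 : (1 + r) ^ 2 * (α * β) ≤ r ^ 2 := by
    nlinarith [mul_le_mul_of_nonneg_left h1 r0.le]
  rw [le_div_iff₀ (by positivity)]
  refine le_of_mul_le_mul_left ?_ (by positivity : 0 < r ^ 2)
  nlinarith [mul_le_mul_of_nonneg_left h2 (sub_nonneg.2 kr),
    mul_le_mul_of_nonneg_left h (by positivity : 0 ≤ k * (1 + r) ^ 2)]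

/-- two families are cross intersecting on `S` over the base points `x`, `x'` -/
def Cross (F G : Fn ι) (n : ℕ) (S : Finset ι) (x x' : ι → Bool) : Prop :=
  ∀ u u', F (S.piecewise u x) = 1 → G (S.piecewise u' x') = 1 →
    n ≤ #{a ∈ S | u a = true ∧ u' a = false}

theorem Cross.ins {F G : Fn ι} {n : ℕ} {S : Finset ι} {x x' : ι → Bool} {e : ι} (he : e ∉ S)
    (b b' : Bool) (h : Cross F G (n + if b = true ∧ b' = false then 1 else 0) (insert e S) x x') :
    Cross F G n S (update x e b) (update x' e b') := by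
  intro u u' h1 h2
  have h3 : ∀ (u x : ι → Bool) b,
      (insert e S).piecewise (update u e b) x = S.piecewise u (update x e b) := fun u x b => by
    funext c
    by_cases h : c = e
    · subst h; simp [he]
    · by_cases h' : c ∈ S <;> simp [h, h']
  have h4 := h (update u e b) (update u' e b') (by rwa [h3]) (by rwa [h3])
  have h5 : ({a ∈ S | update u e b a = true ∧ update u' e b' a = false} : Finset ι)
      = {a ∈ S | u a = true ∧ u' a = false} :=
    filter_congr fun a ha => by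
      have : a ≠ e := fun h => he (h ▸ ha)
      simp [this]
  rw [filter_insert, h5] at h4
  simp only [update_self] at h4
  split_ifs at h4
  · exact Nat.le_of_succ_le_succ (h4.trans (card_insert_le _ _))
  · exact h4

theorem Cross.mono {F G : Fn ι} {m n : ℕ} {S : Finset ι} {x x' : ι → Bool} (h : Cross F G n S x x')
    (hm : m ≤ n) : Cross F G m S x x' := fun u u' h1 h2 => hm.trans (h u u' h1 h2)

variable {F G : Fn ι} {p q : ℝ}

theorem odds_ind {k D0 : ℝ} {n : ℕ} (k0 : 0 < k) (k1 : k ≤ 1) (p0 : 0 ≤ p) (pq : p ≤ q)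
    (q1 : q ≤ 1) (hD : (1 - k) * (p * (1 - q)) * D0 ≤ (q - p) * k) (Fm : Monotone F)
    (Gm : Antitone G) (Fv : ∀ x, F x = 0 ∨ F x = 1) (Gv : ∀ x, G x = 0 ∨ G x = 1)
    (H : ∀ S x x', Cross F G n S x x' → ph k (cond p S F x) (cond q S G x') ≤ D0) (S : Finset ι) :
    ∀ x x', Cross F G (n + 1) S x x' → ph k (cond p S F x) (cond q S G x') ≤ 0 := by
  have hp := prob_bern p0 (pq.trans q1)
  have hq := prob_bern (p0.trans pq) q1
  induction S using Finset.induction_on with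
  | empty =>
    intro x x' h
    rw [cond_empty hp, cond_empty hq]
    rcases Fv x with h1 | h1 <;> rcases Gv x' with h2 | h2
    · simp [ph, h1, h2, k0.le]
    · simp [ph, h1, h2]
    · simp [ph, h1, h2]
    · simpa using h x x' (by simpa using h1) (by simpa using h2)
  | insert e S he ih =>
    intro x x' h
    rw [cond_insert' hp he, cond_insert' hq he]
    have hu : ∀ y : ι → Bool, update y e false ≤ update y e true := fun y => update_mono (by simp)
    refine ph_step k0 k1 p0 pq q1 hD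
      (cond_nonneg hp _ (fun y => by rcases Fv y with h | h <;> simp [h]) _)
      (Ex_mono hp fun y => Fm (piecewise_mono S (fun _ _ => le_rfl) fun a _ => hu x a))
      (cond_nonneg hq _ (fun y => by rcases Gv y with h | h <;> simp [h]) _)
      (Ex_mono hq fun y => Gm (piecewise_mono S (fun _ _ => le_rfl) fun a _ => hu x' a))
      (ih _ _ (Cross.ins he _ _ (by simpa using h))) (ih _ _ (Cross.ins he _ _ (by simpa using h)))
      (H _ _ _ (Cross.ins he _ _ (by simpa using h)))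

/-- the numerical conditions on two levels -/
structure Lev (p q k r : ℝ) : Prop where
  p0 : 1 / 50 ≤ p
  q1 : q ≤ 49 / 50
  le : p ≤ q
  c1 : p ≤ q ^ 2
  c2 : 2 * p - p ^ 2 ≤ q
  k0 : 0 < k
  r0 : 0 < r
  kr : k ≤ r ^ 2
  r1 : r ^ 2 ≤ 1
  h1 : (1 - r ^ 2) * (p * (1 - q)) ≤ (q - p) * r ^ 2
  h2 : (1 - k) * (p * (1 - q)) * (r ^ 2 - k) ≤ (q - p) * k * (1 + r) ^ 2

theorem odds_two {k r : ℝ} (h : Lev p q k r) (Fm : Monotone F)
    (Gm : Antitone G) (Fv : ∀ x, F x = 0 ∨ F x = 1) (Gv : ∀ x, G x = 0 ∨ G x = 1) (S : Finset ι)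
    (x x' : ι → Bool) (hc : Cross F G 2 S x x') : ph k (cond p S F x) (cond q S G x') ≤ 0 := by
  have p0 : 0 ≤ p := by linarith [h.p0]
  have q1 : q ≤ 1 := by linarith [h.q1]
  have hp := prob_bern p0 (h.le.trans q1)
  have hq := prob_bern (p0.trans h.le) q1
  have r0 := h.r0
  have f0 : ∀ S x, 0 ≤ cond p S F x := fun S x =>
    cond_nonneg hp _ (fun y => by rcases Fv y with h | h <;> simp [h]) _
  have f1 : ∀ S x, cond p S F x ≤ 1 := fun S x =>
    cond_le hp _ (fun y => by rcases Fv y with h | h <;> simp [h]) _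
  have g0 : ∀ S x, 0 ≤ cond q S G x := fun S x =>
    cond_nonneg hq _ (fun y => by rcases Gv y with h | h <;> simp [h]) _
  have g1 : ∀ S x, cond q S G x ≤ 1 := fun S x =>
    cond_le hq _ (fun y => by rcases Gv y with h | h <;> simp [h]) _
  refine odds_ind (n := 1) (D0 := (r ^ 2 - k) / (1 + r) ^ 2) h.k0 (h.kr.trans h.r1) p0 h.le q1 ?_
    Fm Gm Fv Gv (fun S x x' hc => ph_max r0 h.k0.le h.kr (f0 _ _) (f1 _ _) (g0 _ _) (g1 _ _) ?_)
    S x x' hc
  · rw [← mul_div_assoc, div_le_iff₀ (by positivity)]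
    exact h.h2
  · refine odds_ind (n := 0) (D0 := 1) (by positivity) h.r1 p0 h.le q1 (by simpa using h.h1)
      Fm Gm Fv Gv (fun S x x' _ => ?_) S x x' hc
    refine (ph_mono (sq_nonneg r) h.r1 (f0 _ _) zero_le_one (f1 _ _) (g1 _ _)).trans ?_
    simp [ph]

end Pool.Agent.Lib.MP_a1e814_lc.Ds
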