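import Mathlib

/-! Product measures on finite cubes. -/

set_option linter.unusedSectionVars false

namespace Pool.Agent.Lib.MP_a1e814_lc.Ds

open Finset Function
open scoped BigOperators

variable {ι : Type} [Fintype ι] [DecidableEq ι]

section Gen

variable {C : Type} [Fintype C]

/-- expectation under the product of the weight `ν` -/
noncomputable def Ex (ν : C → ℝ) (g : (ι → C) → ℝ) : ℝ := ∑ c : ι → C, (∏ a, ν (c a)) * g c

structure Prob (ν : C → ℝ) : Prop where
  nn : ∀ c, 0 ≤ ν c
  one : ∑ c, ν c = 1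

variable {ν : C → ℝ} {g h : (ι → C) → ℝ}

theorem Ex_const (hν : Prob ν) (r : ℝ) : Ex ν (fun _ : ι → C => r) = r := by
  unfold Ex
  rw [← sum_mul, ← Fintype.prod_sum fun (_ : ι) c => ν c]
  simp [hν.one]

theorem Ex_mono (hν : Prob ν) (h1 : ∀ x, g x ≤ h x) : Ex ν g ≤ Ex ν h :=
  sum_le_sum fun c _ => mul_le_mul_of_nonneg_left (h1 c) (prod_nonneg fun _ _ => hν.nn _)

theorem Ex_nonneg (hν : Prob ν) (h1 : ∀ x, 0 ≤ g x) : 0 ≤ Ex ν g :=
  (Ex_const hν 0).symm.le.trans (Ex_mono hν h1)

theorem Ex_le (hν : Prob ν) {r : ℝ} (h1 : ∀ x, g x ≤ r) : Ex ν g ≤ r :=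
  (Ex_mono hν h1).trans (Ex_const hν r).le

theorem Ex_add (g h : (ι → C) → ℝ) : Ex ν (fun x => g x + h x) = Ex ν g + Ex ν h := by
  simp [Ex, mul_add, sum_add_distrib]

theorem Ex_sub (g h : (ι → C) → ℝ) : Ex ν (fun x => g x - h x) = Ex ν g - Ex ν h := by
  simp [Ex, mul_sub, sum_sub_distrib]

theorem Ex_mul (r : ℝ) (g : (ι → C) → ℝ) : Ex ν (fun x => r * g x) = r * Ex ν g := by
  simp only [Ex, mul_sum]
  exact sum_congr rfl fun _ _ => by ring

theorem Ex_sum {κ : Type} (s : Finset κ) (g : κ → (ι → C) → ℝ) :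
    Ex ν (fun x => ∑ k ∈ s, g k x) = ∑ k ∈ s, Ex ν (g k) := by
  simp only [Ex, mul_sum]
  exact sum_comm

theorem Ex_cs (hν : Prob ν) (g h : (ι → C) → ℝ) :
    Ex ν (fun x => g x * h x) ^ 2 ≤ Ex ν (fun x => g x ^ 2) * Ex ν (fun x => h x ^ 2) := by
  unfold Ex
  have hw : ∀ c : ι → C, 0 ≤ ∏ a, ν (c a) := fun c => prod_nonneg fun _ _ => hν.nn _
  refine sum_sq_le_sum_mul_sum_of_sq_le_mul _ (fun c _ => by have := hw c; positivity)
    (fun c _ => by have := hw c; positivity) fun c _ => le_of_eq (by ring)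

/-- resampling a set of coordinates does not change the law -/
theorem Ex_resample (hν : Prob ν) (S : Finset ι) (g : (ι → C) → ℝ) :
    Ex ν (fun x => Ex ν fun y => g (S.piecewise y x)) = Ex ν g := by
  have h1 : Ex ν g = Ex ν fun x => Ex ν fun _ : ι → C => g x := by
    simp only [Ex_const hν]
  rw [h1]
  simp only [Ex, mul_sum]
  rw [← Fintype.sum_prod_type', ← Fintype.sum_prod_type']
  let e : (ι → C) × (ι → C) → (ι → C) × (ι → C) := fun z => (S.piecewise z.2 z.1, S.piecewise z.1 z.2)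
  have he : Involutive e := fun z => by
    ext a <;> by_cases ha : a ∈ S <;> simp [e, ha]
  refine Fintype.sum_bijective e he.bijective _ _ fun z => ?_
  simp only [e]
  rw [← mul_assoc, ← mul_assoc, ← prod_mul_distrib, ← prod_mul_distrib]
  congr 1
  refine prod_congr rfl fun a _ => ?_
  by_cases ha : a ∈ S <;> simp [ha, mul_comm]

/-- push forward of a product weight -/
theorem Ex_push {D : Type} [Fintype D] [DecidableEq D] {μ : D → ℝ} (φ : C → D)
    (h : ∀ d, ∑ c with φ c = d, ν c = μ d) (g : (ι → D) → ℝ) :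
    Ex ν (fun c => g fun a => φ (c a)) = Ex μ g := by
  unfold Ex
  rw [← sum_fiberwise (s := univ) (g := fun (c : ι → C) a => φ (c a))]
  refine sum_congr rfl fun x _ => ?_
  rw [sum_congr rfl (g := fun c : ι → C => (∏ a, ν (c a)) * g x)
    fun c hc => by simp only [(mem_filter.1 hc).2], ← sum_mul]
  congr 1
  simp only [← h]
  rw [prod_univ_sum]
  refine sum_congr ?_ fun _ _ => rfl
  ext c
  simp [funext_iff]

theorem Ex_single (hν : Prob ν) (a : ι) (F : C → ℝ) :
    Ex ν (fun x : ι → C => F (x a)) = ∑ c, ν c * F c := by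
  unfold Ex
  have h1 : ∀ c : ι → C, (∏ a', ν (c a')) * F (c a)
      = ∏ a', (ν (c a') * if a' = a then F (c a') else 1) := fun c => by
    rw [prod_mul_distrib]; simp
  simp only [h1]
  rw [← Fintype.prod_sum fun a' c => ν c * if a' = a then F c else 1,
    prod_eq_single a (fun b _ hb => by simp [hb, hν.one]) (by simp)]
  simp

theorem Ex_update (hν : Prob ν) (a : ι) (g : (ι → C) → ℝ) :
    Ex ν (fun x => ∑ c, ν c * g (update x a c)) = Ex ν g := by
  rw [← Ex_resample hν {a} g]
  congr 1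
  funext x
  rw [← Ex_single hν a fun c => g (update x a c)]
  congr 1
  funext y
  rw [piecewise_singleton]

/-- if two events have total mass above one under the marginals of a coupling then they meet -/
theorem exists_of_coupling {D D' : Type} [Fintype D] [DecidableEq D] [Fintype D'] [DecidableEq D']
    (hν : Prob ν) {μ : D → ℝ} {μ' : D' → ℝ} (φ : C → D) (φ' : C → D')
    (h : ∀ d, ∑ c with φ c = d, ν c = μ d) (h' : ∀ d, ∑ c with φ' c = d, ν c = μ' d)
    {g : (ι → D) → ℝ} {g' : (ι → D') → ℝ} (h1 : Ex μ' g' < Ex μ g) :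
    ∃ c : ι → C, (∀ a, ν (c a) ≠ 0) ∧ g' (fun a => φ' (c a)) < g fun a => φ (c a) := by
  rw [← Ex_push φ h, ← Ex_push φ' h'] at h1
  by_contra h2
  push Not at h2
  refine absurd h1 (not_lt.2 (sum_le_sum fun c _ => ?_))
  by_cases h3 : ∀ a, ν (c a) ≠ 0
  · exact mul_le_mul_of_nonneg_left (h2 c h3) (prod_nonneg fun _ _ => hν.nn _)
  · push Not at h3
    obtain ⟨a, ha⟩ := h3
    rw [prod_eq_zero (mem_univ a) ha]
    simp

theorem Ex_unif [Nonempty C] (g : (ι → C) → ℝ) :
    Ex (fun _ : C => (Fintype.card C : ℝ)⁻¹) g = 𝔼 x, g x := by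
  rw [Fintype.expect_eq_sum_div_card, Ex, ← mul_sum]
  simp [div_eq_inv_mul]

theorem prob_unif [Nonempty C] : Prob fun _ : C => (Fintype.card C : ℝ)⁻¹ :=
  ⟨fun _ => by positivity, by simp⟩

end Gen

/-- the Bernoulli weight -/
def bern (p : ℝ) (b : Bool) : ℝ := if b then p else 1 - p

theorem prob_bern {p : ℝ} (h0 : 0 ≤ p) (h1 : p ≤ 1) : Prob (bern p) :=
  ⟨fun b => by cases b <;> simp [bern, h0, h1], by simp [bern]⟩

abbrev Fn (ι : Type) := (ι → Bool) → ℝ

/-- average over one coordinate -/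
noncomputable def av (p : ℝ) (a : ι) : Module.End ℝ (Fn ι) where
  toFun g x := (1 - p) * g (update x a false) + p * g (update x a true)
  map_add' g h := by funext x; simp only [Pi.add_apply]; ring
  map_smul' r g := by funext x; simp only [Pi.smul_apply, smul_eq_mul, RingHom.id_apply]; ring

theorem av_apply (p : ℝ) (a : ι) (g : Fn ι) (x : ι → Bool) :
    av p a g x = (1 - p) * g (update x a false) + p * g (update x a true) := rfl

/-- fix one coordinate -/
def rs (a : ι) (b : Bool) : Module.End ℝ (Fn ι) where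
  toFun g x := g (update x a b)
  map_add' _ _ := rfl
  map_smul' _ _ := rfl

theorem rs_apply (a : ι) (b : Bool) (g : Fn ι) (x : ι → Bool) : rs a b g x = g (update x a b) := rfl

/-- average over a set of coordinates -/
noncomputable def cond (p : ℝ) (S : Finset ι) : Module.End ℝ (Fn ι) where
  toFun g x := Ex (bern p) fun y => g (S.piecewise y x)
  map_add' g h := by funext x; exact Ex_add _ _
  map_smul' r g := by funext x; exact Ex_mul _ _

theorem cond_apply (p : ℝ) (S : Finset ι) (g : Fn ι) (x : ι → Bool) :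
    cond p S g x = Ex (bern p) fun y => g (S.piecewise y x) := rfl

variable {p : ℝ}

theorem Ex_av (hp : Prob (bern p)) (a : ι) (g : Fn ι) : Ex (bern p) (av p a g) = Ex (bern p) g := by
  rw [← Ex_update hp a g]
  congr 1
  funext x
  simp [av_apply, bern, add_comm]

theorem Ex_cond (hp : Prob (bern p)) (S : Finset ι) (g : Fn ι) :
    Ex (bern p) (cond p S g) = Ex (bern p) g := Ex_resample hp S g

theorem cond_empty (hp : Prob (bern p)) (g : Fn ι) : cond p ∅ g = g := by
  funext x
  simp [cond_apply, Ex_const hp]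

theorem cond_univ (g : Fn ι) (x : ι → Bool) : cond p univ g x = Ex (bern p) g := by
  simp [cond_apply]

theorem piecewise_update {S : Finset ι} {a : ι} (ha : a ∉ S) (y x : ι → Bool) (b : Bool) :
    S.piecewise y (update x a b) = update (S.piecewise y x) a b := by
  funext c
  by_cases h : c = a
  · subst h; simp [ha]
  · by_cases h' : c ∈ S <;> simp [h, h']

theorem cond_update {S : Finset ι} {a : ι} (ha : a ∉ S) (g : Fn ι) (x : ι → Bool) (b : Bool) :
    cond p S g (update x a b) = cond p S (rs a b g) x := by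
  simp only [cond_apply, piecewise_update ha, rs_apply]

theorem cond_insert (hp : Prob (bern p)) {S : Finset ι} {a : ι} (ha : a ∉ S) (g : Fn ι) :
    cond p (insert a S) g = cond p S (av p a g) := by
  funext x
  rw [cond_apply, cond_apply, ← Ex_av hp a]
  congr 1
  funext y
  have h : ∀ b, (insert a S).piecewise (update y a b) x = update (S.piecewise y x) a b := fun b => by
    funext c
    by_cases h : c = a
    · subst h; simp
    · by_cases h' : c ∈ S <;> simp [h, h']
  simp only [av_apply, h]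

theorem cond_insert' (hp : Prob (bern p)) {S : Finset ι} {a : ι} (ha : a ∉ S) (g : Fn ι)
    (x : ι → Bool) : cond p (insert a S) g x
      = (1 - p) * cond p S g (update x a false) + p * cond p S g (update x a true) := by
  rw [cond_insert hp ha, cond_update ha, cond_update ha]
  simp only [cond_apply, av_apply, rs_apply, Ex_add, Ex_mul]

theorem cond_mono (hp : Prob (bern p)) (S : Finset ι) {g h : Fn ι} (h1 : ∀ x, g x ≤ h x)
    (x : ι → Bool) : cond p S g x ≤ cond p S h x := Ex_mono hp fun _ => h1 _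

theorem cond_nonneg (hp : Prob (bern p)) (S : Finset ι) {g : Fn ι} (h1 : ∀ x, 0 ≤ g x)
    (x : ι → Bool) : 0 ≤ cond p S g x := Ex_nonneg hp fun _ => h1 _

theorem cond_le (hp : Prob (bern p)) (S : Finset ι) {g : Fn ι} {r : ℝ} (h1 : ∀ x, g x ≤ r)
    (x : ι → Bool) : cond p S g x ≤ r := Ex_le hp fun _ => h1 _

theorem piecewise_mono (S : Finset ι) {y y' x x' : ι → Bool} (h1 : ∀ a ∈ S, y a ≤ y' a)
    (h2 : ∀ a ∉ S, x a ≤ x' a) : S.piecewise y x ≤ S.piecewise y' x' := fun a => by
  by_cases h : a ∈ S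
  · simp only [piecewise_eq_of_mem _ _ _ h]; exact h1 a h
  · simp only [piecewise_eq_of_notMem _ _ _ h]; exact h2 a h

theorem Ex_level {q : ℝ} (h0 : 0 ≤ p) (hpq : p ≤ q) (h1 : q ≤ 1) {g : Fn ι} (hg : Monotone g) :
    Ex (bern p) g ≤ Ex (bern q) g := by
  let ν : Bool × Bool → ℝ := fun c => if c.1 then (if c.2 then p else 0) else
    (if c.2 then q - p else 1 - q)
  have hν : Prob ν := ⟨fun c => by
    rcases c with ⟨_ | _, _ | _⟩ <;> simp [ν, h0, hpq, h1], by simp [ν, Fintype.sum_prod_type]⟩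
  by_contra h
  obtain ⟨c, h2, h3⟩ := exists_of_coupling hν (μ := bern p) (μ' := bern q) Prod.fst Prod.snd
    (fun d => by cases d <;> simp [sum_filter, Fintype.sum_prod_type, ν, bern])
    (fun d => by cases d <;> simp [sum_filter, Fintype.sum_prod_type, ν, bern]) (not_le.1 h)
  refine absurd (hg fun a => ?_) (not_le.2 h3)
  have := h2 a
  revert this
  rcases c a with ⟨_ | _, _ | _⟩ <;> simp [ν]

theorem cond_level {q : ℝ} (h0 : 0 ≤ p) (hpq : p ≤ q) (h1 : q ≤ 1) (S : Finset ι) {g : Fn ι}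
    (hg : Monotone g) {x x' : ι → Bool} (h : ∀ a ∉ S, x a ≤ x' a) :
    cond p S g x ≤ cond q S g x' :=
  (Ex_mono (prob_bern h0 (hpq.trans h1)) fun _ => hg (piecewise_mono S (fun _ _ => le_rfl) h)).trans
    (Ex_level h0 hpq h1 fun _ _ hy => hg (piecewise_mono S (fun a _ => hy a) fun _ _ => le_rfl))

end Pool.Agent.Lib.MP_a1e814_lc.Ds
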