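import Pool.Agent.Lib.MP_a1e814_lc.DsCross

/-! Soundness and completeness of the ordered instance. -/

set_option linter.unusedSectionVars false

namespace Pool.Agent.Lib.MP_a1e814_lc.Ds

open Finset Function Pool.Agent.Lib.MP_4d0379_lc
open scoped BigOperators

section

variable {ι : Type} [Fintype ι] [DecidableEq ι]

theorem expect_push {C : Type} [Fintype C] [Nonempty C] (φ : C → Bool) {t : ℝ}
    (h : (#{c | φ c = true} : ℝ) = t * Fintype.card C) (g : Fn ι) :
    𝔼 c : ι → C, g (fun a => φ (c a)) = Ex (bern t) g := by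
  have h0 : (0 : ℝ) < Fintype.card C := by exact_mod_cast Fintype.card_pos
  have h1 : ∑ c with φ c = true, (Fintype.card C : ℝ)⁻¹ = t := by
    rw [sum_const, nsmul_eq_mul, h]
    field_simp
  rw [← Ex_unif]
  refine Ex_push φ (fun d => ?_) g
  cases d
  · have := sum_filter_add_sum_filter_not univ (fun c => φ c = true)
      fun _ => (Fintype.card C : ℝ)⁻¹
    rw [prob_unif.one, h1] at this
    simp only [Bool.not_eq_true] at this
    simp only [bern, Bool.false_eq_true, if_false]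
    linarith
  · simpa [bern] using h1

theorem expect_update {C : Type} [Fintype C] [Nonempty C] (a : ι) (g : (ι → C) → ℝ) :
    𝔼 x, g x = 𝔼 x, 𝔼 c, g (update x a c) := by
  rw [← Ex_unif, ← Ex_update prob_unif a, Ex_unif]
  refine expect_congr rfl fun x _ => ?_
  rw [Fintype.expect_eq_sum_div_card, ← mul_sum, div_eq_inv_mul]

abbrev Lv := Σ i : Fin 6, Fin (wt i)

abbrev Th := Fin 1000000

instance : Nonempty Lv := ⟨⟨0, ⟨0, by decide⟩⟩⟩

def thr (i : ℕ) (c : ι → Th) : ι → Bool := fun a => decide ((c a : ℕ) < pn i)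

theorem pn_le (i : ℕ) : pn i ≤ 1000000 := by
  unfold pn
  rcases i with _ | _ | _ | _ | _ | _ | i <;> simp

theorem prob_pl (i : ℕ) : Prob (bern (pl i)) := by
  refine prob_bern (by unfold pl; positivity) ?_
  unfold pl
  rw [div_le_one (by positivity)]
  exact_mod_cast pn_le i

theorem expect_thr (i : ℕ) (g : Fn ι) : 𝔼 c : ι → Th, g (thr i c) = Ex (bern (pl i)) g :=
  expect_push (fun c : Th => decide ((c : ℕ) < pn i)) (by
    simp only [decide_eq_true_eq, Fin.card_filter_val_lt, min_eq_right (pn_le i), pl,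
      Fintype.card_fin]
    push_cast
    ring) g

def bl (b : Bool) : ℝ := if b then 1 else 0

theorem ind_ne (a b : Bool) : ind (a ≠ b) = bl a + (bl b - 2 * (bl a * bl b)) := by
  cases a <;> cases b <;> norm_num [ind, bl]

/-- the separated demand of one long code -/
noncomputable def demB (S : Finset ι) (g : (ι → Bool) → Bool) : ℝ :=
  𝔼 t : Lv, 𝔼 c, 𝔼 c', ind (g (thr t.1 c) ≠ g (S.piecewise (thr t.1 c') (thr t.1 c)))

theorem demB_eq (S : Finset ι) (g : (ι → Bool) → Bool) : demB S g = (∑ i ∈ range 6, wt i *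
    Ex (bern (pl i)) fun x => hh (cond (pl i) S (fun x => bl (g x)) x)) / 1452 := by
  have h1 : ∀ i, 𝔼 c, 𝔼 c', ind (g (thr i c) ≠ g (S.piecewise (thr i c') (thr i c)))
      = Ex (bern (pl i)) (fun x => hh (cond (pl i) S (fun x => bl (g x)) x)) / 2 := by
    intro i
    have hp := prob_pl i
    rw [expect_thr i fun x => 𝔼 c', ind (g x ≠ g (S.piecewise (thr i c') x))]
    have h2 : ∀ x, 𝔼 c', ind (g x ≠ g (S.piecewise (thr i c') x)) = bl (g x)
        + (cond (pl i) S (fun x => bl (g x)) x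
          - 2 * (bl (g x) * cond (pl i) S (fun x => bl (g x)) x)) := fun x => by
      rw [expect_thr i fun y => ind (g x ≠ g (S.piecewise y x))]
      simp only [ind_ne, Ex_add, Ex_sub, Ex_mul, Ex_const hp, cond_apply]
    have h3 : ∀ α, hh α = 4 * α - 4 * (α * α) := fun α => by unfold hh; ring
    simp only [h2, h3, Ex_add, Ex_sub, Ex_mul]
    rw [← Ex_cond hp S fun x => bl (g x) * _]
    have h4 : cond (pl i) S (fun x => bl (g x) * cond (pl i) S (fun x => bl (g x)) x) = fun x =>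
        cond (pl i) S (fun x => bl (g x)) x * cond (pl i) S (fun x => bl (g x)) x := by
      funext x
      simp only [cond_apply, piecewise_idem_right, mul_comm (bl _), Ex_mul]
    rw [h4, ← Ex_cond hp S fun x => bl (g x)]
    ring
  unfold demB
  simp only [h1]
  rw [Fintype.expect_eq_sum_div_card, Fintype.sum_sigma, Fintype.card_sigma, sum_range]
  simp only [sum_const, card_univ, Fintype.card_fin, nsmul_eq_mul, ← mul_div_assoc, ← sum_div]
  rw [show ∑ i : Fin 6, wt i = 726 by decide]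
  push_cast
  ring

end

abbrev Tb (l : ℕ) := Lb l → Bool

abbrev Ix (Ω I B : Type) (l : ℕ) := Fin l × (Fin l → (Ω × I) × B) × Ω × I × I × B × B × Tb l × Tb l
  × Lv × (Lb l → Th) × (Lb l → Th)

abbrev Vx (V B : Type) (l : ℕ) := (Fin l → V × B) × Tb l

/-- labels with many true positions -/
def rich (r l : ℕ) : Finset (Lb l) := {a | l ≤ 2 * r * #{j | a j = true}}

open Classical in
noncomputable def pick {X : Type} (P : Prop) (a b : X) : X := if P then a else b

noncomputable def vio (a b : Bool) : ℝ := ind (a = true ∧ b = false)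

variable {Ω I V A B : Type} [Fintype Ω] [Fintype I] [Fintype A] [Fintype B] [DecidableEq A]
  [DecidableEq B] [Nonempty Ω] [Nonempty I] [Nonempty B] (v : Ω → I → V) (π : Ω → I → B → A) {l : ℕ}

def nm (z : (Ω × I) × B) : V × B := (v z.1.1 z.1.2, z.2)

/-- the end points of three constraints and of one demand -/
noncomputable def vt : Ix Ω I B l → ℕ → Vx V B l
  | (j, β, ω, i, i', b, b', x, y, t, c, c'), k =>
    [(nm v ∘ β, x ⊓ y), (nm v ∘ β, y),
      pick (b ≠ b' ∧ Rel j x y) (update (nm v ∘ β) j (v ω i, b), x)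
        (update (nm v ∘ β) j (v ω i, b'), y), (update (nm v ∘ β) j (v ω i, b'), y),
      pick (π ω i b ≠ π ω i' b' ∧ Rel j x y) (update (nm v ∘ β) j (v ω i, b), x)
        (update (nm v ∘ β) j (v ω i', b'), y), (update (nm v ∘ β) j (v ω i', b'), y),
      (nm v ∘ β, thr t.1 c)].getD k
      (nm v ∘ β, (rich (Fintype.card B) l).piecewise (thr t.1 c') (thr t.1 c))

theorem dem_eq (l0 : 0 < l) (f : Vx V B l → Bool) : 𝔼 κ, ind (f (vt v π κ 6) ≠ f (vt v π κ 7))
    = 𝔼 β : Fin l → (Ω × I) × B, demB (rich (Fintype.card B) l) fun x => f (nm v ∘ β, x) := by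
  have : Nonempty (Fin l) := ⟨⟨0, l0⟩⟩
  simp only [expect_prod, vt, List.getD_cons_succ, List.getD_cons_zero, List.getD_nil,
    Fintype.expect_const, demB]

theorem ind_le_vio (f : Vx V B l → Bool) {P Q : Prop} {β β' : Fin l → V × B} {j : Fin l}
    (h : Q → P ∧ ∃ x y, Rel j x y ∧ bl (f (β', y)) < bl (f (β, x))) :
    ind Q ≤ Fintype.card (Tb l × Tb l) * 𝔼 x, 𝔼 y,
      vio (f (pick (P ∧ Rel j x y) (β, x) (β', y))) (f (β', y)) := by
  refine ind_le_of (mul_nonneg (by positivity) (expect_nonneg fun _ _ => expect_nonneg fun _ _ =>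
    ind_nn _)) fun hQ => ?_
  obtain ⟨h1, x, y, h2, h3⟩ := h hQ
  rw [← expect_prod fun z : Tb l × Tb l =>
    vio (f (pick (P ∧ Rel j z.1 z.2) (β, z.1) (β', z.2))) (f (β', z.2))]
  refine one_le_card_mul (fun _ => ind_nn _) (x := (x, y)) (ind_pos ?_).ge
  rw [pick, if_pos ⟨h1, h2⟩]
  revert h3
  cases f (β, x) <;> cases f (β', y) <;> simp [bl]

theorem good_le {θ p q k r : ℝ} (h0 : 0 < θ) (hL : Lev p q k r) {m n : ℕ} (l0 : 0 < l)
    (hl : 4 * Fintype.card B * n ^ 2 ≤ l) (h : Coll v π (θ ^ 2)) (f : Vx V B l → Bool) :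
    𝔼 β : Fin l → (Ω × I) × B, ind (∃ D, Good p q m n (rich (Fintype.card B) l)
      (fun x => bl (f (nm v ∘ β, x))) D) ≤ 4 * 5 ^ n * (θ + (1 + (2 * θ)⁻¹)
      * (Fintype.card B ^ 2 * Fintype.card (Tb l × Tb l)) * 𝔼 κ,
      (vio (f (vt v π κ 2)) (f (vt v π κ 3)) + vio (f (vt v π κ 4)) (f (vt v π κ 5)))) := by
  classical
  have : Nonempty (Fin l) := ⟨⟨0, l0⟩⟩
  have : Nonempty (Dat (Lb l)) := ⟨⟨∅, ∅, fun _ => true, fun _ => true, fun _ => true⟩⟩
  let ch : (Fin l → V × B) → Dat (Lb l) := fun β =>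
    Classical.epsilon (Good p q m n (rich (Fintype.card B) l) fun x => bl (f (β, x)))
  let sel : Fin l → (Lb l → Option (Bool × Bool)) → (Fin l → V × B) → Prop := fun j ξ β =>
    Good p q m n (rich (Fintype.card B) l) (fun x => bl (f (β, x))) (ch β) ∧ Role j ξ (ch β)
  have c1 : ∀ β, ind (∃ D, Good p q m n (rich (Fintype.card B) l) (fun x => bl (f (β, x))) D)
      ≤ 4 * Fintype.card B * 5 ^ n * 𝔼 j, 𝔼 ξ, ind (sel j ξ β) := fun β => by
    refine ind_le_of (mul_nonneg (by positivity) (expect_nonneg fun _ _ => expect_nonneg fun _ _ =>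
      ind_nn _)) fun hD => ?_
    have c0 : Good _ _ _ _ _ _ (ch β) := Classical.epsilon_spec hD
    simp only [sel, c0, true_and]
    exact role_count Fintype.card_pos l0 hl c0.cE (mem_filter.1 c0.rich).2
  refine (expect_le_expect fun β _ => c1 _).trans ?_
  rw [← mul_expect, expect_comm, mul_right_comm 4, mul_assoc]
  refine mul_le_mul_of_nonneg_left ?_ (by positivity)
  rw [expect_prod, mul_expect, mul_expect, ← Fintype.expect_const (ι := Fin l) θ,
    ← expect_add_distrib]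
  refine expect_le_expect fun j _ => ?_
  rw [expect_comm, mul_expect]
  refine expect_le univ_nonempty fun ξ _ => ?_
  rw [expect_update j, expect_prod, mul_expect, mul_expect,
    ← Fintype.expect_const (ι := Fin l → (Ω × I) × B) θ, ← expect_add_distrib]
  refine expect_le_expect fun β _ => ?_
  have c2 := decode h0 h fun x b => sel j ξ (update (nm v ∘ β) j (x, b))
  refine (le_of_eq_of_le ?_ c2).trans (add_le_add le_rfl ?_)
  · simp only [expect_prod, comp_update, nm, ← Fintype.card_mul_expect, mul_expect]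
  simp only [← Fintype.card_mul_expect, mul_expect]
  rw [expect_prod]
  refine expect_le_expect fun ω _ => ?_
  rw [expect_prod]
  refine expect_le_expect fun i _ => ?_
  rw [expect_prod]
  refine expect_le_expect fun i' _ => ?_
  rw [expect_prod]
  refine expect_le_expect fun b _ => ?_
  rw [expect_prod]
  refine expect_le_expect fun b' _ => ?_
  rw [← mul_expect, ← mul_assoc, ← sq, mul_comm (1 + _), mul_assoc, mul_assoc]
  refine mul_le_mul_of_nonneg_left ?_ (by positivity)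
  simp only [expect_prod, vt, List.getD_cons_succ, List.getD_cons_zero, Fintype.expect_const,
    expect_add_distrib]
  have c3 := ind_le_vio f (P := b ≠ b') (j := j) fun c : b ≠ b' ∧
    sel j ξ (update (nm v ∘ β) j (v ω i, b)) ∧ sel j ξ (update (nm v ∘ β) j (v ω i, b')) =>
    ⟨c.1, cross hL c.2.1.1 c.2.2.1 c.2.1.2 c.2.2.2⟩
  have c4 := ind_le_vio f (P := π ω i b ≠ π ω i' b') (j := j) fun c : π ω i b ≠ π ω i' b' ∧
    sel j ξ (update (nm v ∘ β) j (v ω i, b)) ∧ sel j ξ (update (nm v ∘ β) j (v ω i', b')) =>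
    ⟨c.1, cross hL c.2.1.1 c.2.2.1 c.2.1.2 c.2.2.2⟩
  have c5 : 0 ≤ (2 * θ)⁻¹ := by positivity
  have c6 := mul_le_mul_of_nonneg_left c4 c5
  have c7 := mul_nonneg c5 ((ind_nn _).trans c3)
  have c8 := (ind_nn _).trans c4
  linarith

theorem sound {ε : ℝ} (hε : 0 < ε) : ∃ θ > 0, ∃ (n : ℕ) (c : ℝ), 0 ≤ c ∧ ∀ {Ω I V A B : Type}
    [Fintype Ω] [Fintype I] [Fintype A] [Fintype B] [DecidableEq A] [DecidableEq B] [Nonempty Ω]
    [Nonempty I] [Nonempty B] (v : Ω → I → V) (π : Ω → I → B → A) {l : ℕ}, 0 < l →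
    4 * Fintype.card B * n ^ 2 ≤ l → Coll v π (θ ^ 2) → ∀ f : Vx V B l → Bool,
    𝔼 κ, ind (f (vt v π κ 6) ≠ f (vt v π κ 7)) ≤ (145 + ε) / 1452
      + c * (Fintype.card B ^ 2 * Fintype.card (Tb l × Tb l)) * 𝔼 κ,
      (vio (f (vt v π κ 0)) (f (vt v π κ 1)) + (vio (f (vt v π κ 2)) (f (vt v π κ 3))
        + vio (f (vt v π κ 4)) (f (vt v π κ 5)))) := by
  obtain ⟨m, n, hb⟩ := block (half_pos hε)
  obtain ⟨θ, θ0, hθ⟩ : ∃ θ : ℝ, 0 < θ ∧ 20 * 5 ^ n * θ = ε / 2 / 1452 :=
    ⟨ε / 2 / 1452 / (20 * 5 ^ n), by positivity, by field_simp⟩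
  refine ⟨θ, θ0, n, 1 + 20 * 5 ^ n * (1 + (2 * θ)⁻¹), by positivity,
    fun {Ω I V A B} _ _ _ _ _ _ _ _ _ v π l l0 hl h f => ?_⟩
  have : Nonempty (Fin l) := ⟨⟨0, l0⟩⟩
  have c1 : ∀ β : Fin l → V × B, demB (rich (Fintype.card B) l) (fun x => f (β, x))
      ≤ (145 + ε / 2) / 1452 + (Fintype.card (Tb l × Tb l) * 𝔼 x, 𝔼 y, vio (f (β, x ⊓ y)) (f (β, y))
      + ∑ i ∈ range 5, ind (∃ D, Good (pl (i + 1) + 1 / 10 ^ 6) (pl i - 1 / 10 ^ 6) m n
        (rich (Fintype.card B) l) (fun x => bl (f (β, x))) D)) := fun β => by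
    have d1 : demB (rich (Fintype.card B) l) (fun x => f (β, x)) ≤ 1 :=
      expect_le univ_nonempty fun _ _ => expect_le univ_nonempty fun _ _ =>
        expect_le univ_nonempty fun _ _ => ind_le _
    have d2 : 0 ≤ Fintype.card (Tb l × Tb l) * 𝔼 x, 𝔼 y, vio (f (β, x ⊓ y)) (f (β, y)) :=
      mul_nonneg (by positivity) (expect_nonneg fun _ _ => expect_nonneg fun _ _ => ind_nn _)
    have d3 : 0 ≤ (145 + ε / 2) / 1452 := by positivity
    have d4 := sum_nonneg fun i (_ : i ∈ range 5) => ind_nn (∃ D, Good (pl (i + 1) + 1 / 10 ^ 6)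
      (pl i - 1 / 10 ^ 6) m n (rich (Fintype.card B) l) (fun x => bl (f (β, x))) D)
    by_cases d5 : Monotone fun x => bl (f (β, x))
    · by_cases d6 : ∀ i < 5, ∀ D, ¬ Good (pl (i + 1) + 1 / 10 ^ 6) (pl i - 1 / 10 ^ 6) m n
          (rich (Fintype.card B) l) (fun x => bl (f (β, x))) D
      · have := hb _ _ _ ⟨d5, fun x => by cases f (β, x) <;> simp [bl]⟩ d6
        rw [demB_eq]
        linarith
      · push Not at d6
        obtain ⟨i, hi, d6⟩ := d6
        have := single_le_sum (fun i (_ : i ∈ range 5) => ind_nn (∃ D, Good (pl (i + 1) + 1 / 10 ^ 6)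
          (pl i - 1 / 10 ^ 6) m n (rich (Fintype.card B) l) (fun x => bl (f (β, x))) D))
          (mem_range.2 hi)
        rw [ind_pos d6] at this
        linarith
    · obtain ⟨x, y, d6, d7⟩ : ∃ x y, x ≤ y ∧ bl (f (β, y)) < bl (f (β, x)) := by
        by_contra d
        push Not at d
        exact d5 d
      have := one_le_card_mul (g := fun z : Tb l × Tb l => vio (f (β, z.1 ⊓ z.2)) (f (β, z.2)))
        (fun _ => ind_nn _) (x := (x, y)) (ind_pos (by
          rw [inf_eq_left.2 d6]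
          revert d7
          cases f (β, x) <;> cases f (β, y) <;> simp [bl])).ge
      rw [expect_prod] at this
      linarith
  have c2 := expect_le_expect fun (β : Fin l → (Ω × I) × B) (_ : β ∈ univ) => c1 (nm v ∘ β)
  rw [← dem_eq v π l0, expect_add_distrib, expect_add_distrib, Fintype.expect_const,
    expect_sum_comm, ← mul_expect] at c2
  have c3 := sum_le_card_nsmul _ _ _ fun i (hi : i ∈ range 5) =>
    good_le v π θ0 (lev (mem_range.1 hi)).2.2.choose_spec (m := m) l0 hl h f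
  have c4 : 𝔼 κ, vio (f (vt v π κ 0)) (f (vt v π κ 1)) = 𝔼 β : Fin l → (Ω × I) × B, 𝔼 x, 𝔼 y,
      vio (f (nm v ∘ β, x ⊓ y)) (f (nm v ∘ β, y)) := by
    simp only [expect_prod, vt, List.getD_cons_succ, List.getD_cons_zero, Fintype.expect_const]
  rw [← c4] at c2
  rw [card_range, nsmul_eq_mul] at c3
  rw [expect_add_distrib]
  have c5 : 0 ≤ 𝔼 κ : Ix Ω I B l, vio (f (vt v π κ 0)) (f (vt v π κ 1)) :=
    expect_nonneg fun _ _ => ind_nn _
  have c6 : 0 ≤ 𝔼 κ : Ix Ω I B l, (vio (f (vt v π κ 2)) (f (vt v π κ 3))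
      + vio (f (vt v π κ 4)) (f (vt v π κ 5))) :=
    expect_nonneg fun _ _ => add_nonneg (ind_nn _) (ind_nn _)
  have c7 : (1 : ℝ) ≤ Fintype.card B ^ 2 := one_le_pow₀ (by exact_mod_cast Fintype.card_pos)
  have c8 : (0 : ℝ) ≤ 20 * 5 ^ n * (1 + (2 * θ)⁻¹) := by positivity
  generalize (𝔼 κ : Ix Ω I B l, vio _ _) = a1 at *
  generalize (𝔼 κ : Ix Ω I B l, (_ + _ : ℝ)) = a2 at *
  have c9 : (0 : ℝ) ≤ Fintype.card (Tb l × Tb l) := by positivity
  generalize (Fintype.card (Tb l × Tb l) : ℝ) = Q at *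
  push_cast at c3
  nlinarith [mul_nonneg (mul_nonneg (sub_nonneg.2 c7) c9) c5, mul_nonneg (mul_nonneg c8
    (mul_nonneg (zero_le_one.trans c7) c9)) c5, mul_nonneg (mul_nonneg (zero_le_one.trans c7) c9) c6]

theorem dem_le (l0 : 0 < l) (f : Vx V B l → Bool) : 𝔼 κ, ind (f (vt v π κ 6) ≠ f (vt v π κ 7))
    ≤ Fintype.card (Tb l) * 𝔼 κ, bl (f (vt v π κ 1)) := by
  have : Nonempty (Fin l) := ⟨⟨0, l0⟩⟩
  have h0 : ∀ b, 0 ≤ bl b := fun b => by cases b <;> simp [bl]
  rw [dem_eq v π l0]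
  simp only [expect_prod, vt, List.getD_cons_succ, List.getD_cons_zero, Fintype.expect_const]
  rw [mul_expect]
  refine expect_le_expect fun β _ => expect_le univ_nonempty fun _ _ =>
    expect_le univ_nonempty fun _ _ => expect_le univ_nonempty fun _ _ => ind_le_of
    (mul_nonneg (by positivity) (expect_nonneg fun _ _ => h0 _)) fun h => ?_
  obtain ⟨x, hx⟩ : ∃ x, f (nm v ∘ β, x) = true := by
    by_contra c
    simp only [not_exists, Bool.not_eq_true] at c
    simp [c] at h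
  exact one_le_card_mul (fun _ => h0 _) (x := x) (by simp [hx, bl])

theorem rich_ge {r : ℕ} (r0 : 0 < r) (l0 : 0 < l) :
    1 - 4 * (r : ℝ) / l ≤ Ex (bern (r : ℝ)⁻¹) fun a => ind (a ∈ rich r l) := by
  have r1 : (1 : ℝ) ≤ r := by exact_mod_cast r0
  have l1 : (0 : ℝ) < l := by exact_mod_cast l0
  obtain ⟨p, hp, p0, p1⟩ : ∃ p : ℝ, p = (r : ℝ)⁻¹ ∧ 0 < p ∧ p ≤ 1 :=
    ⟨_, rfl, by positivity, inv_le_one_of_one_le₀ r1⟩
  have pr : r * p = 1 := by rw [hp]; field_simp
  rw [← hp]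
  have h := prob_bern p0.le p1
  have h1 : ∀ j k : Fin l, Ex (bern p) (fun x : Lb l => (bl (x j) - p) * (bl (x k) - p))
      ≤ if j = k then p else 0 := fun j k => by
    rw [← Ex_update h j]
    refine Ex_le h fun x => ?_
    split_ifs with c
    · subst c
      simp [bern, bl]
      nlinarith
    · simp only [update_self, update_of_ne (Ne.symm c), Fintype.sum_bool]
      simp [bern, bl]
      exact le_of_eq (by ring)
  have h2 : Ex (bern p) (fun x : Lb l => (∑ j, (bl (x j) - p)) ^ 2) ≤ l * p := by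
    simp only [sq, sum_mul_sum, Ex_sum]
    exact (sum_le_sum fun j _ => sum_le_sum fun k _ => h1 j k).trans (by simp)
  have h3 : ∀ x : Lb l, 1 - 4 * (r / l) ^ 2 * (∑ j, (bl (x j) - p)) ^ 2 ≤ ind (x ∈ rich r l) := by
    intro x
    by_cases c : x ∈ rich r l
    · rw [ind_pos c, sub_le_self_iff]
      positivity
    · have c1 : (2 * r * #{j | x j = true} : ℝ) < l := by
        simp only [rich, mem_filter, mem_univ, true_and, not_le] at c
        exact_mod_cast c
      have c2 : r / l * ∑ j, (bl (x j) - p) ≤ -(1 / 2) := by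
        rw [div_mul_eq_mul_div, div_le_iff₀ l1, sum_sub_distrib]
        simp only [bl, sum_boole, sum_const, card_univ, Fintype.card_fin, nsmul_eq_mul]
        rw [mul_sub, mul_left_comm, pr]
        linarith
      rw [ind_neg c, mul_assoc, ← mul_pow]
      nlinarith
  refine le_trans ?_ (Ex_mono h h3)
  rw [Ex_sub, Ex_const h, Ex_mul]
  refine sub_le_sub_left ((mul_le_mul_of_nonneg_left h2 (by positivity)).trans (le_of_eq ?_)) _
  rw [hp]
  field_simp

/-- the honest cut -/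
def hon (σ : V → B) (w : Vx V B l) : Bool := w.2 fun k => decide ((w.1 k).2 = σ (w.1 k).1)

theorem hon_pick (σ : V → B) {P : Prop} (β : Fin l → V × B) (j : Fin l) {z z' : V × B}
    (x y : Tb l) (h : P → z.2 = σ z.1 → z'.2 ≠ σ z'.1) : hon σ (pick (P ∧ Rel j x y)
      (update β j z, x) (update β j z', y)) ≤ hon σ (update β j z', y) := by
  unfold pick
  split_ifs with c
  · refine c.2 _ _ (funext fun k => ?_) (by simpa using h c.1)
    by_cases c1 : k = j <;> simp [c1]
  · exact le_rfl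

theorem hon_le {σ : V → B} {τ : Ω → A} (h : ∀ ω i, π ω i (σ (v ω i)) = τ ω) (κ : Ix Ω I B l) :
    hon σ (vt v π κ 0) ≤ hon σ (vt v π κ 1) ∧ hon σ (vt v π κ 2) ≤ hon σ (vt v π κ 3) ∧
      hon σ (vt v π κ 4) ≤ hon σ (vt v π κ 5) := by
  obtain ⟨j, β, ω, i, i', b, b', x, y, t, c, c'⟩ := κ
  simp only [vt, List.getD_cons_succ, List.getD_cons_zero]
  refine ⟨?_, hon_pick σ _ j x y fun h1 h2 h3 => h1 (h2.trans h3.symm),
    hon_pick σ _ j x y fun h1 h2 h3 => h1 ?_⟩
  · simp only [hon, Pi.inf_apply]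
    exact inf_le_right
  · simp only at h2 h3
    rw [h2, h3, h, h]

theorem demB_dict {r : ℕ} (a : Lb l) :
    ind (a ∈ rich r l) * (33479 / 145200) ≤ demB (rich r l) fun x => x a := by
  by_cases c : a ∈ rich r l
  · have h2 : ∀ i x, cond (pl i) (rich r l) (fun x => bl (x a)) x = pl i := fun i x => by
      simp only [cond_apply, piecewise_eq_of_mem _ _ _ c]
      rw [Ex_single (prob_pl i) a bl]
      simp [bern, bl]
    simp only [demB_eq, h2, Ex_const (prob_pl _), ind_pos c, sum_range_succ]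
    norm_num [wt, pl, pn, hh]
  · rw [ind_neg c, zero_mul]
    exact expect_nonneg fun _ _ => expect_nonneg fun _ _ => expect_nonneg fun _ _ => ind_nn _

theorem hon_dem (l0 : 0 < l) (σ : V → B) : (1 - 4 * (Fintype.card B : ℝ) / l) * (33479 / 145200)
    ≤ 𝔼 κ : Ix Ω I B l, ind (hon σ (vt v π κ 6) ≠ hon σ (vt v π κ 7)) := by
  rw [dem_eq v π l0 (hon σ)]
  refine le_trans ?_ (expect_le_expect fun β _ =>
    demB_dict fun k => decide ((β k).2 = σ (v (β k).1.1 (β k).1.2)))
  rw [← expect_mul, expect_push (fun z : (Ω × I) × B => decide (z.2 = σ (v z.1.1 z.1.2)))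
    (t := (Fintype.card B : ℝ)⁻¹) ?_ fun a => ind (a ∈ rich (Fintype.card B) l)]
  · exact mul_le_mul_of_nonneg_right (rich_ge Fintype.card_pos l0) (by norm_num)
  have h0 : (0 : ℝ) < Fintype.card B := by exact_mod_cast Fintype.card_pos
  rw [card_filter, Fintype.sum_prod_type]
  simp
  field_simp

end Pool.Agent.Lib.MP_a1e814_lc.Ds
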