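import Pool.Agent.Lib.MP_a1e814_lc.DsFinal

open Pool.Agent.Lib.MP_a1e814_lc N68a2faeb

namespace Pool.Agent.Lib.MP_a1e814_lc.GapAboveTwo

/-- It is NP-hard to approximate weighted Sparsest Cut within the factor `23 / 10`. -/
theorem gap (alg : Inst → List ℕ) (h1 : IsPolyTime alg) (h2 : Approximates (23 / 10) alg) :
    P = NP :=
  Ds.final (by norm_num) Ds.ngap alg h1 h2

end Pool.Agent.Lib.MP_a1e814_lc.GapAboveTwo
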