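import Pool.Agent.Lib.MP_a1e814_lc.SePr

/-! The noise operator on a finite product space. -/

namespace Pool.Agent.Lib.MP_a1e814_lc.Gh

open Finset Function Se
open scoped BigOperators

variable {Ω : Type} [Fintype Ω] {n : ℕ}

/-- functions on the product space -/
abbrev Fn (Ω : Type) (n : ℕ) := (Fin n → Ω) → ℝ

/-- the slice at a value of the first coordinate -/
def sl (f : Fn Ω (n + 1)) (ω : Ω) : Fn Ω n := fun y => f (Fin.cons ω y)

/-- the average over the first coordinate -/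
noncomputable def av (f : Fn Ω (n + 1)) : Fn Ω n := fun y => 𝔼 ω, f (Fin.cons ω y)

/-- the slice minus the average -/
noncomputable def df (f : Fn Ω (n + 1)) (ω : Ω) : Fn Ω n := sl f ω - av f

theorem av_add (f g : Fn Ω (n + 1)) : av (f + g) = av f + av g := by
  funext y
  simp only [av, Pi.add_apply, expect_add_distrib]

theorem av_smul (r : ℝ) (f : Fn Ω (n + 1)) : av (r • f) = r • av f := by
  funext y
  simp only [av, Pi.smul_apply, smul_eq_mul, mul_expect]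

theorem df_add (f g : Fn Ω (n + 1)) (ω : Ω) : df (f + g) ω = df f ω + df g ω := by
  funext y
  simp only [df, av_add, sl, Pi.add_apply, Pi.sub_apply]
  ring

theorem df_smul (r : ℝ) (f : Fn Ω (n + 1)) (ω : Ω) : df (r • f) ω = r • df f ω := by
  funext y
  simp only [df, av_smul, sl, Pi.smul_apply, Pi.sub_apply, smul_eq_mul]
  ring

/-- the noise operator -/
noncomputable def T (ρ : ℝ) : ∀ n, Fn Ω n →ₗ[ℝ] Fn Ω n
  | 0 => LinearMap.id
  | n + 1 =>
    { toFun := fun f x => T ρ n (av f) (Fin.tail x) + ρ * T ρ n (df f (x 0)) (Fin.tail x)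
      map_add' := fun f g => by
        funext x
        simp only [av_add, df_add, map_add, Pi.add_apply]
        ring
      map_smul' := fun r f => by
        funext x
        simp only [av_smul, df_smul, map_smul, Pi.smul_apply, smul_eq_mul, RingHom.id_apply]
        ring }

theorem T_cons (ρ : ℝ) (f : Fn Ω (n + 1)) (ω : Ω) (y : Fin n → Ω) :
    T ρ (n + 1) f (Fin.cons ω y) = T ρ n (av f) y + ρ * T ρ n (df f ω) y := rfl

theorem av_df (f : Fn Ω (n + 1)) (ω : Ω) : av f + df f ω = sl f ω := add_sub_cancel _ _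

theorem sl_T (ρ : ℝ) (f : Fn Ω (n + 1)) (ω : Ω) :
    sl (T ρ (n + 1) f) ω = T ρ n (av f + ρ • df f ω) := by
  funext y
  rw [map_add, map_smul]
  rfl

theorem ex_lin (L : Fn Ω n →ₗ[ℝ] Fn Ω n) {u : Ω → Fn Ω n} (h : ∀ y, 𝔼 ω, u ω y = 0)
    (y : Fin n → Ω) : 𝔼 ω, L (u ω) y = 0 := by
  rcases isEmpty_or_nonempty Ω with hΩ | hΩ
  · simp
  have h1 : ∑ ω, u ω = 0 := by
    funext z
    have := h z
    rw [Fintype.expect_eq_sum_div_card, div_eq_zero_iff] at this
    rw [Finset.sum_apply]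
    exact this.resolve_right (by exact_mod_cast Fintype.card_ne_zero)
  rw [Fintype.expect_eq_sum_div_card, ← Finset.sum_apply, ← map_sum, h1, map_zero]
  simp

/-- the inner product -/
noncomputable def ip (f g : Fn Ω n) : ℝ := 𝔼 x, f x * g x

theorem ip_comm (f g : Fn Ω n) : ip f g = ip g f := ex_congr fun _ => mul_comm _ _

theorem ip_nn (f : Fn Ω n) : 0 ≤ ip f f := ex_nn fun _ => mul_self_nonneg _

theorem ip_smul (r : ℝ) (f g : Fn Ω n) : ip f (r • g) = r * ip f g := by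
  simp only [ip, mul_expect, Pi.smul_apply, smul_eq_mul]
  exact ex_congr fun _ => by ring

theorem ip_sl (f g : Fn Ω (n + 1)) : ip f g = 𝔼 ω, ip (sl f ω) (sl g ω) := ex_cons _

variable [Nonempty Ω]

theorem ex_df (f : Fn Ω (n + 1)) (y : Fin n → Ω) : 𝔼 ω, df f ω y = 0 := by
  simp only [df, Pi.sub_apply, expect_sub_distrib, expect_const univ_nonempty, sl, av, sub_self]

theorem av_T (ρ : ℝ) (f : Fn Ω (n + 1)) : av (T ρ (n + 1) f) = T ρ n (av f) := by
  funext y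
  simp only [av, T_cons, expect_add_distrib, expect_const univ_nonempty, ← mul_expect]
  rw [ex_lin _ (ex_df f), mul_zero, add_zero]

theorem df_T (ρ : ℝ) (f : Fn Ω (n + 1)) (ω : Ω) :
    df (T ρ (n + 1) f) ω = ρ • T ρ n (df f ω) := by
  rw [df, av_T, sl_T, map_add, map_smul, add_sub_cancel_left]

theorem T_T (r s : ℝ) : ∀ (n : ℕ) (f : Fn Ω n), T r n (T s n f) = T (r * s) n f
  | 0, _ => rfl
  | n + 1, f => by
    funext x
    rw [← Fin.cons_self_tail x, T_cons, T_cons, av_T, df_T, map_smul, T_T r s n, T_T r s n,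
      Pi.smul_apply, smul_eq_mul, mul_assoc]

theorem ex_orth (a b : ℝ) {u v : Ω → ℝ} (hu : 𝔼 ω, u ω = 0) (hv : 𝔼 ω, v ω = 0) :
    𝔼 ω, (a + u ω) * (b + v ω) = a * b + 𝔼 ω, u ω * v ω := by
  simp only [add_mul, mul_add, expect_add_distrib, expect_const univ_nonempty, ← mul_expect,
    ← expect_mul, hu, hv]
  ring

theorem ip_orth (a b : Fn Ω n) {u v : Ω → Fn Ω n} (hu : ∀ y, 𝔼 ω, u ω y = 0)
    (hv : ∀ y, 𝔼 ω, v ω y = 0) :
    𝔼 ω, ip (a + u ω) (b + v ω) = ip a b + 𝔼 ω, ip (u ω) (v ω) := by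
  simp only [ip]
  rw [expect_comm, expect_comm univ univ fun ω y => u ω y * v ω y, ← expect_add_distrib]
  exact ex_congr fun y => ex_orth _ _ (hu y) (hv y)

theorem ip_succ (f g : Fn Ω (n + 1)) :
    ip f g = ip (av f) (av g) + 𝔼 ω, ip (df f ω) (df g ω) := by
  rw [ip_sl, ← ip_orth _ _ (ex_df f) (ex_df g)]
  simp only [av_df]

theorem ip_T (ρ : ℝ) (f g : Fn Ω (n + 1)) : ip f (T ρ (n + 1) g) =
    ip (av f) (T ρ n (av g)) + ρ * 𝔼 ω, ip (df f ω) (T ρ n (df g ω)) := by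
  rw [ip_succ, av_T, mul_expect]
  simp only [df_T, ip_smul]

theorem T_adj (ρ : ℝ) : ∀ (n : ℕ) (f g : Fn Ω n), ip f (T ρ n g) = ip g (T ρ n f)
  | 0, f, g => ip_comm f g
  | n + 1, f, g => by
    rw [ip_T, ip_T, T_adj ρ n]
    congr 2
    exact ex_congr fun ω => T_adj ρ n _ _

theorem T_con {ρ : ℝ} (h0 : 0 ≤ ρ) (h1 : ρ ≤ 1) : ∀ (n : ℕ) (g : Fn Ω n), ip g (T ρ n g) ≤ ip g g
  | 0, _ => le_rfl
  | n + 1, g => by
    rw [ip_T, ip_succ]
    have a := T_con h0 h1 n (av g)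
    have b : 𝔼 ω, ip (df g ω) (T ρ n (df g ω)) ≤ 𝔼 ω, ip (df g ω) (df g ω) :=
      ex_mono fun ω => T_con h0 h1 n _
    have c : 0 ≤ 𝔼 ω, ip (df g ω) (df g ω) := ex_nn fun ω => ip_nn _
    nlinarith

theorem T_sq (ρ : ℝ) (f : Fn Ω n) : ip (T ρ n f) (T ρ n f) = ip f (T (ρ ^ 2) n f) := by
  rw [T_adj, T_T, sq]

theorem abs_ex {u : Ω → ℝ} {M : ℝ} (h : ∀ ω, |u ω| ≤ M) : |𝔼 ω, u ω| ≤ M :=
  abs_le.2 ⟨le_ex fun ω => (abs_le.1 (h ω)).1, ex_le fun ω => (abs_le.1 (h ω)).2⟩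

theorem mix_le {ρ a b M : ℝ} (h0 : 0 ≤ ρ) (h1 : ρ ≤ 1) (ha : |a| ≤ M) (hb : |b| ≤ M) :
    |a + ρ * (b - a)| ≤ M := by
  rw [abs_le] at *
  constructor <;> nlinarith [ha.1, ha.2, hb.1, hb.2]

theorem T_bd {ρ M : ℝ} (h0 : 0 ≤ ρ) (h1 : ρ ≤ 1) :
    ∀ (n : ℕ) (f : Fn Ω n), (∀ x, |f x| ≤ M) → ∀ x, |T ρ n f x| ≤ M
  | 0, _, h => h
  | n + 1, f, h => fun x => by
    rw [← Fin.cons_self_tail x]
    refine (congrArg abs (congrFun (sl_T ρ f (x 0)) (Fin.tail x))).le.trans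
      (T_bd h0 h1 n _ (fun y => ?_) _)
    exact mix_le h0 h1 (abs_ex fun ω => h _) (h _)

/-- a change of one coordinate changes the function by at most `η` -/
def Lip (η : ℝ) (f : Fn Ω n) : Prop := ∀ x i ω, |f x - f (update x i ω)| ≤ η

omit [Fintype Ω] [Nonempty Ω] in
theorem Lip.sl {η : ℝ} {f : Fn Ω (n + 1)} (h : Lip η f) (ω : Ω) : Lip η (sl f ω) := fun y i c => by
  have := h (Fin.cons ω y) i.succ c
  rwa [← Fin.cons_update] at this

omit [Fintype Ω] [Nonempty Ω] in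
theorem Lip.two {η : ℝ} {f : Fn Ω (n + 1)} (h : Lip η f) (ω c : Ω) (y : Fin n → Ω) :
    |Gh.sl f ω y - Gh.sl f c y| ≤ η := by
  have := h (Fin.cons ω y) 0 c
  rwa [Fin.update_cons_zero] at this

theorem Lip.av {η : ℝ} {f : Fn Ω (n + 1)} (h : Lip η f) : Lip η (av f) := fun y i c => by
  simp only [Gh.av, ← expect_sub_distrib]
  exact abs_ex fun ω => h.sl ω y i c

theorem df_eq (f : Fn Ω (n + 1)) (ω : Ω) (y : Fin n → Ω) :
    df f ω y = 𝔼 c, (sl f ω y - sl f c y) := by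
  rw [expect_sub_distrib, expect_const univ_nonempty]
  rfl

theorem Lip.df {η : ℝ} {f : Fn Ω (n + 1)} (h : Lip η f) (ω : Ω) (y : Fin n → Ω) :
    |df f ω y| ≤ η := by
  rw [df_eq]
  exact abs_ex fun c => h.two ω c y

theorem T_lip {ρ η : ℝ} (h0 : 0 ≤ ρ) (h1 : ρ ≤ 1) :
    ∀ (n : ℕ) (f : Fn Ω n), Lip η f → Lip η (T ρ n f)
  | 0, _, h => h
  | n + 1, f, h => fun x i c => by
    rw [← Fin.cons_self_tail x]
    generalize x 0 = ω
    generalize Fin.tail x = y
    refine Fin.cases ?_ (fun i => ?_) i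
    · rw [Fin.update_cons_zero, T_cons, T_cons]
      have e : T ρ n (av f) y + ρ * T ρ n (df f ω) y - (T ρ n (av f) y + ρ * T ρ n (df f c) y) =
          T ρ n (ρ • (df f ω - df f c)) y := by
        rw [map_smul, map_sub, Pi.smul_apply, Pi.sub_apply, smul_eq_mul]
        ring
      rw [e]
      refine T_bd h0 h1 n _ (fun z => ?_) y
      have k := h.two ω c z
      have e2 : (ρ • (df f ω - df f c)) z = 0 + ρ * (sl f ω z - sl f c z - 0) := by
        simp only [df, Pi.smul_apply, Pi.sub_apply, smul_eq_mul]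
        ring
      rw [e2]
      exact mix_le h0 h1 (by rw [abs_zero]; exact (abs_nonneg _).trans k) k
    · rw [← Fin.cons_update]
      have k : Lip η (av f + ρ • df f ω) := fun z j d => by
        have e : (av f + ρ • df f ω) z - (av f + ρ • df f ω) (update z j d) =
            (av f z - av f (update z j d)) + ρ * ((sl f ω z - sl f ω (update z j d)) -
              (av f z - av f (update z j d))) := by
          simp only [df, Pi.add_apply, Pi.smul_apply, Pi.sub_apply, smul_eq_mul]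
          ring
        rw [e]
        exact mix_le h0 h1 (h.av z j d) (h.sl ω z j d)
      have k2 := T_lip h0 h1 n _ k y i c
      rw [← sl_T] at k2
      exact k2

end Pool.Agent.Lib.MP_a1e814_lc.Gh
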