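import Pool.Agent.Lib.MP_a1e814_lc.GhA

/-! Hypercontractivity for functions with small influences in the sup norm. -/

namespace Pool.Agent.Lib.MP_a1e814_lc.Gh

open Finset Function Se
open scoped BigOperators

variable {Ω : Type} [Fintype Ω] {n : ℕ}

/-- the weighted sum of the squared norms of all derivatives -/
noncomputable def Nq : ∀ n, Fn Ω n → ℝ
  | 0, g => ip g g
  | n + 1, g => 𝔼 ω, Nq n (sl g ω) + 3 / 4 * 𝔼 ω, Nq n (df g ω)

/-- the right side of the two function inequality -/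
noncomputable def Rq : ∀ n, Fn Ω n → Fn Ω n → ℝ
  | 0, f, g => ip f f * ip g g
  | n + 1, f, g => 𝔼 ω, 𝔼 c, Rq n (sl f ω) (sl g c) + 3 / 16 * 𝔼 ω, Rq n (df f ω) (df g ω)

theorem Nq_nn : ∀ (n : ℕ) (g : Fn Ω n), 0 ≤ Nq n g
  | 0, g => ip_nn g
  | n + 1, _ => add_nonneg (ex_nn fun _ => Nq_nn n _)
    (mul_nonneg (by norm_num) (ex_nn fun _ => Nq_nn n _))

variable [Nonempty Ω]

theorem one_coord (a b : ℝ) {u v : Ω → ℝ} (hu : 𝔼 ω, u ω = 0) (hv : 𝔼 ω, v ω = 0) :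
    𝔼 ω, (a + 1 / 2 * u ω) ^ 2 * (b + 1 / 2 * v ω) ^ 2 ≤
      𝔼 ω, 𝔼 c, (a + u ω) ^ 2 * (b + v c) ^ 2 + 3 / 16 * 𝔼 ω, u ω ^ 2 * v ω ^ 2 := by
  have h1 : 𝔼 ω, (a + 1 / 2 * u ω) ^ 2 * (b + 1 / 2 * v ω) ^ 2 ≤
      𝔼 ω, (a ^ 2 * b ^ 2 + a * b ^ 2 * u ω + a ^ 2 * b * v ω + a ^ 2 * (v ω * v ω) +
        b ^ 2 * (u ω * u ω) + 3 / 16 * (u ω ^ 2 * v ω ^ 2)) := ex_mono fun ω => by
    nlinarith [sq_nonneg (a * v ω - b * u ω), sq_nonneg (a * v ω / 2 - u ω * v ω / 4),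
      sq_nonneg (b * u ω / 2 - u ω * v ω / 4)]
  simp only [expect_add_distrib, expect_const univ_nonempty, ← mul_expect, hu, hv] at h1
  have h2 : 𝔼 ω, 𝔼 c, (a + u ω) ^ 2 * (b + v c) ^ 2 =
      (a * a + 𝔼 ω, u ω * u ω) * (b * b + 𝔼 ω, v ω * v ω) := by
    rw [← ex_orth a a hu hu, ← ex_orth b b hv hv]
    simp only [← mul_expect, ← expect_mul, sq]
  have h3 : 0 ≤ 𝔼 ω, u ω * u ω := ex_nn fun _ => mul_self_nonneg _
  have h4 : 0 ≤ 𝔼 ω, v ω * v ω := ex_nn fun _ => mul_self_nonneg _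
  rw [h2]
  nlinarith [mul_nonneg h3 h4]

theorem two_fun : ∀ (n : ℕ) (f g : Fn Ω n),
    𝔼 x, T (1 / 2) n f x ^ 2 * T (1 / 2) n g x ^ 2 ≤ Rq n f g
  | 0, f, g => by simp [Rq, ip, T, sq]
  | n + 1, f, g => by
    rw [ex_cons, expect_comm]
    refine (ex_mono fun y => one_coord (T (1 / 2) n (av f) y) (T (1 / 2) n (av g) y)
      (ex_lin _ (ex_df f) y) (ex_lin _ (ex_df g) y)).trans ?_
    have e : ∀ (h : Fn Ω (n + 1)) ω y, T (1 / 2) n (av h) y + T (1 / 2) n (df h ω) y =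
        T (1 / 2) n (sl h ω) y := fun h ω y => by rw [← av_df, map_add, Pi.add_apply]
    simp only [e]
    rw [expect_add_distrib, ← mul_expect, expect_comm,
      expect_comm univ univ fun y ω => T (1 / 2) n (df f ω) y ^ 2 * T (1 / 2) n (df g ω) y ^ 2]
    refine add_le_add (ex_mono fun ω => ?_)
      (mul_le_mul_of_nonneg_left (ex_mono fun ω => two_fun n _ _) (by norm_num))
    rw [expect_comm]
    exact ex_mono fun c => two_fun n _ _

theorem Rq_bd : ∀ (n : ℕ) (M : ℝ) (f g : Fn Ω n), (∀ x, |f x| ≤ M) → Rq n f g ≤ M ^ 2 * Nq n g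
  | 0, M, f, g, h => mul_le_mul_of_nonneg_right
    (ex_le fun x => by rw [← sq]; exact sq_le_sq' (abs_le.1 (h x)).1 (abs_le.1 (h x)).2) (ip_nn g)
  | n + 1, M, f, g, h => by
    have a : 𝔼 ω, 𝔼 c, Rq n (sl f ω) (sl g c) ≤ M ^ 2 * 𝔼 c, Nq n (sl g c) := ex_le fun ω => by
      rw [mul_expect]
      exact ex_mono fun c => Rq_bd n M _ _ fun y => h _
    have b : 𝔼 ω, Rq n (df f ω) (df g ω) ≤ (2 * M) ^ 2 * 𝔼 ω, Nq n (df g ω) := by
      rw [mul_expect]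
      refine ex_mono fun ω => Rq_bd n _ _ _ fun y => ?_
      rw [df_eq]
      refine abs_ex fun c => (abs_sub _ _).trans ?_
      have h1 : |sl f ω y| ≤ M := h _
      have h2 : |sl f c y| ≤ M := h _
      linarith
    simp only [Rq, Nq]
    nlinarith

theorem Rq_lip {η : ℝ} : ∀ (n : ℕ) (f g : Fn Ω n), Lip η f →
    Rq n f g ≤ ip f f * ip g g + η ^ 2 / 4 * Nq n g
  | 0, f, g, _ => le_add_of_nonneg_right (mul_nonneg (by positivity) (Nq_nn 0 g))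
  | n + 1, f, g, h => by
    have a : 𝔼 ω, 𝔼 c, Rq n (sl f ω) (sl g c) ≤
        ip f f * ip g g + η ^ 2 / 4 * 𝔼 c, Nq n (sl g c) := by
      refine (ex_mono fun ω => ex_mono fun c => Rq_lip n _ _ (h.sl ω)).trans (le_of_eq ?_)
      simp only [expect_add_distrib, ← mul_expect, ← expect_mul, expect_const univ_nonempty,
        ← ip_sl]
    have b : 𝔼 ω, Rq n (df f ω) (df g ω) ≤ η ^ 2 * 𝔼 ω, Nq n (df g ω) := by
      rw [mul_expect]
      exact ex_mono fun ω => Rq_bd n _ _ _ (h.df ω)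
    simp only [Rq, Nq]
    nlinarith

theorem Nq_T {r : ℝ} (hr : 7 / 4 * r ^ 2 ≤ 1) : ∀ (n : ℕ) (g : Fn Ω n), Nq n (T r n g) ≤ ip g g
  | 0, _ => le_rfl
  | n + 1, g => by
    have z : ∀ y, 𝔼 ω, (r • df g ω) y = 0 := fun y => by
      simp only [Pi.smul_apply, smul_eq_mul, ← mul_expect, ex_df, mul_zero]
    have e : 𝔼 ω, ip (r • df g ω) (r • df g ω) = r ^ 2 * 𝔼 ω, ip (df g ω) (df g ω) := by
      rw [mul_expect]
      exact ex_congr fun ω => by rw [ip_smul, ip_comm, ip_smul, sq, mul_assoc]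
    have a : 𝔼 ω, Nq n (sl (T r (n + 1) g) ω) ≤
        ip (av g) (av g) + r ^ 2 * 𝔼 ω, ip (df g ω) (df g ω) := by
      rw [← e, ← ip_orth _ _ z z]
      exact ex_mono fun ω => by rw [sl_T]; exact Nq_T hr n _
    have b : 𝔼 ω, Nq n (df (T r (n + 1) g) ω) ≤ r ^ 2 * 𝔼 ω, ip (df g ω) (df g ω) := by
      rw [← e]
      exact ex_mono fun ω => by rw [df_T, ← map_smul]; exact Nq_T hr n _
    have c : 0 ≤ 𝔼 ω, ip (df g ω) (df g ω) := ex_nn fun ω => ip_nn _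
    rw [ip_succ]
    simp only [Nq]
    nlinarith

/-- the fourth moment of a smoothed function with small influences -/
theorem four {ρ η : ℝ} (h0 : 0 ≤ ρ) (h1 : ρ ≤ 1 / 4) {f : Fn Ω n} (h : Lip η f) :
    𝔼 x, T ρ n f x ^ 4 ≤ ip f f ^ 2 + η ^ 2 / 4 * ip f f := by
  have a := (two_fun n (T (2 * ρ) n f) (T (2 * ρ) n f)).trans
    (Rq_lip n _ _ (T_lip (by linarith) (by linarith) n f h))
  rw [T_T, show 1 / 2 * (2 * ρ) = ρ by ring] at a
  have b := Nq_T (r := 2 * ρ) (by nlinarith) n f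
  have c : ip (T (2 * ρ) n f) (T (2 * ρ) n f) ≤ ip f f := by
    rw [T_sq]
    exact T_con (sq_nonneg _) (by nlinarith) n f
  have d := ip_nn (T (2 * ρ) n f)
  calc _ = 𝔼 x, T ρ n f x ^ 2 * T ρ n f x ^ 2 := ex_congr fun x => by ring
    _ ≤ _ := a
    _ ≤ _ := add_le_add (by rw [sq]; exact mul_self_le_mul_self d c)
      (mul_le_mul_of_nonneg_left b (by positivity))

variable {A : Type} [Fintype A]

theorem near {ρ η : ℝ} (h0 : 0 ≤ ρ) (h1 : ρ ≤ 1) : ∀ (n : ℕ) (F : A → Fn Ω n),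
    (∀ x i ω, ∑ a, |F a x - F a (update x i ω)| ≤ η) →
    ∑ a, ip (F a) (F a) ≤ ∑ a, ip (F a) (T ρ n (F a)) + (1 - ρ) * (n * η ^ 2)
  | 0, _, _ => by simp [T]
  | n + 1, F, h => by
    have a : 𝔼 ω, ∑ a, ip (sl (F a) ω) (sl (F a) ω) ≤
        𝔼 ω, (∑ a, ip (sl (F a) ω) (T ρ n (sl (F a) ω)) + (1 - ρ) * (n * η ^ 2)) :=
      ex_mono fun ω => near h0 h1 n (fun a => sl (F a) ω) fun y i c => by
        have := h (Fin.cons ω y) i.succ c
        rwa [← Fin.cons_update] at this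
    rw [expect_add_distrib, expect_const univ_nonempty, expect_sum_comm, expect_sum_comm] at a
    have b : ∀ a, 𝔼 ω, ip (sl (F a) ω) (T ρ n (sl (F a) ω)) ≤ ip (F a) (T ρ (n + 1) (F a)) +
        (1 - ρ) * 𝔼 ω, ip (df (F a) ω) (df (F a) ω) := fun a => by
      have e := ip_orth (av (F a)) (T ρ n (av (F a))) (ex_df (F a))
        (ex_lin (T ρ n) (ex_df (F a)))
      simp only [← map_add, av_df] at e
      have k : 𝔼 ω, ip (df (F a) ω) (T ρ n (df (F a) ω)) ≤ 𝔼 ω, ip (df (F a) ω) (df (F a) ω) :=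
        ex_mono fun ω => T_con h0 h1 n _
      rw [e, ip_T]
      nlinarith
    have c : ∑ a, 𝔼 ω, ip (df (F a) ω) (df (F a) ω) ≤ η ^ 2 := by
      rw [← expect_sum_comm]
      refine ex_le fun ω => ?_
      simp only [ip]
      rw [← expect_sum_comm]
      refine ex_le fun y => ?_
      have k : ∑ a, |df (F a) ω y| ≤ η := by
        refine (sum_le_sum fun a _ => ?_).trans ((expect_sum_comm univ univ
          fun c a => |sl (F a) ω y - sl (F a) c y|).ge.trans (ex_le fun c => ?_))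
        · rw [df_eq]
          exact abs_le.2 ⟨by
            rw [← expect_neg_distrib]; exact ex_mono fun c => neg_abs_le _,
            ex_mono fun c => le_abs_self _⟩
        · have := h (Fin.cons ω y) 0 c
          rwa [Fin.update_cons_zero] at this
      have k0 : ∀ a ∈ (univ : Finset A), 0 ≤ |df (F a) ω y| := fun a _ => abs_nonneg _
      calc _ = ∑ a, |df (F a) ω y| ^ 2 := sum_congr rfl fun a _ => by rw [sq_abs, sq]
        _ ≤ (∑ a, |df (F a) ω y|) ^ 2 := sum_sq_le_sq_sum_of_nonneg k0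
        _ ≤ η ^ 2 := pow_le_pow_left₀ (sum_nonneg k0) k 2
    have d := sum_le_sum fun a (_ : a ∈ (univ : Finset A)) => b a
    rw [sum_add_distrib, ← mul_sum] at d
    simp only [← ip_sl] at a
    push_cast
    nlinarith [mul_le_mul_of_nonneg_left c (sub_nonneg.2 h1)]

theorem logc {ρ : ℝ} (F : A → Fn Ω n) (h1 : ∑ a, ip (F a) (F a) ≤ 1) {c : ℝ} (hc : 0 ≤ c)
    (h : c ≤ ∑ a, ip (F a) (T ρ n (F a))) : c ^ 2 ≤ ∑ a, ip (F a) (T (ρ ^ 2) n (F a)) := by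
  have k : ∀ a, 2 * c * ip (F a) (T ρ n (F a)) ≤
      c ^ 2 * ip (F a) (F a) + ip (F a) (T (ρ ^ 2) n (F a)) := fun a => by
    rw [← T_sq]
    simp only [ip, mul_expect, ← expect_add_distrib]
    exact ex_mono fun x => by nlinarith [sq_nonneg (c * F a x - T ρ n (F a) x)]
  have d := sum_le_sum fun a (_ : a ∈ (univ : Finset A)) => k a
  rw [sum_add_distrib, ← mul_sum, ← mul_sum] at d
  nlinarith [mul_le_mul_of_nonneg_left h hc, mul_le_mul_of_nonneg_left h1 (sq_nonneg c)]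

theorem upper {ρ η t : ℝ} (h0 : 0 ≤ ρ) (h1 : ρ ≤ 1 / 4) (ht : 0 < t) (F : A → Fn Ω n)
    (f0 : ∀ a x, 0 ≤ F a x) (f1 : ∀ x, ∑ a, F a x ≤ 1) (hl : ∀ a, Lip η (F a))
    (h : t ≤ ∑ a, ip (F a) (T ρ n (F a))) : t ^ 4 ≤ ∑ a, (𝔼 x, F a x) ^ 2 + η ^ 2 / 4 := by
  have f2 : ∀ a x, F a x ≤ 1 := fun a x =>
    (single_le_sum (fun b _ => f0 b x) (mem_univ a)).trans (f1 x)
  have m1 : ∑ a, 𝔼 x, F a x ≤ 1 := by rw [← expect_sum_comm]; exact ex_le f1
  have m2 : ∀ a, ip (F a) (F a) ≤ 𝔼 x, F a x := fun a =>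
    ex_mono fun x => mul_le_of_le_one_left (f0 a x) (f2 a x)
  have k : ∀ a, 4 * t ^ 3 * ip (F a) (T ρ n (F a)) ≤ (3 * t ^ 4 + η ^ 2 / 4) * (𝔼 x, F a x) +
      (𝔼 x, F a x) ^ 2 := fun a => by
    have e : 4 * t ^ 3 * ip (F a) (T ρ n (F a)) ≤ 3 * t ^ 4 * (𝔼 x, F a x) +
        𝔼 x, T ρ n (F a) x ^ 4 := by
      simp only [ip, mul_expect, ← expect_add_distrib]
      refine ex_mono fun x => ?_
      have u0 := f0 a x
      have u1 := f2 a x
      generalize F a x = u at u0 u1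
      generalize T ρ n (F a) x = w
      have p1 : 0 ≤ u * (t * (t - w)) ^ 2 := by positivity
      have p2 : 0 ≤ t ^ 4 * (u * (1 - u)) := by have := sub_nonneg.2 u1; positivity
      nlinarith [sq_nonneg (t ^ 2 * u - w ^ 2)]
    have g := four h0 h1 (hl a)
    have g0 := ip_nn (F a)
    have g1 := pow_le_pow_left₀ g0 (m2 a) 2
    have g2 := mul_le_mul_of_nonneg_left (m2 a) (show 0 ≤ η ^ 2 / 4 by positivity)
    nlinarith
  have d := sum_le_sum fun a (_ : a ∈ (univ : Finset A)) => k a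
  rw [sum_add_distrib, ← mul_sum, ← mul_sum] at d
  have d1 := mul_le_mul_of_nonneg_left h (show 0 ≤ 4 * t ^ 3 by positivity)
  have d2 := mul_le_mul_of_nonneg_left m1 (show 0 ≤ 3 * t ^ 4 + η ^ 2 / 4 by positivity)
  nlinarith

theorem H_fin {c : ℝ} (hc : 0 < c) : ∃ c1 > 0, ∃ η0 > 0, ∀ (n : ℕ) (Ω A : Type) [Fintype Ω]
    [Nonempty Ω] [Fintype A] (F : A → Fn Ω n) (η : ℝ), (∀ a x, 0 ≤ F a x) →
    (∀ x, ∑ a, F a x ≤ 1) → (∀ x i ω, ∑ a, |F a x - F a (update x i ω)| ≤ η) → 0 ≤ η → η ≤ η0 →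
    n * η ^ 2 ≤ 100 → c ≤ 𝔼 x, ∑ a, F a x ^ 2 → c1 ≤ ∑ a, (𝔼 x, F a x) ^ 2 := by
  obtain ⟨s, s0, s1, sc⟩ : ∃ s : ℝ, 0 < s ∧ s ≤ 1 ∧ s ≤ c :=
    ⟨min 1 c, lt_min one_pos hc, min_le_left _ _, min_le_right _ _⟩
  have r0 : 0 ≤ 1 - s / 200 := by linarith
  have r1 : 1 - s / 200 < 1 := by linarith
  obtain ⟨j, hj⟩ := exists_pow_lt_of_lt_one (show (0 : ℝ) < 1 / 4 by norm_num) r1
  have ht : 0 < (s / 2) ^ 2 ^ j := by positivity
  refine ⟨3 / 4 * ((s / 2) ^ 2 ^ j) ^ 4, by positivity, ((s / 2) ^ 2 ^ j) ^ 2, by positivity,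
    fun n Ω A _ _ _ F η f0 f1 hl e0 e1 e2 h => ?_⟩
  have f2 : ∀ a x, F a x ≤ 1 := fun a x =>
    (single_le_sum (fun b _ => f0 b x) (mem_univ a)).trans (f1 x)
  have q : ∑ a, ip (F a) (F a) = 𝔼 x, ∑ a, F a x ^ 2 := by
    rw [expect_sum_comm]
    simp only [ip, sq]
  have q1 : ∑ a, ip (F a) (F a) ≤ 1 := by
    rw [q]
    exact ex_le fun x => (sum_le_sum fun a _ => by
      rw [sq]; exact mul_le_of_le_one_left (f0 a x) (f2 a x)).trans (f1 x)
  have k : ∀ i : ℕ, (s / 2) ^ 2 ^ i ≤ ∑ a, ip (F a) (T ((1 - s / 200) ^ 2 ^ i) n (F a)) := by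
    intro i
    induction i with
    | zero =>
      have := near r0 r1.le n F hl
      rw [q] at this
      rw [pow_zero, pow_one, pow_one]
      nlinarith [mul_le_mul_of_nonneg_left e2 s0.le]
    | succ i ih =>
      rw [pow_succ 2 i, pow_mul, pow_mul]
      exact logc F q1 (by positivity) ih
  have u := upper (η := η) (pow_nonneg r0 _)
    ((pow_le_pow_of_le_one r0 r1.le (Nat.lt_two_pow_self).le).trans hj.le) ht F f0 f1
    (fun a x i ω => (single_le_sum (f := fun a => |F a x - F a (update x i ω)|)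
      (fun b _ => abs_nonneg _) (mem_univ a)).trans (hl x i ω)) (k j)
  have e3 := pow_le_pow_left₀ e0 e1 2
  rw [← pow_mul _ 2 2] at e3
  linarith

/-- small influences and a large collision probability give a popular label -/
theorem H {c : ℝ} (hc : 0 < c) : ∃ c1 > 0, ∃ η0 > 0, ∀ (ι Ω A : Type) [Fintype ι] [DecidableEq ι]
    [Fintype Ω] [Nonempty Ω] [Fintype A] (F : A → (ι → Ω) → ℝ) (η : ℝ), (∀ a x, 0 ≤ F a x) →
    (∀ x, ∑ a, F a x ≤ 1) → (∀ x i ω, ∑ a, |F a x - F a (update x i ω)| ≤ η) → η ≤ η0 →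
    Fintype.card ι * η ^ 2 ≤ 100 → c ≤ 𝔼 x, ∑ a, F a x ^ 2 → c1 ≤ ∑ a, (𝔼 x, F a x) ^ 2 := by
  obtain ⟨c1, p1, η0, p2, h⟩ := H_fin hc
  refine ⟨c1, p1, η0, p2, fun ι Ω A _ _ _ _ _ F η f0 f1 hl e1 e2 k => ?_⟩
  let e := Fintype.equivFin ι
  have b : Bijective fun (y : Fin (Fintype.card ι) → Ω) => y ∘ e :=
    (e.symm.arrowCongr (Equiv.refl Ω)).bijective
  have := h (Fintype.card ι) Ω A (fun a y => F a (y ∘ e)) (max η 0) (fun a y => f0 a _)
    (fun y => f1 _) (fun y i ω => by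
      rw [update_comp_equiv]
      exact (hl _ _ _).trans (le_max_left _ _)) (le_max_right _ _) (max_le e1 p2.le)
    (by
      rcases le_total η 0 with l | l
      · rw [max_eq_right l]; norm_num
      · rwa [max_eq_left l])
    (k.trans (ex_bij b fun x => ∑ a, F a x ^ 2).ge)
  exact this.trans (le_of_eq (sum_congr rfl fun a _ => by rw [ex_bij b (F a)]))

end Pool.Agent.Lib.MP_a1e814_lc.Gh
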