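import Pool.Agent.Lib.MP_a1e814_lc.PowE

/-! Implications between vertices are free in a nearly minimum terminal cut. -/

set_option linter.unusedSectionVars false

namespace Pool.Agent.Lib.MP_a1e814_lc

open Finset Pool.Agent.Lib.Complexity

section

variable {W Lc : Type} [Fintype Lc]

/-- the path from the first terminal through `p` and `q` to the second terminal -/
def path (p q : W) : WL (Bool ⊕ W) :=
  [(.inl true, .inr p, 1), (.inr p, .inr q, 1), (.inr q, .inl false, 1)]

/-- all implications between the local vertices hold in `S` -/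
def Clean (nm : Lc → W) (imp : Lc → Lc → Bool) (S : W → Bool) : Prop :=
  ∀ p q, imp p q = true → S (nm q) = true → S (nm p) = true

/-- one path for every pair of local vertices -/
noncomputable def locE (nm : Lc → W) (imp : Lc → Lc → Bool) : WL (Bool ⊕ W) :=
  (univ : Finset (Lc × Lc)).toList.flatMap fun z =>
    path (nm z.1) (if imp z.1 z.2 = true then nm z.2 else nm z.1)

/-- total weight -/
def totW (dm : WL Lc) : ℕ := (dm.map fun e => e.2.2).sum

theorem cutN_le_totW (dm : WL Lc) (F : Lc → Bool) : cutN dm F ≤ totW dm :=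
  List.sum_le_sum fun e _ => by split_ifs <;> simp

theorem cut_path {F : Bool ⊕ W → Bool} (h1 : F (.inl true) = true) (h2 : F (.inl false) = false)
    (p q : W) :
    cutN (path p q) F = 1 + if F (.inr q) = true ∧ F (.inr p) = false then 2 else 0 := by
  simp only [path, cutN, List.map_cons, List.map_nil, List.sum_cons, List.sum_nil, h1, h2]
  cases F (.inr p) <;> cases F (.inr q) <;> simp

theorem cut_locE (nm : Lc → W) (imp : Lc → Lc → Bool) (F : Bool ⊕ W → Bool) :
    cutN (locE nm imp) F = ∑ z : Lc × Lc,
      cutN (path (nm z.1) (if imp z.1 z.2 = true then nm z.2 else nm z.1)) F := by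
  rw [locE, cutN_flatMap, Finset.sum_map_toList]

variable {nm : Lc → W} {imp : Lc → Lc → Bool} {F : Bool ⊕ W → Bool}

theorem locE_eq (h1 : F (.inl true) = true) (h2 : F (.inl false) = false) :
    cutN (locE nm imp) F = Fintype.card Lc ^ 2 + ∑ z : Lc × Lc,
      if imp z.1 z.2 = true ∧ F (.inr (nm z.2)) = true ∧ F (.inr (nm z.1)) = false then 2 else 0 := by
  rw [cut_locE]
  simp only [cut_path h1 h2, sum_add_distrib, sum_const, card_univ, Fintype.card_prod, smul_eq_mul,
    mul_one, sq]
  congr 1
  refine sum_congr rfl fun z _ => ?_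
  by_cases h : imp z.1 z.2 = true
  · simp [h]
  · simp [h]

theorem locE_clean (h1 : F (.inl true) = true) (h2 : F (.inl false) = false)
    (h : Clean nm imp fun w => F (.inr w)) : cutN (locE nm imp) F = Fintype.card Lc ^ 2 := by
  rw [locE_eq h1 h2, sum_eq_zero, add_zero]
  refine fun z _ => if_neg fun h3 => ?_
  have := h _ _ h3.1 h3.2.1
  simp [h3.2.2] at this

theorem locE_le (h1 : F (.inl true) = true) (h2 : F (.inl false) = false) :
    cutN (locE nm imp) F ≤ 3 * Fintype.card Lc ^ 2 := by
  rw [locE_eq h1 h2]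
  have : (∑ z : Lc × Lc, if imp z.1 z.2 = true ∧ F (.inr (nm z.2)) = true ∧
      F (.inr (nm z.1)) = false then 2 else 0) ≤ ∑ _z : Lc × Lc, 2 :=
    sum_le_sum fun z _ => by split_ifs <;> simp
  simp only [sum_const, card_univ, Fintype.card_prod, smul_eq_mul, ← sq] at this
  omega

theorem locE_ge (h1 : F (.inl true) = true) (h2 : F (.inl false) = false) :
    Fintype.card Lc ^ 2 ≤ cutN (locE nm imp) F := by
  rw [locE_eq h1 h2]
  omega

theorem locE_unclean (h1 : F (.inl true) = true) (h2 : F (.inl false) = false)
    (h : ¬ Clean nm imp fun w => F (.inr w)) : Fintype.card Lc ^ 2 + 1 ≤ cutN (locE nm imp) F := by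
  rw [locE_eq h1 h2]
  simp only [Clean, not_forall] at h
  obtain ⟨p, q, a1, a2, a3⟩ := h
  have := single_le_sum (f := fun z : Lc × Lc => if imp z.1 z.2 = true ∧ F (.inr (nm z.2)) = true ∧
    F (.inr (nm z.1)) = false then 2 else 0) (fun _ _ => Nat.zero_le _) (mem_univ (p, q))
  rw [if_pos ⟨a1, a2, by simpa using a3⟩] at this
  omega

theorem locE_same (h : F (.inl true) = F (.inl false)) (dm : WL Lc) :
    (cutN dm fun p => F (.inr (nm p))) ≤ totW dm * cutN (locE nm imp) F := by
  by_cases h1 : ∀ p, F (.inr (nm p)) = F (.inl true)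
  · simp only [h1, cutN_const, Nat.zero_le]
  · obtain ⟨p, hp⟩ := not_forall.1 h1
    refine (cutN_le_totW _ _).trans (Nat.le_mul_of_pos_right _ ?_)
    rw [cut_locE]
    refine lt_of_lt_of_le ?_ (single_le_sum (f := fun z : Lc × Lc => cutN (path (nm z.1)
      (if imp z.1 z.2 = true then nm z.2 else nm z.1)) F) (fun _ _ => Nat.zero_le _)
      (mem_univ (p, p)))
    simp only [path, cutN_cons]
    rw [if_neg (fun h2 => hp h2.symm)]
    omega

end

theorem pt_flatMap_const {β γ ι : Type} [Enc β] [Enc γ] (L : List ι) {g : β → ι → List γ}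
    (h : ∀ i, PT fun z => g z i) : PT fun z => L.flatMap (g z) := by
  induction L with
  | nil => exact PT.const _
  | cons i L ih => exact (PT.append (h i) ih).of_eq fun z => by simp

theorem list_sum_le {U : Type} (l : List U) {f g : U → ℝ} (h : ∀ u, f u ≤ g u) :
    (l.map f).sum ≤ (l.map g).sum := List.sum_le_sum fun u _ => h u

theorem list_sum_lin {U : Type} (l : List U) (a b : ℝ) (f g : U → ℝ) :
    (l.map fun u => a + f u + b * g u).sum = a * l.length + (l.map f).sum + b * (l.map g).sum := by
  induction l with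
  | nil => simp
  | cons u l ih =>
    simp only [List.map_cons, List.sum_cons, ih, List.length_cons]
    push_cast
    ring

open Classical in
/-- from local implications and local demands to a two terminal instance -/
theorem tgapE_imp {α U W Lc : Type} [Enc α] [Enc U] [Enc W] [DecidableEq W] [Fintype Lc]
    [Nonempty Lc] {Yes No : α → Prop} (us : α → List U) (nm : α → U → Lc → W)
    (imp : α → U → Lc → Lc → Bool) (dm : WL Lc) (p1 : PT us)
    (p2 : ∀ p, PT fun z : α × U => nm z.1 z.2 p) (p3 : ∀ p q, PT fun z : α × U => imp z.1 z.2 p q)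
    {ε g s : ℝ} (h0 : ∀ a, us a ≠ [])
    (hY : ∀ a, Yes a → ∃ S : W → Bool,
      ((us a).map fun u => if Clean (nm a u) (imp a u) S then (0 : ℝ) else 1).sum
        ≤ ε * (us a).length ∧
      g * (us a).length ≤ ((us a).map fun u => ((cutN dm fun p => S (nm a u p) : ℕ) : ℝ)).sum)
    (hN : ∀ a, No a → ∀ S : W → Bool, ((us a).map fun u => if Clean (nm a u) (imp a u) S
      then ((cutN dm fun p => S (nm a u p) : ℕ) : ℝ) else 0).sum ≤ s * (us a).length) :
    TGapE Yes No (2 * ε) (g / Fintype.card Lc ^ 2) (s / Fintype.card Lc ^ 2) (totW dm) := by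
  set L := Fintype.card Lc ^ 2 with hL
  have L0 : 0 < L := pow_pos Fintype.card_pos 2
  have L1 : (0 : ℝ) < L := by exact_mod_cast L0
  have eL : (Fintype.card Lc : ℝ) ^ 2 = L := by rw [hL]; push_cast; rfl
  let E : α → WL (Bool ⊕ W) := fun a => (us a).flatMap fun u => locE (nm a u) (imp a u)
  let D : α → WL (Bool ⊕ W) := fun a => (us a).flatMap fun u => push (fun p => .inr (nm a u p)) 1 dm
  have eE : ∀ a F, (cutN (E a) F : ℝ)
      = ((us a).map fun u => (cutN (locE (nm a u) (imp a u)) F : ℝ)).sum := fun a F => by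
    simp only [E, cutN_flatMap, Nat.cast_list_sum, List.map_map, Function.comp_def]
  have eD : ∀ a F, (cutN (D a) F : ℝ)
      = ((us a).map fun u => ((cutN dm fun p => F (.inr (nm a u p)) : ℕ) : ℝ)).sum := fun a F => by
    simp only [D, cutN_flatMap, cutN_push, one_mul, Nat.cast_list_sum, List.map_map,
      Function.comp_def]
  have flip : ∀ {P : (Bool ⊕ W → Bool) → Prop} (F : Bool ⊕ W → Bool),
      F (.inl true) ≠ F (.inl false) → (∀ F, P (fun w => !F w) → P F) →
      (∀ F, F (.inl true) = true → F (.inl false) = false → P F) → P F := fun F h h1 h2 => by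
    cases h3 : F (.inl true)
    · exact h1 F (h2 _ (by simp [h3]) (by simpa [h3] using h))
    · exact h2 F h3 (by simpa [h3] using h)
  refine ⟨Bool ⊕ W, inferInstance, inferInstance, .inl true, .inl false, E, D,
    fun a => (us a).length * L, ?_, ?_, ?_, by simp, fun a => ⟨?_, fun F hF => ?_, fun ha => ?_,
    fun ha F => ⟨fun hF => ?_, fun hF => ?_⟩⟩⟩
  · refine PT.flatMap p1 (pt_flatMap_const _ fun z => ?_)
    have q1 := (p2 z.1).inr (β := Bool)
    have q2 := (PT.ite (p := fun y : α × U => imp y.1 y.2 z.1 z.2 = true)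
      ((p3 z.1 z.2).of_eq fun _ => by simp) (p2 z.2) (p2 z.1)).inr (β := Bool)
    exact ((PT.const _).prodMk (q1.prodMk (PT.const _))).cons
      ((q1.prodMk (q2.prodMk (PT.const _))).cons
      ((q2.prodMk ((PT.const _).prodMk (PT.const _))).cons (PT.const _)))
  · refine PT.flatMap p1 ?_
    clear hY hN eD D
    induction dm with
    | nil => exact PT.const _
    | cons e L ih => exact ((p2 _).inr.prodMk ((p2 _).inr.prodMk (PT.const _))).cons ih
  · fun_prop
  · exact Nat.mul_pos (List.length_pos_iff.2 (h0 a)) L0
  · refine flip (P := fun F => (us a).length * L ≤ cutN (E a) F) F hF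
      (fun F h => by simpa only [cutN_not] using h) fun F h1 h2 => ?_
    have h3 := list_sum_le (us a) (f := fun _ => (L : ℝ))
      (g := fun u => (cutN (locE (nm a u) (imp a u)) F : ℝ))
      fun u => by exact_mod_cast locE_ge h1 h2
    rw [← eE] at h3
    simp only [List.map_const', List.sum_replicate, nsmul_eq_mul] at h3
    exact_mod_cast h3
  · obtain ⟨S, s1, s2⟩ := hY a ha
    refine ⟨Sum.elim id S, by simp, ?_, ?_⟩
    · have h3 := list_sum_le (us a) (f := fun u => (cutN (locE (nm a u) (imp a u)) (Sum.elim id S) : ℝ))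
        (g := fun u => L + 0 + 2 * L * if Clean (nm a u) (imp a u) S then (0 : ℝ) else 1) fun u => by
          split_ifs with h
          · rw [locE_clean rfl rfl h]
            simp [hL]
          · have : ((cutN (locE (nm a u) (imp a u)) (Sum.elim id S) : ℕ) : ℝ) ≤ (3 * L : ℕ) :=
              Nat.cast_le.2 (locE_le rfl rfl)
            push_cast at this
            linarith
      rw [← eE, list_sum_lin] at h3
      simp only [List.map_const', List.sum_replicate, smul_zero] at h3
      have := mul_le_mul_of_nonneg_left s1 (by positivity : (0 : ℝ) ≤ 2 * L)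
      push_cast
      linarith
    · rw [eD, eL]
      push_cast
      refine le_trans (le_of_eq ?_) s2
      field_simp
  · refine flip (P := fun F => (cutN (D a) F : ℝ) ≤ s / Fintype.card Lc ^ 2 *
      ((us a).length * L : ℕ) + totW dm * (cutN (E a) F - ((us a).length * L : ℕ))) F hF
      (fun F h => by simpa only [cutN_not] using h) fun F h1 h2 => ?_
    have h3 := list_sum_le (us a) (f := fun u => ((cutN dm fun p => F (.inr (nm a u p)) : ℕ) : ℝ))
      (g := fun u => -(totW dm * L) + (if Clean (nm a u) (imp a u) (fun w => F (.inr w))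
        then ((cutN dm fun p => F (.inr (nm a u p)) : ℕ) : ℝ) else 0)
        + totW dm * (cutN (locE (nm a u) (imp a u)) F : ℝ)) fun u => by
          split_ifs with h
          · rw [locE_clean h1 h2 h, ← hL]
            linarith
          · have a1 : ((L + 1 : ℕ) : ℝ) ≤ cutN (locE (nm a u) (imp a u)) F :=
              Nat.cast_le.2 (locE_unclean h1 h2 h)
            have a2 : ((cutN dm fun p => F (.inr (nm a u p)) : ℕ) : ℝ) ≤ totW dm :=
              Nat.cast_le.2 (cutN_le_totW _ _)
            have a3 := mul_le_mul_of_nonneg_left a1 (Nat.cast_nonneg (totW dm))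
            push_cast at a3
            linarith
    rw [← eD, list_sum_lin, ← eE] at h3
    have h4 := hN a ha fun w => F (.inr w)
    have h5 : s / Fintype.card Lc ^ 2 * ((us a).length * L : ℕ) = s * (us a).length := by
      rw [eL]
      push_cast
      field_simp
    rw [h5]
    push_cast
    linarith
  · rw [eD, eE, ← List.sum_map_mul_left]
    exact list_sum_le _ fun u => by exact_mod_cast locE_same hF dm

end Pool.Agent.Lib.MP_a1e814_lc
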