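import Pool.Agent.Lib.MP_a1e814_lc.Cut

/-! The local gadget. -/

namespace Pool.Agent.Lib.MP_a1e814_lc

def lEu : WL ℕ :=
  [(8, 1, 3), (9, 1, 3), (10, 1, 3), (11, 1, 3),
   (8, 2, 1), (8, 4, 1), (8, 7, 1), (9, 2, 1), (9, 5, 1), (9, 6, 1),
   (10, 3, 1), (10, 4, 1), (10, 6, 1), (11, 3, 1), (11, 5, 1), (11, 7, 1)]

def lEd : WL ℕ :=
  [(0, 12, 3), (0, 13, 3), (0, 14, 3), (0, 15, 3),
   (12, 3, 1), (12, 5, 1), (12, 6, 1), (13, 3, 1), (13, 4, 1), (13, 7, 1),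
   (14, 2, 1), (14, 5, 1), (14, 7, 1), (15, 2, 1), (15, 4, 1), (15, 6, 1)]

/-- capacities of the gadget -/
def lE : WL ℕ := lEu ++ lEd

def lAu : WL ℕ := [(8, 9, 2), (10, 11, 2), (8, 10, 1), (9, 11, 1), (8, 11, 1), (9, 10, 1)]

def lAd : WL ℕ := [(12, 13, 2), (14, 15, 2), (12, 14, 1), (13, 15, 1), (12, 15, 1), (13, 14, 1)]

def lA : WL ℕ := lAu ++ lAd

def lBu : WL ℕ := [(8, 9, 2), (10, 11, 2), (8, 10, 2), (9, 11, 2), (8, 11, 2), (9, 10, 2)]

def lBd : WL ℕ := [(12, 13, 2), (14, 15, 2), (12, 14, 2), (13, 15, 2), (12, 15, 2), (13, 14, 2)]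

def lBm : WL ℕ := [(4, 5, 1), (6, 7, 1)]

def lB : WL ℕ := lBm ++ lBu ++ lBd

def lM : WL ℕ := [(2, 3, 1)]

/-- demands of the gadget -/
def lD (α β m : ℕ) : WL ℕ := push id α lA ++ push id β lB ++ push id m lM

def od (a b : Bool) : ℤ := (if b then 1 else 0) - (if a then 1 else 0)

def ho (a b : Bool) : ℤ := if a = b then 0 else 1

def bo (c a b : Bool) : ℤ := if a = c ∧ b = c then 1 else 0

def tab (s t x0 x1 y0 y1 z0 z1 e0 e1 e2 e3 d0 d1 d2 d3 : Bool) (i : ℕ) : Bool :=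
  [s, t, x0, x1, y0, y1, z0, z1, e0, e1, e2, e3, d0, d1, d2, d3].getD i false

def Sep (g : ℕ → Bool) : Prop :=
  12 ≤ cutN lE g ∧
  (cutN lA g : ℤ) ≤ 4 + 4 * (od (g 2) (g 3) * od (g 4) (g 5) * od (g 6) (g 7))
    + 2 * (bo true (g 2) (g 3) * (ho (g 4) (g 5) * bo true (g 6) (g 7)
      + bo true (g 4) (g 5) * ho (g 6) (g 7) + bo true (g 4) (g 5) * bo true (g 6) (g 7)))
    + 2 * (bo false (g 2) (g 3) * (ho (g 4) (g 5) * bo false (g 6) (g 7)
      + bo false (g 4) (g 5) * ho (g 6) (g 7) + bo false (g 4) (g 5) * bo false (g 6) (g 7)))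
    + 16 * ((cutN lE g : ℤ) - 12) ∧
  (cutN lB g : ℤ) ≤ 8 + 6 * (od (g 2) (g 3) * od (g 4) (g 5) * od (g 6) (g 7))
    + bo true (g 2) (g 3) * (ho (g 4) (g 5) * bo true (g 6) (g 7)
      + bo true (g 4) (g 5) * ho (g 6) (g 7))
    + bo false (g 2) (g 3) * (ho (g 4) (g 5) * bo false (g 6) (g 7)
      + bo false (g 4) (g 5) * ho (g 6) (g 7))
    + 26 * ((cutN lE g : ℤ) - 12) ∧
  (cutN lM g : ℤ) ≤ 1
    - bo true (g 2) (g 3) * ((ho (g 4) (g 5) + bo true (g 4) (g 5))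
      * (ho (g 6) (g 7) + bo true (g 6) (g 7)))
    - bo false (g 2) (g 3) * ((ho (g 4) (g 5) + bo false (g 4) (g 5))
      * (ho (g 6) (g 7) + bo false (g 6) (g 7)))

def Non (g : ℕ → Bool) : Prop :=
  cutN lA g ≤ 16 * cutN lE g ∧ cutN lB g ≤ 26 * cutN lE g ∧ cutN lM g ≤ cutN lE g

/-- best values on four cells of which the marked ones are free -/
def bestA (a b c d : Bool) : ℕ := if (a || b) && (c || d) then 6 else if a || b || c || d then 4 else 0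

def bestB (a b c d : Bool) : ℕ :=
  if 2 ≤ a.toNat + b.toNat + c.toNat + d.toNat then 8 else if a || b || c || d then 6 else 0

def wt (x0 x1 y0 y1 z0 z1 : Bool) : ℕ :=
  2 * (x0.toNat + x1.toNat + y0.toNat + y1.toNat + z0.toNat + z1.toNat)

def Up (g : ℕ → Bool) : Prop :=
  wt (g 2) (g 3) (g 4) (g 5) (g 6) (g 7) ≤ cutN lEu g ∧
  cutN lAu g + 16 * wt (g 2) (g 3) (g 4) (g 5) (g 6) (g 7) ≤ bestA (g 2 && g 4 && g 7)
    (g 2 && g 5 && g 6) (g 3 && g 4 && g 6) (g 3 && g 5 && g 7) + 16 * cutN lEu g ∧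
  cutN lBu g + 26 * wt (g 2) (g 3) (g 4) (g 5) (g 6) (g 7) ≤ bestB (g 2 && g 4 && g 7)
    (g 2 && g 5 && g 6) (g 3 && g 4 && g 6) (g 3 && g 5 && g 7) + 26 * cutN lEu g

def Dn (g : ℕ → Bool) : Prop :=
  wt (!g 2) (!g 3) (!g 4) (!g 5) (!g 6) (!g 7) ≤ cutN lEd g ∧
  cutN lAd g + 16 * wt (!g 2) (!g 3) (!g 4) (!g 5) (!g 6) (!g 7) ≤ bestA (!g 3 && !g 5 && !g 6)
    (!g 3 && !g 4 && !g 7) (!g 2 && !g 5 && !g 7) (!g 2 && !g 4 && !g 6) + 16 * cutN lEd g ∧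
  cutN lBd g + 26 * wt (!g 2) (!g 3) (!g 4) (!g 5) (!g 6) (!g 7) ≤ bestB (!g 3 && !g 5 && !g 6)
    (!g 3 && !g 4 && !g 7) (!g 2 && !g 5 && !g 7) (!g 2 && !g 4 && !g 6) + 26 * cutN lEd g ∧
  cutN lAd g ≤ 16 * cutN lEd g ∧ cutN lBm g + cutN lBd g ≤ 26 * cutN lEd g ∧
  cutN lM g ≤ cutN lEd g

def Un (g : ℕ → Bool) : Prop := cutN lAu g ≤ 16 * cutN lEu g ∧ cutN lBu g ≤ 26 * cutN lEu g

instance (g : ℕ → Bool) : Decidable (Up g) := by unfold Up; infer_instance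
instance (g : ℕ → Bool) : Decidable (Dn g) := by unfold Dn; infer_instance
instance (g : ℕ → Bool) : Decidable (Un g) := by unfold Un; infer_instance

theorem up_tab : ∀ x0 x1 y0 y1 z0 z1 e0 e1 e2 e3 : Bool,
    Up (tab true false x0 x1 y0 y1 z0 z1 e0 e1 e2 e3 false false false false) := by
  decide +kernel

theorem un_tab : ∀ x0 x1 y0 y1 z0 z1 e0 e1 e2 e3 : Bool,
    Un (tab true true x0 x1 y0 y1 z0 z1 e0 e1 e2 e3 false false false false) := by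
  decide +kernel

theorem dn_tab : ∀ x0 x1 y0 y1 z0 z1 d0 d1 d2 d3 : Bool,
    Dn (tab true false x0 x1 y0 y1 z0 z1 false false false false d0 d1 d2 d3) := by
  decide +kernel

theorem six : ∀ x0 x1 y0 y1 z0 z1 : Bool,
    wt x0 x1 y0 y1 z0 z1 + wt (!x0) (!x1) (!y0) (!y1) (!z0) (!z1) = 12 ∧
    (bestA (x0 && y0 && z1) (x0 && y1 && z0) (x1 && y0 && z0) (x1 && y1 && z1) : ℤ)
      + bestA (!x1 && !y1 && !z0) (!x1 && !y0 && !z1) (!x0 && !y1 && !z1) (!x0 && !y0 && !z0)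
      ≤ 4 + 4 * (od x0 x1 * od y0 y1 * od z0 z1)
      + 2 * (bo true x0 x1 * (ho y0 y1 * bo true z0 z1 + bo true y0 y1 * ho z0 z1
        + bo true y0 y1 * bo true z0 z1))
      + 2 * (bo false x0 x1 * (ho y0 y1 * bo false z0 z1 + bo false y0 y1 * ho z0 z1
        + bo false y0 y1 * bo false z0 z1)) ∧
    ho y0 y1 + ho z0 z1
      + (bestB (x0 && y0 && z1) (x0 && y1 && z0) (x1 && y0 && z0) (x1 && y1 && z1) : ℤ)
      + bestB (!x1 && !y1 && !z0) (!x1 && !y0 && !z1) (!x0 && !y1 && !z1) (!x0 && !y0 && !z0)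
      ≤ 8 + 6 * (od x0 x1 * od y0 y1 * od z0 z1)
      + bo true x0 x1 * (ho y0 y1 * bo true z0 z1 + bo true y0 y1 * ho z0 z1)
      + bo false x0 x1 * (ho y0 y1 * bo false z0 z1 + bo false y0 y1 * ho z0 z1) ∧
    ho x0 x1 ≤ 1 - bo true x0 x1 * ((ho y0 y1 + bo true y0 y1) * (ho z0 z1 + bo true z0 z1))
      - bo false x0 x1 * ((ho y0 y1 + bo false y0 y1) * (ho z0 z1 + bo false z0 z1)) := by
  decide +kernel

/-- the honest extension of three bits -/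
def hon (x y z : Bool) : ℕ → Bool :=
  tab true false x (!x) y (!y) z (!z) (x && y && !z) (x && !y && z) (!x && y && z)
    (!x && !y && !z) (!x || !y || z) (!x || y || !z) (x || !y || !z) (x || y || z)

theorem hon_cut : ∀ x y μ : Bool, cutN lE (hon x y ((x ^^ y) ^^ μ)) = 12 ∧
    cutN lA (hon x y ((x ^^ y) ^^ μ)) = (if μ then 0 else 8) ∧
    cutN lB (hon x y ((x ^^ y) ^^ μ)) = (if μ then 2 else 14) ∧
    cutN lM (hon x y ((x ^^ y) ^^ μ)) = 1 := by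
  decide

theorem cut_up (g : ℕ → Bool) {l : WL ℕ} (h : ∀ e ∈ l, (0 < e.1 ∧ e.1 < 12) ∧ 0 < e.2.1 ∧ e.2.1 < 12) :
    cutN l g = cutN l (tab true (g 1) (g 2) (g 3) (g 4) (g 5) (g 6) (g 7) (g 8) (g 9) (g 10)
      (g 11) false false false false) := by
  have key : ∀ i, 0 < i ∧ i < 12 → g i = tab true (g 1) (g 2) (g 3) (g 4) (g 5) (g 6) (g 7) (g 8)
      (g 9) (g 10) (g 11) false false false false i := by
    rintro i ⟨hi, hi'⟩
    interval_cases i <;> rfl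
  exact cutN_congr fun e he => ⟨key _ (h e he).1, key _ (h e he).2⟩

def okd (i : ℕ) : Prop := i = 0 ∨ (2 ≤ i ∧ i < 8) ∨ (12 ≤ i ∧ i < 16)

instance (i : ℕ) : Decidable (okd i) := by unfold okd; infer_instance

theorem cut_dn (g : ℕ → Bool) {l : WL ℕ} (h : ∀ e ∈ l, okd e.1 ∧ okd e.2.1) :
    cutN l g = cutN l (tab (g 0) false (g 2) (g 3) (g 4) (g 5) (g 6) (g 7) false false false false
      (g 12) (g 13) (g 14) (g 15)) := by
  have key : ∀ i, okd i → g i = tab (g 0) false (g 2) (g 3) (g 4) (g 5) (g 6) (g 7) false false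
      false false (g 12) (g 13) (g 14) (g 15) i := by
    rintro i (rfl | ⟨hi, hi'⟩ | ⟨hi, hi'⟩)
    · rfl
    · interval_cases i <;> rfl
    · interval_cases i <;> rfl
  exact cutN_congr fun e he => ⟨key _ (h e he).1, key _ (h e he).2⟩

theorem up_of {g : ℕ → Bool} (h1 : g 1 = false) : Up g := by
  have := up_tab (g 2) (g 3) (g 4) (g 5) (g 6) (g 7) (g 8) (g 9) (g 10) (g 11)
  unfold Up at this ⊢
  rw [cut_up g (l := lEu) (by decide), cut_up g (l := lAu) (by decide),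
    cut_up g (l := lBu) (by decide), h1]
  exact this

theorem un_of {g : ℕ → Bool} (h1 : g 1 = true) : Un g := by
  have := un_tab (g 2) (g 3) (g 4) (g 5) (g 6) (g 7) (g 8) (g 9) (g 10) (g 11)
  unfold Un at this ⊢
  rw [cut_up g (l := lEu) (by decide), cut_up g (l := lAu) (by decide),
    cut_up g (l := lBu) (by decide), h1]
  exact this

theorem dn_of {g : ℕ → Bool} (h0 : g 0 = true) : Dn g := by
  have := dn_tab (g 2) (g 3) (g 4) (g 5) (g 6) (g 7) (g 12) (g 13) (g 14) (g 15)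
  unfold Dn at this ⊢
  rw [cut_dn g (l := lEd) (by decide), cut_dn g (l := lAd) (by decide),
    cut_dn g (l := lBd) (by decide), cut_dn g (l := lBm) (by decide),
    cut_dn g (l := lM) (by decide), h0]
  exact this

theorem sep_of {g : ℕ → Bool} (h0 : g 0 = true) (h1 : g 1 = false) : Sep g := by
  obtain ⟨a1, a2, a3⟩ := up_of h1
  obtain ⟨b1, b2, b3, -⟩ := dn_of h0
  obtain ⟨c1, c2, c3, c4⟩ := six (g 2) (g 3) (g 4) (g 5) (g 6) (g 7)
  have e1 : (cutN lBm g : ℤ) = ho (g 4) (g 5) + ho (g 6) (g 7) := by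
    simp only [cutN, lBm, ho, List.map_cons, List.map_nil, List.sum_cons, List.sum_nil]
    split_ifs <;> rfl
  have e2 : (cutN lM g : ℤ) = ho (g 2) (g 3) := by
    simp only [cutN, lM, ho, List.map_cons, List.map_nil, List.sum_cons, List.sum_nil]
    split_ifs <;> rfl
  unfold Sep
  simp only [lE, lA, lB, cutN_append]
  generalize cutN lEu g = p1, cutN lEd g = p2, cutN lAu g = p3, cutN lAd g = p4, cutN lBu g = p5,
    cutN lBd g = p6, cutN lBm g = p7, cutN lM g = p8,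
    wt (g 2) (g 3) (g 4) (g 5) (g 6) (g 7) = w1,
    wt (!g 2) (!g 3) (!g 4) (!g 5) (!g 6) (!g 7) = w2,
    bestA (g 2 && g 4 && g 7) (g 2 && g 5 && g 6) (g 3 && g 4 && g 6) (g 3 && g 5 && g 7) = q1,
    bestB (g 2 && g 4 && g 7) (g 2 && g 5 && g 6) (g 3 && g 4 && g 6) (g 3 && g 5 && g 7) = q2,
    bestA (!g 3 && !g 5 && !g 6) (!g 3 && !g 4 && !g 7) (!g 2 && !g 5 && !g 7)
      (!g 2 && !g 4 && !g 6) = q3,
    bestB (!g 3 && !g 5 && !g 6) (!g 3 && !g 4 && !g 7) (!g 2 && !g 5 && !g 7)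
      (!g 2 && !g 4 && !g 6) = q4 at *
  refine ⟨by omega, ?_, ?_, e2 ▸ c4⟩
  · zify at a2 b2 c1
    push_cast
    linarith
  · zify at a3 b3 c1
    push_cast
    linarith

theorem non_of {g : ℕ → Bool} (h0 : g 0 = true) (h1 : g 1 = true) : Non g := by
  obtain ⟨a1, a2⟩ := un_of h1
  obtain ⟨-, -, -, b1, b2, b3⟩ := dn_of h0
  unfold Non
  simp only [lE, lA, lB, cutN_append]
  generalize cutN lEu g = p1, cutN lEd g = p2, cutN lAu g = p3, cutN lAd g = p4, cutN lBu g = p5,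
    cutN lBd g = p6, cutN lBm g = p7, cutN lM g = p8 at *
  omega

theorem cut_lD (α β m : ℕ) (g : ℕ → Bool) :
    cutN (lD α β m) g = α * cutN lA g + β * cutN lB g + m * cutN lM g := by
  simp only [lD, cutN_append, cutN_push, id]

/-- the even test function of a pair of literals -/
def gt (r1 r2 : ℕ) (c a b : Bool) : ℤ := (2 * r1 + r2) * ho a b - r2 * bo c a b

/-- the local inequality for a cut separating the terminals -/
theorem loc_sep (r1 r2 : ℕ) {g : ℕ → Bool} (h0 : g 0 = true) (h1 : g 1 = false) :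
    (cutN (lD (2 * (r1 + r2) * r1) (2 * (r1 + r2) * r2) ((2 * r1 + r2) ^ 2)) g : ℤ) ≤
      (8 * (r1 + r2) ^ 2 + (2 * r1 + 3 * r2) ^ 2)
      + 4 * (r1 + r2) * (2 * r1 + 3 * r2) * (od (g 2) (g 3) * od (g 4) (g 5) * od (g 6) (g 7))
      - bo true (g 2) (g 3) * gt r1 r2 true (g 4) (g 5) * gt r1 r2 true (g 6) (g 7)
      - bo false (g 2) (g 3) * gt r1 r2 false (g 4) (g 5) * gt r1 r2 false (g 6) (g 7)
      + 60 * (r1 + r2) ^ 2 * ((cutN lE g : ℤ) - 12) := by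
  obtain ⟨a1, a2, a3, a4⟩ := sep_of h0 h1
  rw [cut_lD]
  generalize cutN lE g = p1, cutN lA g = p2, cutN lB g = p3, cutN lM g = p4 at *
  push_cast
  have b1 : (0 : ℤ) ≤ (p1 : ℤ) - 12 := by omega
  have c2 := mul_le_mul_of_nonneg_left a2 (by positivity : (0 : ℤ) ≤ 2 * (r1 + r2) * r1)
  have c3 := mul_le_mul_of_nonneg_left a3 (by positivity : (0 : ℤ) ≤ 2 * (r1 + r2) * r2)
  have c4 := mul_le_mul_of_nonneg_left a4 (by positivity : (0 : ℤ) ≤ (2 * r1 + r2) ^ 2)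
  have c5 : (0 : ℤ) ≤ (28 * r1 ^ 2 + 36 * r1 * r2 + 8 * r2 ^ 2) * ((p1 : ℤ) - 12) := by
    positivity
  unfold gt
  linear_combination c2 + c3 + c4 + c5

/-- the local inequality for a cut keeping the terminals together -/
theorem loc_non (r1 r2 : ℕ) {g : ℕ → Bool} (h0 : g 0 = true) (h1 : g 1 = true) :
    cutN (lD (2 * (r1 + r2) * r1) (2 * (r1 + r2) * r2) ((2 * r1 + r2) ^ 2)) g ≤
      60 * (r1 + r2) ^ 2 * cutN lE g := by
  obtain ⟨a2, a3, a4⟩ := non_of h0 h1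
  rw [cut_lD]
  generalize cutN lE g = p1, cutN lA g = p2, cutN lB g = p3, cutN lM g = p4 at *
  have c2 := Nat.mul_le_mul_left (2 * (r1 + r2) * r1) a2
  have c3 := Nat.mul_le_mul_left (2 * (r1 + r2) * r2) a3
  have c4 := Nat.mul_le_mul_left ((2 * r1 + r2) ^ 2) a4
  nlinarith [Nat.zero_le (r1 ^ 2 * p1), Nat.zero_le (r1 * r2 * p1), Nat.zero_le (r2 ^ 2 * p1)]

attribute [irreducible] lE lA lB lM

end Pool.Agent.Lib.MP_a1e814_lc
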