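import Mathlib

/-! Maximal correlation of the two rounds of moves, and its tensorisation. -/

set_option linter.unusedSectionVars false

namespace Pool.Agent.Lib.MP_a1e814_lc.Mc

open Finset Function
open scoped BigOperators

theorem sq_ex {ι : Type} [Fintype ι] [Nonempty ι] (f : ι → ℝ) : (𝔼 i, f i) ^ 2 ≤ 𝔼 i, f i ^ 2 := by
  simpa using expect_mul_sq_le_sq_mul_sq univ f (fun _ => (1 : ℝ))

theorem ex_prod {ι κ : Type} [Fintype ι] [Fintype κ] (f : ι × κ → ℝ) :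
    𝔼 x, f x = 𝔼 i, 𝔼 j, f (i, j) := by
  rw [← expect_product, univ_product_univ]

theorem ex_cons {A : Type} [Fintype A] {k : ℕ} (g : (Fin (k + 1) → A) → ℝ) :
    𝔼 x, g x = 𝔼 a, 𝔼 y : Fin k → A, g (Fin.cons a y) := by
  rw [← ex_prod (fun p : A × (Fin k → A) => g (Fin.cons p.1 p.2))]
  exact (Fintype.expect_equiv (Fin.consEquiv fun _ => A) _ _ fun p => rfl).symm

theorem two_avg {X Y : Type} [Fintype X] [Nonempty X] [Fintype Y] [Nonempty Y] (F : X → Y → ℝ) :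
    𝔼 x, (𝔼 y, F x y) ^ 2 + 𝔼 y, (𝔼 x, F x y) ^ 2
      ≤ 𝔼 x, 𝔼 y, F x y ^ 2 + (𝔼 x, 𝔼 y, F x y) ^ 2 := by
  have h := expect_le_expect fun y (_ : y ∈ univ) => sq_ex fun x => F x y - 𝔼 y', F x y'
  have e1 : 𝔼 y, (𝔼 x, (F x y - 𝔼 y', F x y')) ^ 2
      = 𝔼 y, (𝔼 x, F x y) ^ 2 - (𝔼 x, 𝔼 y, F x y) ^ 2 := by
    simp only [expect_sub_distrib, sub_sq, expect_add_distrib, ← expect_mul, ← mul_expect,
      Fintype.expect_const]
    rw [expect_comm univ univ fun y x => F x y]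
    ring
  have e2 : 𝔼 y, 𝔼 x, (F x y - 𝔼 y', F x y') ^ 2
      = 𝔼 x, 𝔼 y, F x y ^ 2 - 𝔼 x, (𝔼 y, F x y) ^ 2 := by
    rw [expect_comm, ← expect_sub_distrib]
    refine expect_congr rfl fun x _ => ?_
    simp only [sub_sq, expect_add_distrib, expect_sub_distrib, ← expect_mul, ← mul_expect,
      Fintype.expect_const]
    ring
  rw [e1, e2] at h
  linarith

section

variable {A M T : Type} [Fintype A] [Nonempty A] [Fintype M] [Nonempty M]

/-- tensorisation of a bound for the maximal correlation -/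
theorem tensor (e : A → M → T) (R : T → T → Prop) {ρ : ℝ} (r0 : 0 ≤ ρ) (r1 : ρ ≤ 1)
    (h : ∀ ψ : T → ℝ, (∀ t t', R t t' → ψ t = ψ t') → 𝔼 a, (𝔼 m, ψ (e a m)) ^ 2
      ≤ ρ * (𝔼 a, 𝔼 m, ψ (e a m) ^ 2) + (1 - ρ) * (𝔼 a, 𝔼 m, ψ (e a m)) ^ 2) (k : ℕ) :
    ∀ F : (Fin k → T) → ℝ, (∀ x j t t', R t t' → F (update x j t) = F (update x j t')) →
      𝔼 a : Fin k → A, (𝔼 m : Fin k → M, F fun j => e (a j) (m j)) ^ 2
        ≤ ρ * (𝔼 a : Fin k → A, 𝔼 m : Fin k → M, F (fun j => e (a j) (m j)) ^ 2)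
          + (1 - ρ) * (𝔼 a : Fin k → A, 𝔼 m : Fin k → M, F fun j => e (a j) (m j)) ^ 2 := by
  induction k with
  | zero =>
    intro F _
    have : ∀ (a : Fin 0 → A) (m : Fin 0 → M), (fun j => e (a j) (m j)) = Fin.elim0 :=
      fun _ _ => Subsingleton.elim _ _
    simp only [this, Fintype.expect_const]
    linarith
  | succ k ih =>
    intro F hF
    have ec : ∀ (a0 : A) (a : Fin k → A) (m0 : M) (m : Fin k → M),
        (fun j => e (Fin.cons (α := fun _ => A) a0 a j) (Fin.cons (α := fun _ => M) m0 m j))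
          = Fin.cons (e a0 m0) fun j => e (a j) (m j) := by
      intro a0 a m0 m
      funext j
      refine Fin.cases rfl (fun _ => rfl) j
    simp only [ex_cons (A := A), ex_cons (A := M), ec]
    let G : T → (Fin k → T) → ℝ := fun t y => F (Fin.cons t y)
    have g0 : ∀ y t t', R t t' → G t y = G t' y := fun y t t' hr => by
      have := hF (Fin.cons t y) 0 t t' hr
      simpa only [Fin.update_cons_zero] using this
    have g1 : ∀ s y j t t', R t t' → G s (update y j t) = G s (update y j t') :=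
      fun s y j t t' hr => by
        have := hF (Fin.cons s y) j.succ t t' hr
        simpa only [← Fin.cons_update] using this
    have a1 := expect_le_expect fun (a : Fin k → A) (_ : a ∈ univ) =>
      h (fun t => 𝔼 m : Fin k → M, G t fun j => e (a j) (m j))
        fun t t' hr => expect_congr rfl fun m _ => g0 _ _ _ hr
    have a2 := expect_le_expect fun (a0 : A) (_ : a0 ∈ univ) =>
      expect_le_expect fun (m0 : M) (_ : m0 ∈ univ) => ih (G (e a0 m0)) (g1 _)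
    have a3 := ih (fun y => 𝔼 a0, 𝔼 m0, G (e a0 m0) y) fun y j t t' hr =>
      expect_congr rfl fun a0 _ => expect_congr rfl fun m0 _ => g1 _ _ _ _ _ hr
    have a4 := two_avg fun (p : A × M) (q : (Fin k → A) × (Fin k → M)) =>
      G (e p.1 p.2) fun j => e (q.1 j) (q.2 j)
    simp only [ex_prod] at a4
    simp only [expect_add_distrib, ← mul_expect] at a1 a2
    have c1 : ∀ H : A → M → (Fin k → A) → (Fin k → M) → ℝ,
        𝔼 a0, 𝔼 a, 𝔼 m0, 𝔼 m, H a0 m0 a m = 𝔼 a0, 𝔼 m0, 𝔼 a, 𝔼 m, H a0 m0 a m := fun H =>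
      expect_congr rfl fun a0 _ => expect_comm _ _ _
    have c2 : ∀ H : A → M → (Fin k → A) → ℝ,
        𝔼 a, 𝔼 a0, 𝔼 m0, H a0 m0 a = 𝔼 a0, 𝔼 m0, 𝔼 a, H a0 m0 a := fun H => by
      rw [expect_comm]
      exact expect_congr rfl fun a0 _ => expect_comm _ _ _
    have c3 : ∀ H : A → M → (Fin k → M) → ℝ,
        𝔼 m, 𝔼 a0, 𝔼 m0, H a0 m0 m = 𝔼 a0, 𝔼 m0, 𝔼 m, H a0 m0 m := fun H => by
      rw [expect_comm]
      exact expect_congr rfl fun a0 _ => expect_comm _ _ _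
    rw [expect_comm, c1 fun a0 m0 a m => F (Fin.cons (e a0 m0) fun j => e (a j) (m j)) ^ 2,
      c1 fun a0 m0 a m => F (Fin.cons (e a0 m0) fun j => e (a j) (m j))]
    rw [c2] at a1
    simp only [c3] at a3
    rw [c2] at a3
    simp only [G] at a1 a2 a3 a4
    have b1 := mul_le_mul_of_nonneg_left a2 r0
    have b2 := mul_le_mul_of_nonneg_left a3 (sub_nonneg.2 r1)
    have b3 := mul_le_mul_of_nonneg_left a4 (mul_nonneg r0 (sub_nonneg.2 r1))
    linarith

end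

section

variable {Cs I : Type} [Fintype Cs] [Nonempty Cs] [Fintype I] [Nonempty I]

theorem ex_fin (b : ℕ) (x y : ℝ) :
    𝔼 m : Fin (b + 1), (if m = 0 then x else y) = (x + b * y) / (b + 1) := by
  rw [Fintype.expect_eq_sum_div_card, Fin.sum_univ_succ]
  simp [Fin.succ_ne_zero]

/-- a shift of the cell costs the factor `b ^ 2` -/
theorem shift {b : ℕ} {cell : Cs → ℕ}
    (hc : ∀ l, b ^ 2 * #{c | cell c = l + 1} ≤ #{c | cell c = l}) {g : ℕ → ℝ} (g0 : ∀ l, 0 ≤ g l) :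
    (b : ℝ) ^ 2 * (𝔼 c, if cell c = 0 then 0 else g (cell c)) ≤ 𝔼 c, g (cell c + 1) := by
  obtain ⟨L, hL⟩ : ∃ L, ∀ c, cell c < L :=
    ⟨univ.sup cell + 1, fun c => Nat.lt_succ_of_le (le_sup (mem_univ c))⟩
  have key : ∀ (N : ℕ) (f : ℕ → ℝ), L ≤ N →
      ∑ c, f (cell c) = ∑ l ∈ range N, (#{c | cell c = l} : ℝ) * f l := by
    intro N f hN
    rw [← sum_fiberwise_of_maps_to (s := univ) (t := range N) (g := cell)
      fun c _ => mem_range.2 ((hL c).trans_le hN)]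
    refine sum_congr rfl fun l _ => ?_
    rw [sum_congr rfl fun c hc => by rw [(mem_filter.1 hc).2], sum_const, nsmul_eq_mul]
  rw [Fintype.expect_eq_sum_div_card, Fintype.expect_eq_sum_div_card, ← mul_div_assoc]
  refine div_le_div_of_nonneg_right ?_ (Nat.cast_nonneg _)
  rw [key (L + 1) (fun l => if l = 0 then 0 else g l) (by omega), key L (fun l => g (l + 1)) le_rfl,
    sum_range_succ', mul_add, mul_sum]
  simp only [if_true, mul_zero, add_zero, Nat.succ_ne_zero, if_false]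
  refine sum_le_sum fun l _ => ?_
  rw [← mul_assoc]
  refine mul_le_mul_of_nonneg_right ?_ (g0 _)
  exact_mod_cast hc l

theorem one_zero {b : ℕ} (hb : 22 ≤ b) {cell : Cs → ℕ}
    (hc : ∀ l, b ^ 2 * #{c | cell c = l + 1} ≤ #{c | cell c = l}) {ψ : ℕ → I → ℝ} {z : ℝ}
    (hz : ∀ i, ψ 0 i = z)
    (h0 : 𝔼 c, 𝔼 i, 𝔼 m : Fin (b + 1), ψ (cell c + if m = 0 then 1 else 0) i = 0) :
    𝔼 c, 𝔼 i, (𝔼 m : Fin (b + 1), ψ (cell c + if m = 0 then 1 else 0) i) ^ 2
      ≤ 22 / b * 𝔼 c, 𝔼 i, 𝔼 m : Fin (b + 1), ψ (cell c + if m = 0 then 1 else 0) i ^ 2 := by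
  have b0 : (22 : ℝ) ≤ b := by exact_mod_cast hb
  have e1 : ∀ (f : ℝ → ℝ) c i, 𝔼 m : Fin (b + 1), f (ψ (cell c + if m = 0 then 1 else 0) i)
      = (f (ψ (cell c + 1) i) + b * f (ψ (cell c) i)) / (b + 1) := fun f c i => by
    rw [← ex_fin]
    refine expect_congr rfl fun m _ => ?_
    split_ifs <;> simp
  set N := 𝔼 c, 𝔼 i, 𝔼 m : Fin (b + 1), ψ (cell c + if m = 0 then 1 else 0) i ^ 2 with hN
  set U := 𝔼 c, 𝔼 i, ψ (cell c + 1) i ^ 2 with hU
  have n0 : 0 ≤ N := expect_nonneg fun _ _ => expect_nonneg fun _ _ => expect_nonneg fun _ _ =>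
    sq_nonneg _
  have u1 : U ≤ (b + 1) * N := by
    rw [hN, hU, mul_expect]
    refine expect_le_expect fun c _ => ?_
    rw [mul_expect]
    refine expect_le_expect fun i _ => ?_
    rw [e1 (fun x => x ^ 2), mul_div_cancel₀ _ (by linarith)]
    have := sq_nonneg (ψ (cell c) i)
    nlinarith
  have s1 := shift hc (g := fun l => 𝔼 i, ψ l i ^ 2) fun l => expect_nonneg fun _ _ => sq_nonneg _
  have s2 := shift hc (g := fun _ => (1 : ℝ)) fun _ => zero_le_one
  rw [Fintype.expect_const] at s2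
  -- the value on level zero
  let χ : Cs × I × Fin (b + 1) → ℝ := fun p => if cell p.1 = 0 ∧ p.2.2 ≠ 0 then 0 else 1
  let f : Cs × I × Fin (b + 1) → ℝ := fun p => ψ (cell p.1 + if p.2.2 = 0 then 1 else 0) p.2.1
  have x1 : 𝔼 p, χ p ^ 2 ≤ 2 / b := by
    have : 𝔼 p, χ p ^ 2 ≤ 𝔼 p : Cs × I × Fin (b + 1),
        ((if cell p.1 = 0 then (0 : ℝ) else 1) + if p.2.2 = 0 then 1 else 0) :=
      expect_le_expect fun p _ => by
        simp only [χ]
        by_cases h1 : cell p.1 = 0 <;> by_cases h2 : p.2.2 = 0 <;> simp [h1, h2]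
    refine this.trans ?_
    rw [ex_prod]
    simp only [ex_prod, expect_add_distrib, ex_fin]
    simp only [Fintype.expect_const]
    have t1 : (𝔼 c, if cell c = 0 then (0 : ℝ) else 1) ≤ 1 / b := by
      rw [le_div_iff₀ (by linarith)]
      have : 0 ≤ 𝔼 c, if cell c = 0 then (0 : ℝ) else 1 :=
        expect_nonneg fun _ _ => by split_ifs <;> norm_num
      nlinarith
    have t2 : (1 + b * (0 : ℝ)) / (b + 1) ≤ 1 / b := by
      rw [mul_zero, add_zero]
      exact one_div_le_one_div_of_le (by linarith) (by linarith)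
    have t3 : (2 : ℝ) / b = 1 / b + 1 / b := by ring
    have t4 : (𝔼 c, 𝔼 _i : I, 𝔼 _j : Fin (b + 1), if cell c = 0 then (0 : ℝ) else 1)
        = 𝔼 c, if cell c = 0 then (0 : ℝ) else 1 :=
      expect_congr rfl fun c _ => by rw [Fintype.expect_const, Fintype.expect_const]
    linarith
  have x2 : z * (1 - 𝔼 p, χ p ^ 2) = -𝔼 p, χ p * f p := by
    have : 𝔼 p, f p = 0 := by simp only [ex_prod]; exact h0
    rw [eq_neg_iff_add_eq_zero, ← this, ← Fintype.expect_const (ι := Cs × I × Fin (b + 1)) (1 : ℝ),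
      ← expect_sub_distrib, mul_expect, ← expect_add_distrib]
    refine expect_congr rfl fun p _ => ?_
    simp only [χ, f]
    by_cases h : cell p.1 = 0 ∧ p.2.2 ≠ 0
    · simp [h, hz]
    · rw [if_neg h]
      ring
  have x3 : (𝔼 p, χ p * f p) ^ 2 ≤ (𝔼 p, χ p ^ 2) * N := by
    have := expect_mul_sq_le_sq_mul_sq univ χ f
    simp only [ex_prod] at this ⊢
    exact this
  have x4 : z ^ 2 ≤ 8 / b * N := by
    have y0 : (2 : ℝ) / b ≤ 1 / 2 := by
      rw [div_le_iff₀ (by linarith)]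
      linarith
    have y1 : 1 / 4 ≤ (1 - 𝔼 p, χ p ^ 2) ^ 2 := by nlinarith
    have y2 : z ^ 2 * (1 - 𝔼 p, χ p ^ 2) ^ 2 ≤ 2 / b * N := by
      rw [← mul_pow, x2, neg_sq]
      exact x3.trans (mul_le_mul_of_nonneg_right x1 n0)
    have y3 := mul_le_mul_of_nonneg_left y1 (sq_nonneg z)
    have y4 : 8 / (b : ℝ) * N = 4 * (2 / b * N) := by ring
    linarith
  have m1 : 𝔼 c, 𝔼 i, (𝔼 m : Fin (b + 1), ψ (cell c + if m = 0 then 1 else 0) i) ^ 2
      ≤ 𝔼 c, (2 / (b + 1) ^ 2 * (𝔼 i, ψ (cell c + 1) i ^ 2)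
        + 2 * (if cell c = 0 then 0 else 𝔼 i, ψ (cell c) i ^ 2) + 2 * z ^ 2) := by
    refine expect_le_expect fun c _ => ?_
    have : 𝔼 i, (𝔼 m : Fin (b + 1), ψ (cell c + if m = 0 then 1 else 0) i) ^ 2
        ≤ 𝔼 i, (2 / (b + 1) ^ 2 * ψ (cell c + 1) i ^ 2 + 2 * ψ (cell c) i ^ 2) := by
      refine expect_le_expect fun i _ => ?_
      rw [e1 (fun x => x), div_pow, div_le_iff₀ (by positivity), add_mul, mul_right_comm,
        div_mul_cancel₀ _ (by positivity)]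
      have := sq_nonneg (ψ (cell c + 1) i - b * ψ (cell c) i)
      have := mul_nonneg (sq_nonneg (ψ (cell c) i)) (by linarith : (0 : ℝ) ≤ 2 * b + 1)
      nlinarith
    refine this.trans ?_
    rw [expect_add_distrib, ← mul_expect, ← mul_expect]
    split_ifs with h
    · simp only [h, hz, Fintype.expect_const]
      linarith
    · have := sq_nonneg z
      linarith
  simp only [expect_add_distrib, ← mul_expect, Fintype.expect_const] at m1
  rw [← hU] at m1 s1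
  have k1 : 2 / ((b : ℝ) + 1) ^ 2 * U ≤ 2 / b * N := by
    refine (mul_le_mul_of_nonneg_left u1 (by positivity)).trans ?_
    rw [← mul_assoc]
    refine mul_le_mul_of_nonneg_right ?_ n0
    rw [div_mul_eq_mul_div, div_le_div_iff₀ (by positivity) (by linarith)]
    nlinarith
  have k2 : (𝔼 c, if cell c = 0 then 0 else 𝔼 i, ψ (cell c) i ^ 2) ≤ 2 / b * N := by
    rw [div_mul_eq_mul_div, le_div_iff₀ (by linarith)]
    refine le_of_mul_le_mul_left ?_ (by linarith : (0 : ℝ) < b)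
    nlinarith
  have k3 : 22 / (b : ℝ) * N = 2 / b * N + 2 * (2 / b * N) + 2 * (8 / b * N) := by ring
  linarith

theorem one {b : ℕ} (hb : 22 ≤ b) {cell : Cs → ℕ}
    (hc : ∀ l, b ^ 2 * #{c | cell c = l + 1} ≤ #{c | cell c = l}) (ψ : ℕ × I → ℝ)
    (hz : ∀ i i', ψ (0, i) = ψ (0, i')) :
    𝔼 a : Cs × I, (𝔼 m : Fin (b + 1), ψ (cell a.1 + if m = 0 then 1 else 0, a.2)) ^ 2
      ≤ 22 / b * (𝔼 a : Cs × I, 𝔼 m : Fin (b + 1), ψ (cell a.1 + if m = 0 then 1 else 0, a.2) ^ 2)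
        + (1 - 22 / b)
          * (𝔼 a : Cs × I, 𝔼 m : Fin (b + 1), ψ (cell a.1 + if m = 0 then 1 else 0, a.2)) ^ 2 := by
  simp only [ex_prod]
  set μ := 𝔼 c, 𝔼 i, 𝔼 m : Fin (b + 1), ψ (cell c + if m = 0 then 1 else 0, i) with hμ
  have := one_zero hb hc (ψ := fun l i => ψ (l, i) - μ) (z := ψ (0, Classical.arbitrary I) - μ)
    (fun i => by rw [hz i]) (by
      simp only [expect_sub_distrib, Fintype.expect_const]
      rw [← hμ, sub_self])
  simp only [expect_sub_distrib, Fintype.expect_const, sub_sq, expect_add_distrib, ← expect_mul,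
    ← mul_expect] at this
  rw [← hμ] at this
  linarith

/-- functions of the cell of round zero, blind to the edge on level zero, are mixed by round one -/
theorem mix {b : ℕ} (hb : 22 ≤ b) {cell : Cs → ℕ}
    (hc : ∀ l, b ^ 2 * #{c | cell c = l + 1} ≤ #{c | cell c = l}) {k : ℕ}
    (F : (Fin k → ℕ × I) → ℝ)
    (hF : ∀ x j i i', F (update x j (0, i)) = F (update x j (0, i'))) :
    𝔼 a : Fin k → Cs × I, (𝔼 m : Fin k → Fin (b + 1),
        F fun j => (cell (a j).1 + if m j = 0 then 1 else 0, (a j).2)) ^ 2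
      ≤ 22 / b * (𝔼 a : Fin k → Cs × I, 𝔼 m : Fin k → Fin (b + 1),
          F (fun j => (cell (a j).1 + if m j = 0 then 1 else 0, (a j).2)) ^ 2)
        + (𝔼 a : Fin k → Cs × I, 𝔼 m : Fin k → Fin (b + 1),
          F fun j => (cell (a j).1 + if m j = 0 then 1 else 0, (a j).2)) ^ 2 := by
  have b0 : (22 : ℝ) ≤ b := by exact_mod_cast hb
  have r0 : (0 : ℝ) ≤ 22 / b := by positivity
  have := tensor (fun (a : Cs × I) (m : Fin (b + 1)) => (cell a.1 + if m = 0 then 1 else 0, a.2))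
    (fun t t' => t.1 = 0 ∧ t'.1 = 0) r0 ((div_le_one (by linarith)).2 b0)
    (fun ψ h => one hb hc ψ fun i i' => h _ _ ⟨rfl, rfl⟩) k F (by
      rintro x j ⟨l, i⟩ ⟨l', i'⟩ ⟨rfl, rfl⟩
      exact hF x j i i')
  have h2 := mul_nonneg r0 (sq_nonneg (𝔼 a : Fin k → Cs × I, 𝔼 m : Fin k → Fin (b + 1),
    F fun j => (cell (a j).1 + if m j = 0 then 1 else 0, (a j).2)))
  linarith

end

end Pool.Agent.Lib.MP_a1e814_lc.Mc
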