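import Pool.Agent.Lib.MP_a1e814_lc.DsFinal

/-! Recursive substitution when the honest cut is only nearly a minimum terminal cut. -/

namespace Pool.Agent.Lib.MP_a1e814_lc

open Pool.Agent.Lib.Complexity N68a2faeb N487b59b3

/-- gap for cuts in a two terminal instance, the honest cut being nearly minimum -/
def TGapE {α : Type} [Enc α] (Yes No : α → Prop) (ε γ σ K : ℝ) : Prop :=
  ∃ (W : Type) (_ : Enc W) (_ : DecidableEq W) (s t : W) (E D : α → WL W) (lam : α → ℕ),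
    PT E ∧ PT D ∧ PT lam ∧ s ≠ t ∧ ∀ a, 0 < lam a ∧
      (∀ f : W → Bool, f s ≠ f t → lam a ≤ cutN (E a) f) ∧
      (Yes a → ∃ f : W → Bool, f s ≠ f t ∧ (cutN (E a) f : ℝ) ≤ (1 + ε) * lam a ∧
        γ * lam a ≤ cutN (D a) f) ∧
      (No a → ∀ f : W → Bool,
        (f s ≠ f t → (cutN (D a) f : ℝ) ≤ σ * lam a + K * (cutN (E a) f - lam a)) ∧
        (f s = f t → (cutN (D a) f : ℝ) ≤ K * cutN (E a) f))

theorem rec_powD_ge {W : Type} [DecidableEq W] {s t : W} {f : W → Bool} (hf : f s ≠ f t)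
    (E D : WL W) {lam : ℕ} (hl : lam ≤ cutN E f) (k : ℕ) :
    k * lam ^ k * cutN D f ≤ (cutN (powD s t E D lam k) fun z => rec f s z.1 z.2) * lam := by
  induction k with
  | zero => simp
  | succ k ih =>
    rw [powD, cutN_append, cutN_push, cut_rec hf]
    have h1 := Nat.mul_le_mul hl ih
    simp only [rec]
    calc (k + 1) * lam ^ (k + 1) * cutN D f
        = lam ^ k * cutN D f * lam + lam * (k * lam ^ k * cutN D f) := by ring
      _ ≤ _ := Nat.add_le_add_left h1 _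
      _ = _ := by ring

theorem TGapE.pow {α : Type} [Enc α] {Yes No : α → Prop} {ε γ σ K : ℝ}
    (h : TGapE Yes No ε γ σ K) (hε : 0 ≤ ε) (hγ : 0 ≤ γ) (hσ : 0 ≤ σ) (hK : 0 ≤ K) (k : ℕ) :
    CGap Yes No (k * γ / (1 + ε) ^ k) (σ * k + K) := by
  obtain ⟨W, _, _, s, t, E, D, lam, p1, p2, p3, hst, h⟩ := h
  refine ⟨PW W, inferInstance, inferInstance, fun a => powE s t (E a) k,
    fun a => powD s t (E a) (D a) (lam a) k, pt_powE s t p1 k, pt_powD s t p1 p2 p3 k,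
    fun a => ⟨fun ha => ?_, fun ha F => ?_⟩⟩
  · obtain ⟨h0, hm, h1, -⟩ := h a
    obtain ⟨f, hf, e, h2⟩ := h1 ha
    have hl := hm f hf
    refine ⟨fun z => rec f s z.1 z.2, by rw [rec_powE hf]; exact pow_pos (h0.trans_le hl) k, ?_⟩
    have h3 : ((k * lam a ^ k * cutN (D a) f : ℕ) : ℝ) ≤ _ :=
      Nat.cast_le.2 (rec_powD_ge hf (E a) (D a) hl k)
    rw [rec_powE hf]
    have h4 : (0 : ℝ) < lam a := by exact_mod_cast h0
    have h5 : (0 : ℝ) < (1 + ε) ^ k := by positivity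
    have h6 : (cutN (E a) f : ℝ) ^ k ≤ (1 + ε) ^ k * lam a ^ k := by
      rw [← mul_pow]
      exact pow_le_pow_left₀ (Nat.cast_nonneg _) e k
    refine le_of_mul_le_mul_right ?_ h4
    push_cast at h3 ⊢
    refine le_trans ?_ h3
    calc k * γ / (1 + ε) ^ k * (cutN (E a) f : ℝ) ^ k * lam a
        ≤ k * γ / (1 + ε) ^ k * ((1 + ε) ^ k * lam a ^ k) * lam a := by gcongr
      _ = k * lam a ^ k * (γ * lam a) := by field_simp
      _ ≤ _ := by gcongr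
  · obtain ⟨-, h1, -, h2⟩ := h a
    have h3 := powD_le hst hσ h1 (h2 ha) k F
    have h4 : 0 ≤ K * ((lam a : ℝ) ^ k * ind (F ([], s)) (F ([], t))) := by positivity
    linarith

theorem ex_eps {A B : ℝ} (h : A < B) (k : ℕ) : ∃ ε : ℝ, 0 < ε ∧ A * (1 + ε) ^ k < B := by
  have h1 : ContinuousAt (fun ε : ℝ => A * (1 + ε) ^ k) 0 := by fun_prop
  have h2 : ∀ᶠ ε in nhds (0 : ℝ), A * (1 + ε) ^ k < B :=
    h1.eventually_lt continuousAt_const (by simpa using h)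
  obtain ⟨ε, h3, h4⟩ := ((h2.filter_mono nhdsWithin_le_nhds).and
    (self_mem_nhdsWithin (a := (0 : ℝ)) (s := Set.Ioi 0))).exists
  exact ⟨ε, h4, h3⟩

theorem ngapE {α : Type} [Enc α] {Yes No : α → Prop} {ρ γ σ K : ℝ} (hρ : 0 < ρ) (hσ : 0 < σ)
    (hK : 0 ≤ K) (h : ρ * σ < γ) (H : ∀ ε : ℝ, 0 < ε → TGapE Yes No ε γ σ K) :
    ∃ c d : ℝ, 0 < d ∧ ρ * d < c ∧ NGap Yes No c d := by
  obtain ⟨k, hk⟩ := exists_nat_gt (ρ * K / (γ - ρ * σ))
  have g0 : 0 < γ - ρ * σ := by linarith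
  have k0 : (0 : ℝ) < k := lt_of_le_of_lt (by positivity) hk
  rw [div_lt_iff₀ g0] at hk
  obtain ⟨ε, e0, e1⟩ := ex_eps (show ρ * (σ * k + K) < k * γ by linarith) k
  have γ0 : 0 ≤ γ := le_trans (by positivity) h.le
  refine ⟨_, _, by positivity, ?_, ((H ε e0).pow e0.le γ0 hσ.le hK k).num⟩
  rwa [lt_div_iff₀ (by positivity)]

/-- an unbounded terminal gap for every language in NP excludes every constant factor -/
theorem finalE {ρ : ℝ} (hρ : 0 < ρ) (H : ∀ L ∈ NP, ∃ γ σ K : ℝ, 0 < σ ∧ 0 ≤ K ∧ ρ * σ < γ ∧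
    ∀ ε : ℝ, 0 < ε → TGapE (fun x => L x = true) (fun x => ¬ L x = true) ε γ σ K)
    (alg : Inst → List ℕ) (halg : IsPolyTime alg) (hA : Approximates ρ alg) : P = NP :=
  Ds.final hρ (fun L hL => by
    obtain ⟨γ, σ, K, h1, h2, h3, h4⟩ := H L hL
    exact ngapE hρ h1 h2 h3 h4) alg halg hA

end Pool.Agent.Lib.MP_a1e814_lc
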