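import Pool.Agent.Lib.MP_a1e814_lc.GhB

/-! One and two rounds of averaging over independent moves, with the Markov steps. -/

namespace Pool.Agent.Lib.MP_a1e814_lc.Rd

open Finset Function
open scoped BigOperators

open Classical in
/-- one round; the Lipschitz bound is needed on clean `d` only -/
theorem one {c : ℝ} (hc : 0 < c) : ∃ c1 > 0, ∃ η0 > 0, ∀ (D ι Ω A : Type) [Fintype D] [Nonempty D]
    [Fintype ι] [DecidableEq ι] [Fintype Ω] [Nonempty Ω] [Fintype A] (cl : D → Prop)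
    (F : D → (ι → Ω) → A → ℝ) (η : ℝ), (∀ d M a, 0 ≤ F d M a) → (∀ d M, ∑ a, F d M a ≤ 1) →
    (∀ d, cl d → ∀ M i ω, ∑ a, |F d M a - F d (update M i ω) a| ≤ η) →
    η ≤ η0 → Fintype.card ι * η ^ 2 ≤ 100 →
    c ≤ (𝔼 d, if cl d then 𝔼 M, ∑ a, F d M a ^ 2 else 0) →
    c1 ≤ 𝔼 d, if cl d then ∑ a, (𝔼 M, F d M a) ^ 2 else 0 := by
  obtain ⟨c1, p1, η0, p2, h⟩ := Gh.H (half_pos hc)
  refine ⟨c1 * (c / 2), by positivity, η0, p2,
    fun D ι Ω A _ _ _ _ _ _ _ cl F η f0 f1 hl e1 e2 k => ?_⟩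
  have hsq : ∀ d M, ∑ a, F d M a ^ 2 ≤ 1 := fun d M =>
    le_trans (sum_le_sum fun a _ => by
      have h1 : F d M a ≤ 1 := (single_le_sum (fun a _ => f0 d M a) (mem_univ a)).trans (f1 d M)
      nlinarith [f0 d M a]) (f1 d M)
  have hpt : ∀ d, c1 * ((if cl d then 𝔼 M, ∑ a, F d M a ^ 2 else 0) - c / 2) ≤
      if cl d then ∑ a, (𝔼 M, F d M a) ^ 2 else 0 := by
    intro d
    split_ifs with hd
    · by_cases hg : c / 2 ≤ 𝔼 M, ∑ a, F d M a ^ 2
      · refine le_trans ?_ (h ι Ω A (fun a M => F d M a) η (fun a M => f0 d M a) (f1 d)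
          (hl d hd) e1 e2 hg)
        have : (𝔼 M, ∑ a, F d M a ^ 2) ≤ 1 := expect_le univ_nonempty fun M _ => hsq _ _
        nlinarith
      · refine le_trans ?_ (sum_nonneg fun a _ => sq_nonneg _)
        nlinarith
    · nlinarith
  refine le_trans ?_ (expect_le_expect fun d _ => hpt d)
  rw [← mul_expect, expect_sub_distrib, Fintype.expect_const]
  nlinarith

open Classical in
/-- one round with the indicator dropped in the conclusion -/
theorem one' {c : ℝ} (hc : 0 < c) : ∃ c1 > 0, ∃ η0 > 0, ∀ (D ι Ω A : Type) [Fintype D] [Nonempty D]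
    [Fintype ι] [DecidableEq ι] [Fintype Ω] [Nonempty Ω] [Fintype A] (cl : D → Prop)
    (F : D → (ι → Ω) → A → ℝ) (η : ℝ), (∀ d M a, 0 ≤ F d M a) → (∀ d M, ∑ a, F d M a ≤ 1) →
    (∀ d, cl d → ∀ M i ω, ∑ a, |F d M a - F d (update M i ω) a| ≤ η) →
    η ≤ η0 → Fintype.card ι * η ^ 2 ≤ 100 →
    c ≤ (𝔼 d, if cl d then 𝔼 M, ∑ a, F d M a ^ 2 else 0) →
    c1 ≤ 𝔼 d, ∑ a, (𝔼 M, F d M a) ^ 2 := by
  obtain ⟨c1, p1, η0, p2, h⟩ := one hc
  refine ⟨c1, p1, η0, p2, fun D ι Ω A _ _ _ _ _ _ _ cl F η f0 f1 hl e1 e2 k => ?_⟩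
  refine (h D ι Ω A cl F η f0 f1 hl e1 e2 k).trans (expect_le_expect fun d _ => ?_)
  split_ifs
  · exact le_rfl
  · exact sum_nonneg fun a _ => sq_nonneg _

open Classical in
/-- two rounds -/
theorem two {c : ℝ} (hc : 0 < c) : ∃ c3 > 0, ∃ η0 > 0, ∀ (D ι Ω ι' Ω' A : Type) [Fintype D]
    [Nonempty D] [Fintype ι] [DecidableEq ι] [Fintype Ω] [Nonempty Ω] [Fintype ι'] [DecidableEq ι']
    [Fintype Ω'] [Nonempty Ω'] [Fintype A] (cl : D → Prop)
    (F : D → (ι → Ω) → (ι' → Ω') → A → ℝ) (η : ℝ), (∀ d M M' a, 0 ≤ F d M M' a) →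
    (∀ d M M', ∑ a, F d M M' a ≤ 1) →
    (∀ d, cl d → ∀ M M' i ω, ∑ a, |F d M M' a - F d M (update M' i ω) a| ≤ η) →
    (∀ d, cl d → ∀ M M' i ω, ∑ a, |F d M M' a - F d (update M i ω) M' a| ≤ η) →
    η ≤ η0 → Fintype.card ι * η ^ 2 ≤ 100 → Fintype.card ι' * η ^ 2 ≤ 100 →
    c ≤ (𝔼 d, if cl d then 𝔼 M, 𝔼 M', ∑ a, F d M M' a ^ 2 else 0) →
    c3 ≤ 𝔼 d, if cl d then ∑ a, (𝔼 M, 𝔼 M', F d M M' a) ^ 2 else 0 := by
  obtain ⟨c1, p1, η1, q1, r1⟩ := one hc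
  obtain ⟨c2, p2, η2, q2, r2⟩ := one p1
  refine ⟨c2, p2, min η1 η2, by positivity,
    fun D ι Ω ι' Ω' A _ _ _ _ _ _ _ _ _ _ _ cl F η f0 f1 h0 h1 e1 e2 e3 k => ?_⟩
  have prod : ∀ f : D → (ι → Ω) → ℝ, (𝔼 g : D × (ι → Ω), if cl g.1 then f g.1 g.2 else 0) =
      𝔼 d, if cl d then 𝔼 M, f d M else 0 := fun f => by
    rw [← univ_product_univ, expect_product]
    refine expect_congr rfl fun d _ => ?_
    split_ifs <;> simp
  have s1 := r1 (D × (ι → Ω)) ι' Ω' A (fun g => cl g.1) (fun g M' a => F g.1 g.2 M' a) η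
    (fun g => f0 _ _) (fun g => f1 _ _) (fun g hg => h0 g.1 hg g.2) (e1.trans (min_le_left _ _)) e3
    (by rw [prod fun d M => 𝔼 M', ∑ a, F d M M' a ^ 2]; exact k)
  rw [prod fun d M => ∑ a, (𝔼 M', F d M M' a) ^ 2] at s1
  refine r2 D ι Ω A cl (fun d M a => 𝔼 M', F d M M' a) η
    (fun d M a => expect_nonneg fun _ _ => f0 _ _ _ _) (fun d M => ?_) (fun d hd M i ω => ?_)
    (e1.trans (min_le_right _ _)) e2 s1
  · rw [← expect_sum_comm]; exact expect_le univ_nonempty fun M' _ => f1 _ _ _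
  · calc _ ≤ ∑ a, 𝔼 M', |F d M M' a - F d (update M i ω) M' a| := sum_le_sum fun a _ => by
          rw [← expect_sub_distrib]; exact abs_expect_le _ _
      _ = 𝔼 M', ∑ a, |F d M M' a - F d (update M i ω) M' a| := (expect_sum_comm _ _ _).symm
      _ ≤ η := expect_le univ_nonempty fun M' _ => h1 d hd M M' i ω

open Classical in
/-- Markov step from the spread to the collision probability -/
theorem markov {D Ξ : Type} [Fintype D] [Nonempty D] [Fintype Ξ] [Nonempty Ξ] (cl : D → Prop)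
    (s q : D → Ξ → ℝ) (δ c U : ℝ) (hδ : 0 ≤ δ) (hc : 0 ≤ c) (hU : 0 < U) (q0 : ∀ d x, 0 ≤ q d x)
    (hs : ∀ d, cl d → ∀ x, s d x ≤ U) (hq : ∀ d, cl d → ∀ x, δ / 2 * U ≤ s d x → c ≤ q d x)
    (h : δ * U ≤ 𝔼 d, if cl d then 𝔼 x, s d x else 0) :
    c * (δ / 2) ≤ 𝔼 d, if cl d then 𝔼 x, q d x else 0 := by
  have hpt : ∀ d, c / U * ((if cl d then 𝔼 x, s d x else 0) - δ / 2 * U) ≤
      if cl d then 𝔼 x, q d x else 0 := by
    intro d
    have hcU : 0 ≤ c / U := div_nonneg hc hU.le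
    split_ifs with hd
    · have : ∀ x, c / U * (s d x - δ / 2 * U) ≤ q d x := by
        intro x
        by_cases hx : δ / 2 * U ≤ s d x
        · refine le_trans ?_ (hq d hd x hx)
          calc c / U * (s d x - δ / 2 * U) ≤ c / U * U :=
                mul_le_mul_of_nonneg_left (by nlinarith [hs d hd x]) hcU
            _ = c := by field_simp
        · exact le_trans (mul_nonpos_of_nonneg_of_nonpos hcU (by linarith)) (q0 d x)
      refine le_trans (le_of_eq ?_) (expect_le_expect fun x _ => this x)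
      rw [← mul_expect, expect_sub_distrib, Fintype.expect_const]
    · exact mul_nonpos_of_nonneg_of_nonpos hcU (by nlinarith)
  refine le_trans ?_ (expect_le_expect fun d _ => hpt d)
  rw [← mul_expect, expect_sub_distrib, Fintype.expect_const]
  calc c * (δ / 2) = c / U * (δ / 2 * U) := by field_simp
    _ ≤ _ := mul_le_mul_of_nonneg_left (by linarith) (div_nonneg hc hU.le)

end Pool.Agent.Lib.MP_a1e814_lc.Rd
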