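import Mathlib

/-! Levels of a set that respects all pointwise valid implications. -/

namespace Pool.Agent.Lib.MP_a1e814_lc.Rel

open Finset

variable {P X : Type} {L : ℕ}

/-- the number of levels in the set; level `θ : Fin L` is the threshold `θ + 1` -/
def lev (S : P → Fin L → Bool) (p : P) : ℕ := #{θ | S p θ = true}

/-- all valid implications hold -/
def Clean (A : X → Prop) (G : P → X → ℕ) (S : P → Fin L → Bool) : Prop :=
  ∀ p q θ η, (∀ x, A x → G q x + θ.1 ≤ G p x + η.1) → S q η = true → S p θ = true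

theorem lev_le (S : P → Fin L → Bool) (p : P) : lev S p ≤ L :=
  (card_le_univ _).trans (Fintype.card_fin L).le

theorem card_lt (m : ℕ) (h : m ≤ L) : #{θ : Fin L | θ.1 < m} = m := by
  rw [Fin.card_filter_val_lt]
  omega

theorem init_iff {f : Fin L → Bool} (h : ∀ θ η, θ ≤ η → f η = true → f θ = true) (θ : Fin L) :
    f θ = true ↔ θ.1 < #{η | f η = true} := by
  constructor
  · intro hθ
    have : #{η : Fin L | η.1 < θ.1 + 1} ≤ #{η | f η = true} :=
      card_le_card fun η hη => by
        simp only [mem_filter, mem_univ, true_and] at hη ⊢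
        exact h η θ (Fin.le_def.2 (by omega)) hθ
    rw [card_lt _ θ.2] at this
    omega
  · intro hθ
    by_contra hn
    have : #{η | f η = true} ≤ #{η : Fin L | η.1 < θ.1} :=
      card_le_card fun η hη => by
        simp only [mem_filter, mem_univ, true_and] at hη ⊢
        by_contra hc
        exact hn (h θ η (Fin.le_def.2 (by omega)) hη)
    rw [card_lt _ θ.2.le] at this
    omega

variable {A : X → Prop} {G : P → X → ℕ} {S : P → Fin L → Bool}

theorem Clean.iff (h : Clean A G S) (p : P) (θ : Fin L) : S p θ = true ↔ θ.1 < lev S p :=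
  init_iff (fun θ η e => h p p θ η fun _ _ => by have := Fin.le_def.1 e; omega) θ

/-- monotone and one-Lipschitz for the supremum norm -/
theorem Clean.rel (h : Clean A G S) {p q : P} {μ : ℕ} (e : ∀ x, A x → G p x ≤ G q x + μ) :
    lev S p ≤ lev S q + μ := by
  by_contra hn
  have l1 := lev_le S p
  have a1 : S p ⟨lev S p - 1, by omega⟩ = true := (h.iff _ _).2 (by simp only; omega)
  have a2 : S q ⟨lev S q, by omega⟩ = true :=
    h q p _ _ (fun x hx => by have := e x hx; simp only; omega) a1
  have := (h.iff _ _).1 a2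
  simp at this

theorem Clean.eq (h : Clean A G S) {p q : P} (e : ∀ x, A x → G p x = G q x) :
    lev S p = lev S q :=
  le_antisymm (h.rel (μ := 0) fun x hx => (e x hx).le) (h.rel (μ := 0) fun x hx => (e x hx).ge)

theorem Clean.abs (h : Clean A G S) {p q : P} {μ : ℕ} (e : ∀ x, A x → G p x ≤ G q x + μ)
    (e' : ∀ x, A x → G q x ≤ G p x + μ) : |(lev S p : ℝ) - lev S q| ≤ μ := by
  have a1 : (lev S p : ℝ) ≤ lev S q + μ := by exact_mod_cast h.rel e
  have a2 : (lev S q : ℝ) ≤ lev S p + μ := by exact_mod_cast h.rel e'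
  rw [abs_le]
  constructor <;> linarith

theorem card_ne {a b : ℕ} (ha : a ≤ L) (hb : b ≤ L) :
    (#{θ : Fin L | decide (θ.1 < a) ≠ decide (θ.1 < b)} : ℝ) = |(a : ℝ) - b| := by
  wlog h : b ≤ a generalizing a b
  · rw [abs_sub_comm, ← this hb ha (by omega)]
    simp only [ne_comm]
  have e : #{θ : Fin L | decide (θ.1 < a) ≠ decide (θ.1 < b)} + #{θ : Fin L | θ.1 < b}
      = #{θ : Fin L | θ.1 < a} := by
    rw [card_filter, card_filter, card_filter, ← sum_add_distrib]
    refine sum_congr rfl fun θ _ => ?_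
    by_cases h1 : θ.1 < a <;> by_cases h2 : θ.1 < b <;> simp [h1, h2]
    omega
  rw [card_lt _ ha, card_lt _ hb] at e
  have e' := congrArg (Nat.cast : ℕ → ℝ) e
  have h' : (b : ℝ) ≤ a := by exact_mod_cast h
  push_cast at e'
  rw [abs_of_nonneg (by linarith)]
  linarith

/-- the number of levels at which two tables are separated -/
theorem Clean.cut (h : Clean A G S) (p q : P) :
    (#{θ | S p θ ≠ S q θ} : ℝ) = |(lev S p : ℝ) - lev S q| := by
  rw [← card_ne (lev_le S p) (lev_le S q)]
  congr 2
  ext θ
  have e : ∀ r, S r θ = decide (θ.1 < lev S r) := fun r => by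
    rw [Bool.eq_iff_iff, h.iff, decide_eq_true_iff]
  simp only [mem_filter, ← e]

/-- the honest set of a point of `A` is clean -/
theorem clean_hon {x : X} (hx : A x) (G : P → X → ℕ) :
    Clean (L := L) A G fun p θ => decide (θ.1 < G p x) := by
  intro p q θ η e
  have := e x hx
  simp only [decide_eq_true_iff]
  omega

theorem lev_hon {g : P → ℕ} {p : P} (h : g p ≤ L) :
    lev (L := L) (fun p θ => decide (θ.1 < g p)) p = g p := by
  simp only [lev, decide_eq_true_iff]
  exact card_lt _ h

end Pool.Agent.Lib.MP_a1e814_lc.Rel
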