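import Pool.Agent.Lib.MP_a1e814_lc.SePow

/-! Short advice is removed by trying all of it while searching for a witness. -/

namespace Pool.Agent.Lib.MP_a1e814_lc.Se

open Function Pool.Agent.Lib.Complexity N68a2faeb N487b59b3

def Advised (L : DecisionProblem) (d : ℕ) : Prop :=
  ∃ A : Str × ℕ × ℕ → Bool, PT A ∧ ∃ l0, ∀ l ≥ l0, ∃ θ < 2 ^ l, ∀ x : Str, x.length ≤ l ^ d →
    A (x, θ, 2 ^ l) = L x

theorem advice {L : DecisionProblem} (hL : L ∈ NP) (d : ℕ) : ∃ L' ∈ NP, ∃ d', Advised L' d' →
    ∀ T : ℕ → ℕ, (∀ n, n ≤ (T n + 1) ^ d) → L ∈ PadTime fun n => 2 ^ T n := by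
  classical
  obtain ⟨p, R, hR, e⟩ := np_exact hL
  let u : Str → Str × Str × ℕ := fun y => rd (PT.parse y)
  have hu : PT u := PT.rd PT.parse'
  let R' : Str × Str → Bool := fun q => R ((u q.1).1, (u q.1).2.1 ++ q.2)
    && decide (((u q.1).2.1 ++ q.2).length = (u q.1).2.2)
  let L' : DecisionProblem := fun y => decide (∃ w : Str, w.length ≤ y.length ∧ R' (y, w))
  let N : Str → ℕ := fun x => p.eval x.length
  have hN : PT N := PT.poly_eval (by fun_prop) p
  let cd : Str → Str → Str := fun x w => (enc (x, w, N x)).bits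
  have hc : PT fun z : Str × Str => cd z.1 z.2 := by fun_prop
  have c1 : ∀ x w, (cd x w).length = 2 * (sz x + (sz w + N x + 1) + 1) + 1 := fun x w =>
    (Complexity.T.length_bits _).trans (by rw [← sz, sz_pair, sz_pair, sz_nat])
  have c2 : ∀ x w, L' (cd x w) = true ↔ ∃ w', (w ++ w').length = N x ∧ R (x, w ++ w') := fun x w => by
    simp only [L', R', u, cd, PT.parse_bits', Rd.rd_enc, decide_eq_true_eq, Bool.and_eq_true]
    refine exists_congr fun w' => ⟨fun c => c.2.symm, fun c => ⟨?_, c.symm⟩⟩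
    have := c1 x w
    have := c.1
    simp only [cd, List.length_append] at *
    omega
  obtain ⟨c, hc'⟩ := exists_pow (Z := fun n : ℕ => n + 2) (f := fun n => 4 * n + 6 * p.eval n + 5)
    ((((PB.const 4).mul PB.self).add ((PB.const 6).mul (PB.self.eval p))).add (PB.const 5) |>.mono
      fun n => by have := peval_mono p (Nat.le_add_right n 2); omega)
  refine ⟨L', mem_NP_of_PT (R := R') (by fun_prop) Polynomial.X (by simp [L']), (d + 2) * c,
    fun ⟨A, hA, l0, hl⟩ T hT => ?_⟩
  let st : Str × ℕ × ℕ → Str → Str := fun z w => w ++ [A (cd z.1 (w ++ [true]), z.2)]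
  have s1 : ∀ z i, ((st z)^[i] []).length = i := fun z i => by
    induction i with
    | zero => rfl
    | succ i ih => simp [iterate_succ_apply', st, ih]
  have hs : PT fun z : Str × ℕ × ℕ => (st z)^[N z.1] [] :=
    PT.iterate_add (by fun_prop) (by fun_prop) (PT.append (by fun_prop) (PT.cons (hA.comp (PT.prodMk
      (hc.comp (f := fun q : (Str × ℕ × ℕ) × Str => (q.1.1, q.2 ++ [true])) (by fun_prop))
      (by fun_prop))) (by fun_prop))) (PB.const 2) fun z w => by
        simpa [st] using sz_bool _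
  refine ⟨fun q => (List.range (q.2.length * 2 ^ (l0 + 2))).any fun θ =>
    R (q.1, (st (q.1, θ, q.2.length * 2 ^ (l0 + 2)))^[N q.1] []), PT.isPolyTime_rel
    (PT.any (by fun_prop) (hR.comp (PT.prodMk (by fun_prop) (hs.comp (f := fun z : (Str × Str) × ℕ =>
      (z.1.1, z.2, z.1.2.length * 2 ^ (l0 + 2))) (by fun_prop))))), fun x => ?_⟩
  rw [Bool.eq_iff_iff, List.any_eq_true, List.length_replicate, ← pow_add]
  refine ⟨fun ⟨θ, _, c⟩ => (e x).2 ⟨_, s1 _ _, c⟩, fun hx => ?_⟩
  obtain ⟨θ, θ1, θ2⟩ := hl (T x.length + (l0 + 2)) (by omega)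
  generalize hl' : T x.length + (l0 + 2) = l at θ1 θ2 ⊢
  have key : ∀ i ≤ N x, L' (cd x ((st (x, θ, 2 ^ l))^[i] [])) = true := fun i hi => by
    induction i with
    | zero => simpa [c2] using (e x).1 hx
    | succ i ih =>
      have b1 := s1 (x, θ, 2 ^ l) i
      rw [iterate_succ_apply']
      generalize (st (x, θ, 2 ^ l))^[i] [] = w at ih b1 ⊢
      obtain ⟨w', b2, b3⟩ := (c2 _ _).1 (ih (by omega))
      have b4 : A (cd x (w ++ [true]), θ, 2 ^ l) = L' (cd x (w ++ [true])) := θ2 _ (by
        have a1 := PT.sz_str_le x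
        have a2 := PT.sz_str_le (w ++ [true])
        have a3 := hc' x.length (by omega)
        have a4 := (hT x.length).trans (Nat.pow_le_pow_left (show _ ≤ l by omega) d)
        have a5 : 0 < l ^ d := Nat.pow_pos (by omega)
        have a6 : x.length + 2 ≤ l ^ (d + 2) := by
          rw [pow_add]
          nlinarith [Nat.pow_le_pow_left (show 2 ≤ l by omega) 2]
        have a7 := Nat.pow_le_pow_left a6 c
        rw [c1, pow_mul]
        simp only [List.length_append, List.length_singleton, N] at *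
        omega)
      simp only [st, b4]
      cases c : L' (cd x (w ++ [true])) with
      | true => exact c
      | false =>
        rcases w' with _ | ⟨_ | _, w'⟩
        · simp at b2
          omega
        · exact (c2 _ _).2 ⟨w', by simpa using b2, by simpa using b3⟩
        · exact absurd ((c2 x (w ++ [true])).2 ⟨w', by rwa [List.append_assoc], by simpa using b3⟩)
            (by simp [c])
  obtain ⟨w', b1, b2⟩ := (c2 _ _).1 (key _ le_rfl)
  rw [List.length_append, s1, Nat.add_eq_left, List.length_eq_zero_iff] at b1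
  exact ⟨θ, List.mem_range.2 θ1, by simpa [b1] using b2⟩

end Pool.Agent.Lib.MP_a1e814_lc.Se
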