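import Pool.Agent.Lib.MP_a1e814_lc.SePr

/-! Random sets of cells: a cut that respects the implications separates few demands. -/

set_option linter.unusedSectionVars false

namespace Pool.Agent.Lib.MP_a1e814_lc.Se

open Finset Function
open scoped BigOperators

section
variable {X : Type} [DecidableEq X]

/-- average after inserting `n` random elements of `s` -/
noncomputable def Pw (s : Finset X) : ℕ → Finset X → (Finset X → ℝ) → ℝ
  | 0, T, G => G T
  | n + 1, T, G => 𝔼 x ∈ s, Pw s n (insert x T) G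

variable {s : Finset X}

theorem st_Pw (hs : s.Nonempty) (n : ℕ) (T : Finset X) : St (Pw s n T) := by
  induction n generalizing T with
  | zero => exact ⟨fun _ _ => rfl, fun _ _ => rfl, fun _ _ h => h T, fun _ => rfl⟩
  | succ n ih =>
    refine ⟨fun G H => ?_, fun c G => ?_, fun G H h => ?_, fun c => ?_⟩
    · simp only [Pw, (ih _).add, expect_add_distrib]
    · simp only [Pw, (ih _).mul, mul_expect]
    · exact expect_le_expect fun x _ => (ih _).mono _ _ h
    · simp only [Pw, (ih _).const, expect_const hs]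

theorem Pw_add (m n : ℕ) (T : Finset X) (G : Finset X → ℝ) :
    Pw s (m + n) T G = Pw s m T fun S => Pw s n S G := by
  induction m generalizing T with
  | zero => rw [zero_add]; rfl
  | succ m ih => simp only [Nat.succ_add, Pw, ih]

theorem Pw_succ (n : ℕ) (T : Finset X) (G : Finset X → ℝ) :
    Pw s (n + 1) T G = Pw s n T fun S => 𝔼 x ∈ s, G (insert x S) := Pw_add n 1 T G

theorem Pw_insert (n : ℕ) (x : X) (T : Finset X) (G : Finset X → ℝ) :
    Pw s n (insert x T) G = Pw s n T fun S => G (insert x S) := by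
  induction n generalizing T with
  | zero => rfl
  | succ n ih => simp only [Pw, ← ih, insert_comm x]

theorem St.Pw {Z : Type} {E : (Z → ℝ) → ℝ} (h : St E) (n : ℕ) (T : Finset X)
    (G : Z → Finset X → ℝ) : E (fun z => Pw s n T (G z)) = Pw s n T fun S => E fun z => G z S := by
  induction n generalizing T with
  | zero => rfl
  | succ n ih => simp only [Se.Pw, h.ex, ih]

theorem Pw_avoid (W : X → Prop) (n : ℕ) (T : Finset X) :
    (Pw s n T fun S => ind (∀ x ∈ S, ¬ W x))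
      = ind (∀ x ∈ T, ¬ W x) * (𝔼 x ∈ s, ind (¬ W x)) ^ n := by
  induction n generalizing T with
  | zero => simp [Pw]
  | succ n ih =>
    simp only [Pw, ih, forall_mem_insert, ind_and, ← expect_mul]
    ring

/-- the Efron-Stein inequality for functions of a random set -/
theorem var_le (hs : s.Nonempty) (n : ℕ) (T : Finset X) (F : Finset X → ℝ) :
    (Pw s (n + 1) T fun S => F S ^ 2) - Pw s (n + 1) T F ^ 2
      ≤ (n + 1) * Pw s n T fun S => 𝔼 x ∈ s, (F S - F (insert x S)) ^ 2 := by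
  have key : ∀ (n : ℕ) (T : Finset X), (Pw s (n + 1) T fun S => F S ^ 2) - Pw s (n + 1) T F ^ 2
      ≤ 𝔼 x ∈ s, ((Pw s n (insert x T) fun S => F S ^ 2) - Pw s n (insert x T) F ^ 2)
        + Pw s n T fun S => 𝔼 x ∈ s, (F S - F (insert x S)) ^ 2 := fun n T => by
    have h1 := (st_ex hs).var (fun x => Pw s n (insert x T) F) (Pw s n T F)
    have h2 : 𝔼 x ∈ s, (Pw s n T F - Pw s n (insert x T) F) ^ 2
        ≤ Pw s n T fun S => 𝔼 x ∈ s, (F S - F (insert x S)) ^ 2 := by
      rw [(st_Pw hs n T).ex]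
      refine expect_le_expect fun x _ => ?_
      rw [Pw_insert, ← (st_Pw hs n T).sub]
      exact (st_Pw hs n T).sq_le _
    simp only [Pw, expect_sub_distrib] at h1 ⊢
    linarith [sq_nonneg (Pw s n T F - 𝔼 x ∈ s, Pw s n (insert x T) F)]
  induction n generalizing T with
  | zero => simpa [Pw] using key 0 T
  | succ n ih =>
    have h1 := key (n + 1) T
    have h2 := expect_le_expect fun x (_ : x ∈ s) => ih (insert x T)
    rw [← mul_expect] at h2
    push_cast at h2 ⊢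
    have h3 : (Pw s (n + 1) T fun S => 𝔼 x ∈ s, (F S - F (insert x S)) ^ 2)
      = 𝔼 x ∈ s, Pw s n (insert x T) fun S => 𝔼 x ∈ s, (F S - F (insert x S)) ^ 2 := rfl
    rw [h3] at h1 ⊢
    linarith

end

theorem sum_shift {t : ℕ → ℝ} (h : ∀ n, 0 ≤ t n) (B L : ℕ) :
    ∑ b ∈ range B, ∑ l ∈ range L, t (b + l) ≤ L * ∑ b ∈ range (B + L), t b := by
  rw [sum_comm]
  refine (sum_le_card_nsmul _ _ (∑ b ∈ range (B + L), t b) fun l hl => ?_).trans (by simp)
  have hl := mem_range.1 hl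
  rw [← sum_image (s := range B) (g := fun b => b + l) fun a _ b _ e => by simpa using e]
  refine sum_le_sum_of_subset_of_nonneg (fun x hx => ?_) fun n _ _ => h n
  obtain ⟨b, hb, rfl⟩ := mem_image.1 hx
  have := mem_range.1 hb
  exact mem_range.2 (by omega)

section
variable {X Y I : Type} [DecidableEq X] [DecidableEq Y] (s : Finset X) (t : Finset Y) (k : Finset I)
  (Γ : X → I → Y) (f : Finset X → Finset Y → Prop)

noncomputable def A2 (a b : ℕ) (G : Finset X → Finset Y → ℝ) : ℝ :=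
  Pw s a ∅ fun ρ => Pw t b ∅ (G ρ)

noncomputable def wR (ρ : Finset X) (S : Finset Y) : ℝ := 𝔼 r ∈ s, ind (f (insert r ρ) S ∧ ¬ f ρ S)

noncomputable def wU (ρ : Finset X) (S : Finset Y) : ℝ := 𝔼 u ∈ t, ind (f ρ (insert u S) ∧ ¬ f ρ S)

noncomputable def wM (ρ : Finset X) (S : Finset Y) : ℝ :=
  𝔼 r ∈ s, 𝔼 i ∈ k, ind (f ρ (insert (Γ r i) S) ∧ ¬ f (insert r ρ) S)

noncomputable def kill (ρ : Finset X) (S : Finset Y) : ℝ :=
  𝔼 u ∈ t, ind (f ρ S ∧ ¬ f ρ (insert u S))

/-- the probability that a random implication is violated -/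
noncomputable def vio (ρ : Finset X) (S : Finset Y) : ℝ := wR s f ρ S + wU t f ρ S + wM s k Γ f ρ S

/-- the probability that a demand is separated -/
noncomputable def Dem (a b : ℕ) : ℝ :=
  Pw t b ∅ fun S => Pw s a ∅ fun ρ => Pw s a ∅ fun ρ' => ind (¬ (f ρ S ↔ f ρ' S))

/-- the smoothed function -/
noncomputable def sm (L : ℕ) (ρ : Finset X) (S : Finset Y) : ℝ :=
  𝔼 i ∈ range L, Pw t i S fun T => ind (f ρ T)

theorem wR_nn (ρ : Finset X) (S : Finset Y) : 0 ≤ wR s f ρ S := expect_nonneg fun _ _ => ind_nn _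

theorem wU_nn (ρ : Finset X) (S : Finset Y) : 0 ≤ wU t f ρ S := expect_nonneg fun _ _ => ind_nn _

theorem wM_nn (ρ : Finset X) (S : Finset Y) : 0 ≤ wM s k Γ f ρ S :=
  expect_nonneg fun _ _ => expect_nonneg fun _ _ => ind_nn _

theorem kill_nn (ρ : Finset X) (S : Finset Y) : 0 ≤ kill t f ρ S := expect_nonneg fun _ _ => ind_nn _

theorem vio_nn (ρ : Finset X) (S : Finset Y) : 0 ≤ vio s t k Γ f ρ S :=
  add_nonneg (add_nonneg (wR_nn ..) (wU_nn ..)) (wM_nn ..)

variable {s t k}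

theorem kill_eq (ht : t.Nonempty) (ρ : Finset X) (S : Finset Y) :
    kill t f ρ S = ind (f ρ S) - 𝔼 u ∈ t, ind (f ρ (insert u S)) + wU t f ρ S := by
  rw [← expect_const ht (ind (f ρ S)), wU, ← expect_sub_distrib, ← expect_add_distrib]
  refine expect_congr rfl fun u _ => ?_
  simp only [ind_and, ind_not]
  ring

theorem sum_kill (ht : t.Nonempty) (ρ : Finset X) (S : Finset Y) (n : ℕ) :
    ∑ l ∈ range n, Pw t l S (kill t f ρ) = ind (f ρ S) - (Pw t n S fun T => ind (f ρ T))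
      + ∑ l ∈ range n, Pw t l S (wU t f ρ) := by
  induction n with
  | zero => simp [Pw]
  | succ n ih =>
    rw [sum_range_succ, sum_range_succ, ih, funext (kill_eq f ht ρ), (st_Pw ht n S).add,
      (st_Pw ht n S).sub, Pw_succ]
    ring

theorem sum_kill_le (ht : t.Nonempty) (ρ : Finset X) (S : Finset Y) (n : ℕ) :
    ∑ l ∈ range n, Pw t l S (kill t f ρ) ≤ 1 + ∑ l ∈ range n, Pw t l S (wU t f ρ) := by
  rw [sum_kill f ht]
  linarith [ind_le (f ρ S), (st_Pw ht n S).nn fun T => ind_nn (f ρ T)]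

theorem abs_sm (ht : t.Nonempty) {L : ℕ} (hL : 0 < L) (ρ : Finset X) (S : Finset Y) :
    |ind (f ρ S) - sm t f L ρ S|
      ≤ ∑ l ∈ range L, Pw t l S fun T => kill t f ρ T + wU t f ρ T := by
  have hL' := nonempty_range_iff.2 hL.ne'
  rw [← expect_const hL' (ind (f ρ S)), sm, ← expect_sub_distrib]
  refine (abs_expect_le _ _).trans (expect_le hL' fun i hi => ?_)
  have h1 := sum_kill f ht ρ S i
  have h2 := sum_nonneg fun l (_ : l ∈ range i) => (st_Pw ht l S).nn (kill_nn t f ρ)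
  have h3 := sum_nonneg fun l (_ : l ∈ range i) => (st_Pw ht l S).nn (wU_nn t f ρ)
  refine le_trans ?_ (sum_le_sum_of_subset_of_nonneg (range_mono (mem_range.1 hi).le)
    fun l _ _ => (st_Pw ht l S).nn fun T => add_nonneg (kill_nn ..) (wU_nn ..))
  simp only [(st_Pw ht _ S).add, sum_add_distrib]
  rw [abs_le]
  constructor <;> linarith

theorem sm_nn (ht : t.Nonempty) (L : ℕ) (ρ : Finset X) (S : Finset Y) : 0 ≤ sm t f L ρ S :=
  expect_nonneg fun i _ => (st_Pw ht i S).nn fun _ => ind_nn _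

theorem sm_le (ht : t.Nonempty) {L : ℕ} (hL : 0 < L) (ρ : Finset X) (S : Finset Y) :
    sm t f L ρ S ≤ 1 :=
  expect_le (nonempty_range_iff.2 hL.ne') fun i _ => (st_Pw ht i S).le fun _ => ind_le _

theorem infl (hs : s.Nonempty) (ht : t.Nonempty) (hk : k.Nonempty) {L : ℕ} (hL : 0 < L) {J τ : ℝ}
    (hJ : 1 ≤ J) (hτ : 0 ≤ τ)
    (hno : ∀ W : Y → Prop, 𝔼 u ∈ t, ind (W u) ≤ J / L → 𝔼 r ∈ s, ind (∀ i ∈ k, W (Γ r i)) ≤ τ)
    (ρ : Finset X) (S : Finset Y) :
    𝔼 r ∈ s, (sm t f L ρ S - sm t f L (insert r ρ) S) ^ 2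
      ≤ J⁻¹ * (sm t f L ρ S - 𝔼 r ∈ s, sm t f L (insert r ρ) S) + τ
        + (k.card + 2) * ∑ l ∈ range L, Pw t l S (vio s t k Γ f ρ) := by
  have hL' := nonempty_range_iff.2 hL.ne'
  have L1 : (1 : ℝ) ≤ L := by exact_mod_cast hL
  have J0 : 0 < J := by linarith
  have hE : St fun G : Finset Y → ℝ => 𝔼 i ∈ range L, Pw t i S G :=
    ⟨fun G H => by simp only [(st_Pw ht _ S).add, expect_add_distrib],
      fun c G => by simp only [(st_Pw ht _ S).mul, mul_expect],
      fun G H h => expect_le_expect fun i _ => (st_Pw ht i S).mono _ _ h,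
      fun c => by simp only [(st_Pw ht _ S).const, expect_const hL']⟩
  have hle : ∀ G : Finset Y → ℝ, (∀ T, 0 ≤ G T) →
      𝔼 i ∈ range L, Pw t i S G ≤ ∑ i ∈ range L, Pw t i S G := fun G hG => by
    rw [expect_eq_sum_div_card, card_range]
    exact div_le_self (sum_nonneg fun i _ => (st_Pw ht i S).nn hG) L1
  let W := ∑ l ∈ range L, Pw t l S (wU t f ρ)
  have W0 : 0 ≤ W := sum_nonneg fun l _ => (st_Pw ht l S).nn (wU_nn t f ρ)
  let fr : Finset Y → Prop := fun T => J / L < 𝔼 u ∈ t, ind (¬ f ρ (insert u T))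
  have h1 : 𝔼 i ∈ range L, (Pw t i S fun T => ind (f ρ T ∧ fr T)) ≤ J⁻¹ * (1 + W) := by
    have := hE.mono (fun T => ind (f ρ T ∧ fr T)) (fun T => L / J * kill t f ρ T) fun T =>
      ind_le_of (mul_nonneg (by positivity) (kill_nn ..)) fun c => by
        have c2 := c.2
        simp only [kill, c.1, true_and]
        rw [div_mul_eq_mul_div, one_le_div J0, mul_comm, ← div_le_iff₀ (by linarith)]
        exact c2.le
    refine this.trans ?_
    rw [hE.mul, expect_eq_sum_div_card, card_range, div_mul_div_comm, mul_comm J,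
      mul_div_mul_left _ _ (by linarith), div_eq_inv_mul]
    exact mul_le_mul_of_nonneg_left (sum_kill_le f ht ρ S L) (by positivity)
  have h2 : ∀ r, (sm t f L ρ S - sm t f L (insert r ρ) S) ^ 2
      ≤ J⁻¹ * (sm t f L ρ S - sm t f L (insert r ρ) S) + (W + 𝔼 i ∈ range L, Pw t i S fun T =>
        ind (¬ fr T ∧ ¬ f (insert r ρ) T) + 2 * ind (f (insert r ρ) T ∧ ¬ f ρ T)) := fun r => by
    have a1 := hE.mono (fun T => ind (f ρ T) - ind (f (insert r ρ) T))
      (fun T => ind (f ρ T ∧ fr T) + ind (¬ fr T ∧ ¬ f (insert r ρ) T)) fun T => by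
        by_cases c1 : f ρ T <;> by_cases c2 : fr T <;> by_cases c3 : f (insert r ρ) T <;>
          simp [ind, c1, c2, c3]
    have a2 := hE.mono (fun T => ind (f (insert r ρ) T) - ind (f ρ T))
      (fun T => ind (f (insert r ρ) T ∧ ¬ f ρ T)) fun T => by
        by_cases c1 : f ρ T <;> by_cases c3 : f (insert r ρ) T <;> simp [ind, c1, c3]
    have a3 := hE.nn fun T => ind_nn (¬ fr T ∧ ¬ f (insert r ρ) T)
    have a4 := hE.nn fun T => ind_nn (f (insert r ρ) T ∧ ¬ f ρ T)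
    rw [hE.add, hE.mul]
    rw [hE.sub] at a1 a2
    rw [hE.add] at a1
    have a5 := sm_nn f ht L ρ S
    have a6 := sm_le f ht hL ρ S
    have a7 := sm_nn f ht L (insert r ρ) S
    have a8 := sm_le f ht hL (insert r ρ) S
    have a9 : J⁻¹ ≤ 1 := inv_le_one_of_one_le₀ hJ
    have a10 : 0 < J⁻¹ := by positivity
    change sm t f L ρ S - sm t f L (insert r ρ) S ≤ _ at a1
    change sm t f L (insert r ρ) S - sm t f L ρ S ≤ _ at a2
    generalize sm t f L ρ S = x at *
    generalize sm t f L (insert r ρ) S = y at *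
    rcases le_total x y with c | c
    · nlinarith [mul_nonneg (sub_nonneg.2 c) (sub_nonneg.2 a9),
        mul_nonneg (sub_nonneg.2 c) (show 0 ≤ 1 - (y - x) by linarith)]
    · have b1 := mul_le_mul_of_nonneg_left (a1.trans (add_le_add_left h1 _)) (sub_nonneg.2 c)
      have b2 := mul_le_mul_of_nonneg_right (show x - y ≤ 1 by linarith) a3
      have b3 := mul_le_mul_of_nonneg_right
        (mul_le_one₀ (show x - y ≤ 1 by linarith) a10.le a9) W0
      nlinarith
  have h3 : ∀ T, 𝔼 r ∈ s, (ind (¬ fr T ∧ ¬ f (insert r ρ) T)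
      + 2 * ind (f (insert r ρ) T ∧ ¬ f ρ T)) ≤ τ + (k.card * wM s k Γ f ρ T + 2 * wR s f ρ T) :=
    fun T => by
    rw [expect_add_distrib, ← mul_expect, ← add_assoc]
    refine add_le_add_left ?_ _
    by_cases c : fr T
    · simp only [c, not_true, false_and, ind_neg not_false, expect_const_zero]
      exact add_nonneg hτ (mul_nonneg (by positivity) (wM_nn ..))
    refine le_trans ?_ (add_le_add_left (hno (fun u => ¬ f ρ (insert u T)) (not_lt.1 c)) _)
    rw [wM, mul_expect, ← expect_add_distrib]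
    refine expect_le_expect fun r _ => ?_
    rw [card_mul_expect]
    refine (ind_le_add (R := ∃ i ∈ k, f ρ (insert (Γ r i) T) ∧ ¬ f (insert r ρ) T) fun c' => ?_).trans
      (add_le_add_right (ind_le_sum id) _)
    by_contra c2
    push Not at c2
    obtain ⟨⟨i, hi, c3⟩, c4⟩ := c2
    exact c'.2 (c4 i hi c3)
  refine (expect_le_expect fun r _ => h2 r).trans ?_
  rw [expect_add_distrib, expect_add_distrib, ← mul_expect, expect_sub_distrib, expect_const hs,
    expect_const hs, ← hE.ex, add_assoc]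
  refine add_le_add_right ?_ _
  have h4 := hE.mono _ _ h3
  rw [hE.add, hE.const] at h4
  have h5 := hle _ fun T => add_nonneg (mul_nonneg (Nat.cast_nonneg k.card) (wM_nn s k Γ f ρ T))
    (mul_nonneg zero_le_two (wR_nn s f ρ T))
  have h6 : W + ∑ i ∈ range L, (Pw t i S fun T => k.card * wM s k Γ f ρ T + 2 * wR s f ρ T)
      ≤ (k.card + 2) * ∑ l ∈ range L, Pw t l S (vio s t k Γ f ρ) := by
    rw [← sum_add_distrib, mul_sum]
    refine sum_le_sum fun l _ => ?_
    rw [← (st_Pw ht l S).add, ← (st_Pw ht l S).mul]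
    refine (st_Pw ht l S).mono _ _ fun T => ?_
    have := wR_nn s f ρ T
    have := wU_nn t f ρ T
    have := wM_nn s k Γ f ρ T
    have : (0 : ℝ) ≤ k.card := by positivity
    unfold vio
    nlinarith
  linarith

theorem A2_swap (hs : s.Nonempty) (a b : ℕ) (G : Finset X → Finset Y → ℝ) :
    A2 s t a b G = Pw t b ∅ fun S => Pw s a ∅ fun ρ => G ρ S := (st_Pw hs a ∅).Pw b ∅ G

theorem A2_nn (hs : s.Nonempty) (ht : t.Nonempty) (a b : ℕ) {G : Finset X → Finset Y → ℝ}
    (h : ∀ ρ S, 0 ≤ G ρ S) : 0 ≤ A2 s t a b G :=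
  (st_Pw hs a ∅).nn fun ρ => (st_Pw ht b ∅).nn (h ρ)

theorem A2_shift (hs : s.Nonempty) (ht : t.Nonempty) (a b L : ℕ) (G : Finset X → Finset Y → ℝ) :
    (Pw t b ∅ fun S => Pw s a ∅ fun ρ => ∑ l ∈ range L, Pw t l S (G ρ))
      = ∑ l ∈ range L, A2 s t a (b + l) G := by
  rw [← A2_swap hs, A2]
  simp only [(st_Pw ht b ∅).sum, (st_Pw hs a ∅).sum, A2, Pw_add]

theorem dem_le (hs : s.Nonempty) (ht : t.Nonempty) (a b : ℕ) :
    Dem s t f a b ≤ 2 * A2 s t a b fun ρ S => ind (f ρ S) := by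
  rw [A2_swap hs, ← (st_Pw ht b ∅).mul]
  refine (st_Pw ht b ∅).mono _ _ fun S => ?_
  have h := st_Pw hs a ∅
  refine (h.mono _ _ fun ρ => h.mono _ (fun ρ' => ind (f ρ S) + ind (f ρ' S)) fun ρ' =>
    ind_le_add (by tauto)).trans_eq ?_
  simp only [h.add, h.const, two_mul]

theorem amp_no (hs : s.Nonempty) (ht : t.Nonempty) (hk : k.Nonempty) {A L J : ℕ} (hA : 0 < A)
    (hL : 0 < L) (hJ : 0 < J) (hno : ∀ W : Y → Prop, 𝔼 u ∈ t, ind (W u) ≤ J / L →
      𝔼 r ∈ s, ind (∀ i ∈ k, W (Γ r i)) ≤ 1 / (J * A)) :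
    ∑ a ∈ range A, ∑ b ∈ range (J * L), Dem s t f (a + 1) b ≤ A * (J * L) * (8 / J + (2 * k.card + 12)
      * ∑ a ∈ range (A + 1), ∑ b ∈ range (J * L + L), A2 s t a b (vio s t k Γ f)) := by
  have A1 : (1 : ℝ) ≤ A := by exact_mod_cast hA
  have L1 : (1 : ℝ) ≤ L := by exact_mod_cast hL
  have J1 : (1 : ℝ) ≤ J := by exact_mod_cast hJ
  let I : ℕ → Finset Y → ℝ := fun a S => Pw s a ∅ fun ρ =>
    𝔼 r ∈ s, (sm t f L ρ S - sm t f L (insert r ρ) S) ^ 2
  have I0 : ∀ a S, 0 ≤ I a S := fun a S =>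
    (st_Pw hs a ∅).nn fun ρ => expect_nonneg fun _ _ => sq_nonneg _
  let kw : Finset X → Finset Y → ℝ := fun ρ T => kill t f ρ T + wU t f ρ T
  set V := ∑ a ∈ range (A + 1), ∑ b ∈ range (J * L + L), A2 s t a b (vio s t k Γ f) with hV
  have v0 : ∀ a b, 0 ≤ A2 s t a b (vio s t k Γ f) := fun a b => A2_nn hs ht a b (vio_nn s t k Γ f)
  have h1 : ∀ a ∈ range A, ∀ b, Dem s t f (a + 1) b
      ≤ 2 * A * Pw t b ∅ (I a) + 4 * ∑ l ∈ range L, A2 s t (a + 1) (b + l) kw := fun a ha b => by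
    rw [← A2_shift hs ht, ← (st_Pw ht b ∅).mul, ← (st_Pw ht b ∅).mul, ← (st_Pw ht b ∅).add]
    refine (st_Pw ht b ∅).mono _ _ fun S => ?_
    have h := st_Pw hs (a + 1) ∅
    let D : Finset X → ℝ := fun ρ => ∑ l ∈ range L, Pw t l S (kw ρ)
    refine (h.mono _ _ fun ρ => h.mono _ (fun ρ' => (sm t f L ρ S - sm t f L ρ' S) ^ 2
      + (2 * D ρ + 2 * D ρ')) fun ρ' => ?_).trans ?_
    · have a1 : |ind (f ρ S) - sm t f L ρ S| ≤ D ρ := abs_sm f ht hL ρ S
      have a2 : |ind (f ρ' S) - sm t f L ρ' S| ≤ D ρ' := abs_sm f ht hL ρ' S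
      have a5 := sm_nn f ht L ρ S
      have a6 := sm_le f ht hL ρ S
      have a7 := sm_nn f ht L ρ' S
      have a8 := sm_le f ht hL ρ' S
      rw [abs_le] at a1 a2
      by_cases c : f ρ S <;> by_cases c' : f ρ' S <;> simp only [ind, c, c'] at a1 a2 ⊢ <;>
        simp at a1 a2 ⊢ <;> nlinarith
    · have a1 := h.var (fun ρ => sm t f L ρ S) (Pw s (a + 1) ∅ fun ρ => sm t f L ρ S)
      have a2 : ∀ x y : ℝ, (x - y) ^ 2 = (y - x) ^ 2 := fun x y => by ring
      have a3 := var_le hs a ∅ fun ρ => sm t f L ρ S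
      have a4 : (a : ℝ) + 1 ≤ A := by exact_mod_cast mem_range.1 ha
      have a5 := mul_le_mul_of_nonneg_right a4 (I0 a S)
      simp only [h.add, h.var, h.mul, h.const]
      simp only [a2 (sm t f L _ S), a1]
      change _ ≤ (a + 1) * I a S at a3
      change _ ≤ 2 * A * I a S + 4 * Pw s (a + 1) ∅ D
      linarith
  have h2 : ∀ S, ∑ a ∈ range A, I a S ≤ 2 / J + (k.card + 2) * ∑ a ∈ range A,
      Pw s a ∅ fun ρ => ∑ l ∈ range L, Pw t l S (vio s t k Γ f ρ) := fun S => by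
    have a1 : ∀ a, I a S ≤ (J : ℝ)⁻¹ * ((Pw s a ∅ fun ρ => sm t f L ρ S)
        - Pw s (a + 1) ∅ fun ρ => sm t f L ρ S) + 1 / (J * A) + (k.card + 2) *
        Pw s a ∅ fun ρ => ∑ l ∈ range L, Pw t l S (vio s t k Γ f ρ) := fun a => by
      have h := st_Pw hs a ∅
      refine (h.mono _ _ fun ρ => infl Γ f hs ht hk hL J1 (by positivity) hno ρ S).trans_eq ?_
      simp only [h.add, h.mul, h.sub, h.const, Pw_succ]
    refine (sum_le_sum fun a _ => a1 a).trans ?_
    rw [sum_add_distrib, sum_add_distrib, ← mul_sum, ← mul_sum,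
      sum_range_sub' fun a => Pw s a ∅ fun ρ => sm t f L ρ S, sum_const, card_range, nsmul_eq_mul]
    have a2 := (st_Pw hs 0 ∅).le fun ρ => sm_le f ht hL ρ S
    have a3 := (st_Pw hs A ∅).nn fun ρ => sm_nn f ht L ρ S
    have a4 : (A : ℝ) * (1 / (J * A)) = (J : ℝ)⁻¹ := by field_simp
    have a5 := mul_le_mul_of_nonneg_left (show (Pw s 0 ∅ fun ρ => sm t f L ρ S)
      - (Pw s A ∅ fun ρ => sm t f L ρ S) ≤ 1 by linarith) (by positivity : (0 : ℝ) ≤ (J : ℝ)⁻¹)
    rw [a4, div_eq_mul_inv]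
    linarith
  have h3 : ∑ a ∈ range A, ∑ b ∈ range (J * L), Pw t b ∅ (I a) ≤ 2 * L + (k.card + 2) * (L * V) := by
    rw [sum_comm]
    have a1 : ∀ b, ∑ a ∈ range A, Pw t b ∅ (I a) ≤ 2 / J + (k.card + 2) * ∑ a ∈ range A,
        ∑ l ∈ range L, A2 s t a (b + l) (vio s t k Γ f) := fun b => by
      have h := st_Pw ht b ∅
      rw [← h.sum]
      refine (h.mono _ _ h2).trans_eq ?_
      simp only [h.add, h.mul, h.const, h.sum, A2_shift hs ht]
    refine (sum_le_sum fun b _ => a1 b).trans ?_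
    rw [sum_add_distrib, ← mul_sum, sum_const, card_range, nsmul_eq_mul, sum_comm]
    refine add_le_add (le_of_eq (by push_cast; field_simp))
      (mul_le_mul_of_nonneg_left ?_ (by positivity))
    refine (sum_le_sum fun a _ => sum_shift (v0 a) _ _).trans ?_
    rw [← mul_sum, hV, sum_range_succ]
    exact mul_le_mul_of_nonneg_left (le_add_of_nonneg_right (sum_nonneg fun b _ => v0 _ _))
      (by positivity)
  have h4 : ∑ a ∈ range A, ∑ b ∈ range (J * L), ∑ l ∈ range L, A2 s t (a + 1) (b + l) kw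
      ≤ L * (A + 2 * V) := by
    refine (sum_le_sum fun a _ => sum_shift (t := fun b => A2 s t (a + 1) b kw)
      (fun b => A2_nn hs ht (a + 1) b fun ρ T =>
        add_nonneg (kill_nn t f ρ T) (wU_nn t f ρ T)) (J * L) L).trans ?_
    rw [← mul_sum]
    refine mul_le_mul_of_nonneg_left ?_ (by positivity)
    have a1 : ∀ a, ∑ b ∈ range (J * L + L), A2 s t a b kw
        ≤ 1 + 2 * ∑ b ∈ range (J * L + L), A2 s t a b (vio s t k Γ f) := fun a => by
      have h := st_Pw hs a ∅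
      unfold A2
      rw [← h.sum, ← h.sum, ← h.mul, ← h.const 1, ← h.add]
      refine h.mono _ _ fun ρ => ?_
      have b1 := sum_kill_le f ht ρ ∅ (J * L + L)
      have b2 := sum_le_sum fun b (_ : b ∈ range (J * L + L)) => (st_Pw ht b ∅).mono (wU t f ρ)
        (vio s t k Γ f ρ) fun T => by
          unfold vio
          linarith [wR_nn s f ρ T, wM_nn s k Γ f ρ T]
      simp only [kw, (st_Pw ht _ ∅).add, sum_add_distrib, h.const]
      linarith
    refine (sum_le_sum fun a _ => a1 (a + 1)).trans ?_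
    rw [sum_add_distrib, ← mul_sum, sum_const, card_range, nsmul_eq_mul, hV, sum_range_succ']
    linarith [sum_nonneg fun b (_ : b ∈ range (J * L + L)) => v0 0 b]
  refine (sum_le_sum fun a ha => sum_le_sum fun b _ => h1 a ha b).trans ?_
  simp only [sum_add_distrib, ← mul_sum]
  have V0 : 0 ≤ V := sum_nonneg fun a _ => sum_nonneg fun b _ => v0 a b
  have h5 := mul_le_mul_of_nonneg_left h3 (by positivity : (0 : ℝ) ≤ 2 * A)
  have h6 : (A : ℝ) * (J * L) * (8 / J) = 8 * (A * L) := by field_simp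
  have h7 : L * V ≤ A * (L * V) := le_mul_of_one_le_left (by positivity) A1
  have h8 : (2 * k.card + 12) * (A * (L * V)) ≤ (2 * k.card + 12) * (J * (A * (L * V))) :=
    mul_le_mul_of_nonneg_left (le_mul_of_one_le_left (by positivity) J1) (by positivity)
  rw [mul_add, h6]
  nlinarith

theorem amp_yes (hs : s.Nonempty) (ht : t.Nonempty) {A B : ℕ} (hA : 0 < A) (hB : 0 < B)
    {R : X → Prop} {W : Y → Prop} (h1 : 1 / (4 * A) ≤ 𝔼 r ∈ s, ind (R r))
    (h2 : 𝔼 r ∈ s, ind (R r) ≤ 1 / (2 * A)) (h3 : 𝔼 u ∈ t, ind (W u) ≤ 1 / (2 * B)) :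
    (A * B : ℝ) / 24 ≤ ∑ a ∈ range A, ∑ b ∈ range B,
      Dem s t (fun ρ S => (∀ r ∈ ρ, ¬ R r) ∧ ∀ u ∈ S, ¬ W u) (a + 1) b := by
  have A1 : (1 : ℝ) ≤ A := by exact_mod_cast hA
  have B1 : (1 : ℝ) ≤ B := by exact_mod_cast hB
  have e : ∀ {Z : Type} {z : Finset Z} (_ : z.Nonempty) (P : Z → Prop),
      𝔼 x ∈ z, ind (¬ P x) = 1 - 𝔼 x ∈ z, ind (P x) := fun hz P => by
    simp only [ind_not, expect_sub_distrib, expect_const hz]
  have half : ∀ (x N : ℝ) (n : ℕ), 1 ≤ N → x ≤ 1 / (2 * N) → n ≤ N → 1 / 2 ≤ (1 - x) ^ n :=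
    fun x N n a1 a2 a3 => by
    rw [le_div_iff₀ (by positivity)] at a2
    have a4 : x ≤ 1 / 2 := by nlinarith
    refine le_trans ?_ (one_add_mul_le_pow (show -2 ≤ -x by linarith) n)
    rcases le_total x 0 with c | c <;> nlinarith [(Nat.cast_nonneg n : (0 : ℝ) ≤ n)]
  set β := 𝔼 r ∈ s, ind (R r)
  set γ := 𝔼 u ∈ t, ind (W u)
  have β0 : 0 < β := lt_of_lt_of_le (by positivity) h1
  have h4 : ∀ a ∈ range A, ∀ b ∈ range B, (a + 1 : ℝ) / (12 * A) ≤
      Dem s t (fun ρ S => (∀ r ∈ ρ, ¬ R r) ∧ ∀ u ∈ S, ¬ W u) (a + 1) b := fun a ha b hb => by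
    have h := st_Pw hs (a + 1) ∅
    have a1 : ∀ P P' Q : Prop, ind (¬ (P ∧ Q ↔ P' ∧ Q))
        = ind Q * (ind P + (1 - 2 * ind P) * ind P') := fun P P' Q => by
      by_cases c : P <;> by_cases c' : P' <;> by_cases c'' : Q <;> simp [ind, c, c', c'']
      norm_num
    have a2 : (a : ℝ) + 1 ≤ A := by exact_mod_cast mem_range.1 ha
    have a3 := half β A (a + 1) A1 h2 (by exact_mod_cast a2)
    have a4 := half γ B b B1 h3 (by exact_mod_cast (mem_range.1 hb).le)
    have a5 : ∀ c x : ℝ, (1 - 2 * x) * c = c - 2 * c * x := fun c x => by ring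
    have a6 : ∀ c x : ℝ, x * c = c * x := fun c x => by ring
    simp only [Dem, a1, h.mul, h.add, h.const, Pw_avoid, e hs, notMem_empty, false_imp_iff,
      implies_true, ind_pos trivial, one_mul]
    simp only [a5, h.sub, h.mul, h.const, Pw_avoid, e hs, notMem_empty, false_imp_iff,
      implies_true, ind_pos trivial, one_mul]
    simp only [a6 _ (ind _), (st_Pw ht b ∅).mul, Pw_avoid, e ht, notMem_empty, false_imp_iff,
      implies_true, ind_pos trivial, one_mul]
    change _ ≤ ((1 - β) ^ (a + 1) + ((1 - β) ^ (a + 1) - 2 * (1 - β) ^ (a + 1) * (1 - β) ^ (a + 1)))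
      * (1 - γ) ^ b
    have b1 := one_add_mul_le_pow (show -2 ≤ β by linarith) (a + 1)
    have b2 : (1 - β) ^ (a + 1) * (1 + β) ^ (a + 1) ≤ 1 := by
      rw [← mul_pow]
      have : β ≤ 1 := h2.trans (by rw [div_le_one (by positivity)]; linarith)
      exact pow_le_one₀ (mul_nonneg (by linarith) (by linarith)) (by nlinarith)
    push_cast at b1
    rw [div_le_iff₀ (by positivity)] at h1 ⊢
    rw [le_div_iff₀ (by positivity)] at h2
    generalize (1 - β) ^ (a + 1) = x at *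
    generalize (1 - γ) ^ b = y at *
    have b3 : x * (1 + (a + 1) * β) ≤ 1 :=
      (mul_le_mul_of_nonneg_left b1 (by linarith)).trans b2
    have b4 : (a + 1) * β ≤ 1 / 2 := by nlinarith
    have b5 : 0 ≤ (a + 1) * β := by positivity
    have b6 : (a + 1) * β * 2 / 3 ≤ 1 - x := by nlinarith
    have b7 : (1 - x) / 2 ≤ (x + (x - 2 * x * x)) * y := by
      have := mul_le_mul a3 a4 (by norm_num) (by linarith)
      nlinarith
    have b8 := mul_le_mul_of_nonneg_left h1 (by positivity : (0 : ℝ) ≤ a + 1)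
    nlinarith
  refine le_trans ?_ (sum_le_sum fun a ha => sum_le_sum (h4 a ha))
  simp only [sum_const, card_range, nsmul_eq_mul, ← mul_sum, ← sum_div]
  have h5 : ∀ n : ℕ, ∑ a ∈ range n, (a + 1 : ℝ) = n * (n + 1) / 2 := fun n => by
    induction n with
    | zero => simp
    | succ n ih => rw [sum_range_succ, ih]; push_cast; ring
  rw [h5, ← mul_div_assoc, div_le_div_iff₀ (by positivity) (by positivity)]
  nlinarith [mul_pos (mul_pos (zero_lt_one.trans_le A1) (zero_lt_one.trans_le B1))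
    (zero_lt_one.trans_le A1)]

end

end Pool.Agent.Lib.MP_a1e814_lc.Se
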