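import Pool.Agent.Lib.MP_a1e814_lc.SeLD

/-! The low degree test in the regime of small agreement, with prescribed special points. -/

set_option linter.unusedSectionVars false

namespace Pool.Agent.Lib.MP_a1e814_lc.Se

open Finset Function
open scoped BigOperators

theorem var_pair {Ω T : Type} [Fintype Ω] [Nonempty Ω] [Fintype T] (ψ : Ω → T → ℝ)
    (h1 : ∀ ω t, |ψ ω t| ≤ 1) (bad : T × T → Prop)
    (h2 : ∀ p, ¬ bad p → 𝔼 ω, ψ ω p.1 * ψ ω p.2 = 0) {a : ℝ} (ha : 0 < a) :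
    (Pr fun ω => a ≤ |𝔼 t, ψ ω t|) ≤ Pr bad / a ^ 2 := by
  refine (cheb ha).trans (div_le_div_of_nonneg_right ?_ (by positivity))
  have e : ∀ ω, (𝔼 t, ψ ω t) ^ 2 = 𝔼 p : T × T, ψ ω p.1 * ψ ω p.2 := fun ω => by
    rw [pow_two, Fintype.expect_mul_expect, ex_prod]
  simp only [e]
  rw [expect_comm]
  refine ex_mono fun p => ?_
  by_cases c : bad p
  · rw [ind_pos c]
    refine ex_le fun ω => (le_abs_self _).trans ?_
    rw [abs_mul]
    exact mul_le_one₀ (h1 _ _) (abs_nonneg _) (h1 _ _)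
  · rw [h2 p c, ind_neg c]

theorem abs_dev {Ω : Type} [Fintype Ω] [Nonempty Ω] {A : Ω → ℝ} (h0 : ∀ ω, 0 ≤ A ω)
    (h1 : ∀ ω, A ω ≤ 1) (ω : Ω) : |A ω - 𝔼 ω, A ω| ≤ 1 := by
  rw [abs_le]
  constructor <;> linarith [h0 ω, h1 ω, ex_nn h0, ex_le h1]

theorem ex_centered {Ω : Type} [Fintype Ω] [Nonempty Ω] (A : Ω → ℝ) :
    𝔼 p : Ω × Ω, (A p.1 - 𝔼 ω, A ω) * (A p.2 - 𝔼 ω, A ω) = 0 := by
  rw [ex_prod, ← Fintype.expect_mul_expect (fun x => A x - 𝔼 ω, A ω) fun x => A x - 𝔼 ω, A ω,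
    expect_sub_distrib, Fintype.expect_const, sub_self, zero_mul]

theorem ex_fst {Ω Ω' : Type} [Fintype Ω] [Fintype Ω'] [Nonempty Ω'] (A : Ω → ℝ) :
    𝔼 p : Ω × Ω', A p.1 = 𝔼 ω, A ω := by simp [ex_prod]

def four (X : Type) : (Fin 4 → X) ≃ (X × X) × (X × X) where
  toFun e := ((e 0, e 1), (e 2, e 3))
  invFun p := ![p.1.1, p.1.2, p.2.1, p.2.2]
  left_inv e := by funext i; fin_cases i <;> rfl
  right_inv _ := rfl

variable {F V : Type} [Field F] [Fintype F] [DecidableEq F] [AddCommGroup V] [Module F V] [Fintype V]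

theorem Pr_shear (s : F) (A : V → Prop) : (Pr fun z : V × V => A (z.1 + s • z.2)) = Pr A :=
  (Pr_inj (e := fun z : V × V => (z.1 + s • z.2, z.2)) (fun z z' e => by
    obtain ⟨e1, e2⟩ := Prod.ext_iff.1 e
    simp only at e1 e2
    exact Prod.ext (by simpa [e2] using e1) e2) fun z => A z.1).trans (Pr_fst A)

theorem line_dev (A : V → Prop) {a : ℝ} (ha : 0 < a) :
    (Pr fun z : V × V => a ≤ |(Pr fun t : F => A (z.1 + t • z.2)) - Pr A|)
      ≤ 1 / Fintype.card F / a ^ 2 := by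
  have := var_pair (fun (z : V × V) (t : F) => ind (A (z.1 + t • z.2)) - Pr A)
    (fun _ _ => abs_dev (fun _ => ind_nn _) (fun _ => ind_le _) _) (fun p => p.1 = p.2) (fun p c => by
      rw [← ex_centered fun v => ind (A v)]
      refine ex_inj (e := fun z : V × V => (z.1 + p.1 • z.2, z.1 + p.2 • z.2)) (fun z z' e => ?_)
        fun z => (ind (A z.1) - Pr A) * (ind (A z.2) - Pr A)
      obtain ⟨e1, e2⟩ := Prod.ext_iff.1 e
      simp only at e1 e2
      have e3 : z.2 = z'.2 := smul_right_injective V (sub_ne_zero.2 c)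
        (show (p.1 - p.2) • z.2 = (p.1 - p.2) • z'.2 by
          rw [sub_smul, sub_smul, ← add_sub_add_left_eq_sub _ _ z.1, e1, e2, add_sub_add_left_eq_sub])
      exact Prod.ext (by simpa [e3] using e1) e3) ha
  simp only [expect_sub_distrib, Fintype.expect_const] at this
  rw [Pr_prod' fun p : F × F => p.1 = p.2] at this
  simp only [Pr_eq, Fintype.expect_const] at this
  exact this

abbrev Cx := Option (Fin 6 ⊕ Fin 4)

/-- the point with coordinates `e` in the space spanned by the given columns -/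
def pnt (y : Fin 6 → V) (z : V) (w : Fin 4 → V) : (Cx → F) →ₗ[F] V :=
  Fintype.linearCombination F fun c => c.elim z (Sum.elim y w)

theorem pnt_apply (y : Fin 6 → V) (z : V) (w : Fin 4 → V) (e : Cx → F) : pnt y z w e
    = e none • z + (∑ i, e (some (.inl i)) • y i + ∑ i, e (some (.inr i)) • w i) := by
  simp [pnt, Fintype.linearCombination_apply]

def un (i : Fin 6) : Cx → F := Pi.single (some (.inl i)) 1

theorem pnt_un (y : Fin 6 → V) (z : V) (w : Fin 4 → V) (i : Fin 6) : pnt y z w (un i : Cx → F) = y i := by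
  simp [pnt, un]

theorem samp (y : Fin 6 → V) (z : V) {A : V × V → ℝ} (h0 : ∀ v, 0 ≤ A v) (h1 : ∀ v, A v ≤ 1) {a : ℝ}
    (ha : 0 < a) : (Pr fun w => a ≤ |𝔼 e : (Cx → F) × (Cx → F), A (pnt y z w e.1, pnt y z w e.2)
      - 𝔼 v, A v|) ≤ 8 / Fintype.card F / a ^ 2 := by
  let M : (Fin 4 → Cx → F) → Matrix (Fin 4) (Fin 4) F := fun e a b => e a (some (.inr b))
  have := var_pair (fun w (e : (Cx → F) × (Cx → F)) => A (pnt y z w e.1, pnt y z w e.2) - 𝔼 v, A v)
    (fun _ _ => abs_dev h0 h1 _) (fun p => (M ((four _).symm p)).det = 0) (fun p c => by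
      obtain ⟨e, rfl⟩ := (four _).surjective p
      rw [Equiv.symm_apply_apply] at c
      rw [← ex_centered A, ← ex_equiv (four V)]
      refine ex_inj (e := fun w a => pnt y z w (e a)) (fun w w' h => ?_)
        fun v => (A (four V v).1 - 𝔼 v, A v) * (A (four V v).2 - 𝔼 v, A v)
      have k : ∀ (w : Fin 4 → V) i, w i = ∑ a, (M e)⁻¹ i a • ∑ b, M e a b • w b := fun w i => by
        simp only [smul_sum, smul_smul]
        rw [sum_comm]
        simp [← sum_smul, ← Matrix.mul_apply, Matrix.nonsing_inv_mul _ (Ne.isUnit c),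
          Matrix.one_apply]
      funext i
      rw [k w, k w']
      refine sum_congr rfl fun a _ => congrArg _ ?_
      simpa [pnt_apply] using congrFun h a) ha
  simp only [expect_sub_distrib, Fintype.expect_const] at this
  refine this.trans (div_le_div_of_nonneg_right ?_ (by positivity))
  rw [Pr_equiv (four _).symm fun e => (M e).det = 0]
  have h : LD 4 fun e => (M e).det := by
    simp only [Matrix.det_apply']
    exact LD.sum _ fun σ _ => LD.cmul _ (by
      simpa using LD.prod univ fun i _ => LD.lin ((LinearMap.proj (some (.inr i)) :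
        (Cx → F) →ₗ[F] F) ∘ₗ (LinearMap.proj (σ i) : (Fin 4 → Cx → F) →ₗ[F] _)))
  refine (h.sz fun c => ?_).trans_eq (by norm_num)
  have := congrFun c fun a => Pi.single (some (.inr a)) 1
  rw [show M (fun a => Pi.single (some (.inr a)) 1) = 1 by
    ext a b
    simp [M, Pi.single_apply, Matrix.one_apply, eq_comm]] at this
  simp at this

theorem samp1 (y : Fin 6 → V) (z : V) {A : V → ℝ} (h0 : ∀ v, 0 ≤ A v) (h1 : ∀ v, A v ≤ 1) {a : ℝ}
    (ha : 0 < a) : (Pr fun w => a ≤ |𝔼 e : Cx → F, A (pnt y z w e) - 𝔼 v, A v|)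
      ≤ 8 / Fintype.card F / a ^ 2 := by
  have := samp (F := F) y z (A := fun p => A p.1) (fun _ => h0 _) (fun _ => h1 _) ha
  rw [ex_fst] at this
  exact (Pr_congr fun w => by rw [ex_fst fun e : Cx → F => A (pnt y z w e)]).trans_le this

section
variable (E : ℕ) (a : ℝ) (f : V → F)

def Lst (z d : V) (r : F → F) : Prop := LD E r ∧ a ≤ Pr fun t => r t = f (z + t • d)

def Bad (z d : V) : Prop := ∃ r r', Lst E a f z d r ∧ Lst E a f z d r' ∧ r ≠ r' ∧ r 0 = r' 0

open Classical in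
noncomputable def dcd (z h : V) : F :=
  if c : ∃ r, Lst E a f z (h - z) r ∧ r 0 = f z then c.choose 1 else 0

variable {E a f}

theorem dcd_eq {z h : V} {r : F → F} (h1 : ¬ Bad E a f z (h - z)) (h2 : Lst E a f z (h - z) r)
    (h3 : r 0 = f z) : dcd E a f z h = r 1 := by
  have c : ∃ r, Lst E a f z (h - z) r ∧ r 0 = f z := ⟨r, h2, h3⟩
  rw [dcd, dif_pos c]
  by_contra c'
  exact h1 ⟨_, r, c.choose_spec.1, h2, fun e => c' (congrFun e 1), c.choose_spec.2.trans h3.symm⟩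

theorem bad_le (ha : 0 < a) (h : 2 * E / (Fintype.card F : ℝ) ≤ a ^ 2 / 2) :
    (Pr fun z : V × V => Bad E a f z.1 (z.2 - z.1)) ≤ (2 / a) ^ 2 * (2 * E / Fintype.card F) := by
  classical
  have e : ∀ u : F, (Pr fun z : V × V => Bad E a f z.1 (z.2 - z.1))
      = Pr fun z : V × V => Bad E a f (z.1 + u • z.2) z.2 := fun u => by
    rw [← Pr_inj (e := fun z : V × V => (z.1 + u • z.2, z.1 + u • z.2 + z.2)) fun z z' e => ?_]
    · simp
    obtain ⟨e1, e2⟩ := Prod.ext_iff.1 e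
    simp only at e1 e2
    have e3 : z.2 = z'.2 := by simpa [e1] using e2
    exact Prod.ext (by simpa [e3] using e1) e3
  rw [← Fintype.expect_const (ι := F) (Pr _), ex_congr e,
    ← Pr_prod fun x : F × V × V => Bad E a f (x.2.1 + x.1 • x.2.2) x.2.2, Pr_prod']
  refine ex_le fun z => ?_
  let L := univ.filter (Lst E a f z.1 z.2)
  have k : ∀ r ∈ L, ∀ r' ∈ L, r ≠ r' → ∀ {A : F → Prop}, (∀ t, A t → r t = r' t) →
      Pr A ≤ 2 * E / Fintype.card F := fun r hr r' hr' c A hA => by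
    by_contra c'
    exact c ((mem_filter.1 hr).2.1.eq_of (mem_filter.1 hr').2.1 ((not_le.1 c').trans_le (Pr_mono hA)))
  have h1 := johnson L (fun r t => r t = f (z.1 + t • z.2)) ha (fun r hr => (mem_filter.1 hr).2.2)
    fun r hr r' hr' c => (k r hr r' hr' c fun t c => c.1.trans c.2.symm).trans h
  have h2 : ∀ (u : F) r, Lst E a f (z.1 + u • z.2) z.2 r → (fun t => r (-u + t)) ∈ L := fun u r c =>
    mem_filter.2 ⟨mem_univ _, c.1.shift _, c.2.trans_eq (by
      rw [← Pr_inj (add_right_injective u) fun t => r (-u + t) = f (z.1 + t • z.2)]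
      simp [add_smul, add_assoc])⟩
  refine (Pr_le_sum (s := L.offDiag) (q := fun p u => p.1 u = p.2 u) fun u ⟨r, r', c1, c2, c3, c4⟩ =>
    ⟨(_, _), mem_offDiag.2 ⟨h2 u r c1, h2 u r' c2, fun e => c3 (funext fun t => by
      simpa using congrFun e (u + t))⟩, by simpa using c4⟩).trans ?_
  refine (sum_le_card_nsmul _ _ _ fun p hp => k _ (mem_offDiag.1 hp).1 _ (mem_offDiag.1 hp).2.1
    (mem_offDiag.1 hp).2.2 fun _ => id).trans ?_
  rw [nsmul_eq_mul, offDiag_card]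
  refine mul_le_mul_of_nonneg_right ((Nat.cast_le.2 (Nat.sub_le _ _)).trans ?_) (by positivity)
  rw [← le_div_iff₀ ha] at h1
  rw [Nat.cast_mul, pow_two]
  exact mul_le_mul h1 h1 (by positivity) (by positivity)

end

variable {Ω : Type} [Fintype Ω] [Nonempty Ω] {E : ℕ} (y : Ω → Fin 6 → V)
  (cond : Ω → (Fin 6 → F) → Prop)

theorem samp2 (z : V) (A : V × V → Prop) {a : ℝ} (ha : 0 < a) :
    (Pr fun x : Ω × (Fin 4 → V) => a ≤ |(Pr fun e : (Cx → F) × (Cx → F) =>
      A (pnt (y x.1) z x.2 e.1, pnt (y x.1) z x.2 e.2)) - Pr A|) ≤ 8 / Fintype.card F / a ^ 2 :=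
  (Pr_prod _).trans_le (ex_le fun ω => samp (y ω) z (A := fun v => ind (A v)) (fun _ => ind_nn _)
    (fun _ => ind_le _) ha)

theorem samp3 (z : V) (A : V → Prop) {a : ℝ} (ha : 0 < a) :
    (Pr fun x : Ω × (Fin 4 → V) => a ≤ |(Pr fun e : Cx → F => A (pnt (y x.1) z x.2 e)) - Pr A|)
      ≤ 8 / Fintype.card F / a ^ 2 :=
  (Pr_prod _).trans_le (ex_le fun ω => samp1 (y ω) z (A := fun v => ind (A v)) (fun _ => ind_nn _)
    (fun _ => ind_le _) ha)

/-- the nonzero polynomials on the parameter space that pass the test -/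
def Adm (E : ℕ) (c : (Fin 6 → F) → Prop) (p : (Cx → F) → F) : Prop :=
  LD E p ∧ p ≠ 0 ∧ c fun i => p (un i)

theorem glob {δ δs : ℝ} (δ0 : 0 < δ) (s0 : 0 ≤ δs) (hq : E + 1 < Fintype.card F)
    (h3 : (E + 2) * (2 * E + 3) * ((2 * E + 5) * δ) < 1)
    (h4 : 2 * E / Fintype.card F + 3 * δ + (2 * E + 3) * ((2 * E + 5) * δ) < 1)
    (hs : ∀ G : V → F, LD E G → G ≠ 0 → (Pr fun ω => cond ω fun i => G (y ω i)) ≤ δs)
    (g : V → F) (z : V) : (Pr fun x : Ω × (Fin 4 → V) => ∃ p, Adm E (cond x.1) p ∧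
      (Pr fun e => g (pnt (y x.1) z x.2 e) ≠ p e) ≤ 2 * δ) ≤ δs + 8 / Fintype.card F / δ ^ 2 := by
  obtain ⟨t⟩ : Nonempty (Fin (E + 1) ↪ Fˣ) := Embedding.nonempty_of_card_le (by
    rw [Fintype.card_units, Fintype.card_fin]; omega)
  have ht : Injective fun i => (t i : F) := Units.val_injective.comp t.injective
  by_cases c : ∀ u, (Pr fun p : V × V => g (p.1 + u • p.2) ≠ ip (fun i => (t i : F)) g u p)
    ≤ (2 * E + 5) * δ
  · obtain ⟨G, g1, g2⟩ := rs ht (fun i => (t i).ne_zero) c h3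
    refine (Pr_le_add (q := fun x => G ≠ 0 ∧ cond x.1 fun i => G (y x.1 i))
      (r := fun x => δ ≤ |(Pr fun e : Cx → F => g (pnt (y x.1) z x.2 e) ≠ G (pnt (y x.1) z x.2 e))
        - Pr fun v => g v ≠ G v|) fun x c1 => ?_).trans (add_le_add ?_ ?_)
    · obtain ⟨p, hp, c1⟩ := c1
      refine or_iff_not_imp_right.2 fun c2 => ?_
      have c3 := (abs_lt.1 (not_le.1 c2)).2
      have c4 := Pr_le_add (p := fun e => ¬ p e = G (pnt (y x.1) z x.2 e))
        (q := fun e => g (pnt (y x.1) z x.2 e) ≠ p e)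
        (r := fun e => g (pnt (y x.1) z x.2 e) ≠ G (pnt (y x.1) z x.2 e)) fun e c => by
          by_contra c'
          push Not at c'
          exact c (c'.1.symm.trans c'.2)
      rw [Pr_not] at c4
      obtain rfl := hp.1.eq_of (g1.comp (pnt (y x.1) z x.2)) (by linarith)
      exact ⟨fun e => hp.2.1 (by rw [e]; rfl), by simpa only [pnt_un] using hp.2.2⟩
    · by_cases c1 : G = 0
      · rwa [Pr_false fun x c => c.1 c1]
      · exact (Pr_mono fun x c => c.2).trans ((Pr_fst fun ω => cond ω fun i => G (y ω i)).trans_le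
          (hs G g1 c1))
    · have := samp3 (F := F) y z (fun v => g v ≠ G v) δ0
      exact this
  · obtain ⟨u, c⟩ := not_forall.1 c
    refine le_add_of_nonneg_of_le s0 ((Pr_mono fun x ⟨p, hp, c1⟩ => ?_).trans (samp2 (F := F) y z
        (fun p => g (p.1 + u • p.2) ≠ ip (fun i => (t i : F)) g u p) δ0))
    have c2 := fun s : F => (Pr_shear s fun e => g (pnt (y x.1) z x.2 e) ≠ p e).trans_le c1
    have c3 := (Pr_le_sum (s := univ) (p := fun e : (Cx → F) × (Cx → F) => ∃ i,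
      g (pnt (y x.1) z x.2 (e.1 + (t i : F) • e.2)) ≠ p (e.1 + (t i : F) • e.2))
      fun z c => c.imp fun i c => ⟨mem_univ i, c⟩).trans (sum_le_card_nsmul _ _ _ fun i _ => c2 (t i))
    have c4 := (Pr_le_add (p := fun e : (Cx → F) × (Cx → F) =>
      g (pnt (y x.1) z x.2 e.1 + u • pnt (y x.1) z x.2 e.2) ≠ ip (fun i => (t i : F)) g u
        (pnt (y x.1) z x.2 e.1, pnt (y x.1) z x.2 e.2)) fun e c => by
      by_contra c'
      push Not at c'
      simp only [map_add, map_smul] at c'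
      exact c (by simp only [c'.1, hp.1.ip ht u e, ip, c'.2])).trans (add_le_add (c2 u) c3)
    simp only [card_univ, Fintype.card_fin, nsmul_eq_mul] at c4
    push_cast at c4
    rw [le_abs]
    right
    linarith [not_le.1 c]

theorem sym {δ ξ : ℝ} (δ0 : 0 < δ) (ξ0 : 0 < ξ) (f : V → F)
    (h1 : 1 / Fintype.card F + 1 / Fintype.card F / (ξ / 2) ^ 2 / δ ≤ ξ / 2) :
    (Pr fun x : V × Ω × (Fin 4 → V) => ∃ p, Adm E (cond x.2.1) p ∧
      ξ ≤ Pr fun e => p e = f (pnt (y x.2.1) x.1 x.2.2 e)) * (ξ / 2)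
    ≤ Pr fun x : V × Ω × (Fin 4 → V) => ∃ p, Adm E (cond x.2.1) p ∧ p (Pi.single none 1) = f x.1 ∧
      (Pr fun e => ¬ Lst E (ξ / 2) f x.1 (pnt (y x.2.1) x.1 x.2.2 e - x.1)
        fun t => p (Pi.single none 1 + t • (e - Pi.single none 1))) ≤ δ := by
  set G1 := fun x : V × Ω × (Fin 4 → V) => ∃ p, Adm E (cond x.2.1) p ∧ p (Pi.single none 1) = f x.1 ∧
    (Pr fun e => ¬ Lst E (ξ / 2) f x.1 (pnt (y x.2.1) x.1 x.2.2 e - x.1)
      fun t => p (Pi.single none 1 + t • (e - Pi.single none 1))) ≤ δ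
  have hB : (Pr fun x : (Cx → F) × V × Ω × (Fin 4 → V) => x.1 none ≠ 0 ∧
      G1 (pnt (y x.2.2.1) x.2.1 x.2.2.2 x.1, x.2.2)) ≤ Pr G1 := by
    refine (Pr_prod _).trans_le (ex_le fun θ => ?_)
    by_cases c : θ none = 0
    · rw [Pr_false fun x c' => c'.1 c]
      exact Pr_nn _
    refine (Pr_mono fun x c => c.2).trans (Pr_inj (e := fun x : V × Ω × (Fin 4 → V) =>
      (pnt (y x.2.1) x.1 x.2.2 θ, x.2)) (fun x x' e => ?_) G1).le
    obtain ⟨e1, e2⟩ := Prod.ext_iff.1 e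
    simp only at e1 e2
    rw [e2, pnt_apply, pnt_apply] at e1
    exact Prod.ext (smul_right_injective V c (add_right_cancel e1)) e2
  refine le_trans ?_ hB
  rw [Pr_prod' fun x : (Cx → F) × V × Ω × (Fin 4 → V) => _, Pr, expect_mul]
  refine ex_mono fun x => ?_
  by_cases c : ∃ p, Adm E (cond x.2.1) p ∧ ξ ≤ Pr fun e => p e = f (pnt (y x.2.1) x.1 x.2.2 e)
  swap
  · rw [ind_neg c, zero_mul]
    exact Pr_nn _
  rw [ind_pos c, one_mul]
  obtain ⟨p, hp, c⟩ := c
  let A := fun e => p e = f (pnt (y x.2.1) x.1 x.2.2 e)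
  let B := fun θ e : Cx → F => ¬ ξ / 2 ≤ Pr fun t : F => A (θ + t • (e - θ))
  have a1 : (Pr fun θ => δ ≤ Pr (B θ)) ≤ 1 / Fintype.card F / (ξ / 2) ^ 2 / δ := by
    refine (markov (fun _ => Pr_nn _) δ0).trans (div_le_div_of_nonneg_right ?_ δ0.le)
    rw [← Pr_prod fun z : (Cx → F) × (Cx → F) => B z.1 z.2, ← Pr_inj (e := fun z : (Cx → F) × (Cx → F)
      => (z.1, z.1 + z.2)) fun z z' e => ?_]
    · refine (Pr_mono fun z c' => ?_).trans (line_dev A (half_pos ξ0))
      simp only [B, add_sub_cancel_left, not_le] at c'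
      rw [le_abs]
      right
      linarith
    · obtain ⟨e1, e2⟩ := Prod.ext_iff.1 e
      simp only at e1 e2
      exact Prod.ext e1 (by simpa [e1] using e2)
  have a2 : (Pr fun θ : Cx → F => θ none = 0) = 1 / Fintype.card F :=
    (ex_eval none fun u : F => ind (u = 0)).trans (Pr_eq 0)
  refine le_trans (by linarith) (sub_le_iff_le_add.2 ((Pr_le_add (p := A) fun θ c' => ?_).trans
    (add_le_add_right ((Pr_le_add fun θ => id).trans (add_le_add a2.le a1)) _)))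
  refine or_iff_not_imp_right.2 fun c2 => ?_
  obtain ⟨c2, c3⟩ := not_or.1 c2
  let T : (Cx → F) →ₗ[F] Cx → F := LinearMap.id + (LinearMap.proj none : (Cx → F) →ₗ[F] F).smulRight
    (θ - Pi.single none 1)
  have t0 : ∀ e, T e = e + e none • (θ - Pi.single none 1) := fun e => rfl
  have t1 : T (Pi.single none 1) = θ := by simp [t0]
  have t2 : ∀ e, pnt (y x.2.1) (pnt (y x.2.1) x.1 x.2.2 θ) x.2.2 e = pnt (y x.2.1) x.1 x.2.2 (T e) :=
    fun e => by
    rw [t0, map_add, map_smul, map_sub, pnt_apply _ _ _ e, pnt_apply _ x.1 _ e,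
      pnt_apply _ _ _ (Pi.single none 1)]
    simp [smul_sub]
    abel
  have t3 : Injective T := (injective_iff_map_eq_zero T).2 fun e h => by
    have := congrFun h none
    simp [t0, mul_sub, c2] at this
    simpa [t0, this] using h
  refine ⟨c2, fun e => p (T e), ⟨hp.1.comp T, fun e => hp.2.1 (funext fun v => ?_), ?_⟩, ?_, ?_⟩
  · obtain ⟨v, rfl⟩ := Finite.injective_iff_surjective.1 t3 v
    exact congrFun e v
  · simpa [t0, un] using hp.2.2
  · simpa only [t1] using c'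
  · refine (Pr_mono fun e c4 => ?_).trans ((Pr_inj t3 (B θ)).trans_le (not_le.1 c3).le)
    refine fun c5 => c4 ⟨(hp.1.comp T).line _ _, c5.trans_eq (Pr_congr fun s => ?_)⟩
    simp only [A, map_add, map_smul, map_sub, t1, t2]

/-- the low degree test -/
theorem ldt {ξ η δs : ℝ} (ξ0 : 0 < ξ) (ξ1 : ξ ≤ 1) (η0 : 0 < η) (η1 : η ≤ 1) (s0 : 0 ≤ δs)
    (hq : 4096 * (E + 3) ^ 6 ≤ Fintype.card F * ξ ^ 3 * η)
    (hs : ∀ G : V → F, LD E G → G ≠ 0 → (Pr fun ω => cond ω fun i => G (y ω i)) ≤ δs) (f : V → F) :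
    (Pr fun x : V × Ω × (Fin 4 → V) => ∃ p, Adm E (cond x.2.1) p ∧
      ξ ≤ Pr fun e => p e = f (pnt (y x.2.1) x.1 x.2.2 e)) * (ξ / 2) ≤ δs + η := by
  obtain ⟨c, hc⟩ : ∃ c : ℝ, c = (E + 3) ^ 3 := ⟨_, rfl⟩
  have E0 : (0 : ℝ) ≤ E := by positivity
  have c1 : (E + 3 : ℝ) ≤ c := by rw [hc]; exact le_self_pow₀ (by linarith) (by norm_num)
  have c0 : 0 < c := by linarith
  have q0 : (0 : ℝ) < Fintype.card F := by exact_mod_cast Fintype.card_pos
  rw [show ((E : ℝ) + 3) ^ 6 = c ^ 2 by rw [hc]; ring] at hq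
  have x2 : ξ ^ 3 ≤ ξ ^ 2 := pow_le_pow_of_le_one ξ0.le ξ1 (by norm_num)
  have x1 : ξ ^ 2 ≤ 1 := pow_le_one₀ ξ0.le ξ1
  have k1 : 4096 * c ^ 2 ≤ Fintype.card F * ξ ^ 3 := hq.trans (mul_le_of_le_one_right (by positivity) η1)
  have k2 : 4096 * c ^ 2 ≤ Fintype.card F * ξ ^ 2 := k1.trans (by gcongr)
  have k3 : 4096 * c ^ 2 ≤ Fintype.card F := k2.trans (mul_le_of_le_one_right q0.le x1)
  have k4 : 4096 * c ^ 2 ≤ Fintype.card F * ξ ^ 2 * η := hq.trans (by gcongr)
  have k5 : 4096 * c ^ 2 ≤ Fintype.card F * η := k4.trans (by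
    rw [mul_right_comm]; exact mul_le_of_le_one_right (by positivity) x1)
  have δ0 : 0 < 1 / (8 * c) := by positivity
  have d1 : (E + 2) * (2 * E + 3) * ((2 * E + 5) * (1 / (8 * c))) ≤ 1 / 2 := by
    rw [← mul_assoc, mul_one_div, div_le_iff₀ (by positivity), hc]
    nlinarith [mul_nonneg E0 E0]
  have h1 := sym (E := E) y cond δ0 ξ0 f (by
    have : 1 / (Fintype.card F : ℝ) + 1 / Fintype.card F / (ξ / 2) ^ 2 / (1 / (8 * c))
      = (ξ ^ 2 + 32 * c) / (Fintype.card F * ξ ^ 2) := by field_simp; ring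
    rw [this, div_le_iff₀ (by positivity)]
    nlinarith)
  have h2 := fun z => glob y cond δ0 s0 (by
    rw [← Nat.cast_lt (α := ℝ)]
    push_cast
    nlinarith) (by linarith) (by
    have a1 : 2 * E / (Fintype.card F : ℝ) ≤ 1 / 8 := by
      rw [div_le_iff₀ q0]
      nlinarith
    have a2 : 1 / (8 * c) ≤ 1 / 24 := by
      rw [div_le_div_iff₀ (by positivity) (by norm_num)]
      linarith
    nlinarith [mul_nonneg E0 (by positivity : 0 ≤ (2 * E + 3) * ((2 * E + 5) * (1 / (8 * c))))])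
    hs (dcd E (ξ / 2) f z) z
  have h3 := bad_le (f := f) (half_pos ξ0) (E := E) (by
    rw [div_le_iff₀ q0]
    nlinarith)
  have h4 := (markov (f := fun z => Pr fun h => Bad E (ξ / 2) f z (h - z)) (fun _ => Pr_nn _)
    (half_pos δ0)).trans (div_le_div_of_nonneg_right ((Pr_prod fun z : V × V =>
      Bad E (ξ / 2) f z.1 (z.2 - z.1)).symm.trans_le h3) (half_pos δ0).le)
  refine h1.trans ((Pr_le_add fun x c2 => ?_).trans ((add_le_add
    ((Pr_prod fun x : V × Ω × (Fin 4 → V) => ∃ p, Adm E (cond x.2.1) p ∧ (Pr fun e =>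
      dcd E (ξ / 2) f x.1 (pnt (y x.2.1) x.1 x.2.2 e) ≠ p e) ≤ 2 * (1 / (8 * c))).trans_le (ex_le h2))
    ((Pr_le_add fun x => id).trans (add_le_add ((Pr_fst _).trans_le h4)
      ((Pr_prod fun x : V × Ω × (Fin 4 → V) => 1 / (8 * c) / 2 ≤ |(Pr fun e : Cx → F =>
        Bad E (ξ / 2) f x.1 (pnt (y x.2.1) x.1 x.2.2 e - x.1)) - Pr fun h =>
        Bad E (ξ / 2) f x.1 (h - x.1)|).trans_le (ex_le fun z =>
          samp3 y z (fun h => Bad E (ξ / 2) f z (h - z)) (half_pos δ0)))))).trans ?_))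
  · obtain ⟨p, hp, c2, c3⟩ := c2
    refine or_iff_not_imp_right.2 fun c4 => ⟨p, hp, ?_⟩
    obtain ⟨c4, c5⟩ := not_or.1 c4
    have c6 := (abs_lt.1 (not_le.1 c5)).2
    refine (Pr_le_add fun e c => ?_).trans ((add_le_add c3 (show (Pr fun e : Cx → F => Bad E (ξ / 2) f
      x.1 (pnt (y x.2.1) x.1 x.2.2 e - x.1)) ≤ 1 / (8 * c) by linarith [not_le.1 c4])).trans_eq
      (by ring))
    by_contra c'
    push Not at c'
    exact c ((dcd_eq c'.2 c'.1 (by simpa using c2)).trans (by simp))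
  · have a1 : 8 / (Fintype.card F : ℝ) / (1 / (8 * c)) ^ 2 ≤ η / 8 := by
      rw [show 8 / (Fintype.card F : ℝ) / (1 / (8 * c)) ^ 2 = 512 * c ^ 2 / Fintype.card F by
        field_simp; norm_num, div_le_iff₀ q0]
      linarith
    have a2 : 8 / (Fintype.card F : ℝ) / (1 / (8 * c) / 2) ^ 2 ≤ η / 2 := by
      rw [show 8 / (Fintype.card F : ℝ) / (1 / (8 * c) / 2) ^ 2 = 2048 * c ^ 2 / Fintype.card F by
        field_simp; norm_num, div_le_iff₀ q0]
      linarith
    have a3 : (2 / (ξ / 2)) ^ 2 * (2 * E / (Fintype.card F : ℝ)) / (1 / (8 * c) / 2) ≤ η / 8 := by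
      rw [show (2 / (ξ / 2)) ^ 2 * (2 * E / (Fintype.card F : ℝ)) / (1 / (8 * c) / 2)
        = 512 * (E * c) / (Fintype.card F * ξ ^ 2) by field_simp; ring,
        div_le_iff₀ (by positivity)]
      nlinarith
    linarith

end Pool.Agent.Lib.MP_a1e814_lc.Se
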