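import Pool.Agent.Lib.MP_a1e814_lc.SeStr
import Pool.Agent.Lib.MP_a1e814_lc.SeLDT

/-! The bipartite expansion instance of a system of quadratic constraints. -/

set_option linter.unusedSectionVars false
set_option synthInstance.maxSize 2000

namespace Pool.Agent.Lib.MP_a1e814_lc.Se

open Finset Function
open scoped BigOperators

variable (F : Type) [Field F] [Fintype F] [DecidableEq F] (T T0 t ρ D m k s : ℕ)

abbrev Qy := Option (Fin 3 × Fin k)
abbrev Cst := Cst0 F T0 t ρ D × (Qy k → Cx → F) × (Qy k → Fin s → F)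
abbrev Loc := Loc0 F T T0 t ρ D × Sy F T ρ D × (Fin 4 → Sy F T ρ D)
abbrev Om (C : Type) := Cst F T0 t ρ D k s × (Fin m → Loc F T T0 t ρ D) × (Fin t → Fin ρ → C)

variable {F T T0 t ρ D m k s} [NeZero T] (tr : F →+ B2) (φ : B2 →+* F)
  (sl : ZMod T ≃ Fin t × (Fin ρ × Bool → Fin T0 ⊕ Fin 7)) (f0 : Bk ρ D)

def Qs (l : Bk ρ D → F) : AddSubgroup ((Cx → F) → F) where
  carrier := {p | LD (Fintype.card (Bk ρ D)) p ∧ cnd l fun i => p (un i)}
  zero_mem' := ⟨LD.const _ 0, by simp [cnd]⟩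
  add_mem' := fun ⟨a, ⟨a1, a2, a3⟩, a4⟩ ⟨b, ⟨b1, b2, b3⟩, b4⟩ =>
    ⟨a.add b, ⟨by simp only [Pi.add_apply] at *; linear_combination a1 + b1,
      by simp only [Pi.add_apply] at *; linear_combination a2 + b2,
      by simp only [Pi.add_apply] at *; linear_combination a3 + b3⟩,
      by simp only [Pi.add_apply] at *; linear_combination a4 + b4⟩
  neg_mem' := fun ⟨a, ⟨a1, a2, a3⟩, a4⟩ =>
    ⟨by simpa only [neg_one_mul, Pi.neg_def] using a.cmul (-1), ⟨by simp only [Pi.neg_apply] at *; linear_combination -a1,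
      by simp only [Pi.neg_apply] at *; linear_combination -a2,
      by simp only [Pi.neg_apply] at *; linear_combination -a3⟩,
      by simp only [Pi.neg_apply] at *; linear_combination -a4⟩

/-- the labels of the queries -/
noncomputable def lab (a : Cst F T0 t ρ D k s) (i : Qy k) : Fin s → F :=
  (prj (Ann (Fin s) tr (Qs a.1.1.1) a.2.1) a.2.2).1 i

/-- the points of the queries, coordinate by coordinate -/
def gl (a : Cst F T0 t ρ D k s) (b : Loc F T T0 t ρ D) (n : Fin t → Fin ρ → Inf D) (i : Qy k) :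
    Sy F T ρ D := pnt (lsp φ sl f0 a.1 b.1 n) b.2.1 b.2.2 (a.2.1 i)

variable {C : Type} [Fintype C] [Nonempty C] (pol : C → Fin 4 → B2) (nv : C → Fin 7 → Ix D m)

noncomputable def nb (r : Om F T T0 t ρ D m k s C) (i : Qy k) : (Fin m → Sy F T ρ D) × (Fin s → F) :=
  (fun c => gl φ sl f0 r.1 (r.2.1 c) (fun i k => inf pol nv (r.2.2 i k) c) i, lab tr r.1 i)

def eR : Om F T T0 t ρ D m k s C ≃ ((Fin m → Sy F T ρ D) × Om0 F T T0 t ρ D m C
    × (Fin 4 → Fin m → Sy F T ρ D)) × (Qy k → Cx → F) × (Qy k → Fin s → F) where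
  toFun r := ((fun c => (r.2.1 c).2.1, (r.1.1, fun c => (r.2.1 c).1, r.2.2),
    fun i c => (r.2.1 c).2.2 i), r.1.2)
  invFun z := ((z.1.2.1.1, z.2), fun c => (z.1.2.1.2.1 c, z.1.1 c, fun i => z.1.2.2 i c), z.1.2.1.2.2)
  left_inv _ := rfl
  right_inv _ := rfl

theorem Pr_nb (W : (Fin m → Sy F T ρ D) × (Fin s → F) → Prop) :
    (Pr fun r : Om F T T0 t ρ D m k s C => ∀ i, W (nb tr φ sl f0 pol nv r i))
      = 𝔼 x : (Fin m → Sy F T ρ D) × Om0 F T T0 t ρ D m C × (Fin 4 → Fin m → Sy F T ρ D),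
        Pr fun z : (Qy k → Cx → F) × (Qy k → Fin s → F) => ∀ i,
          W (pnt (ysp φ sl f0 pol nv x.2.1) x.1 x.2.2 (z.1 i),
            (prj (Ann (Fin s) tr (Qs x.2.1.1.1.1) z.1) z.2).1 i) := by
  rw [← Pr_equiv eR.symm, Pr_prod]
  refine ex_congr fun x => Pr_congr fun z => forall_congr' fun i => iff_of_eq (congrArg W
    (Prod.ext (funext fun c => ?_) rfl))
  simp only [nb, gl, pnt_apply, Pi.add_apply, Pi.smul_apply, Finset.sum_apply]
  rfl

variable {tr nv} (htr : tr ≠ 0) {o : Ix D m} (ho : ∀ a, nv a 0 = o)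
include htr ho

theorem be_yes (ht : t * (1 / 8 : ℝ) ^ ρ ≤ 1 / 2) {x : Ix D m → B2} (h0 : x o = 1)
    (h : ∀ a k, qf (pol a) (fun r => x (nv a r)) k = 0) :
    ∃ W, Pr W ≤ (1 / 2) ^ s + 2 * Fintype.card (Bk ρ D) / Fintype.card F ∧ 1 ≤ 2 * 2 ^ (s * (3 * k))
      * Pr fun r : Om F T T0 t ρ D m k s C => ∀ i, W (nb tr φ sl f0 pol nv r i) := by
  obtain ⟨G, g1, g2, g3⟩ := src_yes φ sl f0 pol ho ht h0 h
  refine ⟨fun u => ∀ l, tr (u.2 l * G u.1) = 0, (Pr_tr htr G).trans (add_le_add (by simp) (g1.sz g2)),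
    ?_⟩
  rw [← Pr_fst (Ω' := Fin 4 → Fin m → Sy F T ρ D), ← Pr_snd (Ω := Fin m → Sy F T ρ D)] at g3
  rw [Pr_nb tr φ sl f0 pol nv fun u => ∀ l, tr (u.2 l * G u.1) = 0, mul_assoc, mul_expect]
  refine le_trans (by linarith) (mul_le_mul_of_nonneg_left (g3.trans (ex_mono fun x => ind_le_of
    (mul_nonneg (by positivity) (Pr_nn _)) fun c => ?_)) zero_le_two)
  rw [Pr_prod, mul_expect]
  letI := Fintype.ofFinite (Qs x.2.1.1.1.1)
  refine le_ex fun e => ?_
  simpa using inner_yes (σ := Fin s) (tr := tr) (Qs x.2.1.1.1.1) e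
    (p := fun e => G (pnt (ysp φ sl f0 pol nv x.2.1) x.1 x.2.2 e))
    ⟨g1.comp _, by simpa only [pnt_un] using c⟩

theorem be_no {ε u μ : ℝ} {n : ℕ} (ε0 : 0 ≤ ε) (ε1 : ε ≤ 1 / 4) (hT : (1 - (1 / 2) ^ D) ^ T0 ≤ ε / 8)
    (h : ∀ x : Ix D m → B2, x o = 1 → ε ≤ Pr fun a => ∃ k, qf (pol a) (fun r => x (nv a r)) k ≠ 0)
    (u0 : 0 < u) (u1 : u ≤ 1 / 2) (h1 : s * u ≤ 1) (h2 : n * u ^ (4 * k + 2) = 1)
    (h3 : (2 * μ) ^ (3 * k + 1) ≤ u) (h4 : u ≤ μ) (h5 : k = 2 * (Fintype.card (Bk ρ D) + 1) ^ 11)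
    (hq : 2 ^ 14 * (Fintype.card (Bk ρ D) + 3) ^ 6 ≤ Fintype.card F * u ^ (28 * k + 17))
    (hs : (1 - (1 / 8 + ε / 16) ^ ρ) ^ t ≤ u ^ (10 * k + 8) / 3)
    (W : (Fin m → Sy F T ρ D) × (Fin s → F) → Prop) (hW : Pr W ≤ μ) :
    (Pr fun r : Om F T T0 t ρ D m k s C => ∀ i, W (nb tr φ sl f0 pol nv r i)) ≤ 8 * u := by
  classical
  set E := Fintype.card (Bk ρ D) with hE
  set q := (Fintype.card F : ℝ) with hq'
  have q0 : 0 < q := by rw [hq']; exact_mod_cast Fintype.card_pos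
  have E0 : (0 : ℝ) ≤ E := by positivity
  have u2 : u ≤ 1 := by linarith
  have k1 : ∀ j ≤ 28 * k + 17, 2 ^ 14 * (E + 3 : ℝ) ^ 6 ≤ q * u ^ j := fun j hj =>
    hq.trans (mul_le_mul_of_nonneg_left (pow_le_pow_of_le_one u0.le u2 hj) q0.le)
  have k2 : (E + 3 : ℝ) ^ 2 ≤ (E + 3) ^ 6 := pow_le_pow_right₀ (by linarith) (by norm_num)
  have k0 := k1 0 (by omega)
  rw [pow_zero, mul_one] at k0
  let f : ℕ × Fin s → (Fin m → Sy F T ρ D) → F := fun j v =>
    lst tr (u ^ (2 * k + 1)) (fun a => W (v, a)) j.1 j.2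
  have a1 := fun j => ldt (ysp φ sl f0 pol nv) (fun ω => cnd ω.1.1.1) (ξ := u ^ (6 * k + 3))
    (η := u ^ (10 * k + 8) / 3) (δs := 2 * (u ^ (10 * k + 8) / 3)) (by positivity)
    (pow_le_one₀ u0.le u2) (by positivity) (by linarith [pow_le_one₀ (n := 10 * k + 8) u0.le u2])
    (by positivity) (by
      rw [← pow_mul, mul_div_assoc', mul_assoc, ← pow_add, le_div_iff₀ (by norm_num)]
      refine le_trans ?_ (k1 _ (by omega))
      linarith [pow_nonneg (show (0 : ℝ) ≤ E + 3 by linarith) 6])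
    (fun G g1 g2 => (src_no φ sl f0 pol ho htr ε0 ε1 hT (by
      rw [← Nat.cast_lt (α := ℝ)]
      push_cast
      nlinarith) h G g1 g2).trans (by
      have : (4 * E + 2) / q ≤ u ^ (10 * k + 8) / 3 := by
        rw [div_le_div_iff₀ q0 (by norm_num)]
        nlinarith [k1 (10 * k + 8) (by omega)]
      linarith)) (f j)
  have a2 := (Pr_le_sum (s := range n ×ˢ univ) fun x => id).trans (sum_le_card_nsmul _ _
    (2 * u ^ (4 * k + 5)) fun j _ => le_of_mul_le_mul_right ((a1 j).trans_eq (by ring))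
      (by positivity))
  have a3 := (Pr_prod fun x : (Fin m → Sy F T ρ D) × Om0 F T T0 t ρ D m C
      × (Fin 4 → Fin m → Sy F T ρ D) => μ ≤ |𝔼 e : Cx → F, (Pr fun a => W (pnt (ysp φ sl f0 pol nv
        x.2.1) x.1 x.2.2 e, a)) - 𝔼 v, Pr fun a => W (v, a)|).trans_le (ex_le fun z =>
    (Pr_prod _).trans_le (ex_le fun ω => samp1 (F := F) (ysp φ sl f0 pol nv ω) z
      (A := fun v => Pr fun a => W (v, a)) (fun _ => Pr_nn _) (fun _ => Pr_le _) (u0.trans_le h4)))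
  have a4 : 8 / q / μ ^ 2 ≤ u := by
    rw [div_div, div_le_iff₀ (by have := u0.trans_le h4; positivity)]
    have := mul_le_mul_of_nonneg_left (pow_le_pow_left₀ u0.le h4 2) (mul_pos u0 q0).le
    nlinarith [k1 3 (by omega)]
  have a5 : (range n ×ˢ (univ : Finset (Fin s))).card • (2 * u ^ (4 * k + 5)) ≤ u := by
    rw [card_product, card_range, card_univ, Fintype.card_fin, nsmul_eq_mul, Nat.cast_mul]
    calc n * s * (2 * u ^ (4 * k + 5)) = n * u ^ (4 * k + 2) * (s * u * (2 * u) * u) := by ring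
      _ ≤ u := by
        rw [h2, one_mul]
        exact mul_le_of_le_one_left u0.le (mul_le_one₀ h1 (by positivity) (by linarith))
  rw [Pr_nb]
  refine (ex_le_add_Pr (a := 5 * u) (by positivity) (fun _ => Pr_le _) fun x c => ?_).trans
    ((add_le_add_right ((Pr_le_add fun x => id).trans (add_le_add (a2.trans a5) (a3.trans a4))) _).trans
      (by linarith))
  obtain ⟨c1, c2⟩ := not_or.1 c
  letI := Fintype.ofFinite (Qs x.2.1.1.1.1)
  refine (inner_no (κ := Fin k) (Qs x.2.1.1.1.1) htr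
    (fun e a => W (pnt (ysp φ sl f0 pol nv x.2.1) x.1 x.2.2 e, a)) (ε' := u ^ (2 * k + 1))
    (ξ := u ^ (6 * k + 3)) (z := 2 * E / q) (n := n) u0 (by positivity) (by positivity)
    (by rw [← h2]; exact le_of_eq (by ring)) (by positivity) (fun p hp c => hp.1.sz c)
    fun j hj l p hp c => (not_le.1 fun c' => c1 ⟨(j, l), mem_product.2 ⟨hj, mem_univ _⟩, p,
      ⟨hp.1, c, hp.2⟩, c'⟩).le).trans ?_
  rw [Fintype.card_fin]
  have b1 : (𝔼 e : Cx → F, Pr fun a => W (pnt (ysp φ sl f0 pol nv x.2.1) x.1 x.2.2 e, a))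
      ^ (3 * k + 1) ≤ u := (pow_le_pow_left₀ (ex_nn fun _ => Pr_nn _) (by
    rw [← Pr_prod] at c2
    linarith [(abs_lt.1 (not_le.1 c2)).2]) _).trans h3
  have b2 : (u ^ (2 * k + 1) + n * u ^ (6 * k + 3)) / u ^ (2 * k) = 2 * u := by
    rw [show n * u ^ (6 * k + 3) = n * u ^ (4 * k + 2) * u ^ (2 * k + 1) by ring, h2]
    field_simp
    ring
  have b3 : (Fintype.card (Qs x.2.1.1.1.1) : ℝ) ≤ q ^ (E + 1) ^ 11 := by
    have := card_LD (E := E) (by
      rw [← Nat.cast_lt (α := ℝ)]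
      nlinarith) (univ.map (Embedding.subtype (· ∈ Qs x.2.1.1.1.1))) fun p hp => by
      obtain ⟨p, -, rfl⟩ := mem_map.1 hp
      exact p.2.1
    rw [card_map, card_univ, show Fintype.card Cx = 11 from rfl] at this
    rw [hq']
    exact_mod_cast this
  have b4 : q ^ (E + 1) ^ 11 * (2 * E / q) ^ k ≤ u / 3 := by
    have : q * (2 * E / q) ^ 2 ≤ u / 3 := by
      rw [show q * (2 * E / q) ^ 2 = 4 * E ^ 2 / q by field_simp; ring,
        div_le_div_iff₀ q0 (by norm_num)]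
      nlinarith [k1 1 (by omega)]
    have n0 : (E + 1) ^ 11 ≠ 0 := pow_ne_zero _ (Nat.succ_ne_zero E)
    rw [h5]
    generalize (E + 1) ^ 11 = N at n0 ⊢
    rw [pow_mul, ← mul_pow]
    exact (pow_le_of_le_one (by positivity) (this.trans (by linarith)) n0).trans this
  have b5 := mul_le_mul_of_nonneg_right b3 (by positivity : 0 ≤ (2 * E / q) ^ k)
  linarith

end Pool.Agent.Lib.MP_a1e814_lc.Se
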