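import Pool.Agent.Lib.MP_a1e814_lc.Defs

/-! Approximation ratios that depend on the number of vertices, and deterministic time classes. -/

namespace Pool.Agent.Lib.MP_a1e814_lc

/-- On every instance with `n ≥ n₀` vertices, and against every cut `T` separating a positive
demand, the algorithm returns a cut that separates a positive demand and has ratio-cost at most
`ρ n` times that of `T`. -/
def ApproximatesFrom (n₀ : ℕ) (ρ : ℕ → ℝ) (alg : Inst → List ℕ) : Prop :=
  ∀ I, Valid I → n₀ ≤ I.1 → ∀ T ⊆ Finset.range I.1, 0 < cut I.2.2 T →
    0 < cut I.2.2 (alg I).toFinset ∧ (ratio I (alg I).toFinset : ℝ) ≤ ρ I.1 * ratio I T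

/-- Languages decided in time polynomial in `|x| + T |x|`: a polynomial time machine decides them
when the input is padded by `T |x|` ones. -/
def PadTime (T : ℕ → ℕ) : Set N68a2faeb.DecisionProblem :=
  {L | ∃ R : List Bool × List Bool → Bool, N68a2faeb.IsPolyTime R ∧
    ∀ x, R (x, List.replicate (T x.length) true) = L x}

end Pool.Agent.Lib.MP_a1e814_lc
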