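import Pool.Agent.Lib.MP_a1e814_lc.SePar
import Pool.Agent.Lib.MP_a1e814_lc.SeAdv
import Pool.Agent.Lib.MP_4d0379_lc.Zuck

/-! An approximation algorithm decides every language in `NP` in subexponential time. -/

namespace Pool.Agent.Lib.MP_a1e814_lc.Se

open Function Filter Pool.Agent.Lib.Complexity N68a2faeb N487b59b3

theorem between {f : ℕ → ℕ} (hf : ∀ n, n ≤ f n) {n0 x : ℕ} (h : f n0 ≤ x) :
    ∃ n ≥ n0, f n ≤ x ∧ x < f (n + 1) := by
  by_contra c
  push Not at c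
  have : ∀ n, f (n0 + n) ≤ x := fun n => by
    induction n with
    | zero => exact h
    | succ n ih => exact c _ (Nat.le_add_right _ _) ih
  have := (hf _).trans (this (x + 1))
  omega

def Bud (c : ℕ) (G : BE) : ℕ := G.Z ^ (c * (2 * (G.J * G.KT) + 1) + 1)

theorem budget (c : ℕ) : ∃ e, ∀ (θ : Adv) m (ψ : CNF), 2 ≤ m → sz θ ≤ m → ψ.length ≤ m ^ m →
    Bud c (mkBE θ m ψ) ≤ 2 ^ m ^ e := by
  let β := {z : Adv × ℕ × CNF // sz z.1 ≤ z.2.1 ∧ z.2.2.length ≤ z.2.1 ^ z.2.1}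
  have p0 : PB (fun z : β => z.1.2.1) fun z => z.1.2.1 := PB.self
  have p1 : ∀ i, PB (fun z : β => z.1.2.1) fun z => z.1.1.1.getD i 0 := fun i => p0.mono fun z => by
    have := z.2.1
    rw [sz_prod] at this
    by_cases c : i < z.1.1.1.length
    · have := sz_lt_of_mem (List.getElem_mem c)
      rw [List.getD_eq_getElem _ _ c]
      rw [sz_nat] at this
      omega
    · exact (List.getD_eq_default _ _ (not_lt.1 c)).trans_le (Nat.zero_le _)
  have p2 : SE (fun z : β => z.1.2.1) fun z => z.1.2.2.length :=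
    ((SE.of p0).pow p0).mono fun z => z.2.2
  obtain ⟨e, he⟩ := SE.bound (Z := fun z : β => z.1.2.1)
    (f := fun z => Bud c (mkBE z.1.1 z.1.2.1 z.1.2.2)) (by
    simp only [Bud, BE.Z, BE.KT, BE.X, BE.Y, BE.N, mkBE]
    repeat' with_reducible first
      | apply SE.add | apply SE.mul | apply SE.pow | apply PB.add | apply PB.mul | assumption
      | exact p1 _ | exact PB.const _ | apply SE.of)
  exact ⟨e, fun θ m ψ h1 h2 h3 => he ⟨(θ, m, ψ), h2, h3⟩ h1⟩

theorem log_le {x : ℝ} (h0 : 0 < x) {y : ℕ} (h : x ≤ 2 ^ y) : Real.log x ≤ y := by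
  rw [Real.log_le_iff_le_exp h0, ← Real.exp_one_pow]
  exact h.trans (pow_le_pow_left₀ zero_le_two Real.exp_one_gt_two.le y)

theorem gap {n j a : ℕ} (ha : a ≠ 0) (hj : 8 ≤ j) (hn : 3 ≤ n) (h : n ≤ 2 ^ 2 ^ (8 * j) ^ a) :
    216 * Real.exp (Real.log (Real.log n) ^ ((2 * a : ℕ) : ℝ)⁻¹) < (2 ^ (8 * j) : ℕ) := by
  have h0 : (3 : ℝ) ≤ n := by exact_mod_cast hn
  have h1 : 1 ≤ Real.log n := (Real.le_log_iff_exp_le (by linarith)).2 (Real.exp_one_lt_three.le.trans h0)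
  have h2 := log_le (by linarith) ((log_le (by linarith) (by exact_mod_cast h : (n : ℝ)
    ≤ 2 ^ 2 ^ (8 * j) ^ a)).trans_eq (by norm_cast : _ = (2 : ℝ) ^ (8 * j) ^ a))
  have h3 : Real.log (Real.log n) ^ ((2 * a : ℕ) : ℝ)⁻¹ ≤ j := by
    refine le_of_pow_le_pow_left₀ (n := 2 * a) (by omega) (by positivity) ?_
    rw [Real.rpow_inv_natCast_pow (Real.log_nonneg h1) (by omega), pow_mul]
    exact h2.trans (by exact_mod_cast Nat.pow_le_pow_left (by nlinarith) a)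
  have h4 := (Real.exp_le_exp.2 h3).trans ((Real.exp_one_pow j).ge.trans
    (pow_le_pow_left₀ (Real.exp_pos 1).le (Real.exp_one_lt_three.le.trans (by norm_num : (3 : ℝ) ≤ 4)) j))
  have h5 : (64 : ℝ) ^ 2 ≤ 64 ^ j := pow_le_pow_right₀ (by norm_num) (by omega)
  rw [Nat.cast_pow, Nat.cast_ofNat, pow_mul, show (2 : ℝ) ^ 8 = 64 * 4 by norm_num, mul_pow]
  nlinarith [pow_pos (show (0 : ℝ) < 4 by norm_num) j]

theorem bits_bval (w : Str) : (bval (w ++ [true])).bits = w ++ [true] := by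
  rw [← foldr_normStep]
  induction w with
  | nil => rfl
  | cons b w ih => rw [List.cons_append, List.foldr_cons, ih]; cases w <;> rfl

theorem advised {L : DecisionProblem} (hL : L ∈ NP) (d : ℕ) : ∃ δ : ℝ, 0 < δ ∧ ∀ n₀ alg,
    IsPolyTime alg → ApproximatesFrom n₀ (fun n => Real.exp (Real.log (Real.log n) ^ δ)) alg →
    Advised L d := by
  obtain ⟨ε, ε0, ε1, hs⟩ := MP_4d0379_lc.satGap
  obtain ⟨ψ, pψ, hψ⟩ := hs L hL
  obtain ⟨c, hc⟩ := BE.dec
  obtain ⟨e, he⟩ := budget c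
  let f : ℕ → ℕ := fun m => m ^ e + 4 * m + 4
  have pf : PB (fun m => m) fun m => f (m + 1) := (((PB.self.add (PB.const 1)).pow e).add
    ((PB.const 4).mul (PB.self.add (PB.const 1)))).add (PB.const 4)
  obtain ⟨c1, hc1⟩ := exists_pow pf
  obtain ⟨p, hp⟩ := pψ.pb
  obtain ⟨D, hD⟩ := exists_pow (((PB.const 3).mul (((PB.const 2).mul (pf.pow d)).eval p)).add
    (PB.const 4))
  obtain ⟨a, ha⟩ := params D.succ_pos (by positivity : 0 < ε / 4) (by linarith)
  refine ⟨((2 * (a + 2) : ℕ) : ℝ)⁻¹, by positivity, fun n₀ alg halg hA => ?_⟩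
  let u : Str × ℕ × ℕ → ℕ × Adv := fun z => rd (PT.parse z.2.1.bits)
  have pu : PT u := PT.rd (PT.parse'.comp (PTB.of_unary (by fun_prop)))
  let G : Str × ℕ × ℕ → BE := fun z => mkBE (u z).2 (u z).1 (ψ z.1)
  have q : ∀ i, PT fun z => (u z).2.1.getD i 0 := fun i => by fun_prop
  have q1 : PTB fun z => (G z).NR := (PTB.of_unary (q 0)).mul (((PTB.of_unary (q 1)).pow pu.fst).mul
    ((PTB.of_unary (f := fun z : Str × ℕ × ℕ => (ψ z.1).length) (by fun_prop)).pow (q 4)))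
  have q2 : PTB fun z => (G z).NU := (PTB.of_unary (q 3)).mul ((PTB.of_unary (q 2)).pow pu.fst)
  have q3 : PT fun z => (G z).N := ((q 9).mul (q 8)).add (q 8)
  have q4 : PTB fun z => Bud c (G z) := PTB.pow (((((((q1.add q2).add (.of_unary (q 5))).add
    (.of_unary (q 7))).add (.of_unary q3)).add (q1.pow (q 7))).add (q2.pow q3)).add (.const 2))
    (((PT.const c).mul (((PT.const 2).mul ((q 9).mul ((((PT.const 3).mul (q 5)).add (.const 18)).mul
    (((q 7).add (.const 1)).mul q3)))).add (.const 1))).add (.const 1))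
  let α := {z : Str × ℕ × ℕ // Bud c (G z) ≤ z.2.2}
  have hB : PB sz fun z : α => Bud c (G z.1) :=
    (PT.pb_nat (f := fun z : α => z.1.2.2) (by fun_prop)).mono fun z => z.2
  have hZ : PB sz fun z : α => (G z.1).Z := hB.mono fun z => Nat.le_self_pow (by omega) _
  have q5 : PT fun z : α => (G z.1).NU := PTB.to_unary (PT.restrict q2 _)
    (hZ.mono fun z => by unfold BE.Z; omega)
  have pv : PT fun z : α × ℕ × ℕ => z.1.1 := PT.subtype_val (PT.fst PT.id)
  have q6 := fun i => (q i).comp pv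
  obtain ⟨dd, n, pd, pn, h⟩ := hc (fun z : α => G z.1) (PTB.to_unary (PT.restrict q1 _)
    (hZ.mono fun z => by unfold BE.Z; omega)) q5 ((q 5).restrict _) ((q 7).restrict _)
    ((q 8).restrict _) ((q 9).restrict _) (pt_gam (q6 0) (q6 1) (q6 2) (q6 3) (q6 4) (q6 6)
      (q5.comp (PT.fst PT.id)) (pu.comp pv).snd.snd.fst (pu.comp pv).snd.snd.snd (pu.comp pv).fst
      (pψ.comp pv.fst) (by fun_prop) (by fun_prop)) hB halg (n₀ := n₀ + 3)
    (ρ := fun n => Real.exp (Real.log (Real.log n) ^ ((2 * (a + 2) : ℕ) : ℝ)⁻¹))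
    fun I h1 h2 => hA I h1 (by omega)
  obtain ⟨p2, hp2⟩ := pn.pb_nat
  have p3 : PB (fun l => 2 ^ l) fun l : ℕ => l := PB.self.mono fun _ => Nat.lt_two_pow_self.le
  obtain ⟨c3, hc3⟩ := exists_pow (((((PB.const 2).mul (p3.pow d)).add ((PB.const 2).mul PB.self)).add
    (PB.const 2)).eval p2)
  obtain ⟨r0, hr⟩ := eventually_atTop.1 (ha.and (eventually_ge_atTop (c3 + c1 * 2 ^ (a + 1) + D + 7)))
  have hM : ∀ r, r ≤ 2 ^ (2 ^ r) ^ (a + 1) := fun r => Nat.lt_two_pow_self.le.trans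
    ((Nat.le_self_pow (by omega) _).trans Nat.lt_two_pow_self.le)
  refine ⟨fun z => if h : Bud c (G z) ≤ z.2.2 then dd ⟨z, h⟩ else false, PT.by_cases
    (q4.le (.of_unary (by fun_prop))) (pd.of_eq fun z => by simp [z.2])
    ((PT.const false).of_eq fun z => by simp [z.2]), f (2 ^ (2 ^ r0) ^ (a + 1)), fun l hl => ?_⟩
  obtain ⟨m, m0, m1, m2⟩ := between (f := f) (fun m => by simp only [f]; omega) hl
  obtain ⟨r, r1, r2, r3⟩ := between hM m0
  obtain ⟨⟨θ, θ1, θ2, θ3⟩, r4⟩ := hr r r1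
  have r5 := (hM r).trans r2
  have m3 : m ^ e + 4 * m + 4 ≤ l := m1
  have w1 : bval ((enc (m, θ)).bits ++ [true]) < 2 ^ l := (bval_lt _).trans_le
    (Nat.pow_le_pow_right two_pos (by
      rw [List.length_append, T.length_bits, ← sz, sz_pair, sz_nat, List.length_singleton]
      omega))
  refine ⟨_, w1, fun x hx => ?_⟩
  generalize hw : bval _ = w at w1 ⊢
  have w2 : G (x, w, 2 ^ l) = mkBE θ m (ψ x) := by
    simp only [G, u, ← hw, bits_bval, PT.parse, PT.parse_bits, List.headD_cons, Rd.rd_enc]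
  have x1 := (PT.sz_str_le x).trans (Nat.mul_le_mul_left 2 hx)
  have x2 : 3 * sz (ψ x) + 4 ≤ m ^ (D + 1) := le_trans (by
    have := (hp x).trans (peval_mono p (x1.trans (Nat.mul_le_mul_left 2 (Nat.pow_le_pow_left m2.le d))))
    dsimp only at this ⊢
    omega) ((hD m (by omega)).trans (Nat.pow_le_pow_right (by omega) D.le_succ))
  have x3 : Bud c (G (x, w, 2 ^ l)) ≤ 2 ^ l := w2 ▸ (he θ m _ (by omega) (θ1.trans r2) (by
    have := length_le_sz (ψ x)
    have := Nat.pow_le_pow_right (show 0 < m by omega) (show D + 1 ≤ m by omega)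
    omega)).trans (Nat.pow_le_pow_right two_pos (by omega))
  obtain ⟨y0, y1, y2, y3⟩ := hψ x
  obtain ⟨b1, b2, b3⟩ := θ3 m (by omega) _ y0 y1 x2
  obtain ⟨n1, n2⟩ := h ⟨_, x3⟩
  simp only [w2] at n2
  refine (dif_pos x3).trans ?_
  cases hx' : L x with
  | false => exact (n2 b1).2 (b3 fun s => le_trans (mul_le_mul_of_nonneg_right (by linarith)
      (by positivity)) (y3 (by simp [hx']) s))
  | true =>
    refine (n2 b1).1 (b2 (y2 hx')) ?_
    obtain ⟨r, rfl⟩ := Nat.exists_eq_add_of_le (show 3 ≤ r by omega)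
    have g1 : 3 + r < 2 ^ (3 + r) := Nat.lt_two_pow_self
    have g2 : c3 * l ≤ 2 ^ (2 ^ (3 + r)) ^ (a + 2) := by
      refine (Nat.mul_le_mul Nat.lt_two_pow_self.le ((m2.le.trans (hc1 m (by omega))).trans
        (Nat.pow_le_pow_left r3.le c1))).trans ?_
      rw [← pow_mul, ← pow_add, pow_succ 2, mul_pow, pow_succ _ (a + 1)]
      refine Nat.pow_le_pow_right two_pos ?_
      nlinarith [Nat.mul_le_mul_left c3 (Nat.one_le_pow (a + 1) _ (Nat.two_pow_pos (3 + r))),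
        Nat.mul_le_mul_left ((2 ^ (3 + r)) ^ (a + 1)) (show c3 + c1 * 2 ^ (a + 1) ≤ 2 ^ (3 + r) by omega)]
    rw [show (mkBE θ m (ψ x)).J = _ from θ2, pow_add]
    refine gap (by omega) (Nat.pow_le_pow_right two_pos (show 3 ≤ r by omega)) (by omega)
      ((hp2 _).trans ((peval_mono p2 ?_).trans ((hc3 l (Nat.le_self_pow (by omega) 2)).trans ?_)))
    · change sz x + (sz w + sz (2 ^ l) + 1) + 1 ≤ _
      simp only [sz_nat]
      omega
    · rw [← pow_mul, mul_comm]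
      exact Nat.pow_le_pow_right two_pos (pow_add 2 3 r ▸ g2)

theorem final {L : DecisionProblem} (hL : L ∈ NP) {d : ℕ} (hd : 0 < d) : ∃ δ : ℝ, 0 < δ ∧ ∀ n₀ alg,
    IsPolyTime alg → ApproximatesFrom n₀ (fun n => Real.exp (Real.log (Real.log n) ^ δ)) alg →
    L ∈ PadTime fun n => 2 ^ ⌊(n : ℝ) ^ (1 / d : ℝ)⌋₊ := by
  obtain ⟨L', h1, d', h2⟩ := advice hL d
  obtain ⟨δ, h3, h4⟩ := advised h1 d'
  refine ⟨δ, h3, fun n₀ alg p h => h2 (h4 n₀ alg p h) _ fun n => ?_⟩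
  have := pow_le_pow_left₀ (by positivity) (Nat.lt_floor_add_one ((n : ℝ) ^ (1 / d : ℝ))).le d
  rw [one_div, Real.rpow_inv_natCast_pow n.cast_nonneg hd.ne', ← one_div] at this
  exact_mod_cast this

theorem weaken (c : ℝ) {δ : ℝ} (h : 0 < δ) {n₀ : ℕ} {alg : Inst → List ℕ}
    (hA : ApproximatesFrom n₀ (fun n => Real.log (Real.log n) ^ c) alg) :
    ∃ n₁, ApproximatesFrom n₁ (fun n => Real.exp (Real.log (Real.log n) ^ δ)) alg := by
  obtain ⟨n₁, h1⟩ := eventually_atTop.1 ((Real.tendsto_log_atTop.comp (Real.tendsto_log_atTop.comp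
    (tendsto_natCast_atTop_atTop (R := ℝ)))).eventually ((((isLittleO_log_rpow_atTop h).const_mul_left
      c).bound one_pos).and (eventually_gt_atTop 0)))
  refine ⟨n₀ + n₁, fun I v hn T t1 t2 => ⟨(hA I v (by omega) T t1 t2).1,
    (hA I v (by omega) T t1 t2).2.trans (mul_le_mul_of_nonneg_right ?_ ?_)⟩⟩
  · obtain ⟨a1, a2⟩ := h1 I.1 (by omega)
    simp only [comp_apply, one_mul, Real.norm_eq_abs] at a1 a2 ⊢
    rw [Real.rpow_def_of_pos a2, mul_comm]
    exact Real.exp_le_exp.2 ((le_abs_self _).trans (a1.trans_eq (abs_of_pos (by positivity))))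
  · refine Rat.cast_nonneg.2 (div_nonneg (List.sum_nonneg fun x hx => ?_) t2.le)
    obtain ⟨e, he, rfl⟩ := List.mem_map.1 hx
    split_ifs
    exacts [le_rfl, (v.1 e he).2.2.2]

end Pool.Agent.Lib.MP_a1e814_lc.Se
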