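import Pool.Agent.Lib.MP_a1e814_lc.SeAmp
import Pool.Agent.Lib.MP_a1e814_lc.Num

/-! The two terminal instance on sets of cells. -/

set_option linter.unusedSectionVars false

namespace Pool.Agent.Lib.MP_a1e814_lc.Se

open Finset Function Pool.Agent.Lib.Complexity
open scoped BigOperators

/-- the first `n` digits of `ω` in base `Q` -/
def dl (Q n ω : ℕ) : List ℕ := (List.range n).map fun k => ω / Q ^ k % Q

theorem dl_succ (Q n ω : ℕ) : dl Q (n + 1) ω = ω % Q :: dl Q n (ω / Q) := by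
  simp [dl, List.range_succ_eq_map, Nat.div_div_eq_div_mul, pow_succ', Function.comp_def]

@[fun_prop] theorem pt_dl {α : Type} [Enc α] {Q n ω : α → ℕ} (hQ : PT Q) (hn : PT n) (hω : PT ω) :
    PT fun a => dl (Q a) (n a) (ω a) := by
  refine PT.map hn.range ?_
  have h1 : PT fun p : α × ℕ => Q p.1 := by fun_prop
  have h2 : PT fun p : α × ℕ => ω p.1 := by fun_prop
  refine PTB.to_unary (((PTB.of_unary h2).div ((PTB.of_unary h1).pow (by fun_prop))).mod
    (PTB.of_unary h1)) (h2.pb_nat.mono fun p => (Nat.mod_le _ _).trans (Nat.div_le_self _ _))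

theorem sum_digit {Q : ℕ} (hQ : 0 < Q) (M : ℕ) (g : ℕ → ℕ → ℝ) :
    ∑ ω ∈ range (Q * M), g (ω % Q) (ω / Q) = ∑ x ∈ range Q, ∑ ω ∈ range M, g x ω := by
  rw [← sum_product']
  refine sum_nbij' (fun ω => (ω % Q, ω / Q)) (fun p => p.1 + Q * p.2) ?_ ?_ ?_ ?_ fun _ _ => rfl
  · intro ω h
    simp only [mem_product, mem_range] at h ⊢
    exact ⟨Nat.mod_lt _ hQ, Nat.div_lt_of_lt_mul h⟩
  · intro p h
    simp only [mem_product, mem_range] at h ⊢
    nlinarith [Nat.mul_le_mul_left Q (Nat.succ_le_of_lt h.2)]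
  · exact fun ω _ => Nat.mod_add_div ω Q
  · intro p h
    simp only [mem_product, mem_range] at h
    simp [Nat.add_mul_div_left _ _ hQ, Nat.mod_eq_of_lt h.1, Nat.div_eq_of_lt h.1]

theorem sum_dl {Q : ℕ} (hQ : 0 < Q) {a n : ℕ} (h : a ≤ n) (T : Finset ℕ) (G : Finset ℕ → ℝ) :
    ∑ ω ∈ range (Q ^ n), G ((dl Q a ω).toFinset ∪ T) = Q ^ n * Pw (range Q) a T G := by
  induction a generalizing n T with
  | zero => simp [dl, Pw]
  | succ a ih =>
    obtain ⟨n, rfl⟩ : ∃ m, n = m + 1 := ⟨n - 1, by omega⟩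
    simp only [dl_succ, List.toFinset_cons, insert_union, ← union_insert]
    rw [pow_succ', sum_digit hQ _ fun x ω => G ((dl Q a ω).toFinset ∪ insert x T)]
    simp only [ih (by omega : a ≤ n), Pw, ← mul_sum]
    rw [← card_mul_expect, card_range]
    ring

section
variable {W : Type}

theorem cut_sum (n : ℕ) (g : ℕ → WL W) (F : W → Bool) :
    (cutN ((List.range n).flatMap g) F : ℝ) = ∑ i ∈ range n, (cutN (g i) F : ℝ) := by
  rw [cutN_flatMap, ← List.sum_toFinset _ List.nodup_range, List.toFinset_range, Nat.cast_sum]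

theorem cut_ex (n : ℕ) (g : ℕ → WL W) (F : W → Bool) :
    (cutN ((List.range n).flatMap g) F : ℝ) = n * 𝔼 i ∈ range n, (cutN (g i) F : ℝ) := by
  rw [cut_sum, ← card_mul_expect, card_range]

theorem cut_dl {Q : ℕ} (hQ : 0 < Q) {a n : ℕ} (h : a ≤ n) (g : List ℕ → WL W) (F : W → Bool)
    (G : Finset ℕ → ℝ) (e : ∀ l, (cutN (g l) F : ℝ) = G l.toFinset) :
    (cutN ((List.range (Q ^ n)).flatMap fun ω => g (dl Q a ω)) F : ℝ)
      = Q ^ n * Pw (range Q) a ∅ G := by
  rw [cut_sum, ← sum_dl hQ h]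
  simp [e]

end

abbrev Vx := Bool ⊕ (List ℕ × List ℕ)

def nm (Q : ℕ) (S : Finset ℕ) : List ℕ := (List.range Q).filter fun i => decide (i ∈ S)

def vx (NR NU : ℕ) (l l' : List ℕ) : Vx :=
  .inr ((List.range NR).filter fun i => decide (i ∈ l), (List.range NU).filter fun i => decide (i ∈ l'))

def fn (NR NU : ℕ) (F : Vx → Bool) (ρ S : Finset ℕ) : Prop := F (.inr (nm NR ρ, nm NU S)) = true

theorem vx_eq (NR NU : ℕ) (l l' : List ℕ) :
    vx NR NU l l' = .inr (nm NR l.toFinset, nm NU l'.toFinset) := by simp [vx, nm]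

def path (u v : Vx) : WL Vx := [(.inl true, v, 1), (v, u, 1), (u, .inl false, 1)]

def loc (NR NU K : ℕ) (Γ : ℕ → ℕ → ℕ) (l l' : List ℕ) : WL Vx :=
  (List.range NR).flatMap fun r => (List.range NU).flatMap fun u => (List.range K).flatMap fun i =>
    path (vx NR NU (r :: l) l') (vx NR NU l l') ++ (path (vx NR NU l (u :: l')) (vx NR NU l l')
      ++ path (vx NR NU l (Γ r i :: l')) (vx NR NU (r :: l) l'))

def Eb (NR NU K A N X Y : ℕ) (Γ : ℕ → ℕ → ℕ) : WL Vx :=
  (List.range (A + 1)).flatMap fun a => (List.range N).flatMap fun b =>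
    (List.range X).flatMap fun ω => (List.range Y).flatMap fun ω' =>
      loc NR NU K Γ (dl NR a ω) (dl NU b ω')

def Db (NR NU A B X Y : ℕ) : WL Vx :=
  (List.range A).flatMap fun a => (List.range B).flatMap fun b =>
    (List.range Y).flatMap fun ω' => (List.range X).flatMap fun ω => (List.range X).flatMap fun ω2 =>
      [(vx NR NU (dl NR (a + 1) ω) (dl NU b ω'), vx NR NU (dl NR (a + 1) ω2) (dl NU b ω'), 1)]

section
variable {NR NU K A N B : ℕ} (Γ : ℕ → ℕ → ℕ) (F : Vx → Bool)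

theorem cut_Eb (h1 : 0 < NR) (h2 : 0 < NU) (G : Finset ℕ → Finset ℕ → ℝ)
    (e : ∀ l l', (cutN (loc NR NU K Γ l l') F : ℝ) = G l.toFinset l'.toFinset) :
    (cutN (Eb NR NU K A N (NR ^ A) (NU ^ N) Γ) F : ℝ) = NR ^ A * NU ^ N *
      ∑ a ∈ range (A + 1), ∑ b ∈ range N, A2 (range NR) (range NU) a b G := by
  simp only [Eb, mul_sum]
  rw [cut_sum]
  refine sum_congr rfl fun a ha => ?_
  rw [cut_sum]
  refine sum_congr rfl fun b hb => ?_
  rw [cut_dl h1 (Nat.le_of_lt_succ (mem_range.1 ha))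
    (fun l => (List.range (NU ^ N)).flatMap fun ω' => loc NR NU K Γ l (dl NU b ω')) F
    (fun ρ => NU ^ N * Pw (range NU) b ∅ (G ρ)) fun l => cut_dl h2 (mem_range.1 hb).le (loc NR NU K Γ l) F _ (e l),
    (st_Pw (nonempty_range_iff.2 h1.ne') a ∅).mul, A2, mul_assoc]

theorem cut_Db (h1 : 0 < NR) (h2 : 0 < NU) (h : B ≤ N) :
    (cutN (Db NR NU A B (NR ^ A) (NU ^ N)) F : ℝ) = NU ^ N * (NR ^ A * NR ^ A) *
      ∑ a ∈ range A, ∑ b ∈ range B, Dem (range NR) (range NU) (fn NR NU F) (a + 1) b := by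
  simp only [Db, mul_sum]
  rw [cut_sum]
  refine sum_congr rfl fun a ha => ?_
  rw [cut_sum]
  refine sum_congr rfl fun b hb => ?_
  have ha := mem_range.1 ha
  have e : ∀ l l2 l', (cutN [(vx NR NU l l', vx NR NU l2 l', 1)] F : ℝ)
      = ind (¬ (fn NR NU F l.toFinset l'.toFinset ↔ fn NR NU F l2.toFinset l'.toFinset)) := by
    intro l l2 l'
    simp only [fn, vx_eq, cutN_cons, cutN_nil]
    cases F (.inr (nm NR l.toFinset, nm NU l'.toFinset)) <;>
      cases F (.inr (nm NR l2.toFinset, nm NU l'.toFinset)) <;> simp [ind]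
  rw [cut_dl h2 ((mem_range.1 hb).le.trans h) (fun l' => (List.range (NR ^ A)).flatMap fun ω =>
    (List.range (NR ^ A)).flatMap fun ω2 =>
      [(vx NR NU (dl NR (a + 1) ω) l', vx NR NU (dl NR (a + 1) ω2) l', 1)]) F
    (fun S => NR ^ A * Pw (range NR) (a + 1) ∅ fun ρ => NR ^ A * Pw (range NR) (a + 1) ∅ fun ρ' =>
      ind (¬ (fn NR NU F ρ S ↔ fn NR NU F ρ' S))) fun l' =>
    cut_dl h1 ha (fun l => (List.range (NR ^ A)).flatMap fun ω2 =>
      [(vx NR NU l l', vx NR NU (dl NR (a + 1) ω2) l', 1)]) F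
    (fun ρ => NR ^ A * Pw (range NR) (a + 1) ∅ fun ρ' =>
      ind (¬ (fn NR NU F ρ l'.toFinset ↔ fn NR NU F ρ' l'.toFinset))) fun l =>
    cut_dl h1 ha (fun l2 => [(vx NR NU l l', vx NR NU l2 l', 1)]) F
    (fun ρ' => ind (¬ (fn NR NU F l.toFinset l'.toFinset ↔ fn NR NU F ρ' l'.toFinset)))
    fun l2 => e l l2 l']
  simp only [(st_Pw (nonempty_range_iff.2 h1.ne') _ ∅).mul,
    (st_Pw (nonempty_range_iff.2 h2.ne') _ ∅).mul, Dem, mul_assoc]

variable {F}

theorem cut_loc (h1 : 0 < NR) (h2 : 0 < NU) (h3 : 0 < K) (hs : F (.inl true) = true)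
    (ht : F (.inl false) = false) (l l' : List ℕ) : (cutN (loc NR NU K Γ l l') F : ℝ) = NR * NU * K *
      (3 + 2 * vio (range NR) (range NU) (range K) Γ (fn NR NU F) l.toFinset l'.toFinset) := by
  have e : ∀ l l' l2 l2', (cutN (path (vx NR NU l l') (vx NR NU l2 l2')) F : ℝ) = 1 + 2 *
      ind (fn NR NU F l.toFinset l'.toFinset ∧ ¬ fn NR NU F l2.toFinset l2'.toFinset) := by
    intro l l' l2 l2'
    simp only [fn, vx_eq, path, cutN_cons, cutN_nil, hs, ht]
    cases F (.inr (nm NR l.toFinset, nm NU l'.toFinset)) <;>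
      cases F (.inr (nm NR l2.toFinset, nm NU l2'.toFinset)) <;> simp [ind]
    norm_num
  simp only [loc, cut_ex, cutN_append, Nat.cast_add, e, List.toFinset_cons, expect_add_distrib,
    expect_const (nonempty_range_iff.2 h1.ne'), expect_const (nonempty_range_iff.2 h2.ne'),
    expect_const (nonempty_range_iff.2 h3.ne'), ← mul_expect, mul_add, vio, wR, wU, wM]
  ring

theorem le_cut_loc (h1 : 0 < NR) (h2 : 0 < NU) (h3 : 0 < K) (hs : F (.inl true) = false)
    (l l' : List ℕ) :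
    NR * NU * K * ind (fn NR NU F l.toFinset l'.toFinset) ≤ (cutN (loc NR NU K Γ l l') F : ℝ) := by
  simp only [loc, cut_ex, mul_assoc]
  gcongr
  refine le_expect (nonempty_range_iff.2 h1.ne') fun r _ => ?_
  gcongr
  refine le_expect (nonempty_range_iff.2 h2.ne') fun u _ => ?_
  gcongr
  refine le_expect (nonempty_range_iff.2 h3.ne') fun i _ => ind_le_of (by positivity) fun c => ?_
  rw [path, List.cons_append, cutN_cons, vx_eq, if_neg (by rw [hs, c]; simp)]
  norm_cast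
  exact Nat.le_add_right 1 _

end

/-- a numbered bipartite expansion instance with its parameters -/
structure BE where
  (NR NU K A L J : ℕ)
  Γ : ℕ → ℕ → ℕ

namespace BE
variable (G : BE)

def Ok : Prop := 0 < G.NU ∧ 0 < G.K ∧ 0 < G.A ∧ 0 < G.L ∧ 0 < G.J ∧ 4 * G.A ≤ G.NR ∧
  ∀ r < G.NR, ∀ i < G.K, G.Γ r i < G.NU

def Yes : Prop := ∃ W : ℕ → Prop, 𝔼 u ∈ range G.NU, ind (W u) ≤ 1 / (2 * (G.J * G.L)) ∧
  1 / (4 * G.A) ≤ 𝔼 r ∈ range G.NR, ind (∀ i ∈ range G.K, W (G.Γ r i))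

def No : Prop := ∀ W : ℕ → Prop, 𝔼 u ∈ range G.NU, ind (W u) ≤ G.J / G.L →
  𝔼 r ∈ range G.NR, ind (∀ i ∈ range G.K, W (G.Γ r i)) ≤ 1 / (G.J * G.A)

def N : ℕ := G.J * G.L + G.L
def X : ℕ := G.NR ^ G.A
def Y : ℕ := G.NU ^ G.N
def cE : ℕ := G.X * G.Y * (G.NR * G.NU * G.K) * (3 * ((G.A + 1) * G.N))
def cD : ℕ := G.Y * (G.X * G.X) * (G.A * (G.J * G.L))
def E : WL Vx := push id G.cD (Eb G.NR G.NU G.K G.A G.N G.X G.Y G.Γ)
def D : WL Vx := push id G.cE (Db G.NR G.NU G.A (G.J * G.L) G.X G.Y)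
def KT : ℕ := (3 * G.K + 18) * ((G.A + 1) * G.N)

variable {G}

theorem cutE (h : G.Ok) {F : Vx → Bool} (hs : F (.inl true) = true) (ht : F (.inl false) = false) :
    (cutN G.E F : ℝ) = G.cD * G.cE + G.cD * (G.X * G.Y * (G.NR * G.NU * G.K)) * (2 *
      ∑ a ∈ range (G.A + 1), ∑ b ∈ range G.N, A2 (range G.NR) (range G.NU) a b
        (vio (range G.NR) (range G.NU) (range G.K) G.Γ (fn G.NR G.NU F))) := by
  obtain ⟨h2, h3, h4, -, -, h5, -⟩ := h
  have h1 : 0 < G.NR := by omega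
  have s1 := fun a => st_Pw (nonempty_range_iff.2 h1.ne') a ∅
  have s2 := fun a => st_Pw (nonempty_range_iff.2 h2.ne') a ∅
  rw [E, cutN_push, Nat.cast_mul, X, Y, cut_Eb G.Γ (fun w => F (id w)) h1 h2 (fun ρ S => G.NR * G.NU
    * G.K * (3 + 2 * vio (range G.NR) (range G.NU) (range G.K) G.Γ (fn G.NR G.NU F) ρ S))
    (cut_loc G.Γ h1 h2 h3 hs ht)]
  simp only [A2, (s1 _).mul, (s1 _).add, (s1 _).const, (s2 _).mul, (s2 _).add, (s2 _).const,
    ← mul_sum, sum_add_distrib, sum_const, card_range, nsmul_eq_mul, cE, X, Y]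
  push_cast
  ring

theorem cutD (h : G.Ok) (F : Vx → Bool) : (cutN G.D F : ℝ) = G.cE * (G.Y * (G.X * G.X) *
    ∑ a ∈ range G.A, ∑ b ∈ range (G.J * G.L),
      Dem (range G.NR) (range G.NU) (fn G.NR G.NU F) (a + 1) b) := by
  obtain ⟨h2, h3, h4, -, -, h5, -⟩ := h
  rw [D, cutN_push, Nat.cast_mul, X, Y, cut_Db (N := G.N) _ (by omega) h2
    (Nat.le_add_right _ _)]
  push_cast
  rfl

theorem flip {F : Vx → Bool} (h : F (.inl true) ≠ F (.inl false)) : ∃ F' : Vx → Bool,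
    F' (.inl true) = true ∧ F' (.inl false) = false ∧ ∀ l, cutN l F' = cutN l F := by
  cases h1 : F (.inl true)
  · exact ⟨fun w => !F w, by simp [h1], by simpa [h1] using h, fun l => cutN_not l F⟩
  · exact ⟨F, h1, by simpa [h1] using h, fun _ => rfl⟩

theorem lam_pos (h : G.Ok) : 0 < G.cD * G.cE := by
  obtain ⟨h2, h3, h4, h6, h7, h5, -⟩ := h
  have h1 : 0 < G.NR := by omega
  unfold cD cE X Y N
  positivity

theorem lam_le (h : G.Ok) (F : Vx → Bool) (hF : F (.inl true) ≠ F (.inl false)) :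
    G.cD * G.cE ≤ cutN G.E F := by
  obtain ⟨F, hs, ht, e⟩ := flip hF
  rw [← e, ← Nat.cast_le (α := ℝ), cutE h hs ht, Nat.cast_mul]
  obtain ⟨h2, h3, h4, -, -, h5, -⟩ := h
  exact le_add_of_nonneg_right (mul_nonneg (by positivity) (mul_nonneg zero_le_two
    (sum_nonneg fun a _ => sum_nonneg fun b _ => A2_nn (nonempty_range_iff.2 (by omega))
      (nonempty_range_iff.2 h2.ne') a b (vio_nn _ _ _ _ _))))

theorem no_sep (h : G.Ok) (hno : G.No) (F : Vx → Bool) (hF : F (.inl true) ≠ F (.inl false)) :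
    (cutN G.D F : ℝ) ≤ 8 / G.J * (G.cD * G.cE : ℕ) + G.KT * (cutN G.E F - (G.cD * G.cE : ℕ)) := by
  obtain ⟨F, hs, ht, e⟩ := flip hF
  rw [← e, ← e, cutE h hs ht, cutD h]
  obtain ⟨h2, h3, h4, h6, h7, h5, -⟩ := h
  have := amp_no G.Γ (fn G.NR G.NU F) (nonempty_range_iff.2 (show G.NR ≠ 0 by omega))
    (nonempty_range_iff.2 h2.ne') (nonempty_range_iff.2 h3.ne') h4 h6 h7 hno
  refine (mul_le_mul_of_nonneg_left (mul_le_mul_of_nonneg_left this (by positivity))
    (by positivity)).trans_eq ?_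
  simp only [card_range, cD, cE, KT, N]
  push_cast
  ring

theorem no_eq (h : G.Ok) (F : Vx → Bool) (hF : F (.inl true) = F (.inl false)) :
    (cutN G.D F : ℝ) ≤ G.KT * cutN G.E F := by
  wlog hs : F (.inl true) = false generalizing F
  · rw [← cutN_not G.D, ← cutN_not G.E]
    exact this _ (by simp [hF]) (by simpa using hs)
  rw [cutD h]
  obtain ⟨h2, h3, h4, h6, h7, h5, -⟩ := h
  have h1 : 0 < G.NR := by omega
  have s1 := nonempty_range_iff.2 h1.ne'
  have s2 := nonempty_range_iff.2 h2.ne'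
  let c : Finset ℕ → Finset ℕ → ℝ := fun ρ S => cutN (loc G.NR G.NU G.K G.Γ ρ.toList S.toList) F
  have e : ∀ l l', loc G.NR G.NU G.K G.Γ l l'
      = loc G.NR G.NU G.K G.Γ l.toFinset.toList l'.toFinset.toList := fun l l' => by
    simp [loc, vx_eq]
  rw [E, cutN_push, Nat.cast_mul, X, Y, cut_Eb G.Γ _ h1 h2 c fun l l' => by rw [e]; rfl]
  have a1 : ∀ a b, G.NR * G.NU * G.K * Dem (range G.NR) (range G.NU) (fn G.NR G.NU F) a b
      ≤ 2 * A2 (range G.NR) (range G.NU) a b c := fun a b => by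
    refine (mul_le_mul_of_nonneg_left (dem_le _ s1 s2 a b) (by positivity)).trans ?_
    rw [mul_left_comm, A2, ← (st_Pw s1 a ∅).mul]
    refine mul_le_mul_of_nonneg_left ((st_Pw s1 a ∅).mono _ _ fun ρ => ?_) zero_le_two
    rw [← (st_Pw s2 b ∅).mul]
    exact (st_Pw s2 b ∅).mono _ _ fun S => by
      simpa using le_cut_loc G.Γ h1 h2 h3 hs ρ.toList S.toList
  have a0 : ∀ a b, 0 ≤ A2 (range G.NR) (range G.NU) a b c := fun a b =>
    A2_nn s1 s2 a b fun _ _ => Nat.cast_nonneg _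
  have a2 : G.NR * G.NU * G.K * ∑ a ∈ range G.A, ∑ b ∈ range (G.J * G.L),
      Dem (range G.NR) (range G.NU) (fn G.NR G.NU F) (a + 1) b ≤ 2 * ∑ a ∈ range (G.A + 1),
        ∑ b ∈ range G.N, A2 (range G.NR) (range G.NU) a b c := by
    rw [sum_range_succ', mul_add, mul_sum, mul_sum]
    refine le_add_of_le_of_nonneg (sum_le_sum fun a _ => ?_)
      (mul_nonneg zero_le_two (sum_nonneg fun b _ => a0 0 b))
    rw [mul_sum]
    refine (sum_le_sum fun b _ => a1 (a + 1) b).trans ?_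
    rw [← mul_sum]
    exact mul_le_mul_of_nonneg_left (sum_le_sum_of_subset_of_nonneg
      (range_mono (Nat.le_add_right _ _)) fun b _ _ => a0 _ b) zero_le_two
  have a3 := sum_nonneg fun a (_ : a ∈ range (G.A + 1)) => sum_nonneg fun b (_ : b ∈ range G.N) =>
    a0 a b
  generalize ∑ a ∈ range (G.A + 1), ∑ b ∈ range G.N, A2 (range G.NR) (range G.NU) a b c = V at *
  have a4 : (6 : ℝ) * 1 ≤ (3 * G.K + 18) * (G.A * (G.J * G.L) : ℕ) :=
    mul_le_mul (by linarith [(Nat.cast_nonneg G.K : (0 : ℝ) ≤ G.K)])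
      (by exact_mod_cast Nat.mul_pos h4 (Nat.mul_pos h7 h6)) zero_le_one (by positivity)
  have a5 := mul_le_mul_of_nonneg_right a4 a3
  simp only [cD, cE, KT, X, Y]
  push_cast at a5 ⊢
  have a6 : (0 : ℝ) ≤ G.NR ^ G.A * G.NU ^ G.N * ((G.A + 1) * G.N) *
    (G.NU ^ G.N * (G.NR ^ G.A * G.NR ^ G.A)) := by positivity
  nlinarith [mul_le_mul_of_nonneg_left a5 a6, mul_le_mul_of_nonneg_left a2 a6]

theorem yes (h : G.Ok) (hy : G.Yes) : ∃ F : Vx → Bool, F (.inl true) ≠ F (.inl false) ∧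
    cutN G.E F = G.cD * G.cE ∧ 1 / 24 * (G.cD * G.cE : ℕ) ≤ (cutN G.D F : ℝ) := by
  classical
  obtain ⟨W, w1, w2⟩ := hy
  have ⟨h2, h3, h4, h6, h7, h5, h8⟩ := h
  have h1 : 0 < G.NR := by omega
  have s1 := nonempty_range_iff.2 h1.ne'
  have s2 := nonempty_range_iff.2 h2.ne'
  have n1 : (0 : ℝ) < G.NR := by exact_mod_cast h1
  have n2 : (0 : ℝ) < G.A := by exact_mod_cast h4
  have e0 : ∀ (P : ℕ → Prop) (_ : DecidablePred P),
      𝔼 r ∈ range G.NR, ind (P r) = ((range G.NR).filter P).card / G.NR := fun P _ => by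
    rw [expect_eq_sum_div_card, card_filter, card_range]
    push_cast
    congr 1
    exact sum_congr rfl fun ω _ => by unfold ind; congr
  obtain ⟨R, r1, r2⟩ := exists_subset_card_eq (s := (range G.NR).filter
    fun r => ∀ i ∈ range G.K, W (G.Γ r i)) (n := ⌈(G.NR : ℝ) / (4 * G.A)⌉₊) (by
      rw [Nat.ceil_le, div_le_iff₀ (by positivity)]
      rw [e0 _ inferInstance, div_le_div_iff₀ (by positivity) n1] at w2
      linarith)
  have r3 : (range G.NR).filter (· ∈ R) = R := by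
    rw [filter_mem_eq_inter, inter_eq_right.2 (r1.trans (filter_subset _ _))]
  let F : Vx → Bool := Sum.elim id fun p => decide ((∀ r ∈ p.1, r ∉ R) ∧ ∀ u ∈ p.2, ¬ W u)
  have e : fn G.NR G.NU F = fun ρ S => (∀ r ∈ ρ, r ∉ R) ∧ ∀ u ∈ S, ¬ (W u ∧ u < G.NU) := by
    funext ρ S
    simp only [fn, F, nm, Sum.elim_inr, List.mem_filter, List.mem_range, decide_eq_true_eq]
    refine propext (and_congr ⟨fun c r a b => c r ⟨mem_range.1 (filter_subset _ _ (r1 b)), a⟩ b,
      fun c r a => c r a.2⟩ ⟨fun c u a b => c u ⟨b.2, a⟩ b.1, fun c u a b => c u a.2 ⟨b, a.1⟩⟩)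
  refine ⟨F, by simp [F], ?_, ?_⟩
  · rw [← Nat.cast_inj (R := ℝ), cutE h rfl rfl, sum_eq_zero fun a _ => sum_eq_zero fun b _ => ?_]
    · simp
    have : vio (range G.NR) (range G.NU) (range G.K) G.Γ (fn G.NR G.NU F) = fun _ _ => 0 := by
      funext ρ S
      rw [vio, wR, wU, wM, expect_eq_zero, expect_eq_zero, expect_eq_zero]
      · simp
      · refine fun r hr => expect_eq_zero fun i hi => ind_neg ?_
        simp only [e, forall_mem_insert]
        exact fun c => c.2 ⟨⟨fun b => c.1.2.1 ⟨(mem_filter.1 (r1 b)).2 i hi,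
          h8 r (mem_range.1 hr) i (mem_range.1 hi)⟩, c.1.1⟩, c.1.2.2⟩
      · refine fun r hr => ind_neg ?_
        simp only [e, forall_mem_insert]
        tauto
      · refine fun r hr => ind_neg ?_
        simp only [e, forall_mem_insert]
        tauto
    simp only [this, A2, (st_Pw s1 a ∅).const, (st_Pw s2 b ∅).const]
  · have a1 : (1 : ℝ) ≤ G.NR / (4 * G.A) := by
      rw [one_le_div (by positivity)]
      exact_mod_cast h5
    have := amp_yes s1 s2 h4 (Nat.mul_pos h7 h6) (R := (· ∈ R)) (W := fun u => W u ∧ u < G.NU)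
      (by rw [e0 (· ∈ R) inferInstance, r3, r2, le_div_iff₀ n1, one_div_mul_eq_div]; exact Nat.le_ceil _)
      (by
        rw [e0 (· ∈ R) inferInstance, r3, r2, div_le_iff₀ n1]
        have := Nat.ceil_lt_add_one (zero_le_one.trans a1)
        have : 1 / (2 * G.A) * (G.NR : ℝ) = 2 * (G.NR / (4 * G.A)) := by field_simp; norm_num
        linarith)
      ((expect_le_expect fun u _ => ind_mono And.left).trans (by exact_mod_cast w1))
    rw [cutD h, e]
    refine le_trans (le_of_eq ?_) (mul_le_mul_of_nonneg_left (mul_le_mul_of_nonneg_left this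
      (by positivity)) (by positivity))
    simp only [cD]
    push_cast
    ring

end BE

end Pool.Agent.Lib.MP_a1e814_lc.Se
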