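import Pool.Agent.Lib.MP_a1e814_lc.SePr

/-! Functions whose restrictions to lines are polynomials of low degree. -/

set_option linter.unusedSectionVars false

namespace Pool.Agent.Lib.MP_a1e814_lc.Se

open Finset Function Polynomial
open scoped BigOperators

section
variable {Ω Ω' : Type} [Fintype Ω] [Fintype Ω']

theorem exists_le [Nonempty Ω] (f : Ω → ℝ) : ∃ ω, f ω ≤ 𝔼 ω, f ω := by
  obtain ⟨x, -, h⟩ := exists_le_of_expect_le univ_nonempty (le_refl (𝔼 ω, f ω))
  exact ⟨x, h⟩

theorem Pr_fst [Nonempty Ω'] (p : Ω → Prop) : (Pr fun z : Ω × Ω' => p z.1) = Pr p := by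
  rw [Pr_prod']
  exact Fintype.expect_const (ι := Ω') (Pr p)

theorem Pr_snd [Nonempty Ω] (p : Ω' → Prop) : (Pr fun z : Ω × Ω' => p z.2) = Pr p := by
  rw [Pr_prod]
  exact Fintype.expect_const (ι := Ω) (Pr p)

/-- few large events have small pairwise intersections -/
theorem johnson [Nonempty Ω] {ι : Type} (L : Finset ι) (A : ι → Ω → Prop) {a : ℝ} (ha : 0 < a)
    (h1 : ∀ i ∈ L, a ≤ Pr (A i))
    (h2 : ∀ i ∈ L, ∀ j ∈ L, i ≠ j → (Pr fun ω => A i ω ∧ A j ω) ≤ a ^ 2 / 2) : L.card * a ≤ 2 := by
  classical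
  have h3 := (st_ex (univ_nonempty (α := Ω))).sq_le fun ω => ∑ i ∈ L, ind (A i ω)
  have h4 : L.card * a ≤ ∑ i ∈ L, Pr (A i) := by simpa using card_nsmul_le_sum L _ a h1
  have h5 : ∑ i ∈ L, ∑ j ∈ L, (Pr fun ω => A i ω ∧ A j ω)
      ≤ ∑ i ∈ L, (Pr (A i) + L.card * (a ^ 2 / 2)) := sum_le_sum fun i hi => by
    rw [← add_sum_erase _ _ hi]
    refine add_le_add (Pr_mono fun _ => And.left) ((sum_le_card_nsmul _ _ (a ^ 2 / 2) fun j hj =>
      h2 i hi j (mem_of_mem_erase hj) (ne_of_mem_erase hj).symm).trans ?_)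
    rw [nsmul_eq_mul]
    gcongr
    exact erase_subset _ _
  have e : ∀ ω, (∑ i ∈ L, ind (A i ω)) ^ 2 = ∑ i ∈ L, ∑ j ∈ L, ind (A i ω ∧ A j ω) := fun ω => by
    simp only [pow_two, sum_mul_sum, ind_and]
  simp only [e, expect_sum_comm] at h3
  rw [sum_add_distrib, sum_const, nsmul_eq_mul] at h5
  have h6 := h3.trans h5
  change (∑ i ∈ L, Pr (A i)) ^ 2 ≤ _ at h6
  have h7 : 0 ≤ L.card * a := by positivity
  by_contra c
  nlinarith [mul_le_mul h4 h4 h7 (h7.trans h4)]

end

variable {F V V' : Type} [Field F] [AddCommGroup V] [Module F V] [AddCommGroup V'] [Module F V']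

def LD (E : ℕ) (G : V → F) : Prop :=
  ∀ h d : V, ∃ r : F[X], r.natDegree ≤ E ∧ ∀ u, G (h + u • d) = r.eval u

namespace LD
variable {E E' : ℕ} {G H : V → F}

theorem mono (h : LD E G) (e : E ≤ E') : LD E' G := fun a d =>
  (h a d).imp fun _ c => ⟨c.1.trans e, c.2⟩

theorem const (E : ℕ) (c : F) : LD E fun _ : V => c := fun _ _ => ⟨C c, by simp, by simp⟩

theorem add (h : LD E G) (h' : LD E H) : LD E fun v => G v + H v := fun a d => by
  obtain ⟨r, r1, r2⟩ := h a d
  obtain ⟨s, s1, s2⟩ := h' a d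
  exact ⟨r + s, natDegree_add_le_of_degree_le r1 s1, fun u => by simp [r2, s2]⟩

theorem mul (h : LD E G) (h' : LD E' H) : LD (E + E') fun v => G v * H v := fun a d => by
  obtain ⟨r, r1, r2⟩ := h a d
  obtain ⟨s, s1, s2⟩ := h' a d
  exact ⟨r * s, natDegree_mul_le_of_le r1 s1, fun u => by simp [r2, s2]⟩

theorem cmul (c : F) (h : LD E G) : LD E fun v => c * G v := by
  simpa using (const 0 c).mul h

theorem sub (h : LD E G) (h' : LD E H) : LD E fun v => G v - H v := by
  simpa [sub_eq_add_neg] using h.add (h'.cmul (-1))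

theorem sum {ι : Type} (s : Finset ι) {G : ι → V → F} (h : ∀ i ∈ s, LD E (G i)) :
    LD E fun v => ∑ i ∈ s, G i v := by
  classical
  induction s using Finset.induction_on with
  | empty => simpa using const E 0
  | insert i s hi ih =>
    simpa only [sum_insert hi] using (h i (by simp)).add (ih fun j hj => h j (by simp [hj]))

theorem prod {ι : Type} (s : Finset ι) {G : ι → V → F} (h : ∀ i ∈ s, LD E (G i)) :
    LD (s.card * E) fun v => ∏ i ∈ s, G i v := by
  classical
  induction s using Finset.induction_on with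
  | empty => simpa using const 0 1
  | insert i s hi ih =>
    simpa only [prod_insert hi, card_insert_of_notMem hi, add_mul, one_mul, add_comm] using
      (h i (by simp)).mul (ih fun j hj => h j (by simp [hj]))

theorem lin (φ : V →ₗ[F] F) : LD 1 φ := fun a d =>
  ⟨C (φ d) * X + C (φ a), natDegree_linear_le, fun u => by simp; ring⟩

theorem comp (h : LD E G) (φ : V' →ₗ[F] V) : LD E fun v => G (φ v) := fun a d => by
  simpa using h (φ a) (φ d)

theorem shift (h : LD E G) (c : V) : LD E fun v => G (c + v) := fun a d => by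
  simpa only [add_assoc] using h (c + a) d

theorem line (h : LD E G) (a d : V) : LD E fun t : F => G (a + t • d) :=
  (h.shift a).comp (LinearMap.toSpanSingleton F V d)

variable [Fintype F] [Fintype V]

/-- the Schwartz-Zippel bound -/
theorem sz (h : LD E G) (h0 : G ≠ 0) : (Pr fun v => G v = 0) ≤ 2 * E / Fintype.card F := by
  classical
  obtain ⟨a, ha⟩ := ne_iff.1 h0
  have q2 : (2 : ℝ) ≤ Fintype.card F := by exact_mod_cast Fintype.one_lt_card
  have h1 : (Pr fun z : F × V => G (a + z.1 • z.2) = 0) ≤ E / Fintype.card F := by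
    rw [Pr_prod']
    refine ex_le fun d => ?_
    obtain ⟨r, r1, r2⟩ := h a d
    have r0 : r ≠ 0 := fun c => ha (by simpa [c] using r2 0)
    rw [Pr_card]
    gcongr
    exact (card_le_degree_of_subset_roots fun u hu => by
      simpa [r0, r2] using hu).trans r1
  have h2 : (1 - 1 / Fintype.card F) * (Pr fun v => G v = 0)
      ≤ Pr fun z : F × V => G (a + z.1 • z.2) = 0 := by
    rw [Pr_prod, ← Pr_eq (0 : F), ← Pr_not, Pr, expect_mul]
    refine ex_mono fun u => ?_
    by_cases c : u = 0
    · rw [ind_neg (not_not.2 c), zero_mul]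
      exact Pr_nn _
    · rw [ind_pos c, one_mul]
      exact (Pr_inj (e := fun v => a + u • v)
        (fun v w e => smul_right_injective V c (add_left_cancel e)) _).ge
  have h3 : 1 / (Fintype.card F : ℝ) ≤ 1 / 2 := by gcongr
  have h4 := Pr_nn fun v => G v = 0
  rw [mul_div_assoc]
  nlinarith

theorem eq_of (h : LD E G) (h' : LD E H) (c : 2 * E / Fintype.card F < Pr fun v => G v = H v) :
    G = H := by
  by_contra c'
  refine absurd ((h.sub h').sz fun e => c' ?_) (by simpa only [sub_eq_zero, not_le] using c)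
  exact funext fun v => sub_eq_zero.1 (congrFun e v)

theorem add_of_hom (h : LD E G) (hq : 2 * E + 2 < Fintype.card F) (hs : ∀ (c : F) v, G (c • v) = c * G v)
    (a b : V) : G (a + b) = G a + G b := by
  classical
  obtain ⟨r, r1, r2⟩ := h a b
  obtain ⟨s, s1, s2⟩ := h b a
  have e : X ^ E * r = X * reflect E s := by
    refine eq_of_natDegree_lt_card_of_eval_eq' _ _ (univ.erase 0) (fun u hu => ?_) ?_
    · have u0 := ne_of_mem_erase hu
      letI := invertibleOfNonzero (inv_ne_zero u0)
      have := eval₂_reflect_mul_pow (RingHom.id F) u⁻¹ E s s1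
      simp only [eval₂_id, invOf_eq_inv, inv_inv] at this
      rw [eval_mul, eval_mul, eval_pow, eval_X, ← r2, show a + u • b = u • (b + u⁻¹ • a) by
        rw [smul_add, smul_inv_smul₀ u0, add_comm], hs, s2, ← this, inv_pow]
      field_simp
    · have a1 : (X ^ E * r).natDegree ≤ E + E := natDegree_mul_le_of_le (by simp) r1
      have a2 : (X * reflect E s).natDegree ≤ 1 + E :=
        natDegree_mul_le_of_le natDegree_X_le (natDegree_reflect_le.trans (by simp [s1]))
      rw [card_erase_of_mem (mem_univ _), card_univ]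
      omega
  have e1 : ∀ n, r.coeff (n + 1) = (reflect E s).coeff (n + E) := fun n => by
    rw [← coeff_X_pow_mul r E, e, add_right_comm, coeff_X_mul]
  have e2 : r.natDegree ≤ 1 := natDegree_le_iff_coeff_eq_zero.2 fun n hn => by
    obtain ⟨n, rfl⟩ : ∃ m, n = m + 1 := ⟨n - 1, by omega⟩
    rw [e1, coeff_reflect, revAt_eq_self_of_lt (by omega)]
    exact coeff_eq_zero_of_natDegree_lt (by omega)
  have e3 := e1 0
  rw [coeff_reflect, zero_add, zero_add, revAt_le le_rfl, Nat.sub_self, coeff_zero_eq_eval_zero,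
    ← s2] at e3
  have e4 := r2 1
  have e5 := r2 0
  rw [eq_X_add_C_of_natDegree_le_one e2] at e4 e5
  simp at e3 e4 e5
  rw [e4, e5, e3, add_comm]

end LD

theorem card_LD [Fintype F] [DecidableEq F] {ι : Type} [Fintype ι] [DecidableEq ι] {E : ℕ}
    (hq : E < Fintype.card F) (P : Finset ((ι → F) → F)) (hP : ∀ p ∈ P, LD E p) :
    P.card ≤ Fintype.card F ^ (E + 1) ^ Fintype.card ι := by
  obtain ⟨S, -, hS⟩ := exists_subset_card_eq (s := (univ : Finset F)) (n := E + 1) (by simpa using hq)
  have key : ∀ G : (ι → F) → F, LD E G → (∀ x, (∀ i, x i ∈ S) → G x = 0) → ∀ T : Finset ι, ∀ x,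
      (∀ i ∉ T, x i ∈ S) → G x = 0 := fun G hG h0 T => by
    induction T using Finset.induction_on with
    | empty => exact fun x hx => h0 x fun i => hx i (notMem_empty i)
    | insert i T hi ih =>
      intro x hx
      obtain ⟨r, r1, r2⟩ := hG (update x i 0) (Pi.single i 1)
      have e : ∀ u, update x i 0 + u • (Pi.single i 1 : ι → F) = update x i u := fun u => by
        funext j
        by_cases c : j = i <;> simp [c]
      simp only [e] at r2
      have r0 := eq_zero_of_natDegree_lt_card_of_eval_eq_zero' r S (fun u hu => by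
        rw [← r2]
        refine ih _ fun j hj => ?_
        by_cases c : j = i
        · simpa [c] using hu
        · simpa [c] using hx j (by simp [c, hj])) (by omega)
      simpa [r0] using r2 (x i)
  have := card_le_card_of_injOn (s := P) (t := (univ : Finset ((ι → S) → F)))
    (fun p y => p fun i => y i) (by simp) fun p hp p' hp' e => funext fun x => sub_eq_zero.1
      (key _ ((hP p hp).sub (hP p' hp')) (fun x hx => sub_eq_zero.2
        (congrFun e fun i => ⟨x i, hx i⟩)) univ x fun i hi => absurd (mem_univ i) hi)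
  simpa [hS] using this

section
variable {E : ℕ} (t : Fin (E + 1) → F)

/-- the value at `u` on the line through `p.1` in direction `p.2` interpolated from the nodes -/
noncomputable def ip (g : V → F) (u : F) (p : V × V) : F :=
  ∑ i, (Lagrange.basis univ t i).eval u * g (p.1 + t i • p.2)

variable {t}

theorem LD.ip (ht : Injective t) {g : V → F} (h : LD E g) (u : F) (p : V × V) :
    g (p.1 + u • p.2) = ip t g u p := by
  obtain ⟨r, r1, r2⟩ := h p.1 p.2
  have := Lagrange.eq_interpolate (s := univ) (f := r) ht.injOn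
    (degree_le_natDegree.trans_lt (by simpa using Nat.cast_lt.2 (Nat.lt_succ_of_le r1)))
  rw [r2, this]
  simp [Se.ip, r2, eval_finsetSum, mul_comm]

/-- the low degree test in the regime of small error -/
theorem rs [Fintype F] [Fintype V] (ht : Injective t) (h0 : ∀ i, t i ≠ 0) {g : V → F} {Φ : ℝ}
    (h : ∀ u, (Pr fun p : V × V => g (p.1 + u • p.2) ≠ ip t g u p) ≤ Φ)
    (hΦ : (E + 2) * (2 * E + 3) * Φ < 1) :
    ∃ G, LD E G ∧ (Pr fun v => g v ≠ G v) ≤ (2 * E + 3) * Φ := by
  have Φ0 : 0 ≤ Φ := (Pr_nn _).trans (h 0)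
  have hs : ∀ (u : F) (φ : Fin (E + 1) → V × V → V × V), (∀ i, Injective (φ i)) →
      (Pr fun z => ∃ i, g ((φ i z).1 + u • (φ i z).2) ≠ ip t g u (φ i z)) ≤ (E + 1) * Φ :=
    fun u φ hφ => by
    refine (Pr_le_sum (s := univ) fun z c => c.imp fun i c => ⟨mem_univ i, c⟩).trans ?_
    refine (sum_le_card_nsmul _ _ Φ fun i _ => (Pr_inj (hφ i) fun p =>
      g (p.1 + u • p.2) ≠ ip t g u p).trans_le (h u)).trans (by simp)
  have h1 : ∀ a, ∃ y, (Pr fun d => ip t g 0 (a, d) ≠ y) ≤ 2 * (E + 1) * Φ := fun a => by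
    obtain ⟨d, hd⟩ := exists_le fun d' => Pr fun d => ip t g 0 (a, d) ≠ ip t g 0 (a, d')
    refine ⟨_, hd.trans ?_⟩
    rw [← Pr_prod' fun z : V × V => ip t g 0 (a, z.1) ≠ ip t g 0 (a, z.2)]
    have a1 := hs 0 (fun i z => (a + t i • z.1, z.2)) fun i z z' e => Prod.ext
      (smul_right_injective V (h0 i) (add_left_cancel (Prod.ext_iff.1 e).1)) (Prod.ext_iff.1 e).2
    have a2 := hs 0 (fun i z => (a + t i • z.2, z.1)) fun i z z' e => Prod.ext (Prod.ext_iff.1 e).2
      (smul_right_injective V (h0 i) (add_left_cancel (Prod.ext_iff.1 e).1))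
    refine (Pr_le_add fun z c => ?_).trans ((add_le_add a1 a2).trans_eq (by ring))
    by_contra c'
    push Not at c'
    simp only [zero_smul, add_zero] at c'
    refine c ?_
    rw [ip, ip]
    simp only [c'.1]
    simp only [c'.2, ip, mul_sum]
    rw [sum_comm]
    exact sum_congr rfl fun i _ => sum_congr rfl fun j _ => by rw [add_right_comm, mul_left_comm]
  choose G hG using h1
  refine ⟨G, fun a d => ⟨Lagrange.interpolate univ t fun i => G (a + t i • d), ?_, fun u => ?_⟩, ?_⟩
  · exact natDegree_le_iff_degree_le.2 (by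
      simpa using Lagrange.degree_interpolate_le (s := univ) (fun i => G (a + t i • d)) ht.injOn)
  · have a1 : ∀ w : F, (Pr fun z : V × V => ip t g 0 (a + w • d, z.1 + w • z.2) ≠ G (a + w • d))
        ≤ 2 * (E + 1) * Φ := fun w =>
      (Pr_inj (e := fun z : V × V => (z.1 + w • z.2, z.2)) (fun z z' e => by
        obtain ⟨e1, e2⟩ := Prod.ext_iff.1 e
        simp only at e1 e2
        exact Prod.ext (by simpa [e2] using e1) e2) fun z =>
          ip t g 0 (a + w • d, z.1) ≠ G (a + w • d)).trans_le ((Pr_fst fun d' =>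
          ip t g 0 (a + w • d, d') ≠ G (a + w • d)).trans_le (hG _))
    have a2 := hs u (fun i z => (a + t i • z.1, d + t i • z.2)) fun i z z' e => Prod.ext
      (smul_right_injective V (h0 i) (add_left_cancel (Prod.ext_iff.1 e).1))
      (smul_right_injective V (h0 i) (add_left_cancel (Prod.ext_iff.1 e).2))
    have a3 := (Pr_le_sum (s := univ) (p := fun z : V × V => ∃ i,
      ip t g 0 (a + t i • d, z.1 + t i • z.2) ≠ G (a + t i • d))
      fun z c => c.imp fun i c => ⟨mem_univ i, c⟩).trans
      (sum_le_card_nsmul _ _ _ fun i _ => a1 (t i))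
    obtain ⟨z, hz⟩ := exists_of_Pr_lt (((Pr_le_add fun z => id).trans (add_le_add (a1 u)
      ((Pr_le_add fun z => id).trans (add_le_add a2 a3)))).trans_lt (by
        simp only [card_univ, Fintype.card_fin, nsmul_eq_mul]
        push_cast
        nlinarith))
    push Not at hz
    obtain ⟨b1, b2, b3⟩ := hz
    have e : ∀ (w : F) i, a + w • d + t i • (z.1 + w • z.2) = a + t i • z.1 + w • (d + t i • z.2) :=
      fun w i => by module
    simp only [Lagrange.interpolate_apply, eval_finsetSum, eval_mul, eval_C, ← b1, ← b3]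
    rw [ip]
    simp only [e, b2]
    simp only [ip, e, mul_sum, sum_mul]
    rw [sum_comm]
    exact sum_congr rfl fun i _ => sum_congr rfl fun j _ => by ring
  · rw [← Pr_fst (Ω' := V)]
    refine (Pr_le_add (r := fun z : V × V => ip t g 0 z ≠ G z.1) fun z c => ?_).trans
      ((add_le_add (h 0) (((Pr_prod _).trans_le (ex_le hG)))).trans_eq (by ring))
    by_contra c'
    push Not at c'
    exact c (by simpa [c'.2] using c'.1)

end

end Pool.Agent.Lib.MP_a1e814_lc.Se
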