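import Pool.Agent.Lib.MP_a1e814_lc.SeGlue
import Pool.Agent.Lib.MP_a1e814_lc.SeDefs
import Pool.Agent.Lib.MP_a1e814_lc.Final

/-! Powering with a growing number of levels, and the decision procedure. -/

set_option linter.unusedSectionVars false

namespace Pool.Agent.Lib.MP_a1e814_lc.Se

open Finset Function Pool.Agent.Lib.Complexity N68a2faeb N487b59b3
open scoped BigOperators

theorem exists_pow {β : Type} {Z f : β → ℕ} (h : PB Z f) :
    ∃ c, ∀ b, 2 ≤ Z b → f b ≤ Z b ^ c := by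
  obtain ⟨p, hp⟩ := h
  suffices ∃ c, ∀ z, 2 ≤ z → p.eval z ≤ z ^ c by
    obtain ⟨c, hc⟩ := this
    exact ⟨c, fun b hb => (hp b).trans (hc _ hb)⟩
  clear hp
  induction p using Polynomial.induction_on' with
  | add p q h1 h2 =>
    obtain ⟨a, h1⟩ := h1
    obtain ⟨b, h2⟩ := h2
    refine ⟨a + b + 1, fun z hz => ?_⟩
    have a1 := (h1 z hz).trans (Nat.pow_le_pow_right (by omega) (Nat.le_add_right a b))
    have a2 := (h2 z hz).trans (Nat.pow_le_pow_right (by omega) (Nat.le_add_left b a))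
    rw [Polynomial.eval_add, pow_succ]
    nlinarith
  | monomial n a =>
    refine ⟨a + n, fun z hz => ?_⟩
    rw [Polynomial.eval_monomial, pow_add]
    exact Nat.mul_le_mul_right _ (Nat.lt_two_pow_self.le.trans (Nat.pow_le_pow_left hz a))

theorem sz_flat {β γ : Type} [Enc γ] {l : List β} {g : β → List γ} {B : ℕ}
    (h : ∀ x ∈ l, sz (g x) ≤ B) : sz (l.flatMap g) ≤ l.length * B := by
  induction l with
  | nil => simp
  | cons x l ih =>
    have := ih fun y hy => h y (by simp [hy])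
    have := h x (by simp)
    rw [List.flatMap_cons, sz_append, List.length_cons, add_mul]
    omega

theorem sz_range {γ : Type} [Enc γ] {n : ℕ} {g : ℕ → List γ} {B : ℕ} (h : ∀ x, sz (g x) ≤ B) :
    sz ((List.range n).flatMap g) ≤ n * B := by
  simpa using sz_flat (l := List.range n) fun x _ => h x

theorem sz_push {W W' : Type} [Enc W] [Enc W'] {φ : W → W'} {d : ℕ} (h : ∀ w, sz (φ w) ≤ sz w + d)
    (c : ℕ) (l : WL W) : sz (push φ c l) ≤ (c + 2 * d + 1) * sz l := by
  induction l with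
  | nil => simp [push]
  | cons e l ih =>
    have := h e.1
    have := h e.2.1
    rw [push, List.map_cons, ← push, sz_cons, sz_cons, sz_prod e, sz_prod e.2]
    simp only [sz_pair, sz_nat]
    nlinarith [Nat.zero_le (c * (sz e.1 + sz e.2.1)), Nat.zero_le (d * (sz e.1 + sz e.2.1 + e.2.2))]

section
variable {W : Type} [Enc W] [DecidableEq W] (s t : W)

theorem sz_comp (E : WL W) (L : WL (PW W)) : sz (comp s t E L) ≤ (3 * sz E + 7) ^ 2 * sz L := by
  refine (sz_flat (B := (3 * sz E + 7) * sz L) fun e he => ?_).trans ?_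
  · have h := sz_lt_of_mem he
    rw [sz_prod e, sz_prod e.2, sz_nat] at h
    refine (sz_push (d := sz e.1 + sz e.2.1 + 2) (fun z => ?_) _ _).trans
      (Nat.mul_le_mul_right _ (by omega))
    rw [sz_prod z]
    unfold lift
    split_ifs <;> simp <;> omega
  · rw [pow_two, mul_assoc]
    exact Nat.mul_le_mul_right _ (by have := length_le_sz E; omega)

theorem sz_pow (E D : WL W) (lam : ℕ) {M : ℕ} (h : (3 * sz E + 7) ^ 2 + sz D + lam + sz s + sz t ≤ M)
    (k : ℕ) : sz (powE s t E k) ≤ M ^ (k + 1) ∧ sz (powD s t E D lam k) ≤ M ^ (2 * k + 1) := by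
  have h0 : 7 ^ 2 ≤ (3 * sz E + 7) ^ 2 := Nat.pow_le_pow_left (by omega) 2
  induction k with
  | zero => exact ⟨by simp [powE]; omega, by simp [powD]⟩
  | succ k ih =>
    have h1 : (3 * sz E + 7) ^ 2 ≤ M := by omega
    refine ⟨(sz_comp s t E _).trans (by rw [pow_succ' M]; exact Nat.mul_le_mul h1 ih.1), ?_⟩
    have h2 := (sz_comp s t E _).trans (Nat.mul_le_mul h1 ih.2)
    have h3 := sz_push (φ := fun w : W => (([], w) : PW W)) (d := 1) (fun w => by simp) (lam ^ k) D
    have h4 : lam ^ k ≤ M ^ (2 * k + 1) := (Nat.pow_le_pow_left (by omega) k).trans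
      (Nat.pow_le_pow_right (by omega) (by omega))
    have h5 : M ≤ M ^ (2 * k + 1) := Nat.le_self_pow (by omega) _
    have h6 := Nat.mul_le_mul (show lam ^ k + 2 * 1 + 1 ≤ 2 * M ^ (2 * k + 1) by omega)
      (show sz D ≤ M by omega)
    have h7 := Nat.mul_le_mul_right (M * M ^ (2 * k + 1)) (show 3 ≤ M by omega)
    rw [powD, sz_append, show 2 * (k + 1) + 1 = 2 * k + 1 + 1 + 1 by ring, pow_succ', pow_succ']
    nlinarith

theorem pt_pow {α : Type} [Enc α] {E D : α → WL W} {lam k M : α → ℕ} (hE : PT E) (hD : PT D)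
    (hl : PT lam) (hk : PT k)
    (h : ∀ a, (3 * sz (E a) + 7) ^ 2 + sz (D a) + lam a + sz s + sz t ≤ M a)
    (hB : PB sz fun a => M a ^ (2 * k a + 1)) :
    (PT fun a => powE s t (E a) (k a)) ∧ PT fun a => powD s t (E a) (D a) (lam a) (k a) := by
  let step : α → WL (PW W) × WL (PW W) × ℕ → WL (PW W) × WL (PW W) × ℕ := fun a x =>
    (comp s t (E a) x.1, push (fun w => ([], w)) x.2.2 (D a) ++ comp s t (E a) x.2.1, x.2.2 * lam a)
  have e : ∀ a i, (step a)^[i] ([(([], s), ([], t), 1)], [], 1)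
      = (powE s t (E a) i, powD s t (E a) (D a) (lam a) i, lam a ^ i) := fun a i => by
    induction i with
    | zero => rfl
    | succ i ih => rw [iterate_succ_apply', ih]; rfl
  have p : PT fun a => (step a)^[k a] ([(([], s), ([], t), 1)], [], 1) := by
    refine PT.iterate hk (PT.const _) ?_ (((PB.const 3).mul hB).add (PB.const 2)) fun a i hi => ?_
    · refine (pt_comp s t (by fun_prop) (by fun_prop)).prodMk (PT.prodMk (PT.append ?_
        (pt_comp s t (by fun_prop) (by fun_prop))) (by fun_prop))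
      unfold push
      fun_prop
    · have h0 := h a
      have h1 := sz_pow s t (E a) (D a) (lam a) h0 i
      have h2 : 0 < M a := by have := Nat.pow_pos (n := 2) (show 0 < 3 * sz (E a) + 7 by omega); omega
      have h3 := h1.1.trans (Nat.pow_le_pow_right h2 (show i + 1 ≤ 2 * k a + 1 by omega))
      have h4 := h1.2.trans (Nat.pow_le_pow_right h2 (show 2 * i + 1 ≤ 2 * k a + 1 by omega))
      have h5 := (Nat.pow_le_pow_left (show lam a ≤ M a by omega) i).trans
        (Nat.pow_le_pow_right h2 (show i ≤ 2 * k a + 1 by omega))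
      simp only [e, sz_pair, sz_nat]
      omega
  simp only [e] at p
  exact ⟨p.fst, p.snd.fst⟩

end

theorem numbered {α W : Type} [Enc α] [Enc W] [DecidableEq W] {E D : α → WL W} (p1 : PT E)
    (p2 : PT D) (n₀ : ℕ) : ∃ (n : α → ℕ) (E' D' : α → WL ℕ), PT n ∧ PT E' ∧ PT D' ∧ ∀ a,
      n₀ ≤ n a ∧ Valid (n a, toQ (E' a), toQ (D' a)) ∧
      (∀ f, ∃ T ⊆ range (n a), cut (toQ (E' a)) T = cutN (E a) f ∧ cut (toQ (D' a)) T = cutN (D a) f) ∧
      ∀ f', ∃ f, cutN (E' a) f' = cutN (E a) f ∧ cutN (D' a) f' = cutN (D a) f := by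
  let L : α → List W := fun a => ends (E a ++ D a)
  have pL : PT L := by
    unfold L ends
    fun_prop
  have pp : ∀ {X : α → WL W}, PT X → PT fun a => push (ix (L a)) 1 (X a) := by
    intro X hX
    unfold push ix
    fun_prop
  have hE : ∀ a, ∀ e ∈ E a, e.1 ∈ L a ∧ e.2.1 ∈ L a := fun a e he =>
    mem_ends (List.mem_append_left _ he)
  have hD : ∀ a, ∀ e ∈ D a, e.1 ∈ L a ∧ e.2.1 ∈ L a := fun a e he =>
    mem_ends (List.mem_append_right _ he)
  have hlt : ∀ a (X : WL W), (∀ e ∈ X, e.1 ∈ L a ∧ e.2.1 ∈ L a) → ∀ e ∈ push (ix (L a)) 1 X,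
      e.1 < (L a).length + n₀ ∧ e.2.1 < (L a).length + n₀ := by
    intro a X hX e he
    obtain ⟨e', he', rfl⟩ := List.mem_map.1 he
    exact ⟨(ix_spec (hX e' he').1).1.trans_le (Nat.le_add_right _ _),
      (ix_spec (hX e' he').2).1.trans_le (Nat.le_add_right _ _)⟩
  have hcut : ∀ a (X : WL W) (f : W → Bool), (∀ e ∈ X, e.1 ∈ L a ∧ e.2.1 ∈ L a) →
      (cutN (push (ix (L a)) 1 X) fun i => decide (i ∈ (range ((L a).length + n₀)).filter
        fun i => ((L a)[i]?.map f).getD false = true)) = cutN X f := by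
    intro a X f hX
    rw [cutN_push, one_mul]
    exact cutN_congr fun e he => by
      simp [(ix_spec (hX e he).1).2, (ix_spec (hX e he).2).2,
        (ix_spec (hX e he).1).1.trans_le (Nat.le_add_right _ n₀),
        (ix_spec (hX e he).2).1.trans_le (Nat.le_add_right _ n₀)]
  refine ⟨fun a => (L a).length + n₀, fun a => agg ((L a).length + n₀) (push (ix (L a)) 1 (E a)),
    fun a => push (ix (L a)) 1 (D a), by fun_prop, pt_agg (by fun_prop) (pp p1), pp p2,
    fun a => ⟨Nat.le_add_left _ _, ⟨fun e he => ?_, ?_, fun e he => ?_⟩, fun f => ⟨_, filter_subset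
      (fun i => ((L a)[i]?.map f).getD false = true) _, ?_, ?_⟩, fun f => ⟨fun w => f (ix (L a) w),
      ?_, ?_⟩⟩⟩
  · obtain ⟨e', he', rfl⟩ := List.mem_map.1 he
    have := mem_agg he'
    exact ⟨this.1.trans this.2, this.2, this.1.ne, Nat.cast_nonneg _⟩
  · have h2 := nodup_agg ((L a).length + n₀) (push (ix (L a)) 1 (E a))
    simp only [toQ, List.map_map]
    rw [List.Nodup, List.pairwise_map] at h2 ⊢
    refine h2.imp_of_mem fun {e e'} he he' hne h6 => hne ?_
    have b1 := (mem_agg he).1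
    have b2 := (mem_agg he').1
    rcases Sym2.eq_iff.1 h6 with h7 | h7
    · exact Prod.ext h7.1 h7.2
    · simp only at h7
      omega
  · obtain ⟨e', he', rfl⟩ := List.mem_map.1 he
    exact ⟨(hlt a _ (hD a) e' he').1, (hlt a _ (hD a) e' he').2, Nat.cast_nonneg _⟩
  · rw [cut_toQ, cut_agg (hlt a _ (hE a)), hcut a _ f (hE a)]
  · rw [cut_toQ, hcut a _ f (hD a)]
  · rw [cut_agg (hlt a _ (hE a)), cutN_push, one_mul]
  · rw [cutN_push, one_mul]

theorem pt_alg {α : Type} [Enc α] {n : α → ℕ} {E D X : α → WL ℕ} (p1 : PT n) (p2 : PT E) (p3 : PT D)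
    (p4 : PT X) {alg : Inst → List ℕ} (halg : IsPolyTime alg) : PT fun a =>
      cutN (X a) fun i => decide (i ∈ (alg (n a, toQ (E a), toQ (D a))).toFinset) := by
  let r : Str → ℕ × WL ℕ × WL ℕ × WL ℕ := fun x => rd (PT.parse x)
  have pr : PT r := PT.rd PT.parse'
  have q := pt_of_isPolyTime (isPolyTime_comp halg (poly_inst pr.fst pr.snd.fst pr.snd.snd.fst))
  simp only [down_str, up_list] at q
  refine ((pt_cut pr.snd.snd.snd q).comp
    (p1.prodMk (p2.prodMk (p3.prodMk p4))).enc'.bits).of_eq fun a => ?_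
  simp only [r, PT.parse_bits', Rd.rd_enc]
  congr 1
  funext i
  simp

section
variable {α : Type} [Enc α] {NR NU K A N X Y : α → ℕ}

@[fun_prop] theorem pt_vx {l l' : α → List ℕ} (p1 : PT NR) (p2 : PT NU) (p3 : PT l) (p4 : PT l') :
    PT fun a => vx (NR a) (NU a) (l a) (l' a) := by
  unfold vx
  fun_prop

@[fun_prop] theorem pt_path {u v : α → Vx} (p1 : PT u) (p2 : PT v) : PT fun a => path (u a) (v a) := by
  unfold path
  fun_prop

theorem pt_scale {l : α → WL Vx} (p1 : PT N) (p2 : PT l) : PT fun a => push id (N a) (l a) := by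
  simp only [push, id]
  fun_prop

theorem pt_Eb {Γ : α → ℕ → ℕ → ℕ} (p1 : PT NR) (p2 : PT NU) (p3 : PT K) (p4 : PT A) (p5 : PT N)
    (p6 : PT X) (p7 : PT Y) (p8 : PT fun p : α × ℕ × ℕ => Γ p.1 p.2.1 p.2.2) :
    PT fun a => Eb (NR a) (NU a) (K a) (A a) (N a) (X a) (Y a) (Γ a) := by
  have h : PT fun z : α × List ℕ × List ℕ => loc (NR z.1) (NU z.1) (K z.1) (Γ z.1) z.2.1 z.2.2 := by
    refine PT.flatMap (by fun_prop) (PT.flatMap (by fun_prop) (PT.flatMap (by fun_prop)
      (PT.append (by fun_prop) (PT.append (by fun_prop) (pt_path (pt_vx (by fun_prop) (by fun_prop)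
      (by fun_prop) (PT.cons ?_ (by fun_prop))) (by fun_prop))))))
    exact p8.comp (f := fun z : (((α × List ℕ × List ℕ) × ℕ) × ℕ) × ℕ => (z.1.1.1.1, z.1.1.2, z.2))
      (by fun_prop)
  refine PT.flatMap (by fun_prop) (PT.flatMap (by fun_prop) (PT.flatMap (by fun_prop)
    (PT.flatMap (by fun_prop) ?_)))
  exact h.comp (f := fun z : (((α × ℕ) × ℕ) × ℕ) × ℕ => (z.1.1.1.1,
    dl (NR z.1.1.1.1) z.1.1.1.2 z.1.2, dl (NU z.1.1.1.1) z.1.1.2 z.2)) (by fun_prop)

theorem pt_Db (p1 : PT NR) (p2 : PT NU) (p4 : PT A) (p5 : PT N) (p6 : PT X) (p7 : PT Y) :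
    PT fun a => Db (NR a) (NU a) (A a) (N a) (X a) (Y a) := by
  unfold Db
  fun_prop

end

namespace BE

def Z (G : BE) : ℕ := G.NR + G.NU + G.K + G.A + G.N + G.X + G.Y + 2

theorem size : ∃ c, ∀ G : BE, (3 * sz G.E + 7) ^ 2 + sz G.D + G.cD * G.cE
    + sz (Sum.inl true : Vx) + sz (Sum.inl false : Vx) ≤ G.Z ^ c := by
  have b : ∀ f : BE → ℕ, (∀ G, f G ≤ G.Z) → PB Z f := fun f h => PB.self.mono h
  have b1 := b (·.NR) fun G => by unfold Z; omega
  have b2 := b (·.NU) fun G => by unfold Z; omega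
  have b3 := b (·.K) fun G => by unfold Z; omega
  have b4 := b (·.A) fun G => by unfold Z; omega
  have b5 := b (·.N) fun G => by unfold Z; omega
  have b6 := b (·.X) fun G => by unfold Z; omega
  have b7 := b (·.Y) fun G => by unfold Z; omega
  have b8 := b (fun G => G.J * G.L) fun G => by unfold Z N; omega
  have b9 := b4.add (PB.const 1)
  have c1 : PB Z cE := ((b6.mul b7).mul ((b1.mul b2).mul b3)).mul ((PB.const 3).mul (b9.mul b5))
  have c2 : PB Z cD := (b7.mul (b6.mul b6)).mul (b4.mul b8)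
  have c3 := ((b1.mul (b1.add (PB.const 1))).add (b2.mul (b2.add (PB.const 1)))).add (PB.const 3)
  have v : ∀ NR NU l l', sz (vx NR NU l l') ≤ NR * (NR + 1) + NU * (NU + 1) + 3 := by
    have : ∀ (Q : ℕ) (p : ℕ → Bool), sz ((List.range Q).filter p) ≤ Q * (Q + 1) := fun Q p =>
      (sz_le_of_sublist List.filter_sublist).trans (by
        simpa using sz_list_le (l := List.range Q) (B := Q) fun a ha => by
          simpa using (List.mem_range.1 ha).le)
    intro NR NU l l'
    simp only [vx, sz_inr, sz_pair]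
    exact Nat.add_le_add_right (Nat.add_le_add_right (Nat.add_le_add (this _ _) (this _ _)) 1) 2
  have v2 : ∀ NR NU l l' l2 l2', sz (path (vx NR NU l l') (vx NR NU l2 l2'))
      ≤ 4 * (NR * (NR + 1) + NU * (NU + 1) + 3) + 15 := fun NR NU l l' l2 l2' => by
    have := v NR NU l l'
    have := v NR NU l2 l2'
    simp only [path, sz_cons, sz_pair, sz_inl, sz_true, sz_false, sz_nat, sz_nil]
    omega
  have c4 : PB Z fun G => sz G.E := ((c2.add (PB.const 1)).mul (b9.mul (b5.mul (b6.mul (b7.mul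
    (b1.mul (b2.mul (b3.mul ((PB.const 3).mul (((PB.const 4).mul c3).add
    (PB.const 15))))))))))).mono fun G => (sz_push (d := 0) (fun _ => le_rfl) _ _).trans
      (Nat.mul_le_mul_left _ (sz_range fun a => sz_range fun b => sz_range fun ω => sz_range fun ω' =>
        sz_range fun r => sz_range fun u => sz_range fun i => by
          rw [sz_append, sz_append]
          exact (Nat.add_le_add (v2 ..) (Nat.add_le_add (v2 ..) (v2 ..))).trans (by omega)))
  have c5 : PB Z fun G => sz G.D := ((c1.add (PB.const 1)).mul (b4.mul (b8.mul (b7.mul (b6.mul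
    (b6.mul (((PB.const 2).mul c3).add (PB.const 4)))))))).mono fun G =>
      (sz_push (d := 0) (fun _ => le_rfl) _ _).trans
      (Nat.mul_le_mul_left _ (sz_range fun a => sz_range fun b => sz_range fun ω' => sz_range fun ω =>
        sz_range fun ω2 => by
          have := v G.NR G.NU (dl G.NR (a + 1) ω) (dl G.NU b ω')
          have := v G.NR G.NU (dl G.NR (a + 1) ω2) (dl G.NU b ω')
          simp only [sz_cons, sz_pair, sz_nat, sz_nil]
          omega))
  obtain ⟨c, hc⟩ := exists_pow ((((((((PB.const 3).mul c4).add (PB.const 7)).pow 2).add c5).add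
    (c2.mul c1)).add (PB.const (sz (Sum.inl true : Vx)))).add (PB.const (sz (Sum.inl false : Vx))))
  exact ⟨c, fun G => hc G (Nat.le_add_left _ _)⟩

theorem dec : ∃ c, ∀ {α : Type} [Enc α] (G : α → BE) (_ : PT fun a => (G a).NR)
    (_ : PT fun a => (G a).NU) (_ : PT fun a => (G a).K) (_ : PT fun a => (G a).A)
    (_ : PT fun a => (G a).L) (_ : PT fun a => (G a).J)
    (_ : PT fun p : α × ℕ × ℕ => (G p.1).Γ p.2.1 p.2.2)
    (_ : PB sz fun a => (G a).Z ^ (c * (2 * ((G a).J * (G a).KT) + 1) + 1))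
    {alg : Inst → List ℕ} (_ : IsPolyTime alg) {n₀ : ℕ} {ρ : ℕ → ℝ} (_ : ApproximatesFrom n₀ ρ alg),
    ∃ (d : α → Bool) (n : α → ℕ), PT d ∧ PT n ∧ ∀ a, n₀ ≤ n a ∧ ((G a).Ok →
      ((G a).Yes → 216 * ρ (n a) < (G a).J → d a = true) ∧ ((G a).No → d a = false)) := by
  classical
  obtain ⟨c, hc⟩ := size
  refine ⟨c, fun {α} _ G p1 p2 p3 p4 p5 p6 p7 hB alg halg n₀ ρ hA => ?_⟩
  have z : PB sz fun a => (G a).Z := hB.mono fun a => Nat.le_self_pow (by omega) _
  have pN : PT fun a => (G a).N := by unfold N; fun_prop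
  have pX : PT fun a => (G a).X := PTB.to_unary ((PTB.of_unary p1).pow p4)
    (z.mono fun a => by unfold Z X; omega)
  have pY : PT fun a => (G a).Y := PTB.to_unary ((PTB.of_unary p2).pow pN)
    (z.mono fun a => by unfold Z Y; omega)
  have pc : PT fun a => (G a).cE := by unfold cE; fun_prop
  have pd : PT fun a => (G a).cD := by unfold cD; fun_prop
  have pK : PT fun a => (G a).KT := by unfold KT; fun_prop
  have pE : PT fun a => (G a).E := pt_scale pd (pt_Eb p1 p2 p3 p4 pN pX pY p7)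
  have pD : PT fun a => (G a).D := pt_scale pc (pt_Db p1 p2 p4 (p6.mul p5) pX pY)
  obtain ⟨q1, q2⟩ := pt_pow (.inl true) (.inl false) pE pD (pd.mul pc) (p6.mul pK)
    (fun a => hc (G a)) (hB.mono fun a => by
      rw [← pow_mul]
      exact Nat.pow_le_pow_right (by unfold Z; omega) (by omega))
  obtain ⟨n, E', D', r1, r2, r3, h⟩ := numbered q1 q2 n₀
  refine ⟨_, n, PT.dec_lt (((PT.const 9).mul pK).mul (pt_alg r1 r2 r3 r2 halg))
    (pt_alg r1 r2 r3 r3 halg), r1, fun a => ⟨(h a).1, fun ok => ⟨fun hy hJ => ?_, fun hn => ?_⟩⟩⟩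
  · obtain ⟨h0, h1, h2, -⟩ := h a
    obtain ⟨f, hf, e, h3⟩ := yes ok hy
    obtain ⟨T, t1, t2, t3⟩ := h2 fun z => MP_a1e814_lc.rec f (.inl true) z.1 z.2
    have h4 := rec_powD hf (G a).E (G a).D ((G a).J * (G a).KT)
    have l0 : (0 : ℝ) < ((G a).cD * (G a).cE : ℕ) := by exact_mod_cast lam_pos ok
    have J0 : (0 : ℝ) < (G a).J := by exact_mod_cast ok.2.2.2.2.1
    have K0 : (0 : ℝ) < (G a).KT := by
      have := ok.2.2.2.1
      unfold KT N
      positivity
    rw [rec_powE hf] at t2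
    rw [e] at h4 t2
    generalize (G a).cD * (G a).cE = lam at h3 h4 t2 t3 l0
    generalize cutN (powD (Sum.inl true : Vx) _ _ _ _ _) _ = x at h4 t3
    have h5 := congrArg (Nat.cast : ℕ → ℝ) h4
    push_cast at h5
    have h6 : (G a).J * (G a).KT * (lam : ℝ) ^ ((G a).J * (G a).KT) ≤ 24 * x := by
      refine le_of_mul_le_mul_right ?_ l0
      rw [mul_assoc 24, h5]
      nlinarith [mul_le_mul_of_nonneg_left h3
        (by positivity : (0 : ℝ) ≤ (G a).J * (G a).KT * (lam : ℝ) ^ ((G a).J * (G a).KT))]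
    have x0 : (0 : ℝ) < x := by
      have : (0 : ℝ) < (G a).J * (G a).KT * (lam : ℝ) ^ ((G a).J * (G a).KT) := by positivity
      linarith
    obtain ⟨s1, s2⟩ := hA _ h1 h0 T t1 (by rw [t3]; exact_mod_cast x0)
    simp only [ratio, t2, t3] at s2
    simp only [cut_toQ] at s1 s2
    have s3 : (0 : ℝ) < cutN (D' a) fun i => decide (i ∈ (alg (n a, toQ (E' a), toQ (D' a))).toFinset) := by
      exact_mod_cast s1
    rw [decide_eq_true_eq, ← Nat.cast_lt (α := ℝ)]
    push_cast at s2 ⊢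
    rw [div_le_iff₀ s3] at s2
    have s4 : 9 * (G a).KT * (ρ (n a) * ((lam : ℝ) ^ ((G a).J * (G a).KT) / x)) < 1 := by
      rw [← mul_div_assoc, ← mul_div_assoc, div_lt_one x0]
      nlinarith [mul_lt_mul_of_pos_right hJ
        (by positivity : (0 : ℝ) < (G a).KT * (lam : ℝ) ^ ((G a).J * (G a).KT))]
    nlinarith [mul_le_mul_of_nonneg_left s2 (by positivity : (0 : ℝ) ≤ 9 * (G a).KT),
      mul_lt_mul_of_pos_right s4 s3]
  · obtain ⟨f, e1, e2⟩ := (h a).2.2.2 fun i =>
      decide (i ∈ (alg (n a, toQ (E' a), toQ (D' a))).toFinset)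
    have J0 : (0 : ℝ) < (G a).J := by exact_mod_cast ok.2.2.2.2.1
    have h3 := powD_le (by simp) (by positivity : (0 : ℝ) ≤ 8 / (G a).J) (lam_le ok)
      (fun F => ⟨no_sep ok hn F, no_eq ok F⟩) ((G a).J * (G a).KT) f
    have h4 : 0 ≤ (G a).KT * ((((G a).cD * (G a).cE : ℕ) : ℝ) ^ ((G a).J * (G a).KT)
      * MP_a1e814_lc.ind (f ([], .inl true)) (f ([], .inl false))) := by positivity
    have h5 : (8 : ℝ) / (G a).J * ((G a).J * (G a).KT : ℕ) = 8 * (G a).KT := by
      push_cast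
      field_simp
    rw [decide_eq_false_iff_not, e1, e2, not_lt, ← Nat.cast_le (α := ℝ)]
    rw [h5] at h3
    push_cast at h3 h4 ⊢
    linarith

end BE

end Pool.Agent.Lib.MP_a1e814_lc.Se
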