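import Pool.Agent.Lib.MP_a1e814_lc.SeStr
import Pool.Agent.Lib.MP_a1e814_lc.SePow

/-! Numbering a system of local tests; the constant part is read from a table. -/

set_option linter.unusedSectionVars false
set_option synthInstance.maxSize 2000

namespace Pool.Agent.Lib.MP_a1e814_lc.Se

open Finset Function Pool.Agent.Lib.Complexity
open scoped BigOperators

/-- `d` enumerates a finite type -/
def Num {X : Type} [Fintype X] (n : ℕ) (d : ℕ → X) : Prop :=
  n = Fintype.card X ∧ ∀ x, ∃ ω < n, d ω = x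

section
variable {X Y : Type} [Fintype X] [Fintype Y] {n n' : ℕ} {d : ℕ → X} {d' : ℕ → Y}

theorem Num.surj (h : Num n d) : Set.SurjOn d (range n) (univ : Finset X) := fun x _ => by
  simpa using h.2 x

theorem Num.inj (h : Num n d) : Set.InjOn d (range n) :=
  injOn_of_surjOn_of_card_le d (fun _ _ => by simp) h.surj (by simp [h.1])

theorem Num.ex (h : Num n d) (φ : X → ℝ) : 𝔼 ω ∈ range n, φ (d ω) = 𝔼 x, φ x :=
  expect_nbij d (by simp) (fun _ _ => rfl) h.inj h.surj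

theorem exists_num (X : Type) [Fintype X] [Nonempty X] : ∃ d : ℕ → X, Num (Fintype.card X) d :=
  ⟨fun n => (Fintype.equivFin X).symm ⟨n % _, Nat.mod_lt _ Fintype.card_pos⟩, rfl, fun x =>
    ⟨Fintype.equivFin X x, Fin.is_lt _, by simp [Nat.mod_eq_of_lt]⟩⟩

theorem Num.prod (h : Num n d) (h' : Num n' d') :
    Num (n * n') fun ω => (d (ω % n), d' (ω / n)) := by
  refine ⟨by simp [h.1, h'.1], fun x => ?_⟩
  obtain ⟨a, a1, a2⟩ := h.2 x.1
  obtain ⟨b, b1, b2⟩ := h'.2 x.2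
  refine ⟨a + n * b, by nlinarith [Nat.mul_le_mul_left n (Nat.succ_le_of_lt b1)], ?_⟩
  simp [Nat.add_mul_div_left _ _ (Nat.zero_lt_of_lt a1), Nat.mod_eq_of_lt a1, Nat.div_eq_of_lt a1,
    a2, b2]

theorem exists_digits {m : ℕ} (a : Fin m → ℕ) (h : ∀ c, a c < n) :
    ∃ ω < n ^ m, ∀ c : Fin m, ω / n ^ (c : ℕ) % n = a c :=
  ⟨finFunctionFinEquiv fun c => ⟨a c, h c⟩, Fin.is_lt _, fun c => by
    rw [← finFunctionFinEquiv_symm_apply_val, Equiv.symm_apply_apply]⟩

theorem Num.pow (h : Num n d) (m : ℕ) :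
    Num (n ^ m) fun ω (c : Fin m) => d (ω / n ^ (c : ℕ) % n) := by
  refine ⟨by simp [h.1], fun x => ?_⟩
  choose a a1 a2 using fun c => h.2 (x c)
  obtain ⟨ω, h1, h2⟩ := exists_digits a a1
  exact ⟨ω, h1, funext fun c => by simp only [h2, a2]⟩

theorem num_fin (h : 0 < n) : Num n fun ω => (⟨ω % n, Nat.mod_lt _ h⟩ : Fin n) :=
  ⟨by simp, fun x => ⟨x, x.2, by simp [Nat.mod_eq_of_lt]⟩⟩

end

def look {K : Type} [DecidableEq K] (T : List (K × ℕ)) (k : K) : ℕ :=
  ((T.find? fun e => decide (e.1 = k)).map Prod.snd).getD 0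

theorem exists_table {K X : Type} [DecidableEq K] [Enc K] [Fintype X] {κ : X → K} (h : Injective κ)
    (v : X → ℕ) {B : ℕ} (hB : ∀ x, sz (κ x) + v x ≤ B) :
    ∃ T, sz T ≤ Fintype.card X * (B + 2) ∧ ∀ x, look T (κ x) = v x := by
  refine ⟨univ.toList.map fun x => (κ x, v x), ?_, fun x => ?_⟩
  · simpa using sz_list_le (l := univ.toList.map fun x => (κ x, v x)) (B := B + 1) fun e he => by
      obtain ⟨x, -, rfl⟩ := List.mem_map.1 he
      simpa using hB x
  · unfold look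
    cases c : (univ.toList.map fun x => (κ x, v x)).find? fun e => decide (e.1 = κ x) with
    | none => simpa using List.find?_eq_none.1 c (κ x, v x) (List.mem_map.2 ⟨x, by simp, rfl⟩)
    | some e =>
      obtain ⟨y, -, rfl⟩ := List.mem_map.1 (List.mem_of_find?_eq_some c)
      simpa using congrArg v (h (by simpa using List.find?_some c))

def lit (ψ : CNF) (j r : ℕ) : ℕ × Bool := (ψ.getD j []).getD r ((ψ.getD j []).headD (0, true))

def name (ψ : CNF) (j r : ℕ) : ℕ :=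
  if r = 0 then 0 else if r ≤ 4 then 3 * (lit ψ j (r - 1)).1 + 1 else 3 * j + (r - 3)

abbrev InfL := List Bool × List (List Bool)

def infL (ψ : CNF) (m D j c : ℕ) : InfL :=
  ((List.range 4).map fun r => (lit ψ j r).2,
    (List.range 7).map fun r => (dl m D (name ψ j r)).map fun x => decide (x = c))

abbrev Adv := List ℕ × List ((ℕ × ℕ × ℕ × List InfL) × ℕ) × List ((ℕ × ℕ) × ℕ)

def gam (nA nB nS nL nI D NU : ℕ) (T1 : List ((ℕ × ℕ × ℕ × List InfL) × ℕ)) (T2 : List ((ℕ × ℕ) × ℕ))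
    (m : ℕ) (ψ : CNF) (r i : ℕ) : ℕ :=
  ((List.range NU).find? fun u => decide (u % nL = look T2 (i, r % nA) ∧ dl nS m (u / nL)
    = (List.range m).map fun c => look T1 (i, r % nA, (dl nB m (r / nA % nB ^ m)).getD c 0,
      (dl ψ.length nI (r / nA / nB ^ m)).map fun j => infL ψ m D j c))).getD 0

def mkBE (θ : Adv) (m : ℕ) (ψ : CNF) : BE where
  NR := θ.1.getD 0 0 * (θ.1.getD 1 0 ^ m * ψ.length ^ θ.1.getD 4 0)
  NU := θ.1.getD 3 0 * θ.1.getD 2 0 ^ m
  K := θ.1.getD 5 0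
  A := θ.1.getD 7 0
  L := θ.1.getD 8 0
  J := θ.1.getD 9 0
  Γ := gam (θ.1.getD 0 0) (θ.1.getD 1 0) (θ.1.getD 2 0) (θ.1.getD 3 0) (θ.1.getD 4 0) (θ.1.getD 6 0)
    (θ.1.getD 3 0 * θ.1.getD 2 0 ^ m) θ.2.1 θ.2.2 m ψ

theorem pt_gam {α : Type} [Enc α] {nA nB nS nL nI D NU m r i : α → ℕ}
    {T1 : α → List ((ℕ × ℕ × ℕ × List InfL) × ℕ)} {T2 : α → List ((ℕ × ℕ) × ℕ)} {ψ : α → CNF}
    (p0 : PT nA) (p1 : PT nB) (p2 : PT nS) (p3 : PT nL) (p4 : PT nI) (p5 : PT D) (p6 : PT NU)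
    (p7 : PT T1) (p8 : PT T2) (p9 : PT m) (q0 : PT ψ) (q1 : PT r) (q2 : PT i) : PT fun a =>
      gam (nA a) (nB a) (nS a) (nL a) (nI a) (D a) (NU a) (T1 a) (T2 a) (m a) (ψ a) (r a) (i a) := by
  have h0 := q1.div p0
  have h1 := PTB.to_unary ((PTB.of_unary h0).mod ((PTB.of_unary p1).pow p9))
    (h0.pb_nat.mono fun a => Nat.mod_le _ _)
  have h2 := PTB.to_unary ((PTB.of_unary h0).div ((PTB.of_unary p1).pow p9))
    (h0.pb_nat.mono fun a => Nat.div_le_self _ _)
  have h3 : PT fun z : CNF × ℕ × ℕ => lit z.1 z.2.1 z.2.2 := by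
    unfold lit
    fun_prop
  have h4 : PT fun z : CNF × ℕ × ℕ => name z.1 z.2.1 z.2.2 :=
    PT.ite (by fun_prop) (by fun_prop) (PT.ite (by fun_prop) (((PT.const 3).mul
      (h3.comp (f := fun z : CNF × ℕ × ℕ => (z.1, z.2.1, z.2.2 - 1)) (by fun_prop)).fst).add
      (PT.const 1)) (by fun_prop))
  have h5 : PT fun z : CNF × ℕ × ℕ × ℕ × ℕ => infL z.1 z.2.1 z.2.2.1 z.2.2.2.1 z.2.2.2.2 :=
    (PT.map (by fun_prop) (h3.comp (f := fun z : (CNF × ℕ × ℕ × ℕ × ℕ) × ℕ =>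
      (z.1.1, z.1.2.2.2.1, z.2)) (by fun_prop)).snd).prodMk (PT.map (by fun_prop) (PT.map
      (pt_dl (by fun_prop) (by fun_prop) (h4.comp (f := fun z : (CNF × ℕ × ℕ × ℕ × ℕ) × ℕ =>
      (z.1.1, z.1.2.2.2.1, z.2)) (by fun_prop))) (by fun_prop)))
  have h6 : PT fun z : α × ℕ => (dl (ψ z.1).length (nI z.1) (r z.1 / nA z.1 / nB z.1 ^ m z.1)).map
      fun j => infL (ψ z.1) (m z.1) (D z.1) j z.2 :=
    PT.map (pt_dl (by fun_prop) (by fun_prop) (h2.comp (by fun_prop))) (h5.comp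
      (f := fun z : (α × ℕ) × ℕ => (ψ z.1.1, m z.1.1, D z.1.1, z.2, z.1.2)) (by fun_prop))
  have h7 : PT fun z : α × ℕ => (dl (nB z.1) (m z.1) (r z.1 / nA z.1 % nB z.1 ^ m z.1)).getD z.2 0 :=
    PT.getD (pt_dl (by fun_prop) (by fun_prop) (h1.comp (by fun_prop))) (by fun_prop) (by fun_prop)
  have h8 : ∀ {K β : Type} [DecidableEq K] [Enc K] [Enc β] {T : β → List (K × ℕ)} {k : β → K},
      PT T → PT k → PT fun b => look (T b) (k b) := fun h h' => by
    unfold look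
    fun_prop
  have h9 := PT.map (f := fun a c => look (T1 a) (i a, r a % nA a,
    (dl (nB a) (m a) (r a / nA a % nB a ^ m a)).getD c 0, (dl (ψ a).length (nI a)
      (r a / nA a / nB a ^ m a)).map fun j => infL (ψ a) (m a) (D a) j c)) p9.range
    (h8 (p7.comp (PT.fst PT.id)) ((q2.comp (PT.fst PT.id)).prodMk
    (((q1.mod p0).comp (PT.fst PT.id)).prodMk (h7.prodMk h6))))
  have h10 := h8 p8 (q2.prodMk (q1.mod p0))
  exact PT.option_getD (PT.find? p6.range (PT.dec_and (PT.dec_eq (by fun_prop)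
    (h10.comp (PT.fst PT.id))) (PT.dec_eq (by fun_prop) (h9.comp (PT.fst PT.id))))) (PT.const _)

def dig (D : ℕ) {m : ℕ} (h : 0 < m) (n : ℕ) : Ix D m := fun d => ⟨n / m ^ (d : ℕ) % m, Nat.mod_lt _ h⟩

def pol (ψ : CNF) (j : Fin ψ.length) (r : Fin 4) : B2 := if (lit ψ j r).2 then 1 else 0

def nvar (D : ℕ) {m : ℕ} (h : 0 < m) (ψ : CNF) (j : Fin ψ.length) (r : Fin 7) : Ix D m :=
  dig D h (name ψ j r)

def cInf {D : ℕ} (n : Inf D) : InfL := (List.ofFn fun r => decide (n.1 r = 1),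
  List.ofFn fun r => List.ofFn fun d => decide (n.2 r d = 1))

theorem cInf_inj {D : ℕ} : Injective (cInf (D := D)) := fun n n' e => by
  have : ∀ a b : B2, decide (a = 1) = decide (b = 1) → a = b := by decide
  obtain ⟨e1, e2⟩ := Prod.ext_iff.1 e
  simp only [cInf] at e1 e2
  exact Prod.ext (funext fun r => this _ _ (congrFun (List.ofFn_injective e1) r))
    (funext fun r => funext fun d => this _ _
      (congrFun (List.ofFn_injective (congrFun (List.ofFn_injective e2) r)) d))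

theorem sz_cInf {D : ℕ} (n : Inf D) : sz (cInf n) ≤ 14 * D + 16 := by
  have h1 := PT.sz_str_le (cInf n).1
  have h2 := sz_list_le (l := (cInf n).2) (B := 2 * D) fun a ha => by
    obtain ⟨r, rfl⟩ := List.mem_ofFn.1 ha
    simpa using PT.sz_str_le (List.ofFn fun d => decide (n.2 r d = 1))
  simp only [cInf, List.length_ofFn] at h1 h2
  simp only [cInf, sz_pair]
  omega

theorem map_range {X : Type} (n : ℕ) (f : ℕ → X) :
    (List.range n).map f = List.ofFn fun i : Fin n => f i := by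
  refine List.ext_getElem (by simp) fun i _ _ => by simp

theorem infL_eq (D : ℕ) {m : ℕ} (h : 0 < m) (ψ : CNF) (j : Fin ψ.length) (c : Fin m) :
    infL ψ m D j c = cInf (inf (pol ψ) (nvar D h ψ) j c) := by
  simp only [infL, cInf, inf, dl, List.map_map, map_range, pol, nvar, dig, Fin.ext_iff]
  simp [comp_def]

theorem table {A B S Lb Q : Type} [Fintype A] [Fintype B] [Fintype S] [Fintype Lb] [Fintype Q]
    [Nonempty A] [Nonempty B] [Nonempty S] [Nonempty Lb] [Nonempty Q] (D nI : ℕ)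
    (g : A → B → (Fin nI → Inf D) → Q → S) (lb : A → Q → Lb) {H : ℕ} (h1 : Fintype.card A ≤ H)
    (h2 : Fintype.card B ≤ H) (h3 : Fintype.card S ≤ H) (h4 : Fintype.card Lb ≤ H)
    (h5 : Fintype.card Q ≤ H) (h6 : nI * (14 * D + 16 + 1) ≤ H) (h7 : 2 ^ ((7 * D + 4) * nI) ≤ H) :
    ∃ T1 T2, sz T1 ≤ H ^ 4 * (5 * H + 5) ∧ sz T2 ≤ H ^ 2 * (3 * H + 3) ∧
    ∀ a L J {m} (hm : 0 < m) (ψ : CNF) [Nonempty (Fin ψ.length)],
      let G := mkBE ([Fintype.card A, Fintype.card B, Fintype.card S, Fintype.card Lb, nI,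
        Fintype.card Q, D, a, L, J], T1, T2) m ψ
      let nb := fun (r : A × (Fin m → B) × (Fin nI → Fin ψ.length)) i =>
        (fun c => g r.1 (r.2.1 c) (fun j => inf (pol ψ) (nvar D hm ψ) (r.2.2 j) c) i, lb r.1 i)
      (∀ r < G.NR, ∀ i < G.K, G.Γ r i < G.NU) ∧
      ((∃ W, Pr W ≤ 1 / (2 * (J * L)) ∧ 1 / (4 * a) ≤ Pr fun r => ∀ i, W (nb r i)) → G.Yes) ∧
      ((∀ W, Pr W ≤ J / L → (Pr fun r => ∀ i, W (nb r i)) ≤ 1 / (J * a)) → G.No) := by
  obtain ⟨dA, nA⟩ := exists_num A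
  obtain ⟨dB, nB⟩ := exists_num B
  obtain ⟨dS, nS⟩ := exists_num S
  obtain ⟨dL, nL⟩ := exists_num Lb
  obtain ⟨dQ, nQ⟩ := exists_num Q
  choose eS s1 s2 using nS.2
  choose eL l1 l2 using nL.2
  obtain ⟨T1, t1, t2⟩ := exists_table (κ := fun x : Fin (Fintype.card Q) × Fin (Fintype.card A)
      × Fin (Fintype.card B) × (Fin nI → Inf D) => ((x.1 : ℕ), (x.2.1 : ℕ), (x.2.2.1 : ℕ),
        List.ofFn fun j => cInf (x.2.2.2 j))) (fun x y e => by
      simp only [Prod.ext_iff, Fin.val_inj] at e ⊢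
      exact ⟨e.1, e.2.1, e.2.2.1, funext fun j => cInf_inj (congrFun (List.ofFn_injective e.2.2.2) j)⟩)
    (fun x => eS (g (dA x.2.1) (dB x.2.2.1) x.2.2.2 (dQ x.1))) (B := 5 * H + 3) fun x => by
      have := sz_list_le (l := List.ofFn fun j => cInf (x.2.2.2 j)) (B := 14 * D + 16) fun a ha => by
        obtain ⟨r, rfl⟩ := List.mem_ofFn.1 ha
        exact sz_cInf _
      have := s1 (g (dA x.2.1) (dB x.2.2.1) x.2.2.2 (dQ x.1))
      have := x.1.2
      have := x.2.1.2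
      have := x.2.2.1.2
      simp only [sz_pair, sz_nat, List.length_ofFn] at *
      omega
  obtain ⟨T2, t3, t4⟩ := exists_table (κ := fun x : Fin (Fintype.card Q) × Fin (Fintype.card A) =>
    ((x.1 : ℕ), (x.2 : ℕ))) (fun x y e => by simpa only [Prod.ext_iff, Fin.val_inj] using e)
    (fun x => eL (lb (dA x.2) (dQ x.1))) (B := 3 * H + 1) fun x => by
      have := l1 (lb (dA x.2) (dQ x.1))
      have := x.1.2
      have := x.2.2
      simp only [sz_pair, sz_nat]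
      omega
  refine ⟨T1, T2, t1.trans (Nat.mul_le_mul_right _ ?_), t3.trans (Nat.mul_le_mul_right _ ?_),
    fun a L J m hm ψ _ => ?_⟩
  · have : Fintype.card (Fin nI → Inf D) ≤ H := le_trans (le_of_eq (by
      simp only [Fintype.card_fun, Fintype.card_prod, Fintype.card_fin, ZMod.card, ← pow_mul, ← pow_add]
      congr 1
      ring)) h7
    rw [Fintype.card_prod, Fintype.card_prod, Fintype.card_prod]
    simp only [Fintype.card_fin]
    exact (Nat.mul_le_mul h5 (Nat.mul_le_mul h1 (Nat.mul_le_mul h2 this))).trans_eq (by ring)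
  · simpa [pow_two] using Nat.mul_le_mul h5 h1
  intro G nb
  have M0 : 0 < ψ.length := by simpa using Fintype.card_pos (α := Fin ψ.length)
  have nR : Num G.NR _ := nA.prod ((nB.pow m).prod ((num_fin M0).pow nI))
  have nU : Num G.NU _ := nL.prod (nS.pow m)
  generalize hR : (fun ω => (dA (ω % Fintype.card A), _) : ℕ → _) = dR at nR
  generalize hU : (fun ω => (dL (ω % Fintype.card Lb), _) : ℕ → _) = dU at nU
  have key : ∀ r, ∀ i < G.K, G.Γ r i < G.NU ∧ (dU (G.Γ r i)).swap = nb (dR r) (dQ i) := by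
    intro r i hi
    have a0 : r % Fintype.card A < Fintype.card A := Nat.mod_lt _ Fintype.card_pos
    have e : ∀ u, (u % Fintype.card Lb = look T2 (i, r % Fintype.card A) ∧
        dl (Fintype.card S) m (u / Fintype.card Lb) = (List.range m).map fun c => look T1 (i,
          r % Fintype.card A, (dl (Fintype.card B) m (r / Fintype.card A % Fintype.card B ^ m)).getD c 0,
          (dl ψ.length nI (r / Fintype.card A / Fintype.card B ^ m)).map fun j => infL ψ m D j c)) ↔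
        u % Fintype.card Lb = eL (nb (dR r) (dQ i)).2 ∧ ∀ c : Fin m, u / Fintype.card Lb
          / Fintype.card S ^ (c : ℕ) % Fintype.card S = eS ((nb (dR r) (dQ i)).1 c) := fun u => by
      rw [t4 (⟨i, hi⟩, ⟨_, a0⟩), dl, map_range, map_range, List.ofFn_inj, funext_iff, ← hR]
      refine and_congr Iff.rfl (forall_congr' fun c => iff_of_eq (congrArg _ ?_))
      rw [← t2 (⟨i, hi⟩, ⟨_, a0⟩, ⟨_, Nat.mod_lt _ Fintype.card_pos⟩, _)]
      simp only [dl, List.map_map, map_range, ← infL_eq, Nat.mod_mod]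
      simp [comp_def]
    obtain ⟨w, w1, w2⟩ := exists_digits (fun c => eS ((nb (dR r) (dQ i)).1 c)) fun c => s1 _
    simp only [G, mkBE, gam, List.getD_cons_zero, List.getD_cons_succ, e]
    cases c : (List.range (Fintype.card Lb * Fintype.card S ^ m)).find? _ with
    | none =>
      have b := l1 (nb (dR r) (dQ i)).2
      refine absurd ?_ (List.find?_eq_none.1 c (eL (nb (dR r) (dQ i)).2 + Fintype.card Lb * w)
        (List.mem_range.2 (by nlinarith [Nat.mul_le_mul_left (Fintype.card Lb) (Nat.succ_le_of_lt w1)])))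
      simp [Nat.add_mul_div_left _ _ Fintype.card_pos, Nat.mod_eq_of_lt b, Nat.div_eq_of_lt b, w2]
    | some u =>
      have b := List.find?_some c
      rw [decide_eq_true_iff] at b
      refine ⟨List.mem_range.1 (List.mem_of_find?_eq_some c), ?_⟩
      rw [← hU]
      exact Prod.ext (funext fun c => by simp [b.2, s2]) (by simp [b.1, l2])
  have tr : ∀ (W : _ → Prop) (W' : ℕ → Prop), (∀ u < G.NU, W' u ↔ W (dU u).swap) →
      𝔼 u ∈ range G.NU, ind (W' u) = Pr W ∧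
      𝔼 r ∈ range G.NR, ind (∀ i ∈ range G.K, W' (G.Γ r i)) = Pr fun r => ∀ i, W (nb r i) :=
    fun W W' h => ⟨(expect_congr rfl fun u hu => ind_congr (h u (mem_range.1 hu))).trans
      ((nU.ex fun v => ind (W v.swap)).trans (Pr_equiv (Equiv.prodComm _ _) W)),
      (expect_congr rfl fun r _ => ind_congr ⟨fun c q => by
        obtain ⟨i, i1, rfl⟩ := nQ.2 q
        rw [← (key r i i1).2, ← h _ (key r i i1).1]
        exact c i (mem_range.2 i1), fun c i hi => by
        rw [h _ (key r i (mem_range.1 hi)).1, (key r i (mem_range.1 hi)).2]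
        exact c _⟩).trans (nR.ex fun r => ind (∀ i, W (nb r i)))⟩
  refine ⟨fun r _ i hi => (key r i hi).1, fun ⟨W, w1, w2⟩ => ?_, fun h W' w => ?_⟩
  · obtain ⟨b1, b2⟩ := tr W (fun u => W (dU u).swap) fun _ _ => Iff.rfl
    exact ⟨_, b1.trans_le w1, w2.trans_eq b2.symm⟩
  · obtain ⟨b1, b2⟩ := tr (fun v => ∃ u < G.NU, (dU u).swap = v ∧ W' u) W' fun u hu =>
      ⟨fun c => ⟨u, hu, rfl, c⟩, fun ⟨u', c1, c2, c3⟩ => nU.inj (by simpa using c1) (by simpa using hu)
        (Prod.swap_injective c2) ▸ c3⟩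
    exact b2.trans_le (h _ (b1.symm.trans_le w))

theorem name_lt {ψ : CNF} (h : ∀ c ∈ ψ, c ≠ []) (j : Fin ψ.length) (r : Fin 7) :
    name ψ j r < 3 * sz ψ + 4 ∧ ∀ r, lit ψ j r ∈ ψ[j] := by
  have h1 : ∀ r, lit ψ j r ∈ ψ[j] := fun r => by
    have := h ψ[j] (List.getElem_mem _)
    simp only [lit, List.getD_eq_getElem _ _ j.2, Fin.getElem_fin] at this ⊢
    generalize ψ[(j : ℕ)] = c at this
    by_cases c' : r < c.length
    · simp [c']
    · rw [List.getD_eq_default _ _ (not_lt.1 c')]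
      cases c <;> simp at this ⊢
  have h2 := sz_lt_of_mem (h1 (r - 1))
  have h3 := sz_lt_of_mem (List.getElem_mem j.2)
  have h4 := length_le_sz ψ
  rw [sz_prod, sz_nat, Fin.getElem_fin] at h2
  refine ⟨?_, h1⟩
  unfold name
  split_ifs <;> omega

theorem qf_eq (p : Fin 4 → B2) (v : Fin 7 → B2) (h : v 0 = 1) (k : Fin 3) : qf p v k
    = ![(p 0 + v 1) * (p 1 + v 2 + v 5), (p 2 + v 3) * (p 3 + v 4 + v 6), v 5 * v 6] k := by
  fin_cases k <;> simp [qf, kap, Fin.sum_univ_seven, h]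

theorem cnf_yes {D m : ℕ} (hm : 0 < m) {ψ : CNF} (h : ∀ c ∈ ψ, c ≠ [] ∧ c.length ≤ 4)
    (hD : 3 * sz ψ + 4 ≤ m ^ D) {σ : ℕ → Bool} (hσ : ψ.Sat σ) : ∃ x : Ix D m → B2, x (dig D hm 0) = 1 ∧
      ∀ j k, qf (pol ψ j) (fun r => x (nvar D hm ψ j r)) k = 0 := by
  let b : Bool → B2 := fun x => if x then 1 else 0
  let ν : ℕ → ℕ → B2 := fun j r => b (lit ψ j r).2 + b (σ (lit ψ j r).1)
  let y : ℕ → B2 := fun n => if n = 0 then 1 else if n % 3 = 1 then b (σ (n / 3)) else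
    if n % 3 = 2 then ν (n / 3) 0 * ν (n / 3) 1 else ν (n / 3 - 1) 2 * ν (n / 3 - 1) 3
  have e : ∀ n < m ^ D, (finFunctionFinEquiv (dig D hm n) : ℕ) = n := fun n hn => by
    rw [show dig D hm n = finFunctionFinEquiv.symm ⟨n, hn⟩ from funext fun d => Fin.ext rfl,
      Equiv.apply_symm_apply]
  refine ⟨fun i => y (finFunctionFinEquiv i), by simp [e 0 (by omega), y], fun j k => ?_⟩
  have e1 := fun r => e _ ((name_lt (fun c hc => (h c hc).1) j r).1.trans_le hD)
  have e2 : ∀ n, (3 * n + 1) % 3 = 1 ∧ (3 * n + 1) / 3 = n ∧ (3 * n + 2) % 3 = 2 ∧ (3 * n + 2) / 3 = n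
      ∧ (3 * n + 3) / 3 - 1 = n := fun n => by omega
  obtain ⟨l, l1, l2⟩ := hσ ψ[j] (List.getElem_mem _)
  obtain ⟨r, r1, rfl⟩ := List.getElem_of_mem l1
  have r2 : r < 4 := r1.trans_le (h _ (List.getElem_mem _)).2
  have r3 : ν j r = 0 := by
    have : lit ψ j r = ψ[j][r] := by simp [lit, List.getElem?_eq_getElem (show r < ψ[(j : ℕ)].length from r1)]
    simp only [ν, this, l2]
    exact CharTwo.add_self_eq_zero _
  have r4 : ν j 0 * ν j 1 * (ν j 2 * ν j 3) = 0 := by interval_cases r <;> simp [r3]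
  have r5 : ∀ a c : B2, a * (c + a * c) = 0 := by decide
  simp only [nvar, e1]
  rw [qf_eq _ _ (by simp [name, y])]
  fin_cases k
  · simpa [name, y, e2, pol] using r5 (ν j 0) (ν j 1)
  · simpa [name, y, e2, pol] using r5 (ν j 2) (ν j 3)
  · simpa [name, y, e2, pol] using r4

theorem cnf_no {D m : ℕ} (hm : 0 < m) {ψ : CNF} [Nonempty (Fin ψ.length)] (h : ∀ c ∈ ψ, c ≠ []) {ε : ℝ}
    (hn : ∀ s : ℕ → Bool, ε * ψ.length ≤ ψ.countP fun c => c.all fun l => s l.1 != l.2)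
    (x : Ix D m → B2) (hx : x (dig D hm 0) = 1) :
    ε ≤ Pr fun j => ∃ k, qf (pol ψ j) (fun r => x (nvar D hm ψ j r)) k ≠ 0 := by
  let σ : ℕ → Bool := fun v => decide (x (dig D hm (3 * v + 1)) = 1)
  have M0 : (0 : ℝ) < ψ.length := by simpa using Fintype.card_pos (α := Fin ψ.length)
  refine le_trans ?_ (Pr_mono (p := fun j => (ψ[j].all fun l => σ l.1 != l.2) = true) fun j c => ?_)
  · rw [Pr_card, Fintype.card_fin, le_div_iff₀ M0]
    refine (hn σ).trans_eq (congrArg _ ?_)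
    rw [← List.toFinset_finRange, (List.nodup_finRange _).card_eq_countP]
    conv_lhs => rw [← List.map_get_finRange ψ, List.countP_map]
    simp [comp_def]
  have e : ∀ r : Fin 4, pol ψ j r + x (dig D hm (3 * (lit ψ j r).1 + 1)) = 1 := fun r => by
    have := List.all_eq_true.1 c _ ((name_lt h j 0).2 r)
    revert this
    simp only [pol, σ]
    rcases z2 (x (dig D hm (3 * (lit ψ j r).1 + 1))) with e | e <;> cases (lit ψ j r).2 <;> simp [e]
  by_contra c'
  push Not at c'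
  have c0 := c' 0
  have c1 := c' 1
  have c2 := c' 2
  have e0 := e 0
  have e1 := e 1
  have e2 := e 2
  have e3 := e 3
  rw [qf_eq _ _ (by simpa [nvar, name] using hx)] at c0 c1 c2
  simp [nvar, name] at c0 c1 c2 e0 e1 e2 e3
  simp only [e0, e1, e2, e3] at c0 c1
  revert c0 c1 c2
  generalize x (dig D hm (3 * j + 2)) = a
  generalize x (dig D hm (3 * j + 3)) = b
  decide +revert

end Pool.Agent.Lib.MP_a1e814_lc.Se
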