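import Pool.Agent.Lib.MP_a1e814_lc.SeBE
import Pool.Agent.Lib.MP_a1e814_lc.SeTab

/-! The choice of the parameters. -/

set_option linter.unusedSectionVars false
set_option synthInstance.maxSize 2000

namespace Pool.Agent.Lib.MP_a1e814_lc.Se

open Finset Function Filter Pool.Agent.Lib.Complexity
open scoped BigOperators

def SE {β : Type} (Z f : β → ℕ) : Prop := ∃ g, PB Z g ∧ ∀ b, f b ≤ 2 ^ g b

section
variable {β : Type} {Z f g : β → ℕ}

theorem SE.of (h : PB Z f) : SE Z f := ⟨f, h, fun _ => Nat.lt_two_pow_self.le⟩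

theorem SE.mono (h : SE Z g) (e : ∀ b, f b ≤ g b) : SE Z f :=
  let ⟨a, a1, a2⟩ := h
  ⟨a, a1, fun b => (e b).trans (a2 b)⟩

theorem SE.mul (h : SE Z f) (h' : SE Z g) : SE Z fun b => f b * g b :=
  let ⟨_, a1, a2⟩ := h
  let ⟨_, c1, c2⟩ := h'
  ⟨_, a1.add c1, fun b => (Nat.mul_le_mul (a2 b) (c2 b)).trans_eq (pow_add _ _ _).symm⟩

theorem SE.add (h : SE Z f) (h' : SE Z g) : SE Z fun b => f b + g b :=
  let ⟨a, a1, a2⟩ := h
  let ⟨c, c1, c2⟩ := h'
  ⟨_, (a1.add c1).add (PB.const 1), fun b => by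
    have := (a2 b).trans (Nat.pow_le_pow_right two_pos (Nat.le_add_right (a b) (c b)))
    have := (c2 b).trans (Nat.pow_le_pow_right two_pos (Nat.le_add_left (c b) (a b)))
    dsimp only
    omega⟩

theorem SE.pow (h : SE Z f) (h' : PB Z g) : SE Z fun b => f b ^ g b :=
  let ⟨_, a1, a2⟩ := h
  ⟨_, a1.mul h', fun b => (Nat.pow_le_pow_left (a2 b) _).trans_eq (pow_mul _ _ _).symm⟩

theorem SE.bound (h : SE Z f) : ∃ c, ∀ b, 2 ≤ Z b → f b ≤ 2 ^ Z b ^ c :=
  let ⟨_, a1, a2⟩ := h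
  let ⟨c, hc⟩ := exists_pow a1
  ⟨c, fun b hb => (a2 b).trans (Nat.pow_le_pow_right two_pos (hc b hb))⟩

end

theorem exists_field (h : ℕ) : ∃ (F : Type) (_ : Field F) (_ : Fintype F) (_ : DecidableEq F)
    (tr : F →+ B2) (_ : B2 →+* F), tr ≠ 0 ∧ Fintype.card F = 2 ^ (h + 1) := by
  classical
  letI := Fintype.ofFinite (GaloisField 2 (h + 1))
  obtain ⟨f, hf⟩ := not_forall.1 ((Module.forall_dual_apply_eq_zero_iff (ZMod 2)
    (1 : GaloisField 2 (h + 1))).not.2 one_ne_zero)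
  exact ⟨_, inferInstance, inferInstance, inferInstance, f.toAddMonoidHom, algebraMap _ _,
    fun c => hf (DFunLike.congr_fun c 1), by rw [Fintype.card_eq_nat_card, GaloisField.card 2 _ (by simp)]⟩

def Good (D : ℕ) (ε : ℝ) (θ : Adv) : Prop :=
  ∀ m, 0 < m → ∀ ψ : CNF, ψ ≠ [] → (∀ c ∈ ψ, c ≠ [] ∧ c.length ≤ 4) → 3 * sz ψ + 4 ≤ m ^ D →
    (mkBE θ m ψ).Ok ∧ ((∃ s, ψ.Sat s) → (mkBE θ m ψ).Yes) ∧ ((∀ s : ℕ → Bool,
      ε * ψ.length ≤ ψ.countP fun c => c.all fun l => s l.1 != l.2) → (mkBE θ m ψ).No)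

theorem inst {F : Type} [Field F] [Fintype F] [DecidableEq F] {tr : F →+ B2} (φ : B2 →+* F)
    (htr : tr ≠ 0) {D T0 ρ g k v s t T : ℕ} [NeZero T]
    (sl : ZMod T ≃ Fin t × (Fin (ρ + 1) × Bool → Fin T0 ⊕ Fin 7)) (hD : 0 < D) {ε : ℝ} (ε0 : 0 ≤ ε)
    (ε1 : ε ≤ 1 / 4) (hT : (1 - (1 / 2) ^ D) ^ T0 ≤ ε / 8)
    (hk : k = 2 * (Fintype.card (Bk (ρ + 1) D) + 1) ^ 11) (hv : v = g + 3 + 3 * k * (2 * g + 3))
    (hs : s = 2 * g + v + 3) (ht : t = 4 * 8 ^ ρ) (hq : Fintype.card F = 2 ^ (6 * (Fintype.card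
      (Bk (ρ + 1) D) + 3) + v * (3 * k + 1) * (28 * k + 17) + 13 + 1))
    (race : ((2 * (v * (3 * k + 1) * (10 * k + 8) + 2) : ℕ) : ℝ) ≤ (1 + ε / 2) ^ (ρ + 1)) {H : ℕ}
    (h : Fintype.card (Cst F T0 t (ρ + 1) D k s) + Fintype.card (Loc F T T0 t (ρ + 1) D)
      + Fintype.card (Sy F T (ρ + 1) D) + Fintype.card (Fin s → F) + Fintype.card (Qy k)
      + t * (ρ + 1) * (14 * D + 16 + 1) + 2 ^ ((7 * D + 4) * (t * (ρ + 1))) + D + 2 ^ (s * (3 * k))
      + 2 ^ (g + 1 + v) + 2 ^ g ≤ H) : ∃ θ : Adv, sz θ ≤ H + 12 + H ^ 4 * (5 * H + 5) + H ^ 2 * (3 * H + 3)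
      ∧ θ.1.getD 9 0 = 2 ^ g ∧ Good D ε θ := by
  obtain ⟨E, hE⟩ : ∃ E, Fintype.card (Bk (ρ + 1) D) = E := ⟨_, rfl⟩
  obtain ⟨w, hw⟩ : ∃ w, v * (3 * k + 1) = w := ⟨_, rfl⟩
  rw [hE, hw] at hq
  rw [hw] at race
  have k0 : 1 ≤ k := by rw [hk]; exact Nat.pos_of_ne_zero (by positivity)
  have w1 : w = g + s * (3 * k) + 3 := by rw [← hw, hs, mul_add]; nth_rw 2 [hv]; ring
  have w2 : s ≤ w := by
    have := Nat.le_mul_of_pos_right s (show 0 < 3 * k by omega)
    omega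
  have w3 : ∀ n, (2 : ℝ) ^ n * (1 / 2) ^ n = 1 := fun n => by rw [← mul_pow]; simp
  have w4 : ∀ {a b}, a ≤ b → (1 / 2 : ℝ) ^ b ≤ (1 / 2) ^ a := fun h =>
    pow_le_pow_of_le_one (by norm_num) (by norm_num) h
  have q1 : 2 ^ 14 * (E + 3 : ℝ) ^ 6 ≤ Fintype.card F * ((1 / 2) ^ w) ^ (28 * k + 17) := by
    have : (E + 3 : ℝ) ≤ 2 ^ (E + 3) := by exact_mod_cast (Nat.lt_two_pow_self (n := E + 3)).le
    rw [hq, ← pow_mul, Nat.cast_pow, Nat.cast_ofNat, add_assoc, add_right_comm, pow_add, mul_assoc, w3,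
      mul_one, pow_add, mul_comm 6, pow_mul, mul_comm]
    gcongr
  have t0 : (t : ℝ) * (1 / 8) ^ (ρ + 1) = 1 / 2 := by
    rw [ht, pow_succ, one_div_pow]
    push_cast
    field_simp
    norm_num
  let f0 : Bk (ρ + 1) D := (0, false, ⟨0, hD⟩)
  have z1 := Nat.zero_le (2 ^ ((7 * D + 4) * (t * (ρ + 1))))
  have z2 := Nat.zero_le (2 ^ (s * (3 * k)))
  have z3 := Nat.zero_le (2 ^ (g + 1 + v))
  have z4 := Nat.zero_le (2 ^ g)
  obtain ⟨T1, T2, t1, t2, tb⟩ := table D (t * (ρ + 1)) (fun a b n => gl (k := k) (s := s) φ sl f0 a b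
    fun i k => n (finProdFinEquiv (i, k))) (lab tr) (H := H) (by omega) (by omega) (by omega) (by omega)
    (by omega) (by omega) (by omega)
  refine ⟨([Fintype.card (Cst F T0 t (ρ + 1) D k s), Fintype.card (Loc F T T0 t (ρ + 1) D),
    Fintype.card (Sy F T (ρ + 1) D), Fintype.card (Fin s → F), t * (ρ + 1), Fintype.card (Qy k), D,
    2 ^ (s * (3 * k)), 2 ^ (g + 1 + v), 2 ^ g], T1, T2), ?_, rfl, fun m hm ψ p0 p1 p2 => ?_⟩
  rotate_left
  · haveI : Nonempty (Fin ψ.length) := ⟨⟨0, List.length_pos_iff.2 p0⟩⟩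
    obtain ⟨a1, a2, a3⟩ := tb (2 ^ (s * (3 * k))) (2 ^ (g + 1 + v)) (2 ^ g) hm ψ
    let e : Cst F T0 t (ρ + 1) D k s × (Fin m → Loc F T T0 t (ρ + 1) D) × (Fin (t * (ρ + 1)) → Fin ψ.length)
        ≃ Om F T T0 t (ρ + 1) D m k s (Fin ψ.length) := (Equiv.refl _).prodCongr ((Equiv.refl _).prodCongr
      ((finProdFinEquiv.arrowCongr (Equiv.refl _)).symm.trans (Equiv.curry _ _ _)))
    have he := fun W : _ → Prop => Pr_equiv e fun r => ∀ i, W (nb tr φ sl f0 (pol ψ) (nvar D hm ψ) r i)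
    refine ⟨⟨Nat.mul_pos (Fintype.card_pos (α := Fin s → F)) (Nat.pow_pos (Fintype.card_pos
      (α := Sy F T (ρ + 1) D))), Fintype.card_pos (α := Qy k), Nat.two_pow_pos _, Nat.two_pow_pos _,
      Nat.two_pow_pos _, ?_, a1⟩, fun ⟨σ, hσ⟩ => a2 ?_, fun hn => a3 fun W hW => ?_⟩
    · refine le_trans ?_ (Nat.le_mul_of_pos_right _ (Nat.mul_pos (Nat.pow_pos (Fintype.card_pos
        (α := Loc F T T0 t (ρ + 1) D))) (Nat.pow_pos (List.length_pos_iff.2 p0))))
      refine le_trans ?_ (Fintype.card_le_of_injective (fun x : Qy k → Fin s → F =>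
        ((Classical.arbitrary _, Classical.arbitrary _, x) : Cst F T0 t (ρ + 1) D k s))
        fun x y c => congrArg (·.2.2) c)
      change 2 ^ 2 * 2 ^ (s * (3 * k)) ≤ _
      rw [Fintype.card_fun, Fintype.card_fun, ← pow_mul, ← pow_add]
      refine le_trans ?_ (Nat.pow_le_pow_left Fintype.one_lt_card _)
      simp only [Fintype.card_option, Fintype.card_prod, Fintype.card_fin]
      exact Nat.pow_le_pow_right two_pos (by rw [mul_add]; omega)
    · obtain ⟨x, x1, x2⟩ := cnf_yes hm p1 p2 hσ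
      obtain ⟨W, b1, b2⟩ := be_yes (k := k) (s := s) φ sl f0 (pol ψ) htr (fun _ => rfl) t0.le x1 x2
      rw [hE] at b1
      refine ⟨W, b1.trans ?_, le_trans ?_ (he W).ge⟩
      · have q0 : (0 : ℝ) < Fintype.card F := by exact_mod_cast Fintype.card_pos
        have : 2 * E / Fintype.card F ≤ (1 / 2 : ℝ) ^ s := by
          rw [div_le_iff₀' q0]
          refine le_trans ?_ (q1.trans (mul_le_mul_of_nonneg_left ?_ q0.le))
          · have := pow_le_pow_right₀ (show (1 : ℝ) ≤ E + 3 by linarith [E.cast_nonneg (α := ℝ)])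
              (show 1 ≤ 6 by norm_num)
            linarith [E.cast_nonneg (α := ℝ)]
          · rw [← pow_mul]
            exact w4 (w2.trans (Nat.le_mul_of_pos_right _ (by omega)))
        refine (add_le_add_right this _).trans_eq ?_
        rw [hs]
        push_cast
        simp only [one_div_pow]
        field_simp
        ring
      · rw [div_le_iff₀ (by positivity)]
        push_cast
        linarith [mul_nonneg (Pr_nn fun r : Om F T T0 t (ρ + 1) D m k s _ => ∀ i,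
          W (nb tr φ sl f0 (pol ψ) (nvar D hm ψ) r i)) (pow_pos (two_pos (α := ℝ)) (s * (3 * k))).le]
    · refine (he W).trans_le ((be_no φ sl f0 (pol ψ) htr (fun _ => rfl) (u := (1 / 2) ^ w)
        (μ := (1 / 2) ^ (v + 1)) (n := 2 ^ (w * (4 * k + 2))) ε0 ε1 hT
        (cnf_no hm (fun c hc => (p1 c hc).1) hn) (by positivity) (by simpa using w4 (a := 1) (by omega))
        ?_ (by rw [← pow_mul]; exact_mod_cast w3 _) (by rw [← hw, pow_mul]; apply le_of_eq; congr 1; ring)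
        (w4 (by omega)) hk (hE ▸ q1) ?_ W (hW.trans_eq ?_)).trans_eq ?_)
      · exact (mul_le_mul_of_nonneg_right (by exact_mod_cast w2.trans Nat.lt_two_pow_self.le)
          (by positivity)).trans_eq (w3 w)
      · refine (pow_le_pow_left₀ (sub_nonneg.2 (pow_le_one₀ (by positivity) (by linarith)))
          (Real.one_sub_le_exp_neg _) t).trans ?_
        rw [← Real.exp_nat_mul, show 1 / 8 + ε / 16 = 1 / 8 * (1 + ε / 2) by ring, mul_pow, mul_neg,
          ← mul_assoc, t0]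
        refine (Real.exp_le_exp.2 (show _ ≤ (w * (10 * k + 8) + 2 : ℕ) * (-1 : ℝ) by
          push_cast at race ⊢; linarith)).trans ?_
        rw [Real.exp_nat_mul, ← pow_mul]
        refine (pow_le_pow_left₀ (Real.exp_pos _).le Real.exp_neg_one_lt_half.le _).trans ?_
        rw [pow_add]
        linarith [pow_pos (show (0 : ℝ) < 1 / 2 by norm_num) (w * (10 * k + 8))]
      · push_cast
        simp only [one_div_pow]
        field_simp
        ring
      · rw [w1]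
        push_cast
        simp only [one_div_pow]
        field_simp
        ring
  · simp only [sz_pair, sz_cons, sz_nil, sz_nat]
    have := Nat.le_mul_of_pos_right (t * (ρ + 1)) (show 0 < 14 * D + 16 + 1 by omega)
    omega

theorem ev_le {f : ℕ → ℕ} (h : PB (fun n => n) f) : ∀ᶠ n in atTop, f n ≤ 2 ^ n := by
  obtain ⟨c, hc⟩ := exists_pow h
  filter_upwards [eventually_ge_atTop 2, (tendsto_pow_const_div_const_pow_of_one_lt c
    one_lt_two).eventually_le_const one_pos] with n h1 h2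
  rw [div_le_one (by positivity)] at h2
  exact (hc n h1).trans (by exact_mod_cast h2)

theorem params {D : ℕ} (hD : 0 < D) {ε : ℝ} (ε0 : 0 < ε) (ε1 : ε ≤ 1 / 4) :
    ∃ a, ∀ᶠ r in atTop, ∃ θ : Adv, sz θ ≤ 2 ^ (2 ^ r) ^ (a + 1) ∧ θ.1.getD 9 0 = 2 ^ 2 ^ r
      ∧ Good D ε θ := by
  obtain ⟨T0, hT⟩ := exists_pow_lt_of_lt_one (by positivity : 0 < ε / 8)
    (sub_lt_self 1 (by positivity : (0 : ℝ) < (1 / 2) ^ D))
  obtain ⟨b, hb⟩ := pow_unbounded_of_one_lt (4 : ℝ) (by linarith : 1 < 1 + ε / 2)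
  obtain ⟨k, hk⟩ : ∃ k : ℕ → ℕ, ∀ r, k r = 2 * (Fintype.card (Bk (b * r + 1) D) + 1) ^ 11 :=
    ⟨_, fun _ => rfl⟩
  obtain ⟨v, hv⟩ : ∃ v : ℕ → ℕ, ∀ r, v r = 2 ^ r + 3 + 3 * k r * (2 * 2 ^ r + 3) := ⟨_, fun _ => rfl⟩
  obtain ⟨s, hs⟩ : ∃ s : ℕ → ℕ, ∀ r, s r = 2 * 2 ^ r + v r + 3 := ⟨_, fun _ => rfl⟩
  obtain ⟨t, ht⟩ : ∃ t : ℕ → ℕ, ∀ r, t r = 4 * 8 ^ (b * r) := ⟨_, fun _ => rfl⟩
  obtain ⟨T, hT'⟩ : ∃ T : ℕ → ℕ, ∀ r, T r = Fintype.card (Fin (t r) × (Fin (b * r + 1) × Bool →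
    Fin T0 ⊕ Fin 7)) := ⟨_, fun _ => rfl⟩
  haveI : ∀ r, NeZero (T r) := fun r => ⟨by simp [hT', ht]⟩
  choose F i1 i2 i3 tr φ htr hq using fun r => exists_field (6 * (Fintype.card (Bk (b * r + 1) D) + 3)
    + v r * (3 * k r + 1) * (28 * k r + 17) + 13)
  have p0 : PB (fun r => r) fun r : ℕ => r := PB.self
  have p1 : PB (fun r => r) k := by
    simp only [funext hk, Fintype.card_prod, Fintype.card_fin]
    repeat' with_reducible first | assumption | exact PB.const _ | apply PB.add | apply PB.mul | apply PB.pow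
  have p2 : PB (fun r => 2 ^ r) fun r : ℕ => r := PB.self.mono fun _ => Nat.lt_two_pow_self.le
  have p3 : PB (fun r => 2 ^ r) k := p1.comp (f := fun r => r) p2
  have p4 : PB (fun r => 2 ^ r) fun r : ℕ => 2 ^ r := PB.self
  have p5 : ∀ c c', PB (fun r => 2 ^ r) fun r : ℕ => c ^ (c' * r) := fun c c' =>
    (p4.pow (c * c')).mono fun r => (Nat.pow_le_pow_left Nat.lt_two_pow_self.le _).trans_eq (by ring)
  have p6 : PB (fun r => 2 ^ r) v := by
    rw [funext hv]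
    repeat' with_reducible first | assumption | exact PB.const _ | apply PB.add | apply PB.mul
  have p7 : PB (fun r => 2 ^ r) s := by
    rw [funext hs]
    repeat' with_reducible first | assumption | exact PB.const _ | apply PB.add | apply PB.mul
  have p8 : PB (fun r => 2 ^ r) t := funext ht ▸ (PB.const _).mul (p5 _ _)
  have p9 : PB (fun r => 2 ^ r) T := (p8.mul ((p5 (T0 + 7) (b * 2)).mul
    (PB.const ((T0 + 7) ^ 2)))).mono fun r => le_of_eq (by
      simp only [hT', Fintype.card_prod, Fintype.card_fun, Fintype.card_fin, Fintype.card_sum,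
        Fintype.card_bool]
      ring)
  obtain ⟨H, hH⟩ : ∃ H : ℕ → ℕ, ∀ r, H r = Fintype.card (Cst (F r) T0 (t r) (b * r + 1) D (k r) (s r))
      + Fintype.card (Loc (F r) (T r) T0 (t r) (b * r + 1) D)
      + Fintype.card (Sy (F r) (T r) (b * r + 1) D) + Fintype.card (Fin (s r) → F r)
      + Fintype.card (Qy (k r)) + t r * (b * r + 1) * (14 * D + 16 + 1)
      + 2 ^ ((7 * D + 4) * (t r * (b * r + 1))) + D + 2 ^ (s r * (3 * k r)) + 2 ^ (2 ^ r + 1 + v r)
      + 2 ^ 2 ^ r := ⟨_, fun _ => rfl⟩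
  have q1 : SE (fun r => 2 ^ r) H := by
    simp only [funext hH, Fintype.card_prod, Fintype.card_fun, Fintype.card_fin, ZMod.card,
      Fintype.card_option, hq]
    repeat' with_reducible first
      | apply SE.add | apply SE.mul | apply SE.pow | apply PB.add | apply PB.mul | assumption
      | exact PB.const _ | apply SE.of
  obtain ⟨a, ha⟩ := SE.bound (Z := fun r => 2 ^ r)
    (f := fun r => H r + 12 + H r ^ 4 * (5 * H r + 5) + H r ^ 2 * (3 * H r + 3)) (by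
    repeat' with_reducible first
      | apply SE.add | apply SE.mul | apply SE.pow | assumption | exact PB.const _ | apply SE.of)
  refine ⟨a, ?_⟩
  filter_upwards [eventually_ge_atTop 1, ev_le (f := fun r => 2 * ((4 + 15 * k r) * (3 * k r + 1)
    * (10 * k r + 8) + 2)) (by
    repeat' with_reducible first | assumption | exact PB.const _ | apply PB.add | apply PB.mul)]
    with r r1 r2
  have g1 : 1 ≤ 2 ^ r := Nat.one_le_two_pow
  have g2 : v r ≤ 2 ^ r * (4 + 15 * k r) := by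
    rw [hv]
    nlinarith [Nat.mul_le_mul_left (k r) g1]
  have g3 := Nat.mul_le_mul_right ((3 * k r + 1) * (10 * k r + 8)) g2
  obtain ⟨θ, a1, a2⟩ := inst (φ r) (htr r) (Fintype.equivOfCardEq ((ZMod.card _).trans (hT' r))) hD
    ε0.le ε1 hT.le (hk r) (hv r) (hs r) (ht r) (hq r) ((Nat.cast_le.2 (le_trans (by nlinarith)
    (Nat.mul_le_mul_left (2 ^ r) r2))).trans (by
      push_cast
      rw [← mul_pow, pow_succ, pow_mul]
      exact (pow_le_pow_left₀ (by norm_num) (by linarith) r).trans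
        (le_mul_of_one_le_right (by positivity) (by linarith)))) (hH r).ge
  exact ⟨θ, a1.trans ((ha r (Nat.le_self_pow (by omega) 2)).trans (Nat.pow_le_pow_right two_pos
    (Nat.pow_le_pow_right g1 (Nat.le_succ a)))), a2⟩

end Pool.Agent.Lib.MP_a1e814_lc.Se
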