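import Mathlib

/-! Finite probability: indicators, averages and averaging functionals. -/

set_option linter.unusedSectionVars false

namespace Pool.Agent.Lib.MP_a1e814_lc.Se

open Finset Function
open scoped BigOperators

open Classical in
/-- indicator of a proposition -/
noncomputable def ind (P : Prop) : ℝ := if P then 1 else 0

theorem ind_nn (P : Prop) : 0 ≤ ind P := by unfold ind; split_ifs <;> simp

theorem ind_le (P : Prop) : ind P ≤ 1 := by unfold ind; split_ifs <;> simp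

theorem ind_pos {P : Prop} (h : P) : ind P = 1 := if_pos h

theorem ind_neg {P : Prop} (h : ¬ P) : ind P = 0 := if_neg h

theorem ind_le_of {P : Prop} {t : ℝ} (h0 : 0 ≤ t) (h : P → 1 ≤ t) : ind P ≤ t := by
  unfold ind; split_ifs with c; exacts [h c, h0]

theorem ind_mono {P Q : Prop} (h : P → Q) : ind P ≤ ind Q :=
  ind_le_of (ind_nn _) fun c => (ind_pos (h c)).ge

theorem ind_congr {P Q : Prop} (h : P ↔ Q) : ind P = ind Q := by rw [propext h]

theorem ind_and (P Q : Prop) : ind (P ∧ Q) = ind P * ind Q := by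
  by_cases h : P <;> by_cases h' : Q <;> simp [ind, h, h']

theorem ind_not (P : Prop) : ind (¬ P) = 1 - ind P := by
  by_cases h : P <;> simp [ind, h]

theorem ind_le_add {P Q R : Prop} (h : P → Q ∨ R) : ind P ≤ ind Q + ind R :=
  ind_le_of (add_nonneg (ind_nn _) (ind_nn _)) fun c => by
    rcases h c with c | c <;> rw [ind_pos c] <;> linarith [ind_nn Q, ind_nn R]

theorem ind_le_sum {ι : Type} {P : Prop} {s : Finset ι} {Q : ι → Prop} (h : P → ∃ i ∈ s, Q i) :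
    ind P ≤ ∑ i ∈ s, ind (Q i) :=
  ind_le_of (sum_nonneg fun _ _ => ind_nn _) fun c => by
    obtain ⟨i, hi, c⟩ := h c
    exact (ind_pos c).ge.trans (single_le_sum (fun j _ => ind_nn (Q j)) hi)

theorem ind_forall {ι : Type} [Fintype ι] (P : ι → Prop) : ind (∀ i, P i) = ∏ i, ind (P i) := by
  by_cases h : ∀ i, P i
  · simp [ind, h]
  · rw [ind_neg h]
    obtain ⟨i, hi⟩ := not_forall.1 h
    exact (prod_eq_zero (mem_univ i) (ind_neg hi)).symm

section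
variable {Ω Ω' : Type} [Fintype Ω] [Fintype Ω']

theorem ex_mono {f g : Ω → ℝ} (h : ∀ ω, f ω ≤ g ω) : 𝔼 ω, f ω ≤ 𝔼 ω, g ω :=
  expect_le_expect fun ω _ => h ω

theorem ex_nn {f : Ω → ℝ} (h : ∀ ω, 0 ≤ f ω) : 0 ≤ 𝔼 ω, f ω := expect_nonneg fun ω _ => h ω

theorem ex_le [Nonempty Ω] {f : Ω → ℝ} {a : ℝ} (h : ∀ ω, f ω ≤ a) : 𝔼 ω, f ω ≤ a :=
  expect_le univ_nonempty fun ω _ => h ω

theorem le_ex [Nonempty Ω] {f : Ω → ℝ} {a : ℝ} (h : ∀ ω, a ≤ f ω) : a ≤ 𝔼 ω, f ω :=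
  le_expect univ_nonempty fun ω _ => h ω

theorem ex_congr {f g : Ω → ℝ} (h : ∀ ω, f ω = g ω) : 𝔼 ω, f ω = 𝔼 ω, g ω :=
  expect_congr rfl fun ω _ => h ω

theorem ex_prod (f : Ω × Ω' → ℝ) : 𝔼 z, f z = 𝔼 a, 𝔼 b, f (a, b) := by
  rw [← expect_product', univ_product_univ]

theorem ex_equiv (e : Ω ≃ Ω') (f : Ω' → ℝ) : 𝔼 a, f (e a) = 𝔼 b, f b :=
  Fintype.expect_equiv e _ _ fun _ => rfl

theorem ex_bij {e : Ω → Ω'} (he : Bijective e) (f : Ω' → ℝ) : 𝔼 a, f (e a) = 𝔼 b, f b :=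
  Fintype.expect_bijective e he _ _ fun _ => rfl

theorem ex_inj {e : Ω → Ω} (he : Injective e) (f : Ω → ℝ) : 𝔼 a, f (e a) = 𝔼 b, f b :=
  ex_bij (Finite.injective_iff_bijective.1 he) f

theorem ex_pi {ι : Type} [Fintype ι] [DecidableEq ι] (φ : ι → Ω → ℝ) :
    𝔼 x : ι → Ω, ∏ i, φ i (x i) = ∏ i, 𝔼 y, φ i y := by
  simp only [Fintype.expect_eq_sum_div_card]
  rw [prod_div_distrib, Fintype.prod_sum]
  simp

theorem ex_eval {ι : Type} [Fintype ι] [DecidableEq ι] [Nonempty Ω] (i : ι) (f : Ω → ℝ) :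
    𝔼 x : ι → Ω, f (x i) = 𝔼 y, f y := by
  rw [← ex_equiv (Equiv.funSplitAt i Ω).symm, ex_prod]
  simp

theorem ex_cons {n : ℕ} (f : (Fin (n + 1) → Ω) → ℝ) :
    𝔼 x, f x = 𝔼 a, 𝔼 y : Fin n → Ω, f (Fin.cons a y) := by
  rw [← ex_equiv (Fin.consEquiv fun _ => Ω), ex_prod]
  rfl

theorem exists_ge [Nonempty Ω] (f : Ω → ℝ) : ∃ ω, 𝔼 ω, f ω ≤ f ω := by
  obtain ⟨x, -, h⟩ := exists_le_of_le_expect univ_nonempty (le_refl (𝔼 ω, f ω))
  exact ⟨x, h⟩

/-- probability under the uniform distribution -/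
noncomputable def Pr (p : Ω → Prop) : ℝ := 𝔼 ω, ind (p ω)

theorem Pr_nn (p : Ω → Prop) : 0 ≤ Pr p := ex_nn fun _ => ind_nn _

theorem Pr_le [Nonempty Ω] (p : Ω → Prop) : Pr p ≤ 1 := ex_le fun _ => ind_le _

theorem Pr_mono {p q : Ω → Prop} (h : ∀ ω, p ω → q ω) : Pr p ≤ Pr q :=
  ex_mono fun ω => ind_mono (h ω)

theorem Pr_congr {p q : Ω → Prop} (h : ∀ ω, p ω ↔ q ω) : Pr p = Pr q :=
  ex_congr fun ω => ind_congr (h ω)

theorem Pr_le_add {p q r : Ω → Prop} (h : ∀ ω, p ω → q ω ∨ r ω) : Pr p ≤ Pr q + Pr r := by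
  unfold Pr
  rw [← expect_add_distrib]
  exact ex_mono fun ω => ind_le_add (h ω)

theorem Pr_le_sum {ι : Type} {p : Ω → Prop} {s : Finset ι} {q : ι → Ω → Prop}
    (h : ∀ ω, p ω → ∃ i ∈ s, q i ω) : Pr p ≤ ∑ i ∈ s, Pr (q i) := by
  unfold Pr
  rw [← expect_sum_comm]
  exact ex_mono fun ω => ind_le_sum (h ω)

theorem Pr_not [Nonempty Ω] (p : Ω → Prop) : (Pr fun ω => ¬ p ω) = 1 - Pr p := by
  simp only [Pr, ind_not, expect_sub_distrib, Fintype.expect_const]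

theorem Pr_true [Nonempty Ω] {p : Ω → Prop} (h : ∀ ω, p ω) : Pr p = 1 := by
  simp only [Pr, ind_pos (h _), Fintype.expect_const]

theorem Pr_false {p : Ω → Prop} (h : ∀ ω, ¬ p ω) : Pr p = 0 := by
  simp only [Pr, ind_neg (h _), expect_const_zero]

theorem Pr_prod (p : Ω × Ω' → Prop) : Pr p = 𝔼 a, Pr fun b => p (a, b) := ex_prod _

theorem Pr_prod' (p : Ω × Ω' → Prop) : Pr p = 𝔼 b, Pr fun a => p (a, b) := by
  unfold Pr
  rw [ex_prod, expect_comm]

theorem Pr_equiv (e : Ω ≃ Ω') (p : Ω' → Prop) : (Pr fun a => p (e a)) = Pr p :=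
  ex_equiv e fun b => ind (p b)

theorem Pr_inj {e : Ω → Ω} (he : Injective e) (p : Ω → Prop) : (Pr fun a => p (e a)) = Pr p :=
  ex_inj he fun b => ind (p b)

theorem Pr_card (p : Ω → Prop) [DecidablePred p] :
    Pr p = (univ.filter p).card / Fintype.card Ω := by
  rw [Pr, Fintype.expect_eq_sum_div_card, card_filter]
  push_cast
  congr 1
  exact sum_congr rfl fun ω _ => by unfold ind; congr

theorem Pr_eq [DecidableEq Ω] (a : Ω) : (Pr fun ω => ω = a) = 1 / Fintype.card Ω := by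
  rw [Pr_card, filter_eq']
  simp

theorem exists_of_Pr_pos {p : Ω → Prop} (h : 0 < Pr p) : ∃ ω, p ω := by
  by_contra c
  rw [Pr_false (not_exists.1 c)] at h
  exact lt_irrefl _ h

theorem exists_of_Pr_lt [Nonempty Ω] {p : Ω → Prop} (h : Pr p < 1) : ∃ ω, ¬ p ω :=
  exists_of_Pr_pos (by rw [Pr_not]; linarith)

theorem markov {f : Ω → ℝ} (h : ∀ ω, 0 ≤ f ω) {a : ℝ} (ha : 0 < a) :
    (Pr fun ω => a ≤ f ω) ≤ (𝔼 ω, f ω) / a := by
  rw [expect_div]
  exact ex_mono fun ω => ind_le_of (div_nonneg (h ω) ha.le) fun c => (one_le_div ha).2 c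

theorem cheb {f : Ω → ℝ} {a : ℝ} (ha : 0 < a) :
    (Pr fun ω => a ≤ |f ω|) ≤ (𝔼 ω, f ω ^ 2) / a ^ 2 :=
  (Pr_mono fun ω c => by rw [← sq_abs (f ω)]; gcongr).trans
    (markov (fun ω => sq_nonneg (f ω)) (by positivity))

/-- an average of numbers in the unit interval -/
theorem ex_le_add_Pr [Nonempty Ω] {f : Ω → ℝ} {p : Ω → Prop} {a : ℝ} (ha : 0 ≤ a)
    (h1 : ∀ ω, f ω ≤ 1) (h : ∀ ω, ¬ p ω → f ω ≤ a) : 𝔼 ω, f ω ≤ a + Pr p := by
  rw [Pr, ← Fintype.expect_const (ι := Ω) a, ← expect_add_distrib]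
  refine ex_mono fun ω => ?_
  by_cases c : p ω
  · rw [ind_pos c]
    linarith [h1 ω]
  · rw [ind_neg c]
    linarith [h ω c]

end

/-- averaging functionals -/
structure St {Z : Type} (E : (Z → ℝ) → ℝ) : Prop where
  add : ∀ G H, E (fun z => G z + H z) = E G + E H
  mul : ∀ c G, E (fun z => c * G z) = c * E G
  mono : ∀ G H, (∀ z, G z ≤ H z) → E G ≤ E H
  const : ∀ c, E (fun _ => c) = c

namespace St
variable {Z : Type} {E : (Z → ℝ) → ℝ} (h : St E)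
include h

theorem sub (G H : Z → ℝ) : E (fun z => G z - H z) = E G - E H := by
  have := h.add (fun z => G z - H z) H
  simp only [sub_add_cancel] at this
  linarith

theorem nn {G : Z → ℝ} (h0 : ∀ z, 0 ≤ G z) : 0 ≤ E G := (h.const 0).ge.trans (h.mono _ _ h0)

theorem le {G : Z → ℝ} {c : ℝ} (h0 : ∀ z, G z ≤ c) : E G ≤ c := (h.mono _ _ h0).trans (h.const c).le

theorem sum {ι : Type} (s : Finset ι) (G : ι → Z → ℝ) :
    E (fun z => ∑ i ∈ s, G i z) = ∑ i ∈ s, E (G i) := by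
  classical
  induction s using Finset.induction_on with
  | empty => simpa using h.const 0
  | insert i s hi ih => simp only [sum_insert hi, h.add, ih]

theorem ex {ι : Type} (s : Finset ι) (G : ι → Z → ℝ) :
    E (fun z => 𝔼 i ∈ s, G i z) = 𝔼 i ∈ s, E (G i) := by
  simp only [expect_eq_sum_div_card, div_eq_inv_mul, h.mul, h.sum]

theorem var (G : Z → ℝ) (c : ℝ) :
    E (fun z => (c - G z) ^ 2) = E (fun z => G z ^ 2) - E G ^ 2 + (c - E G) ^ 2 := by
  have : (fun z => (c - G z) ^ 2) = fun z => c ^ 2 + (-2 * c * G z + G z ^ 2) := by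
    funext z
    ring
  rw [this, h.add, h.add, h.mul, h.const]
  ring

theorem sq_le (G : Z → ℝ) : E G ^ 2 ≤ E fun z => G z ^ 2 := by
  have h1 := h.var G (E G)
  have h2 := h.nn fun z => sq_nonneg (E G - G z)
  linarith [sq_nonneg (E G - E G), (by ring : (E G - E G) ^ 2 = 0)]

end St

theorem st_ex {Z : Type} {s : Finset Z} (hs : s.Nonempty) : St fun G : Z → ℝ => 𝔼 z ∈ s, G z :=
  ⟨fun _ _ => expect_add_distrib _ _ _, fun _ _ => (mul_expect _ _ _).symm,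
    fun _ _ h => expect_le_expect fun z _ => h z, fun _ => expect_const hs _⟩

end Pool.Agent.Lib.MP_a1e814_lc.Se
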