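import Pool.Agent.Lib.MP_a1e814_lc.SeFour

/-! Linear forms on binary tensors that rarely vanish. -/

set_option linter.unusedSectionVars false

namespace Pool.Agent.Lib.MP_a1e814_lc.Se

open Finset Function Matrix
open scoped BigOperators

abbrev B2 := ZMod 2

theorem tens {Ω I : Type} [Fintype Ω] [Nonempty Ω] [Fintype I] (l : Ω → I → B2) {d : ℝ} (d0 : 0 ≤ d)
    (h : ∀ X : I → B2, X ≠ 0 → d ≤ Pr fun ω => ∑ i, l ω i * X i ≠ 0) (n : ℕ)
    (X : (Fin n → I) → B2) (hX : X ≠ 0) :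
    d ^ n ≤ Pr fun ω : Fin n → Ω => ∑ i : Fin n → I, (∏ k, l (ω k) (i k)) * X i ≠ 0 := by
  induction n with
  | zero =>
    rw [Pr_true fun ω => ?_, pow_zero]
    obtain ⟨i, hi⟩ := ne_iff.1 hX
    simpa [Subsingleton.elim _ i] using hi
  | succ n ih =>
    obtain ⟨i, hi⟩ := ne_iff.1 hX
    have h1 := ih (fun j => X (Fin.cons (i 0) j)) fun c => hi (by simpa using congrFun c (Fin.tail i))
    rw [Pr, ex_cons, expect_comm, pow_succ]
    refine (mul_le_mul_of_nonneg_right h1 d0).trans ?_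
    rw [Pr, expect_mul]
    refine ex_mono fun ω => ?_
    by_cases c : ∑ j : Fin n → I, (∏ k, l (ω k) (j k)) * X (Fin.cons (i 0) j) ≠ 0
    swap
    · rw [ind_neg c, zero_mul]
      exact ex_nn fun _ => ind_nn _
    rw [ind_pos c, one_mul]
    refine (h (fun a => ∑ j : Fin n → I, (∏ k, l (ω k) (j k)) * X (Fin.cons a j))
      fun e => c (congrFun e (i 0))).trans_eq (Pr_congr fun a => ?_)
    rw [← (Fin.consEquiv fun _ => I).sum_comp, Fintype.sum_prod_type]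
    simp [Fin.prod_univ_succ, mul_sum, mul_assoc, Fin.consEquiv]

theorem Pr_dot {I : Type} [Fintype I] [DecidableEq I] (y : I → B2) :
    (Pr fun s : I → B2 => ∑ i, s i * y i ≠ 0) = ind (y ≠ 0) / 2 := by
  by_cases c : y = 0
  · rw [Pr_false (by simp [c]), ind_neg (not_not.2 c), zero_div]
  · obtain ⟨i, hi⟩ := ne_iff.1 c
    have := Pr_half (AddMonoidHom.mk' (fun s : I → B2 => ∑ i, s i * y i) fun a a' => by
      simp [add_mul, sum_add_distrib]) (g := Pi.single i 1) (by simpa [Pi.single_apply] using hi)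
    rw [Pr_not, ind_pos c]
    exact (congrArg (1 - ·) this).trans (by norm_num)

section
variable (T D m : ℕ)

abbrev Ix := Fin D → Fin m

abbrev Row := (Fin T → B2) × (Fin T → Fin D → Fin m → B2)

variable {T D m}

def row (r : Row T D m) (i : Ix D m) : B2 := ∑ j, r.1 j * ∏ d, r.2 j d (i d)

theorem Pr_row (x : Ix D m → B2) : (Pr fun r : Row T D m => row r ⬝ᵥ x ≠ 0) ≤ 1 / 2 ∧
    (x ≠ 0 → (1 - (1 - (1 / 2) ^ D) ^ T) / 2 ≤ Pr fun r : Row T D m => row r ⬝ᵥ x ≠ 0) := by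
  have e : (Pr fun r : Row T D m => row r ⬝ᵥ x ≠ 0) = (1 - (1 - Pr fun z : Fin D → Fin m → B2 =>
      ∑ i : Ix D m, (∏ d, z d (i d)) * x i ≠ 0) ^ T) / 2 := by
    have : ∀ (s : Fin T → B2) (z : Fin T → Fin D → Fin m → B2), row (s, z) ⬝ᵥ x
        = ∑ j, s j * ∑ i : Ix D m, (∏ d, z j d (i d)) * x i := fun s z => by
      simp only [dotProduct, row, sum_mul, mul_sum, mul_assoc]
      exact sum_comm
    rw [Pr_prod']
    simp only [this, Pr_dot, ← expect_div, ne_eq, funext_iff, ind_not, ind_forall, expect_sub_distrib,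
      Fintype.expect_const, Pi.zero_apply]
    rw [ex_pi fun _ (z : Fin D → Fin m → B2) => ind (∑ i : Ix D m, (∏ d, z d (i d)) * x i = 0), Pr_not]
    simp [Pr]
  rw [e]
  have h0 := sub_nonneg.2 (Pr_le fun z : Fin D → Fin m → B2 =>
    ∑ i : Ix D m, (∏ d, z d (i d)) * x i ≠ 0)
  refine ⟨by linarith [pow_nonneg h0 T], fun hx => ?_⟩
  have := tens (fun (z : Fin m → B2) i => z i) (d := 1 / 2) (by norm_num)
    (fun X hX => by rw [Pr_dot, ind_pos hX]) D x hx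
  gcongr

end

section
variable {I Ω C : Type} [Fintype I] [DecidableEq I] [Fintype Ω] [Nonempty Ω] [Fintype C] [Nonempty C]
  (c : Ω → I → B2) (o : I) (U : C → Fin 3 → Bool → I → B2)

abbrev Wt (Ω C : Type) := (Bool × Fin 4) × (Bool → Ω) × C

/-- the two vectors of a test -/
def vec (ω : Wt Ω C) (b : Bool) : I → B2 :=
  if ω.1.1 then c (ω.2.1 b) else
    Fin.cases (c (ω.2.1 false) + if b then Pi.single o 1 else 0) (fun k => U ω.2.2 k b) ω.1.2

theorem Pr_vec (A : (I → B2) → (I → B2) → Prop) :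
    (Pr fun ω : Wt Ω C => A (vec c o U ω false) (vec c o U ω true))
      = (4 * (Pr fun r : Ω × Ω => A (c r.1) (c r.2)) + (Pr fun r => A (c r) (c r + Pi.single o 1))
        + ∑ k, Pr fun a => A (U a k false) (U a k true)) / 8 := by
  have e1 : (Pr fun z : (Bool → Ω) × C => A (c (z.1 false)) (c (z.1 true)))
      = Pr fun r : Ω × Ω => A (c r.1) (c r.2) :=
    (Pr_fst fun z : Bool → Ω => A (c (z false)) (c (z true))).trans
      (Pr_equiv (Equiv.boolArrowEquivProd Ω) fun r => A (c r.1) (c r.2))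
  have e2 : (Pr fun z : (Bool → Ω) × C => A (c (z.1 false)) (c (z.1 false) + Pi.single o 1))
      = Pr fun r => A (c r) (c r + Pi.single o 1) :=
    (Pr_fst fun z : Bool → Ω => A (c (z false)) (c (z false) + Pi.single o 1)).trans
      (ex_eval false fun r => ind (A (c r) (c r + Pi.single o 1)))
  have e3 := fun k => Pr_snd (Ω := Bool → Ω) fun a => A (U a k false) (U a k true)
  have e4 : ∀ g : Bool × Fin 4 → ℝ, 𝔼 s, g s
      = (∑ k, g (true, k) + g (false, 0) + ∑ k : Fin 3, g (false, k.succ)) / 8 := fun g => by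
    rw [Fintype.expect_eq_sum_div_card, Fintype.sum_prod_type, Fintype.sum_bool,
      Fin.sum_univ_succ fun k => g (false, k), add_assoc]
    norm_num
  rw [Pr_prod, e4]
  simp [vec, e1, e2, e3]

theorem gadget_yes (hc : ∀ x, (Pr fun r => c r ⬝ᵥ x ≠ 0) ≤ 1 / 2) {x : I → B2} (h0 : x o = 1)
    (hU : ∀ a k, U a k false ⬝ᵥ x * U a k true ⬝ᵥ x = 0) :
    (Pr fun ω => vec c o U ω false ⬝ᵥ x * vec c o U ω true ⬝ᵥ x ≠ 0) ≤ 1 / 8 := by
  rw [Pr_vec c o U fun u v => u ⬝ᵥ x * v ⬝ᵥ x ≠ 0, Pr_false (p := fun r => c r ⬝ᵥ x * _ ≠ 0) fun r => by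
    rcases z2 (c r ⬝ᵥ x) with e | e <;> simp [e, h0]
    rfl]
  have : (Pr fun r : Ω × Ω => c r.1 ⬝ᵥ x * c r.2 ⬝ᵥ x ≠ 0)
      = (Pr fun r => c r ⬝ᵥ x ≠ 0) * Pr fun r => c r ⬝ᵥ x ≠ 0 := by
    simp only [Pr, mul_ne_zero_iff, ind_and, ex_prod, Fintype.expect_mul_expect]
  simp only [hU, ne_eq, not_true, Pr_false fun _ : C => not_false, this]
  nlinarith [hc x, Pr_nn fun r => c r ⬝ᵥ x ≠ 0]

theorem gadget_no {ε : ℝ} (ε0 : 0 ≤ ε) (ε1 : ε ≤ 1 / 4)
    (hc : ∀ x, (Pr fun r => c r ⬝ᵥ x ≠ 0) ≤ 1 / 2 ∧ (x ≠ 0 → 1 / 2 - ε / 16 ≤ Pr fun r => c r ⬝ᵥ x ≠ 0))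
    (hU : ∀ x, x o = 1 → ε ≤ Pr fun a => ∃ k, U a k false ⬝ᵥ x * U a k true ⬝ᵥ x ≠ 0)
    (X : (Bool → I) → B2) (hX : X ≠ 0) :
    1 / 8 + ε / 16 ≤ Pr fun ω => ∑ i : Bool → I, (∏ b, vec c o U ω b (i b)) * X i ≠ 0 := by
  let M : Matrix I I B2 := fun i j => X ((Equiv.boolArrowEquivProd I).symm (i, j))
  have e : ∀ w : Bool → I → B2, ∑ i : Bool → I, (∏ b, w b (i b)) * X i = w false ᵥ* M ⬝ᵥ w true :=
    fun w => by
    rw [← (Equiv.boolArrowEquivProd I).symm.sum_comp, Fintype.sum_prod_type_right]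
    simp only [dotProduct, vecMul, sum_mul]
    exact sum_congr rfl fun j _ => sum_congr rfl fun i _ => by simp [M]; ring
  have two : (1 + 1 : B2) = 0 := rfl
  simp only [e]
  rw [Pr_vec c o U fun u v => u ᵥ* M ⬝ᵥ v ≠ 0]
  have a1 : (Pr fun r => c r ᵥ* M ≠ 0) * (1 / 2 - ε / 16)
      ≤ Pr fun r : Ω × Ω => c r.1 ᵥ* M ⬝ᵥ c r.2 ≠ 0 := by
    rw [Pr_prod, Pr, expect_mul]
    refine ex_mono fun r => ?_
    by_cases h : c r ᵥ* M = 0
    · rw [ind_neg (not_not.2 h), zero_mul]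
      exact Pr_nn _
    · simpa only [ind_pos h, one_mul, dotProduct_comm] using (hc _).2 h
  have a2 := Pr_nn fun r => c r ᵥ* M ⬝ᵥ (c r + Pi.single o 1) ≠ 0
  have a3 := sum_nonneg fun k (_ : k ∈ univ) => Pr_nn fun a => U a k false ᵥ* M ⬝ᵥ U a k true ≠ 0
  obtain ⟨i, hi⟩ := ne_iff.1 hX
  have hx : Mᵀ (i true) ≠ 0 := fun h => hi (by
    rw [← (Equiv.boolArrowEquivProd I).symm_apply_apply i]
    exact congrFun h (i false))
  have a4 : ∀ r j, c r ⬝ᵥ Mᵀ j ≠ 0 → c r ᵥ* M ≠ 0 := fun r j h h' => h (congrFun h' j)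
  have add : ∀ x y : I → B2, x ≠ y → x + y ≠ 0 := fun x y h h' => h (funext fun i => by
    have := congrFun h' i
    revert this
    simp only [Pi.add_apply, Pi.zero_apply]
    generalize x i = a
    generalize y i = b
    revert a b
    decide)
  by_cases h : ∃ j, Mᵀ j ≠ 0 ∧ Mᵀ (i true) ≠ Mᵀ j
  · obtain ⟨j, h1, h2⟩ := h
    have b1 := ex_mono (f := fun r => ind (c r ⬝ᵥ Mᵀ (i true) ≠ 0) + ind (c r ⬝ᵥ Mᵀ j ≠ 0)
      + ind (c r ⬝ᵥ (Mᵀ (i true) + Mᵀ j) ≠ 0)) (g := fun r => 2 * ind (c r ᵥ* M ≠ 0)) fun r => by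
      have b1 := a4 r j
      have b2 := a4 r (i true)
      rcases z2 (c r ⬝ᵥ Mᵀ (i true)) with e | e <;> rcases z2 (c r ⬝ᵥ Mᵀ j) with e' | e' <;>
        simp [e, e', two] at b1 b2 ⊢ <;> simp [ind, *]
      · split_ifs <;> norm_num
      all_goals norm_num
    rw [expect_add_distrib, expect_add_distrib, ← mul_expect] at b1
    have b2 := add_le_add (add_le_add ((hc _).2 hx) ((hc _).2 h1)) ((hc _).2 (add _ _ h2))
    have b3 : 3 / 2 * (1 / 2 - ε / 16) ≤ Pr fun r => c r ᵥ* M ≠ 0 := by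
      simp only [Pr] at b2 ⊢
      linarith
    nlinarith [mul_le_mul_of_nonneg_right b3 (by linarith : 0 ≤ 1 / 2 - ε / 16)]
  push Not at h
  obtain ⟨y, y0, hy⟩ : ∃ y : I → B2, y ≠ 0 ∧ ∀ u v, u ᵥ* M ⬝ᵥ v = u ⬝ᵥ Mᵀ (i true) * v ⬝ᵥ y := by
    refine ⟨fun j => if Mᵀ j = 0 then 0 else 1, fun h => by simpa [hx] using congrFun h (i true),
      fun u v => ?_⟩
    change ∑ j, u ⬝ᵥ Mᵀ j * v j = _ * ∑ j, v j * if Mᵀ j = 0 then 0 else 1
    rw [mul_sum]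
    refine sum_congr rfl fun j _ => ?_
    split_ifs with h'
    · simp [h']
    · rw [h j h', mul_one]
  generalize Mᵀ (i true) = x at *
  have b1 : 1 / 2 - ε / 16 ≤ Pr fun r => c r ᵥ* M ≠ 0 := ((hc _).2 hx).trans (Pr_mono fun r h h' => by
    obtain ⟨j, hj⟩ := ne_iff.1 y0
    have := hy (c r) (Pi.single j 1)
    simp [h', h] at this
    exact hj this)
  have b2 := (mul_le_mul_of_nonneg_right b1 (by linarith)).trans a1
  simp only [hy] at a2 a3 b2 ⊢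
  by_cases h1 : y o = 1 ∧ x = y
  · obtain ⟨h1, rfl⟩ := h1
    have := (hU x h1).trans (Pr_le_sum (s := univ) fun a h => h.imp fun k h => ⟨mem_univ k, h⟩)
    nlinarith
  obtain ⟨z, z', z0, hz⟩ : ∃ z z' : I → B2, z ≠ 0 ∧ ∀ u, ind (u ⬝ᵥ x ≠ 0) + ind (u ⬝ᵥ z ≠ 0)
      = 2 * ind (u ⬝ᵥ x * (u + Pi.single o 1) ⬝ᵥ y ≠ 0) + ind (u ⬝ᵥ z' ≠ 0) := by
    rcases z2 (y o) with h2 | h2
    · refine ⟨y, x + y, y0, fun u => ?_⟩
      rcases z2 (u ⬝ᵥ x) with e | e <;> rcases z2 (u ⬝ᵥ y) with e' | e' <;> simp [e, e', two, h2, ind]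
      norm_num
    · refine ⟨x + y, y, add _ _ fun e => h1 ⟨h2, e⟩, fun u => ?_⟩
      rcases z2 (u ⬝ᵥ x) with e | e <;> rcases z2 (u ⬝ᵥ y) with e' | e' <;> simp [e, e', two, h2, ind]
      norm_num
  have b3 := ex_congr fun r => hz (c r)
  rw [expect_add_distrib, expect_add_distrib, ← mul_expect] at b3
  have b4 := add_le_add ((hc _).2 hx) ((hc _).2 z0)
  have b5 := (hc z').1
  simp only [Pr] at *
  nlinarith

end

end Pool.Agent.Lib.MP_a1e814_lc.Se
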