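import Pool.Agent.Lib.MP_a1e814_lc.SeSrc

/-! Tests forcing a low degree function to be a sum of multilinear forms. -/

set_option linter.unusedSectionVars false
set_option synthInstance.maxSize 2000

namespace Pool.Agent.Lib.MP_a1e814_lc.Se

open Finset Function Matrix
open scoped BigOperators

variable {F : Type} [Field F] [Fintype F] [DecidableEq F]

theorem LD.aff {V V' : Type} [AddCommGroup V] [Module F V] [AddCommGroup V'] [Module F V'] {E : ℕ}
    {G : V → F} (h : LD E G) (ψ ψ' : V' → V) (e : ∀ a d (u : F), ψ (a + u • d) = ψ a + u • ψ' d) :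
    LD E fun v => G (ψ v) := fun a d => by simpa only [e] using h (ψ a) (ψ' d)

section
variable {T : ℕ} [NeZero T] {B C : Type} [Fintype B] [DecidableEq B] [Nonempty B] [Fintype C]
  [DecidableEq C]

def Gf (X : (B → C) → F) (Y : C → ZMod T → B → F) : F :=
  ∑ s, ∑ i : B → C, (∏ f, Y (i f) s f) * X i

def rest (S : Finset (ZMod T)) (y : ZMod T → B → F) : ZMod T → B → F :=
  fun s f => if s ∈ S then y s f else 0

def spec (l : B → F) (y z : ZMod T → B → F) : Fin 6 → ZMod T → B → F :=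
  ![y, rest {0} y, rest {0}ᶜ y, fun s => y (s + 1), fun s f => l f * y s f, z]

def cnd (l : B → F) (v : Fin 6 → F) : Prop :=
  (v 0 = v 1 + v 2 ∧ v 3 = v 0 ∧ v 4 = (∏ f, l f) * v 0) ∧ v 5 = 0

theorem LD_Gf (X : (B → C) → F) : LD (Fintype.card B) (Gf (T := T) X) :=
  LD.sum _ fun s _ => LD.sum _ fun i _ => by
    simpa [mul_comm] using LD.cmul (X i) (LD.prod univ fun f _ =>
      (LD.lin (LinearMap.id : F →ₗ[F] F)).aff (fun Y : C → ZMod T → B → F => Y (i f) s f) _
        fun _ _ _ => rfl)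

theorem Gf_rest (X : (B → C) → F) (S : Finset (ZMod T)) (Y : C → ZMod T → B → F) :
    (Gf X fun c => rest S (Y c)) = ∑ s ∈ S, ∑ i : B → C, (∏ f, Y (i f) s f) * X i := by
  rw [← univ_inter S, ← sum_ite_mem, univ_inter]
  refine sum_congr rfl fun s _ => ?_
  by_cases c : s ∈ S <;> simp [rest, c]

theorem cnd_Gf (X : (B → C) → F) (l : B → F) (Y Z : C → ZMod T → B → F) (h : Gf X Z = 0) :
    cnd l fun i => Gf X fun c => spec l (Y c) (Z c) i := by
  refine ⟨⟨?_, ?_, ?_⟩, h⟩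
  · exact (sum_add_sum_compl {0} _).symm.trans
      (congrArg₂ (· + ·) (Gf_rest X {0} Y).symm (Gf_rest X {0}ᶜ Y).symm)
  · exact Equiv.sum_comp (Equiv.addRight (1 : ZMod T)) fun s => ∑ i : B → C, (∏ f, Y (i f) s f) * X i
  · simp [spec, Gf, prod_mul_distrib, mul_sum, mul_assoc]

theorem multi {E : ℕ} {G : (C → ZMod T → B → F) → F} (hG : LD E G) (hE : Fintype.card B ≤ E)
    (hq : 2 * E + 2 < Fintype.card F)
    (h : 4 * E / Fintype.card F < Pr fun z : (B → F) × (C → ZMod T → B → F) =>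
      G z.2 = (G fun c => rest {0} (z.2 c)) + (G fun c => rest {0}ᶜ (z.2 c))
        ∧ (G fun c s => z.2 c (s + 1)) = G z.2 ∧ (G fun c s f => z.1 f * z.2 c s f) = (∏ f, z.1 f) * G z.2) :
    ∃ X, G = Gf X := by
  have q0 : (0 : ℝ) ≤ 2 * E / Fintype.card F := by positivity
  have h' := lt_of_eq_of_lt (show (2 * E / Fintype.card F + 2 * E / Fintype.card F : ℝ)
    = 4 * E / Fintype.card F by ring) h
  have hr : ∀ S, LD E fun Y : C → ZMod T → B → F => G fun c => rest S (Y c) := fun S =>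
    hG.aff _ (fun Y c => rest S (Y c)) fun a d u => by
      funext c s f
      by_cases h : s ∈ S <;> simp [rest, h]
  have h1 := congrFun (hG.eq_of ((hr {0}).add (hr {0}ᶜ)) (((le_add_of_nonneg_right q0).trans_lt
    h').trans_le ((Pr_mono fun _ c => c.1).trans_eq (Pr_snd fun Y : C → ZMod T → B → F =>
      G Y = (G fun c => rest {0} (Y c)) + G fun c => rest {0}ᶜ (Y c)))))
  have h2 := congrFun ((hG.aff (fun Y c s => Y c (s + 1)) _ fun _ _ _ => rfl).eq_of hG
    (((le_add_of_nonneg_right q0).trans_lt h').trans_le ((Pr_mono fun _ c => c.2.1).trans_eq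
      (Pr_snd fun Y : C → ZMod T → B → F => (G fun c s => Y c (s + 1)) = G Y))))
  have h3 : ∀ (l : B → F) Y, (G fun c s f => l f * Y c s f) = (∏ f, l f) * G Y := fun l Y => by
    have a1 := h'.trans_le (((Pr_mono fun _ c => c.2.2).trans_eq (Pr_prod _)).trans (ex_le_add_Pr
      (p := fun l : B → F => ∀ Y, (G fun c s f => l f * Y c s f) = (∏ f, l f) * G Y) q0
      (fun _ => Pr_le _) fun l c => not_lt.1 fun c' => c (congrFun ((hG.aff
        (fun Y c s f => l f * Y c s f) (fun Y c s f => l f * Y c s f) fun a d u => by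
          funext c s f
          simp
          ring).eq_of (hG.cmul _) c'))))
    refine congrFun ((hG.aff (fun (l : B → F) c s f => l f * Y c s f) (fun l c s f => l f * Y c s f)
      fun a d u => ?_).eq_of (LD.mono (E := Fintype.card B) ?_ hE) ((lt_of_add_lt_add_left a1).trans_le
      (Pr_mono fun l c => c Y))) l
    · funext c s f
      simp
      ring
    · simpa using (LD.prod univ fun f _ => LD.lin (LinearMap.proj f : (B → F) →ₗ[F] F)).mul
        (LD.const 0 (G Y))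
  let em : (B → C → F) → C → ZMod T → B → F := fun y c => rest {0} fun _ f => y f c
  have h4 : ∀ (y : B → C → F) f (u : F) a, G (em (update y f (u • a))) = u * G (em (update y f a)) :=
    fun y f u a => by
    have := h3 (update 1 f u) (em (update y f a))
    rw [prod_update_of_mem (mem_univ f)] at this
    simp only [Pi.one_apply, prod_const_one, mul_one] at this
    rw [← this]
    congr 1
    funext c s g
    by_cases h : g = f <;> simp [em, rest, h]
  let P : MultilinearMap F (fun _ : B => C → F) F := .mk' (fun y => G (em y))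
    (fun y f => (hG.aff (fun a => em (update y f a)) (fun a => em (Pi.single f a)) fun a d u => by
      funext c s g
      by_cases h : g = f <;> by_cases h' : s = 0 <;> simp [em, rest, h, h']).add_of_hom hq (h4 y f))
    h4
  have h5 : ∀ (n : ZMod T) Y, (G fun c s => Y c (s + n)) = G Y := fun n Y => by
    rw [← ZMod.natCast_zmod_val n]
    induction n.val with
    | zero => simp
    | succ k ih =>
      rw [← ih, ← h2 fun c s => Y c (s + k)]
      simp only [Nat.cast_succ, add_assoc, add_comm (1 : ZMod T)]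
  refine ⟨fun i => P fun f => Pi.single (i f) 1, funext fun Y => ?_⟩
  have h6 : ∀ S, (G fun c => rest S (Y c)) = ∑ s ∈ S, P fun f c => Y c s f := fun S => by
    induction S using Finset.induction_on with
    | empty =>
      have := h1 fun c => rest ∅ (Y c)
      have e : ∀ S (c : C), rest S (rest ∅ (Y c)) = rest ∅ (Y c) := fun S c => by
        funext s f
        simp [rest]
      simp only [e] at this
      simpa using this
    | insert s S hs ih =>
      rw [sum_insert hs, ← ih, ← h5 s, h1, ← h5 s fun c => rest S (Y c)]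
      congr 2 <;> funext c s' f <;> by_cases h : s' = 0 <;> simp [rest, em, h, hs]
  have h7 := h6 univ
  rw [show (fun c => rest univ (Y c)) = Y by funext c s f; simp [rest]] at h7
  refine h7.trans (sum_congr rfl fun s _ => ?_)
  rw [show (fun f c => Y c s f) = fun f => ∑ c, Y c s f • (Pi.single c 1 : C → F) by
    funext f c; simp [Pi.single_apply], P.map_sum]
  simp only [P.map_smul_univ, smul_eq_mul]

end

abbrev Bk (ρ D : ℕ) := Fin ρ × Bool × Fin D

def kap (k : Fin 3) (b : Bool) (p : Fin 4 → B2) : Fin 7 → B2 :=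
  if b then ![![p 1, 0, 1, 0, 0, 1, 0], ![p 3, 0, 0, 0, 1, 0, 1], ![0, 0, 0, 0, 0, 0, 1]] k
  else ![![p 0, 1, 0, 0, 0, 0, 0], ![p 2, 0, 0, 1, 0, 0, 0], ![0, 0, 0, 0, 0, 1, 0]] k

/-- the quadratic constraints of a clause -/
def qf (p : Fin 4 → B2) (v : Fin 7 → B2) (k : Fin 3) : B2 :=
  (∑ r, kap k false p r * v r) * ∑ r, kap k true p r * v r

section
variable (F) (T T0 t ρ D m : ℕ)

abbrev Sy := ZMod T → Bk ρ D → F
abbrev Cst0 := ((Bk ρ D → F) × (Fin t → F)) × (Fin t → Fin ρ → (Bool × Fin 4) × (Bool → Fin T0 → B2))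
abbrev Loc0 := Sy F T ρ D × (Fin t → Fin ρ → Bool → Fin T0 → Fin D → B2)
abbrev Inf := (Fin 4 → B2) × (Fin 7 → Fin D → B2)
abbrev Om0 (C : Type) := Cst0 F T0 t ρ D × (Fin m → Loc0 F T T0 t ρ D) × (Fin t → Fin ρ → C)

variable {F T T0 t ρ D m} [NeZero T] (φ : B2 →+* F)
  (sl : ZMod T ≃ Fin t × (Fin ρ × Bool → Fin T0 ⊕ Fin 7)) (f0 : Bk ρ D)

def star (r : Fin t → F) (z : Fin t → Fin ρ → Bool → Fin T0 ⊕ Fin 7 → Fin D → B2) : Sy F T ρ D :=
  fun s f => (if f = f0 then r (sl s).1 else 1) * φ (z (sl s).1 f.1 f.2.1 ((sl s).2 (f.1, f.2.1)) f.2.2)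

theorem Gf_star (X : (Bk ρ D → Fin m) → F) (r : Fin t → F)
    (z : Fin m → Fin t → Fin ρ → Bool → Fin T0 ⊕ Fin 7 → Fin D → B2) :
    (Gf X fun c => star φ sl f0 r (z c)) = ∑ i, r i * ∑ x : Bk ρ D → Fin m,
      φ (∏ k, ∏ b, ∑ j, ∏ d, z (x (k, b, d)) i k b j d) * X x := by
  rw [Gf, ← sl.symm.sum_comp, Fintype.sum_prod_type]
  refine sum_congr rfl fun i _ => ?_
  rw [sum_comm, mul_sum]
  refine sum_congr rfl fun x _ => ?_
  rw [← Fintype.prod_prod_type', Fintype.prod_sum, map_sum, sum_mul, mul_sum]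
  refine sum_congr rfl fun j _ => ?_
  simp only [star, prod_mul_distrib, prod_ite_eq', mem_univ, if_true, Equiv.apply_symm_apply]
  simp [Fintype.prod_prod_type, mul_assoc]

def term (a : (Bool × Fin 4) × (Bool → Fin T0 → B2)) (z : Bool → Fin T0 → Fin D → B2) (n : Inf D)
    (b : Bool) : Fin T0 ⊕ Fin 7 → Fin D → B2
  | .inl j, d => (if a.1.1 ∨ a.1.2 = 0 then a.2 (a.1.1 && b) j else 0) * z (a.1.1 && b) j d
  | .inr r, d => (if a.1.1 then 0 else Fin.cases (if b ∧ r = 0 then 1 else 0)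
      (fun k => kap k b n.1 r) a.1.2) * n.2 r d

/-- the special points, coordinate by coordinate -/
def lsp (a : Cst0 F T0 t ρ D) (b : Loc0 F T T0 t ρ D) (n : Fin t → Fin ρ → Inf D) :
    Fin 6 → Sy F T ρ D :=
  spec a.1.1 b.1 (star φ sl f0 a.1.2 fun i k => term (a.2 i k) (b.2 i k) (n i k))

variable {C : Type} [Fintype C] [Nonempty C] (pol : C → Fin 4 → B2) (nv : C → Fin 7 → Ix D m)

def inf (a : C) (c : Fin m) : Inf D := (pol a, fun r d => if nv a r d = c then 1 else 0)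

def ysp (ω : Om0 F T T0 t ρ D m C) (i : Fin 6) (c : Fin m) : Sy F T ρ D :=
  lsp φ sl f0 ω.1 (ω.2.1 c) (fun i k => inf pol nv (ω.2.2 i k) c) i

def eOm : Om0 F T T0 t ρ D m C ≃ ((Bk ρ D → F) × (Fin m → Sy F T ρ D)) × (Fin t → F)
    × (Fin t → Fin ρ → Wt (Row T0 D m) C) where
  toFun ω := ((ω.1.1.1, fun c => (ω.2.1 c).1), ω.1.1.2, fun i k => ((ω.1.2 i k).1,
    fun b => ((ω.1.2 i k).2 b, fun j d c => (ω.2.1 c).2 i k b j d), ω.2.2 i k))
  invFun z := (((z.1.1, z.2.1), fun i k => ((z.2.2 i k).1, fun b => ((z.2.2 i k).2.1 b).1)),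
    fun c => (z.1.2 c, fun i k b j d => ((z.2.2 i k).2.1 b).2 j d c), fun i k => (z.2.2 i k).2.2)
  left_inv _ := rfl
  right_inv _ := rfl

def cU (a : C) (k : Fin 3) (b : Bool) (x : Ix D m) : B2 :=
  ∑ r, kap k b (pol a) r * if nv a r = x then 1 else 0

theorem cU_dot (a : C) (k : Fin 3) (x : Ix D m → B2) :
    cU pol nv a k false ⬝ᵥ x * cU pol nv a k true ⬝ᵥ x = qf (pol a) (fun r => x (nv a r)) k := by
  have : ∀ b, cU pol nv a k b ⬝ᵥ x = ∑ r, kap k b (pol a) r * x (nv a r) := fun b => by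
    simp only [dotProduct, cU, sum_mul]
    rw [sum_comm]
    simp
  rw [this, this, qf]

variable {nv} {o : Ix D m} (ho : ∀ a, nv a 0 = o)
include f0 ho

theorem Gf_ysp (X : (Bk ρ D → Fin m) → F) (ω : Om0 F T T0 t ρ D m C) :
    Gf X (ysp φ sl f0 pol nv ω 5) = ∑ i, (eOm ω).2.1 i * ∑ x : Bk ρ D → Fin m,
      φ (∏ k, ∏ b, vec row o (cU pol nv) ((eOm ω).2.2 i k) b fun d => x (k, b, d)) * X x := by
  refine (Gf_star φ sl f0 X ω.1.1.2 fun c i k => term (ω.1.2 i k) ((ω.2.1 c).2 i k)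
    (inf pol nv (ω.2.2 i k) c)).trans (sum_congr rfl fun i _ => congrArg _ (sum_congr rfl fun x _ =>
    congrArg (φ · * _) (prod_congr rfl fun k _ => prod_congr rfl fun b _ => ?_)))
  have e : ∀ s : B2, s ^ D = s := fun s => by
    rcases z2 s with rfl | rfl <;> simp [f0.2.2.pos.ne']
  have e' : ∀ y y' : Ix D m, (∏ d, if y d = y' d then 1 else 0 : B2) = if y = y' then 1 else 0 :=
    fun y y' => by simp [prod_boole, funext_iff]
  simp only [Fintype.sum_sum_type, term, prod_mul_distrib, prod_const, card_univ, Fintype.card_fin, e,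
    inf, e', vec, eOm, Equiv.coe_fn_mk]
  obtain ⟨⟨_ | _, s⟩, w⟩ := ω.1.2 i k
  · induction s using Fin.cases with
    | zero => cases b <;> simp [row, ho, Pi.single_apply, eq_comm, Fin.sum_univ_succ, Fin.succ_ne_zero]
    | succ s => simp [cU, Fin.succ_ne_zero]
  · simp [row]

theorem src_yes (ht : t * (1 / 8 : ℝ) ^ ρ ≤ 1 / 2) {x : Ix D m → B2} (h0 : x o = 1)
    (h : ∀ a k, qf (pol a) (fun r => x (nv a r)) k = 0) :
    ∃ G, LD (Fintype.card (Bk ρ D)) G ∧ G ≠ 0 ∧
      1 / 2 ≤ Pr fun ω : Om0 F T T0 t ρ D m C => cnd ω.1.1.1 fun i => G (ysp φ sl f0 pol nv ω i) := by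
  haveI : Nonempty (Bk ρ D) := ⟨f0⟩
  let X : (Bk ρ D → Fin m) → F := fun y => φ (∏ k, ∏ b, x fun d => y (k, b, d))
  refine ⟨Gf X, LD_Gf X, fun c => ?_, ?_⟩
  · have := congrFun c fun c => rest {0} fun _ f => if c = o f.2.2 then 1 else 0
    rw [Gf_rest, sum_singleton, sum_eq_single (fun f => o f.2.2) (fun y _ c => by
      obtain ⟨f, hf⟩ := ne_iff.1 c
      rw [prod_eq_zero (mem_univ f) (if_neg hf), zero_mul]) (by simp)] at this
    simp [X, h0] at this
  let A : Wt (Row T0 D m) C → Prop := fun w =>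
    vec row o (cU pol nv) w false ⬝ᵥ x * vec row o (cU pol nv) w true ⬝ᵥ x ≠ 0
  have h1 : (Pr fun w : Fin ρ → Wt (Row T0 D m) C => ∀ k, A (w k)) ≤ (1 / 8) ^ ρ := by
    simp only [Pr, ind_forall]
    rw [ex_pi fun _ w => ind (A w), prod_const, card_univ, Fintype.card_fin]
    exact pow_le_pow_left₀ (Pr_nn A) (gadget_yes row o _ (fun x => (Pr_row x).1) h0
      fun a k => (cU_dot pol nv a k x).trans (h a k)) _
  have h2 : (Pr fun w : Fin t → Fin ρ → Wt (Row T0 D m) C => ∃ i, ∀ k, A (w i k)) ≤ 1 / 2 :=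
    (Pr_le_sum (s := univ) fun w c => c.imp fun i c => ⟨mem_univ i, c⟩).trans
      ((sum_le_card_nsmul _ _ _ fun i _ => (ex_eval i fun w : Fin ρ → Wt (Row T0 D m) C =>
        ind (∀ k, A (w k))).trans_le h1).trans (by simpa using ht))
  have h3 := ((Pr_equiv (eOm (F := F) (T := T)) fun z => ∃ i, ∀ k, A (z.2.2 i k)).trans
    ((Pr_snd fun z : (Fin t → F) × (Fin t → Fin ρ → Wt (Row T0 D m) C) => ∃ i, ∀ k, A (z.2 i k)).trans
      (Pr_snd fun w : Fin t → Fin ρ → Wt (Row T0 D m) C => ∃ i, ∀ k, A (w i k)))).trans_le h2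
  refine le_trans (by rw [Pr_not]; linarith) (Pr_mono (p := fun ω => ¬ ∃ i, ∀ k,
    A ((eOm ω).2.2 i k)) fun ω c => cnd_Gf X _ _ _ ((Gf_ysp φ sl f0 pol ho X ω).trans
      (sum_eq_zero fun i _ => mul_eq_zero_of_right _ ?_)))
  obtain ⟨k, hk⟩ := not_forall.1 (not_exists.1 c i)
  simp only [X, ← map_mul, ← map_sum, ← prod_mul_distrib]
  rw [← (Equiv.curry _ _ _).symm.sum_comp]
  simp only [Equiv.curry_symm_apply, uncurry_apply_pair]
  rw [← Fintype.prod_sum fun k (y : Bool × Fin D → Fin m) => ∏ b,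
    (vec row o (cU pol nv) ((eOm ω).2.2 i k) b fun d => y (b, d)) * x fun d => y (b, d),
    prod_eq_zero (mem_univ k), map_zero]
  rw [← (Equiv.curry _ _ _).symm.sum_comp]
  simp only [Equiv.curry_symm_apply, uncurry_apply_pair]
  rw [← Fintype.prod_sum fun b (y : Ix D m) => vec row o (cU pol nv) ((eOm ω).2.2 i k) b y * x y,
    Fintype.prod_bool, mul_comm]
  exact not_not.1 hk

theorem src_no {tr : F →+ B2} (htr : tr ≠ 0) {ε : ℝ} (ε0 : 0 ≤ ε) (ε1 : ε ≤ 1 / 4)
    (hT : (1 - (1 / 2) ^ D) ^ T0 ≤ ε / 8)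
    (hq : 2 * Fintype.card (Bk ρ D) + 2 < Fintype.card F)
    (h : ∀ x : Ix D m → B2, x o = 1 → ε ≤ Pr fun a => ∃ k, qf (pol a) (fun r => x (nv a r)) k ≠ 0)
    (G : (Fin m → Sy F T ρ D) → F) (hG : LD (Fintype.card (Bk ρ D)) G) (G0 : G ≠ 0) :
    (Pr fun ω : Om0 F T T0 t ρ D m C => cnd ω.1.1.1 fun i => G (ysp φ sl f0 pol nv ω i))
      ≤ (4 * Fintype.card (Bk ρ D) + 2) / Fintype.card F + (1 - (1 / 8 + ε / 16) ^ ρ) ^ t := by
  haveI : Nonempty (Bk ρ D) := ⟨f0⟩
  have a0 : (1 / 8 + ε / 16) ^ ρ ≤ 1 := pow_le_one₀ (by positivity) (by linarith)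
  have a1 := pow_nonneg (sub_nonneg.2 a0) t
  rw [add_div]
  by_cases c : ∃ X, G = Gf X
  swap
  · refine le_trans ?_ (le_add_of_le_of_nonneg (le_add_of_le_of_nonneg
      (not_lt.1 fun c' => c (multi hG le_rfl hq c')) (by positivity)) a1)
    refine le_trans ?_ (Pr_fst (Ω' := (Fin t → F) × (Fin t → Fin ρ → Wt (Row T0 D m) C)) _).le
    exact (Pr_mono fun ω c => c.1).trans (Pr_equiv eOm _).le
  obtain ⟨X, rfl⟩ := c
  obtain ⟨y, hy⟩ : ∃ y, X y ≠ 0 := by
    by_contra c
    push Not at c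
    exact G0 (funext fun Y => by simp [Gf, c])
  obtain ⟨u, hu⟩ := tr_ne htr hy
  let e : (Fin ρ → Bool → Ix D m) ≃ (Bk ρ D → Fin m) :=
    ⟨fun y f => y f.1 f.2.1 f.2.2, fun y k b d => y (k, b, d), fun _ => rfl, fun _ => rfl⟩
  let fm : (Fin ρ → Wt (Row T0 D m) C) → F := fun w => ∑ x : Bk ρ D → Fin m,
    φ (∏ k, ∏ b, vec row o (cU pol nv) (w k) b fun d => x (k, b, d)) * X x
  have h1 : (Pr fun w => fm w = 0) ≤ 1 - (1 / 8 + ε / 16) ^ ρ := by
    have := tens (fun w (i : Bool → Ix D m) => ∏ b, vec row o (cU pol nv) w b (i b)) (by positivity)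
      (gadget_no (row (T := T0)) o (cU pol nv) ε0 ε1 (fun x => ⟨(Pr_row x).1, fun c =>
        le_trans (by linarith) ((Pr_row x).2 c)⟩) (by simpa only [cU_dot] using h)) ρ
      (fun y => tr (u * X (e y))) fun c => hu (by simpa using congrFun c (e.symm y))
    rw [Pr_not] at this
    refine (Pr_mono fun w c => ?_).trans (le_sub_comm.1 this)
    have := congrArg (fun a => tr (u * a)) c
    simp only [fm, mul_sum, map_sum, mul_zero, map_zero] at this
    rw [← this, ← e.sum_comp]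
    refine sum_congr rfl fun y _ => ?_
    exact (show ∀ (a : B2) (v : F), a * tr (u * v) = tr (u * (φ a * v)) from fun a v => by
      rcases z2 a with rfl | rfl <;> simp) _ _
  have h2 : (Pr fun z : (Fin t → F) × (Fin t → Fin ρ → Wt (Row T0 D m) C) =>
      ∑ i, z.1 i * fm (z.2 i) = 0) ≤ 2 / Fintype.card F + (1 - (1 / 8 + ε / 16) ^ ρ) ^ t := by
    rw [Pr_prod']
    refine (ex_le_add_Pr (a := 2 / Fintype.card F) (p := fun w => ∀ i, fm (w i) = 0) (by positivity)
      (fun _ => Pr_le _) fun w c => ?_).trans (add_le_add_right ?_ _)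
    · obtain ⟨i, hi⟩ := not_forall.1 c
      simpa using (LD.sum univ fun i _ => (LD.lin (LinearMap.proj i : (Fin t → F) →ₗ[F] F)).mul
        (LD.const 0 (fm (w i)))).sz fun c => hi (by
          simpa [Pi.single_apply] using congrFun c (Pi.single i 1))
    · simp only [Pr, ind_forall]
      rw [ex_pi fun _ w => ind (fm w = 0), prod_const, card_univ, Fintype.card_fin]
      exact pow_le_pow_left₀ (Pr_nn _) h1 _
  rw [← Pr_snd (Ω := (Bk ρ D → F) × (Fin m → Sy F T ρ D)), ← Pr_equiv eOm] at h2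
  rw [add_assoc]
  exact le_add_of_nonneg_of_le (by positivity) ((Pr_mono fun ω c =>
    (Gf_ysp φ sl f0 pol ho X ω).symm.trans c.2).trans h2)

end

end Pool.Agent.Lib.MP_a1e814_lc.Se
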