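import Pool.Agent.Lib.MP_a1e814_lc.Imp
import Pool.Agent.Lib.MP_a1e814_lc.E.A12
import Pool.Agent.Lib.MP_a1e814_lc.Rel

/-! Tables with levels as a system of implications. -/

set_option linter.unusedSectionVars false

namespace Pool.Agent.Lib.MP_a1e814_lc.Tab

open Finset Pool.Agent.Lib.Complexity Pool.Agent.Lib.MP_4d0379_lc Kh
open scoped BigOperators

section

variable {T J X Y : Type} [Fintype J]

/-- the pointwise order of window sums is respected by all the functionals -/
def Rel2 (t : ℕ) (A : Set X) (y : T → J → X → Y) (Φ : T → (J × Y → ℕ) → ℝ) : Prop :=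
  ∀ (τ τ' : T) (c c' : J × Y → ℕ) (μ : ℕ), (∀ k, c k ≤ 2 ^ t) → (∀ k, c' k ≤ 2 ^ t) →
    (∀ x ∈ A, GG (y τ) c x ≤ GG (y τ') c' x + μ) → Φ τ c ≤ Φ τ' c' + μ

abbrev Tb (J Y : Type) (t : ℕ) := J × Y → Fin (2 ^ t + 1)

def clip (t : ℕ) (c : J × Y → ℕ) : Tb J Y t := fun i => ⟨min (c i) (2 ^ t), by omega⟩

def unc {t : ℕ} (c : Tb J Y t) : J × Y → ℕ := fun i => c i

theorem unc_clip {t : ℕ} {c : J × Y → ℕ} (h : ∀ k, c k ≤ 2 ^ t) : unc (clip t c) = c :=
  funext fun k => min_eq_left (h k)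

theorem sum_le {t : ℕ} {c : J × Y → ℕ} (h : ∀ k, c k ≤ 2 ^ t) (e : J → Y) :
    ∑ j, c (j, e j) ≤ Fintype.card J * 2 ^ t := by
  simpa using sum_le_card_nsmul univ (fun j => c (j, e j)) (2 ^ t) fun j _ => h _

end

/-- digits -/
def dig (N k n : ℕ) : Fin k → ℕ := fun i => n / N ^ (i : ℕ) % N

def tuples (N k : ℕ) : List (Fin k → ℕ) := (List.range (N ^ k)).map (dig N k)

theorem tuples_length (N k : ℕ) : (tuples N k).length = N ^ k := by simp [tuples]

theorem sum_tuples {N : ℕ} (hN : 0 < N) (k : ℕ) (F : (Fin k → ℕ) → ℝ) :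
    ((tuples N k).map F).sum = (tuples N k).length * 𝔼 u : Fin k → Fin N, F fun i => u i := by
  have : Nonempty (Fin N) := ⟨⟨0, hN⟩⟩
  have h : (tuples N k).length = Fintype.card (Fin k → Fin N) := by simp [tuples]
  rw [h, Fintype.card_mul_expect, tuples, List.map_map, ← List.sum_toFinset _ List.nodup_range,
    List.toFinset_range, sum_range, ← finFunctionFinEquiv.symm.sum_comp]
  rfl

theorem pt_tuples {α : Type} [Enc α] {N : α → ℕ} (h : PT N) (k : ℕ) :
    PT fun a => tuples (N a) k := by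
  unfold tuples
  refine PT.map (by fun_prop) (PT.pi fun i => ?_)
  unfold dig
  fun_prop

open Classical in
/-- from the soundness of table functionals to a two terminal instance -/
theorem tgapE_tab (T Ξ J X Y : Type) [Fintype T] [Nonempty T] [Fintype Ξ] [Nonempty Ξ] [Fintype J]
    [DecidableEq J] [Nonempty J] [Fintype Y] [DecidableEq Y] {t : ℕ} (ht : 0 < t) (κ : Ξ → T) :
    ∃ g K : ℝ, 0 < g ∧ 0 ≤ K ∧ ∀ {α Nm Dt : Type} [Enc α] [Enc Nm] [DecidableEq Nm] [Enc Dt]
      [Fintype Dt] {Yes No : α → Prop} {k : ℕ} (N : α → ℕ) (nm : α → (Fin k → ℕ) → T → Nm)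
      (d : α → (Fin k → ℕ) → Dt) (A : Dt → Set X) (y : Dt → T → J → X → Y) {ε δ : ℝ},
      PT N → (∀ τ, PT fun z : α × (Fin k → ℕ) => nm z.1 z.2 τ) →
      (PT fun z : α × (Fin k → ℕ) => d z.1 z.2) → (∀ a, 0 < N a) →
      (∀ a, Yes a → ∃ ev : Nm → J → Y, (𝔼 u : Fin k → Fin (N a),
        if ∃ x ∈ A (d a fun i => u i), ∀ τ j, y (d a fun i => u i) τ j x = ev (nm a (fun i => u i) τ) j
        then (0 : ℝ) else 1) ≤ ε) →
      (∀ a, No a → ∀ Φ : Nm → (J × Y → ℕ) → ℝ, (𝔼 u : Fin k → Fin (N a),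
        if Rel2 t (A (d a fun i => u i)) (y (d a fun i => u i)) (fun τ => Φ (nm a (fun i => u i) τ))
        then 𝔼 ξ, 𝔼 w : (J × Y) × Fin t → Bool, 𝔼 w' : (J × Y) × Fin t → Bool,
          |Φ (nm a (fun i => u i) (κ ξ)) (val w) - Φ (nm a (fun i => u i) (κ ξ)) (val w')|
        else 0) ≤ δ * 2 ^ t * √(Fintype.card J)) →
      TGapE Yes No (2 * ε) (g / 8) (g * δ) K := by
  set L := Fintype.card J * 2 ^ t with hL
  have L0 : 0 < L := Nat.mul_pos Fintype.card_pos (by positivity)
  have : Nonempty (Fin L) := ⟨⟨0, L0⟩⟩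
  let Wc := (J × Y) × Fin t → Bool
  let Lc := (T × Tb J Y t) × Fin L
  let dm : WL Lc := (univ : Finset (Ξ × Wc × Wc × Fin L)).toList.map fun z =>
    (((κ z.1, clip t (val z.2.1)), z.2.2.2), ((κ z.1, clip t (val z.2.2.1)), z.2.2.2), 1)
  set c0 : ℝ := Fintype.card Ξ * (Fintype.card Wc * Fintype.card Wc) with hc0
  have c1 : 0 < c0 := by
    have := Fintype.card_pos (α := Ξ)
    have := Fintype.card_pos (α := Wc)
    positivity
  have vle : ∀ (w : Wc) i, val w i ≤ 2 ^ t := fun w i => (val_lt w i).le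
  have edm : ∀ F : Lc → Bool, (cutN dm F : ℝ) = c0 * 𝔼 ξ, 𝔼 w : Wc, 𝔼 w' : Wc,
      (#{θ : Fin L | F ((κ ξ, clip t (val w)), θ) ≠ F ((κ ξ, clip t (val w')), θ)} : ℝ) := by
    intro F
    have e3 : ∀ f : Ξ → Wc → Wc → ℝ, c0 * 𝔼 ξ, 𝔼 w, 𝔼 w', f ξ w w' = ∑ ξ, ∑ w, ∑ w', f ξ w w' := by
      intro f
      simp only [hc0, ← Fintype.card_mul_expect, ← mul_expect, mul_assoc]
    rw [e3]
    simp only [dm, cutN, List.map_map, Function.comp_def, sum_map_toList, Fintype.sum_prod_type,
      card_filter, ite_not]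
    push_cast
    rfl
  have s0 : (0 : ℝ) < √(Fintype.card J) :=
    Real.sqrt_pos.2 (by exact_mod_cast Fintype.card_pos (α := J))
  have l0 : (0 : ℝ) < Fintype.card Lc := by exact_mod_cast Fintype.card_pos (α := Lc)
  refine ⟨c0 * (2 ^ t * √(Fintype.card J)) / Fintype.card Lc ^ 2, totW dm, by positivity,
    by positivity, ?_⟩
  intro α Nm Dt _ _ _ _ _ Yes No k N nm d A y ε δ p1 p2 p3 h0 hY hN
  letI : Enc (Tb J Y t × Fin L) := encFin _
  let G : Dt → T × Tb J Y t → X → ℕ := fun e p x => GG (y e p.1) (unc p.2) x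
  let imp : Dt → Lc → Lc → Bool := fun e p q =>
    decide (∀ x, x ∈ A e → G e q.1 x + p.2.1 ≤ G e p.1 x + q.2.1)
  let nm' : α → (Fin k → ℕ) → Lc → Nm × Tb J Y t × Fin L := fun a u p => (nm a u p.1.1, p.1.2, p.2)
  have cl : ∀ a u (S : Nm × Tb J Y t × Fin L → Bool), Clean (nm' a u) (imp (d a u)) S ↔
      Rel.Clean (· ∈ A (d a u)) (G (d a u)) fun p θ => S (nm a u p.1, p.2, θ) := fun a u S =>
    ⟨fun h p q θ η e => h (p, θ) (q, η) (decide_eq_true e),
      fun h p q e => h p.1 q.1 p.2 q.2 (of_decide_eq_true e)⟩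
  have key := tgapE_imp (Yes := Yes) (No := No) (fun a => tuples (N a) k) nm'
    (fun a u => imp (d a u)) dm (pt_tuples p1 k) (fun p => (p2 p.1.1).prodMk (PT.const _))
    (fun p q => (PT.of_fintype fun e => imp e p q).comp p3) (ε := ε)
    (g := c0 * (2 ^ t * √(Fintype.card J) / 8)) (s := c0 * (δ * 2 ^ t * √(Fintype.card J)))
    (fun a h => by
      have h1 := tuples_length (N a) k
      have h2 := pow_pos (h0 a) k
      rw [h] at h1
      simp at h1
      omega)
    (fun a ha => by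
      obtain ⟨ev, he⟩ := hY a ha
      have : Nonempty (Fin (N a)) := ⟨⟨0, h0 a⟩⟩
      refine ⟨fun w => decide (w.2.2.1 < ∑ j, unc w.2.1 (j, ev w.1 j)), ?_, ?_⟩
      · rw [sum_tuples (h0 a), mul_comm]
        refine mul_le_mul_of_nonneg_right (le_trans (expect_le_expect fun u _ => ?_) he)
          (Nat.cast_nonneg _)
        split_ifs with h1 h2 h2
        · exact le_rfl
        · exact zero_le_one
        · refine absurd ((cl _ _ _).2 ?_) h1
          obtain ⟨x, hx, e⟩ := h2
          have := Rel.clean_hon (L := L) (A := (· ∈ A (d a fun i => u i))) hx (G (d a fun i => u i))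
          simpa only [G, GG, e] using this
        · exact le_rfl
      · rw [sum_tuples (h0 a), mul_comm]
        refine mul_le_mul_of_nonneg_left (le_expect univ_nonempty fun u _ => ?_) (Nat.cast_nonneg _)
        rw [edm]
        refine mul_le_mul_of_nonneg_left (le_expect univ_nonempty fun ξ _ => ?_) c1.le
        refine (yes_spread ht (ev (nm a (fun i => u i) (κ ξ)))).trans (le_of_eq ?_)
        refine expect_congr rfl fun w _ => expect_congr rfl fun w' _ => ?_
        simp only [nm', unc_clip (vle _)]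
        exact (Rel.card_ne (sum_le (vle w) _) (sum_le (vle w') _)).symm)
    (fun a ha S => by
      have : Nonempty (Fin (N a)) := ⟨⟨0, h0 a⟩⟩
      have h1 := hN a ha fun n c => (Rel.lev (fun (p : Nm × Tb J Y t) θ => S (p.1, p.2, θ))
        (n, clip t c) : ℝ)
      rw [sum_tuples (h0 a), mul_comm]
      refine mul_le_mul_of_nonneg_right (le_trans ?_ (mul_le_mul_of_nonneg_left h1 c1.le))
        (Nat.cast_nonneg _)
      rw [mul_expect]
      refine expect_le_expect fun u _ => ?_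
      by_cases h2 : Clean (nm' a fun i => u i) (imp (d a fun i => u i)) S
      · have h3 := (cl _ _ _).1 h2
        rw [if_pos h2, if_pos, edm]
        · refine le_of_eq ?_
          congr 1
          refine expect_congr rfl fun ξ _ => expect_congr rfl fun w _ =>
            expect_congr rfl fun w' _ => ?_
          exact h3.cut (κ ξ, clip t (val w)) (κ ξ, clip t (val w'))
        · intro τ τ' c c' μ hc hc' e
          have h4 := h3.rel (p := (τ, clip t c)) (q := (τ', clip t c')) (μ := μ) fun x hx => by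
            simpa only [G, unc_clip hc, unc_clip hc'] using e x hx
          exact (Nat.cast_le.2 h4).trans (le_of_eq (Nat.cast_add _ _))
      · rw [if_neg h2]
        refine mul_nonneg c1.le ?_
        split_ifs
        · exact expect_nonneg fun _ _ => expect_nonneg fun _ _ => expect_nonneg fun _ _ =>
            abs_nonneg _
        · exact le_rfl)
  convert key using 1 <;> ring

end Pool.Agent.Lib.MP_a1e814_lc.Tab
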